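import Pool.Agent.K9h96.EA.Stm3

/-!
# Project EA, fourth part (helper96, MP_81d17b_pr): the threshold `√d log d`

A better chaining: only one intermediate scale (blocks with side `2` in `K ≈ 4 log₂ D` directions)
before the cubic blocks. The number of pairs for the step `A → exT T A` is at most the number of
`A`, `exp (C (log D / D) b)`, and the distance is at most `8 (K + 1) b / D`.
-/

set_option autoImplicit false

open MeasureTheory
open scoped ENNReal symmDiff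

namespace Pool.Agent.K9h96.EA

open Pool.H47EA

/-- CHAIN3: supremum over the regions of a process with the metric `√|A ∆ A'|`, for `m` up to
`c D² / (log D)^2`. -/
def S_CHAIN3 : Prop :=
  ∃ (c : ℝ) (D₀ : ℕ), 0 < c ∧ ∀ (I : Type) [Fintype I] [DecidableEq I], D₀ ≤ Fintype.card I →
    ∀ m : ℕ, 1 ≤ m → (m : ℝ) * Real.log (Fintype.card I) ^ 2 ≤ c * (Fintype.card I : ℝ) ^ 2 →
    ∀ (Ω : Type) [MeasurableSpace Ω] (μ : Measure Ω) [IsProbabilityMeasure μ]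
      (X : Finset (I → ℤ) → Ω → ℝ) (β : ℝ), 0 < β → (∀ ω, X ∅ ω = 0) →
      (∀ (A A' : Finset (I → ℤ)) (t : ℝ), 0 < t → μ {ω | t ≤ X A ω - X A' ω} ≤
        ENNReal.ofReal (Real.exp (-(t ^ 2) / (16 * β ^ 2 * m * (A ∆ A').card)))) →
      ∀ 𝓕 : Finset (Finset (I → ℤ)), (∀ A ∈ 𝓕, Region A) →
        μ {ω | ∃ A ∈ 𝓕, β * (bd A).card / 2 ≤ X A ω} ≤ ENNReal.ofReal (1 / 16)

/-- The final theorem. -/
def Main4 : Prop :=
  ∃ C : ℝ, 0 < C ∧ ∀ (d : ℕ), 2 ≤ d → ∀ (R : Finset (Fin d)) (ε : ℝ), 0 < ε → ε ≤ 1 →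
    C * (√(d : ℝ) * Real.log d) ≤ ε * ((d : ℝ) - R.card) →
    ∀ (ν : (lat d).edgeSet → Measure Bool) [∀ e, IsProbabilityMeasure (ν e)],
    (∀ e, IsR R e → ν e = (PMF.uniformOfFintype Bool).toMeasure) →
    (∀ e, ¬ IsR R e → ν e {false} ≤ ENNReal.ofReal ((1 - ε) / 2)) →
    ∀ β : ℝ, C * Real.log d ≤ β * (ε * ((d : ℝ) - R.card)) →
    ∀ᵐ J ∂(Measure.infinitePi ν), ∃ π π' : Measure (Site d → Bool), π ≠ π' ∧
      IsGibbs β J π ∧ IsGibbs β J π'

end Pool.Agent.K9h96.EA
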