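import Pool.Agent.K9h96.EA.CHAIN2
import Pool.Agent.K9h96.EA.Stm4

/-! CHAIN3 (helper96, after helper81's CHAIN2): chaining with one additional scale. -/

set_option autoImplicit false

open MeasureTheory
open scoped ENNReal symmDiff

namespace Pool.Agent.K9h96.EA

namespace CHAIN3

open CHAIN (sum_inv_sq exp_neg_le sq_le_exp tail union ex_empty)
open CHAIN2 (step num3 Ts GoodE exists_good exT_empty sum_bi)

/-- numerics for the first step -/
theorem num5 {C : ℝ} (hC : 0 < C) {D m b K : ℕ} (hm : 1 ≤ m) (hD : 16 ≤ D) (hb : 2 * D ≤ b)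
    (hK : (K : ℝ) + 1 ≤ 8 * Real.log D)
    (hc : (C + 4) * 65536 * (m * Real.log D ^ 2) ≤ (D : ℝ) ^ 2)
    (hlog1 : 1 ≤ Real.log D) :
    Real.exp (C * Real.log D / D * b) *
      Real.exp (-((b : ℝ) * D / (8192 * ((K : ℝ) + 1) * m))) ≤
      8 / (D : ℝ) ^ 2 / (b : ℝ) ^ 2 := by
  have hD0 : (0 : ℝ) < D := by
    have : 0 < D := by omega
    exact_mod_cast this
  have hm0 : (0 : ℝ) < m := by exact_mod_cast hm
  have hb0 : (0 : ℝ) < b := by
    have : 0 < b := by omega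
    exact_mod_cast this
  have hbD : 2 * (D : ℝ) ≤ b := by exact_mod_cast hb
  set L : ℝ := Real.log D with hL
  set w : ℝ := L / D * b with hw
  have hw0 : 0 < w := by positivity
  have h1 : (C + 4) * w ≤ (b : ℝ) * D / (8192 * ((K : ℝ) + 1) * m) := by
    rw [hw, le_div_iff₀ (by positivity)]
    have h2 : (C + 4) * L * (8192 * ((K : ℝ) + 1) * m) ≤ (D : ℝ) ^ 2 := by
      calc (C + 4) * L * (8192 * ((K : ℝ) + 1) * m)
          ≤ (C + 4) * L * (8192 * (8 * L) * m) := by gcongr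
        _ = (C + 4) * 65536 * (m * L ^ 2) := by ring
        _ ≤ (D : ℝ) ^ 2 := hc
    calc (C + 4) * (L / D * b) * (8192 * ((K : ℝ) + 1) * m)
        = ((C + 4) * L * (8192 * ((K : ℝ) + 1) * m)) * b / D := by field_simp
      _ ≤ (D : ℝ) ^ 2 * b / D := by gcongr
      _ = b * D := by field_simp
  have h2 : 2 * L ≤ w := by
    rw [hw]
    calc 2 * L = L / D * (2 * D) := by field_simp
      _ ≤ L / D * b := by gcongr
  have h3 : (b : ℝ) ≤ w * D := by
    have : w * D = L * b := by rw [hw]; field_simp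
    rw [this]; nlinarith
  rw [← Real.exp_add]
  have h4 : Real.exp (C * L / D * b + -((b : ℝ) * D / (8192 * ((K : ℝ) + 1) * m))) ≤
      Real.exp (-(4 * w)) := by
    apply Real.exp_le_exp.mpr
    have : C * L / D * b = C * w := by rw [hw]; ring
    rw [this]; nlinarith
  have h5 : (b : ℝ) ^ 2 ≤ 2 * Real.exp w * (D : ℝ) ^ 2 := by
    calc (b : ℝ) ^ 2 ≤ (w * D) ^ 2 := by gcongr
      _ = w ^ 2 * (D : ℝ) ^ 2 := by ring
      _ ≤ 2 * Real.exp w * (D : ℝ) ^ 2 := by
          gcongr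
          exact sq_le_exp hw0.le
  have h6 : Real.exp (-(2 * w)) * (D : ℝ) ^ 4 ≤ 1 := by
    have h7 : (D : ℝ) ^ 4 = Real.exp (4 * L) := by
      rw [mul_comm, Real.exp_mul, hL, Real.exp_log hD0]; norm_num
    rw [h7, ← Real.exp_add, Real.exp_le_one_iff]
    linarith
  have h7 : Real.exp (-w) ≤ 1 := Real.exp_le_one_iff.mpr (by linarith)
  rw [le_div_iff₀ (by positivity), le_div_iff₀ (by positivity)]
  calc Real.exp (C * L / D * b + -((b : ℝ) * D / (8192 * ((K : ℝ) + 1) * m))) * (b : ℝ) ^ 2 *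
        (D : ℝ) ^ 2
      ≤ Real.exp (-(4 * w)) * (2 * Real.exp w * (D : ℝ) ^ 2) * (D : ℝ) ^ 2 := by
        gcongr
    _ = 2 * ((Real.exp (-(4 * w)) * Real.exp w) * (D : ℝ) ^ 4) := by ring
    _ = 2 * (Real.exp (-w) * (Real.exp (-(2 * w)) * (D : ℝ) ^ 4)) := by
        have e9 : Real.exp (-(4 * w)) * Real.exp w = Real.exp (-w) * Real.exp (-(2 * w)) := by
          rw [← Real.exp_add, ← Real.exp_add]; congr 1; ring
        rw [e9]; ring
    _ ≤ 2 * (1 * 1) := by gcongr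
    _ ≤ 8 := by norm_num

variable {I : Type} [Fintype I] [DecidableEq I]

/-- the bound for regions with a given size of the boundary -/
theorem per_b (h1 : S_F1) (h2 : S_F2) (g0 : S_G0) (g1 : S_G1)
    {C : ℝ} (hC : 0 < C)
    (h3 : ∀ (I : Type) [Fintype I] [DecidableEq I] (b l : ℕ), 2 ≤ Fintype.card I →
      1 ≤ l → 2 ^ (l * (Fintype.card I - 1)) ≤ 32 * Fintype.card I * b →
      ∀ 𝓕 : Finset (Finset (I → ℤ)), (∀ A ∈ 𝓕, Region A ∧ (bd A).card = b) →
        ((𝓕.image (cg l)).card : ℝ) ≤ Real.exp (C * 4 ^ Fintype.card I * l *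
          ((b : ℝ) / 2 ^ (l * (Fintype.card I - 1)))))
    {C₁ : ℝ} (hC₁ : 0 < C₁)
    (hL : ∀ (I : Type) [Fintype I] [DecidableEq I] (b : ℕ), 2 ≤ Fintype.card I →
      ∀ 𝓕 : Finset (Finset (I → ℤ)), (∀ A ∈ 𝓕, Region A ∧ (bd A).card = b) →
        (𝓕.card : ℝ) ≤ Real.exp (C₁ * Real.log (Fintype.card I) / Fintype.card I * b))
    {C₂ : ℝ} (hC₂ : 0 < C₂)
    (g3 : ∀ (I : Type) [Fintype I] [DecidableEq I] (b : ℕ) (T : Finset I) (v : I),
      2 ≤ Fintype.card I → v ∉ T → ∀ 𝓕 : Finset (Finset (I → ℤ)),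
      (∀ A ∈ 𝓕, Region A ∧ (bd A).card = b ∧
        Fintype.card I * (bi A v + ∑ j ∈ T, bi A j) ≤ 2 * (T.card + 1) * b) →
      ((𝓕.image (cgT T)).card : ℝ) ≤
        (b + 1) * Real.exp (C₂ * ((T.card : ℝ) + 1) ^ 2 * ((b : ℝ) / 2 ^ T.card)))
    {Ω : Type} [MeasurableSpace Ω] {μ : Measure Ω}
    {X : Finset (I → ℤ) → Ω → ℝ} {β : ℝ} (hβ : 0 < β) {m : ℕ} (hm : 1 ≤ m)
    (hX0 : ∀ ω, X ∅ ω = 0)
    (hX : ∀ (A A' : Finset (I → ℤ)) (t : ℝ), 0 < t → μ {ω | t ≤ X A ω - X A' ω} ≤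
        ENNReal.ofReal (Real.exp (-(t ^ 2) / (16 * β ^ 2 * m * (A ∆ A').card))))
    (hD : 64 ≤ Fintype.card I)
    (hlog1 : 1 ≤ Real.log (Fintype.card I))
    (hc : (C₁ + 4) * 65536 * (m * Real.log (Fintype.card I) ^ 2) ≤ (Fintype.card I : ℝ) ^ 2)
    (hmD : m ≤ Fintype.card I ^ 2)
    {K : ℕ} (hK0 : 1 ≤ K) (hKL : (K : ℝ) + 1 ≤ 8 * Real.log (Fintype.card I))
    (hKD : Fintype.card I ^ 4 ≤ 2 ^ K) (hKI : 64 * (K + 1) ≤ Fintype.card I)
    (H1 : 8 * Real.log (Fintype.card I) ^ 2 * 61440 ≤ (Fintype.card I : ℝ) ^ 2)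
    (H2 : C₂ * (64 * Real.log (Fintype.card I) ^ 2) * 122880 ≤ (Fintype.card I : ℝ) ^ 2)
    (H3 : 24 * C * 122880 * (Fintype.card I : ℝ) ^ 2 ≤ 2 ^ Fintype.card I)
    (H4 : ∀ x : ℝ, (Fintype.card I : ℝ) ≤ x →
      (x ^ 2 + 1) * x ^ 4 * Real.exp (-(x / 61440)) ≤ 1 / 128)
    (H5 : 32 * Fintype.card I * Fintype.card I ^ 4 < 2 ^ (3 * (Fintype.card I - 1)))
    (hK1 : 576 * 2 ^ 15 * C * (Fintype.card I ^ 2 : ℕ) ≤ 2 ^ Fintype.card I)
    (hK2 : (6 * 192 ^ 3 * 32 * 16 * 8 ^ 11 * ((Fintype.card I) *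
      ((Fintype.card I ^ 2 : ℕ) : ℝ) ^ 3) : ℝ) ≤ 8 ^ Fintype.card I)
    {b : ℕ} (hb : 2 * Fintype.card I ≤ b) (𝓕 : Finset (Finset (I → ℤ)))
    (hF : ∀ A ∈ 𝓕, Region A ∧ (bd A).card = b) :
    μ {ω | ∃ A ∈ 𝓕, β * b / 2 ≤ X A ω} ≤ ENNReal.ofReal (1 / 32 * (1 / (b : ℝ) ^ 2)) := by
  classical
  have hne : Nonempty I := Fintype.card_pos_iff.mp (by omega)
  set D := Fintype.card I with hDdef
  have hb1 : 1 ≤ b := by omega
  have hb0 : (0 : ℝ) < b := by exact_mod_cast hb1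
  have hm0 : (0 : ℝ) < m := by exact_mod_cast hm
  have hK00 : (0 : ℝ) < K := by exact_mod_cast hK0
  have hD0 : (0 : ℝ) < D := by
    have : 0 < D := by omega
    exact_mod_cast this
  -- the directions
  have hexE : ∀ A : Finset (I → ℤ), A ∈ 𝓕 → ∃ e : ℕ → I, GoodE A b K e := fun A hA =>
    exists_good (hF A hA).2 hb1 (by omega)
  choose! E hE using hexE
  -- the number of levels
  set k : ℕ := 32 * D * b with hk
  have hkempty : ∀ A ∈ 𝓕, ex (3 + k) A = ∅ := by
    intro A hA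
    have e1 : cg (3 + k) A = ∅ := by
      refine ex_empty h2 (hF A hA).2 ?_
      rw [← hDdef, ← hk]
      have e2 : k < 2 ^ k := Nat.lt_two_pow_self
      refine e2.trans_le (Nat.pow_le_pow_right (by norm_num) ?_)
      calc k ≤ (3 + k) * 1 := by omega
        _ ≤ (3 + k) * (D - 1) := Nat.mul_le_mul_left _ (by omega)
    unfold ex; rw [e1]; simp
  -- the first step
  have hfirst : μ {ω | ∃ A ∈ 𝓕, β * b / 8 ≤ X A ω - X (exT (Ts (E A) K) A) ω} ≤
      ENNReal.ofReal (8 / (D : ℝ) ^ 2 / (b : ℝ) ^ 2) := by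
    set S := 𝓕.image (fun A => (A, exT (Ts (E A) K) A)) with hS
    have hcard : (S.card : ℝ) ≤ Real.exp (C₁ * Real.log D / D * b) := by
      have e1 : (S.card : ℝ) ≤ 𝓕.card := by exact_mod_cast Finset.card_image_le
      exact e1.trans (hL I b (by omega) 𝓕 hF)
    have hdist : ∀ p ∈ S, ((p.1 ∆ p.2).card : ℝ) ≤ 8 * (K + 1) * b / D := by
      intro p hp
      rw [hS, Finset.mem_image] at hp
      obtain ⟨A, hA, rfl⟩ := hp
      have e1 := g0 I A (Ts (E A) K)
      have e2 := (hE A hA).sum_le (t := K) le_rfl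
      rw [le_div_iff₀ hD0]
      have e3 : (A ∆ exT (Ts (E A) K) A).card * D ≤ 8 * (K + 1) * b := by
        calc (A ∆ exT (Ts (E A) K) A).card * D
            ≤ (4 * ∑ j ∈ Ts (E A) K, bi A j) * D := Nat.mul_le_mul_right _ e1
          _ ≤ (4 * (bi A (E A K) + ∑ j ∈ Ts (E A) K, bi A j)) * D :=
              Nat.mul_le_mul_right _ (Nat.mul_le_mul_left _ (Nat.le_add_left _ _))
          _ = 4 * (D * (bi A (E A K) + ∑ j ∈ Ts (E A) K, bi A j)) := by ring
          _ ≤ 4 * (2 * (K + 1) * b) := Nat.mul_le_mul_left _ e2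
          _ = 8 * (K + 1) * b := by ring
      exact_mod_cast e3
    have hmain := union hβ hm hX S (t := β * b / 8) (K := 8 * (K + 1) * b / D)
      (N := Real.exp (C₁ * Real.log D / D * b)) (by positivity) hdist hcard
    refine (measure_mono ?_).trans (hmain.trans (ENNReal.ofReal_le_ofReal ?_))
    · intro ω hω
      obtain ⟨A, hA, h⟩ := hω
      exact ⟨(A, exT (Ts (E A) K) A), Finset.mem_image_of_mem _ hA, h⟩
    · have e1 : (β * b / 8) ^ 2 / (16 * β ^ 2 * m * (8 * (K + 1) * b / D)) =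
          (b : ℝ) * D / (8192 * ((K : ℝ) + 1) * m) := by
        field_simp
        norm_num
      rw [e1]
      exact num5 hC₁ hm (by omega) hb hKL hc hlog1
  -- the step from the additional scales to the scale 8
  have hmid : μ {ω | ∃ A ∈ 𝓕, β * b / 8 ≤ X (exT (Ts (E A) K) A) ω - X (ex 3 A) ω} ≤
      ENNReal.ofReal (1 / 128 / (b : ℝ) ^ 2) := by
    by_cases hbD : b < D ^ 4
    · have h0 : {ω | ∃ A ∈ 𝓕, β * b / 8 ≤ X (exT (Ts (E A) K) A) ω - X (ex 3 A) ω} = ∅ := by
        ext ω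
        simp only [Set.mem_empty_iff_false, iff_false]
        rintro ⟨A, hA, h⟩
        have e1 : exT (Ts (E A) K) A = ∅ := exT_empty g1 (hE A hA) hKD hKI hbD
        have e2 : cg 3 A = ∅ := by
          refine ex_empty h2 (hF A hA).2 (lt_of_le_of_lt ?_ H5)
          exact Nat.mul_le_mul_left _ hbD.le
        have e3 : ex 3 A = ∅ := by
          unfold ex; rw [e2]; simp
        rw [e1, e3, sub_self] at h
        have : 0 < β * b / 8 := by positivity
        linarith
      rw [h0]; simp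
    · have hbD' : D ^ 4 ≤ b := by omega
      set S := 𝓕.image (fun A => (exT (Ts (E A) K) A, ex 3 A)) with hS
      set N₁ : ℝ := (b + 1) * Real.exp (C₂ * ((K : ℝ) + 1) ^ 2 * ((b : ℝ) / 2 ^ K)) with hN₁
      set N₂ : ℝ := Real.exp (C * 4 ^ D * 3 * ((b : ℝ) / 2 ^ (3 * (D - 1)))) with hN₂
      have hN₁0 : 0 ≤ N₁ := by positivity
      -- the number of the sets `exT (Ts (E A) K) A`
      set P : Finset (Finset I × I) :=
        (Finset.univ : Finset I).powersetCard K ×ˢ (Finset.univ : Finset I) with hP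
      have hPcard : (P.card : ℝ) ≤ (D : ℝ) ^ (K + 1) := by
        have e1 : P.card ≤ D ^ (K + 1) := by
          rw [hP, Finset.card_product, Finset.card_powersetCard, Finset.card_univ, pow_succ]
          exact Nat.mul_le_mul_right _ (Nat.choose_le_pow _ _)
        exact_mod_cast e1
      have hsub1 : 𝓕.image (fun A => exT (Ts (E A) K) A) ⊆ P.biUnion (fun p =>
          ((𝓕.filter (fun A => Ts (E A) K = p.1 ∧ E A K = p.2)).image (cgT p.1)).image
            (fun c => c.biUnion (blockT p.1))) := by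
        intro q hq
        rw [Finset.mem_image] at hq
        obtain ⟨A, hA, rfl⟩ := hq
        rw [Finset.mem_biUnion]
        refine ⟨(Ts (E A) K, E A K), ?_, ?_⟩
        · rw [hP, Finset.mem_product, Finset.mem_powersetCard]
          exact ⟨⟨Finset.subset_univ _, (hE A hA).card le_rfl⟩, Finset.mem_univ _⟩
        · rw [Finset.mem_image]
          exact ⟨cgT (Ts (E A) K) A, Finset.mem_image_of_mem _
            (Finset.mem_filter.mpr ⟨hA, rfl, rfl⟩), rfl⟩
      have hcard1 : ((𝓕.image (fun A => exT (Ts (E A) K) A)).card : ℝ) ≤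
          (D : ℝ) ^ (K + 1) * N₁ := by
        have e1 : ((𝓕.image (fun A => exT (Ts (E A) K) A)).card : ℝ) ≤
            ∑ p ∈ P, (((𝓕.filter (fun A => Ts (E A) K = p.1 ∧ E A K = p.2)).image
              (cgT p.1)).card : ℝ) := by
          have e2 := (Finset.card_le_card hsub1).trans Finset.card_biUnion_le
          have e3 : (𝓕.image (fun A => exT (Ts (E A) K) A)).card ≤
              ∑ p ∈ P, ((𝓕.filter (fun A => Ts (E A) K = p.1 ∧ E A K = p.2)).image
                (cgT p.1)).card :=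
            e2.trans (Finset.sum_le_sum fun p _ => Finset.card_image_le)
          exact_mod_cast e3
        refine e1.trans ?_
        have e4 : ∀ p ∈ P, (((𝓕.filter (fun A => Ts (E A) K = p.1 ∧ E A K = p.2)).image
            (cgT p.1)).card : ℝ) ≤ N₁ := by
          rintro ⟨T, v⟩ hp
          rw [hP, Finset.mem_product, Finset.mem_powersetCard] at hp
          have hTc : T.card = K := hp.1.2
          by_cases hvT : v ∈ T
          · have e5 : 𝓕.filter (fun A => Ts (E A) K = T ∧ E A K = v) = ∅ := by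
              rw [Finset.filter_eq_empty_iff]
              rintro A hA ⟨h4, h5⟩
              apply (hE A hA).notMem le_rfl
              rw [h4, h5]
              exact hvT
            rw [e5]
            simpa using hN₁0
          · have e5 := g3 I b T v (by omega) hvT
              (𝓕.filter (fun A => Ts (E A) K = T ∧ E A K = v)) (by
                intro A hA
                rw [Finset.mem_filter] at hA
                obtain ⟨hA, h4, h5⟩ := hA
                refine ⟨(hF A hA).1, (hF A hA).2, ?_⟩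
                have h6 := (hE A hA).sum_le (t := K) le_rfl
                rw [h4, h5] at h6
                rw [hTc]
                exact h6)
            rw [hTc] at e5
            exact e5
        refine (Finset.sum_le_card_nsmul _ _ _ e4).trans ?_
        rw [nsmul_eq_mul]
        gcongr
      have hcard2 : ((𝓕.image (cg 3)).card : ℝ) ≤ N₂ := by
        by_cases hP2 : 2 ^ (3 * (D - 1)) ≤ 32 * D * b
        · have := h3 I b 3 (by omega) (by omega) hP2 𝓕 hF
          simpa [hN₂] using this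
        · have e1 : 𝓕.image (cg 3) ⊆ {∅} := by
            intro u hu
            rw [Finset.mem_image] at hu
            obtain ⟨A, hA, rfl⟩ := hu
            rw [Finset.mem_singleton]
            exact ex_empty h2 (hF A hA).2 (by rw [← hDdef]; omega)
          have e2 : (𝓕.image (cg 3)).card ≤ 1 := by
            simpa using Finset.card_le_card e1
          have e3 : ((𝓕.image (cg 3)).card : ℝ) ≤ 1 := by exact_mod_cast e2
          exact e3.trans (Real.one_le_exp (by positivity))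
      have hcard : (S.card : ℝ) ≤ (D : ℝ) ^ (K + 1) * N₁ * N₂ := by
        have e1 : S ⊆ (𝓕.image (fun A => exT (Ts (E A) K) A)) ×ˢ
            ((𝓕.image (cg 3)).image (fun c => c.biUnion (block 3))) := by
          intro q hq
          rw [hS, Finset.mem_image] at hq
          obtain ⟨A, hA, rfl⟩ := hq
          rw [Finset.mem_product]
          refine ⟨Finset.mem_image_of_mem _ hA, ?_⟩
          rw [Finset.mem_image]
          exact ⟨cg 3 A, Finset.mem_image_of_mem _ hA, rfl⟩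
        have e2 : S.card ≤ (𝓕.image (fun A => exT (Ts (E A) K) A)).card *
            (𝓕.image (cg 3)).card := by
          refine (Finset.card_le_card e1).trans ?_
          rw [Finset.card_product]
          exact Nat.mul_le_mul_left _ Finset.card_image_le
        calc (S.card : ℝ) ≤ ((𝓕.image (fun A => exT (Ts (E A) K) A)).card : ℝ) *
              ((𝓕.image (cg 3)).card : ℝ) := by exact_mod_cast e2
          _ ≤ ((D : ℝ) ^ (K + 1) * N₁) * N₂ := by gcongr
      have hdist : ∀ p ∈ S, ((p.1 ∆ p.2).card : ℝ) ≤ 20 * b := by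
        intro p hp
        rw [hS, Finset.mem_image] at hp
        obtain ⟨A, hA, rfl⟩ := hp
        have e1 := g0 I A (Ts (E A) K)
        have e2 := h1 I A 3
        have e3 : ∑ j ∈ Ts (E A) K, bi A j ≤ b := by
          rw [← (hF A hA).2, ← sum_bi]
          exact Finset.sum_le_sum_of_subset (Finset.subset_univ _)
        rw [(hF A hA).2] at e2
        have e4 : (exT (Ts (E A) K) A ∆ ex 3 A).card ≤
            (A ∆ exT (Ts (E A) K) A).card + (A ∆ ex 3 A).card := by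
          have e5 : exT (Ts (E A) K) A ∆ ex 3 A ⊆ (A ∆ exT (Ts (E A) K) A) ∪ (A ∆ ex 3 A) := by
            have := symmDiff_triangle (exT (Ts (E A) K) A) A (ex 3 A)
            rw [symmDiff_comm (exT (Ts (E A) K) A) A] at this
            exact this
          exact (Finset.card_le_card e5).trans (Finset.card_union_le _ _)
        have e6 : (exT (Ts (E A) K) A ∆ ex 3 A).card ≤ 20 * b := by
          norm_num at e2
          omega
        exact_mod_cast e6
      have hmain := union hβ hm hX S (t := β * b / 8) (K := 20 * b)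
        (N := (D : ℝ) ^ (K + 1) * N₁ * N₂) (by positivity) hdist hcard
      refine (measure_mono ?_).trans (hmain.trans (ENNReal.ofReal_le_ofReal ?_))
      · intro ω hω
        obtain ⟨A, hA, h⟩ := hω
        exact ⟨(exT (Ts (E A) K) A, ex 3 A), Finset.mem_image_of_mem _ hA, h⟩
      · have e1 : (β * b / 8) ^ 2 / (16 * β ^ 2 * m * (20 * b)) = (b : ℝ) / (20480 * m) := by
          field_simp
          norm_num
        rw [e1]
        exact num3 hC₂ hC hm (by omega) hbD' hKL hKD hmD hlog1 H1 H2 H3 H4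
  have hstep : ∀ l, 3 ≤ l → μ {ω | ∃ A ∈ 𝓕, β * b / 2 ^ l ≤ X (ex l A) ω - X (ex (l + 1) A) ω} ≤
      ENNReal.ofReal (1 / 16 / 2 ^ l / (b : ℝ) ^ 2) := fun l hl =>
    step h1 h2 hC h3 hβ hm hX hmD (by omega) hK1 hK2 hb1 𝓕 hF hl
  -- inclusion
  have hincl : {ω | ∃ A ∈ 𝓕, β * b / 2 ≤ X A ω} ⊆
      ({ω | ∃ A ∈ 𝓕, β * b / 8 ≤ X A ω - X (exT (Ts (E A) K) A) ω} ∪
      {ω | ∃ A ∈ 𝓕, β * b / 8 ≤ X (exT (Ts (E A) K) A) ω - X (ex 3 A) ω}) ∪
      ⋃ j ∈ Finset.range k, {ω | ∃ A ∈ 𝓕, β * b / 2 ^ (3 + j) ≤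
        X (ex (3 + j) A) ω - X (ex (3 + j + 1) A) ω} := by
    rintro ω ⟨A, hA, h⟩
    by_contra hcon
    rw [Set.mem_union, Set.mem_union, not_or, not_or] at hcon
    obtain ⟨⟨hc0, hc1⟩, hc2⟩ := hcon
    have e0 : X A ω - X (exT (Ts (E A) K) A) ω < β * b / 8 := by
      by_contra h'
      exact hc0 ⟨A, hA, not_lt.mp h'⟩
    have e1 : X (exT (Ts (E A) K) A) ω - X (ex 3 A) ω < β * b / 8 := by
      by_contra h'
      exact hc1 ⟨A, hA, not_lt.mp h'⟩
    have e2 : ∀ j < k, X (ex (3 + j) A) ω - X (ex (3 + j + 1) A) ω < β * b / 2 ^ (3 + j) := by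
      intro j hj
      by_contra h'
      apply hc2
      rw [Set.mem_iUnion₂]
      exact ⟨j, Finset.mem_range.mpr hj, A, hA, not_lt.mp h'⟩
    have e3 : X A ω - X (ex (3 + k) A) ω < β * b * (1 / 2 - 1 / (4 * 2 ^ k)) := by
      refine CHAIN.chain' (x := fun A => X A ω) ?_ k e2
      show X A ω - X (ex 3 A) ω < β * b / 4
      linarith
    rw [hkempty A hA, hX0, sub_zero] at e3
    have e4 : β * b * (1 / 2 - 1 / (4 * 2 ^ k)) ≤ β * b / 2 := by
      have : 0 ≤ β * b * (1 / (4 * 2 ^ k)) := by positivity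
      linarith
    linarith
  have hsum : μ (⋃ j ∈ Finset.range k, {ω | ∃ A ∈ 𝓕, β * b / 2 ^ (3 + j) ≤
        X (ex (3 + j) A) ω - X (ex (3 + j + 1) A) ω}) ≤
      ENNReal.ofReal (1 / 64 / (b : ℝ) ^ 2) := by
    refine (measure_biUnion_finset_le _ _).trans ?_
    calc ∑ j ∈ Finset.range k, μ {ω | ∃ A ∈ 𝓕, β * b / 2 ^ (3 + j) ≤
            X (ex (3 + j) A) ω - X (ex (3 + j + 1) A) ω}
        ≤ ∑ j ∈ Finset.range k, ENNReal.ofReal (1 / 16 / 2 ^ (3 + j) / (b : ℝ) ^ 2) :=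
          Finset.sum_le_sum fun j _ => hstep (3 + j) (by omega)
      _ = ENNReal.ofReal (∑ j ∈ Finset.range k, 1 / 16 / 2 ^ (3 + j) / (b : ℝ) ^ 2) := by
          rw [ENNReal.ofReal_sum_of_nonneg]
          intro j _
          positivity
      _ ≤ ENNReal.ofReal (1 / 64 / (b : ℝ) ^ 2) := by
          apply ENNReal.ofReal_le_ofReal
          rw [← Finset.sum_div]
          gcongr
          have e1 : ∀ k : ℕ, ∑ j ∈ Finset.range k, (1 : ℝ) / 16 / 2 ^ (3 + j) =
              1 / 64 - 1 / (64 * 2 ^ k) := by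
            intro k
            induction k with
            | zero => norm_num
            | succ k ih =>
              rw [Finset.sum_range_succ, ih, pow_add, pow_succ]
              field_simp
              ring
          rw [e1]
          have : (0 : ℝ) ≤ 1 / (64 * 2 ^ k) := by positivity
          linarith
  refine (measure_mono hincl).trans ((measure_union_le _ _).trans
    ((add_le_add ((measure_union_le _ _).trans (add_le_add hfirst hmid)) hsum).trans ?_))
  rw [← ENNReal.ofReal_add (by positivity) (by positivity),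
    ← ENNReal.ofReal_add (by positivity) (by positivity)]
  apply ENNReal.ofReal_le_ofReal
  have e1 : (64 : ℝ) ≤ D := by exact_mod_cast hD
  have e2 : 8 / (D : ℝ) ^ 2 ≤ 1 / 512 := by
    rw [div_le_div_iff₀ (by positivity) (by norm_num)]
    nlinarith
  rw [← add_div, ← add_div, mul_one_div]
  gcongr
  linarith

end CHAIN3

open CHAIN CHAIN2 CHAIN3 in
theorem t_CHAIN3 (hl : S_LM) (h1 : S_F1) (h2 : S_F2) (h3 : S_F3) (g0 : S_G0) (g1 : S_G1)
    (g3 : S_G3) : S_CHAIN3 := by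
  classical
  obtain ⟨C₁, hC₁, hL⟩ := hl
  obtain ⟨C, hC, h3⟩ := h3
  obtain ⟨C₂, hC₂, g3⟩ := g3
  -- large dimension
  have ev1 := ev_log (8 * 61440) 2
  have ev2 := ev_log (C₂ * 64 * 122880) 2
  have ev3 := ev_pow (24 * C * 122880) (by positivity) 2 2 (by norm_num)
  have ev4 := ev_exp
  have ev5 := ev_pow (32 * 8) (by norm_num) 5 8 (by norm_num)
  have ev6 := ev_pow (576 * 2 ^ 15 * C) (by positivity) 2 2 (by norm_num)
  have ev7 := ev_pow (6 * 192 ^ 3 * 32 * 16 * 8 ^ 11) (by positivity) 7 8 (by norm_num)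
  have ev8 := ev_log 512 1
  obtain ⟨D₁, hD₁⟩ := Filter.eventually_atTop.mp ((ev1.and ev2).and ((ev3.and ev4).and
    ((ev5.and ev6).and (ev7.and ev8))))
  refine ⟨1 / ((C₁ + 4) * 65536), max 64 D₁, by positivity, ?_⟩
  intro I _ _ hDI m hm hc Ω _ μ _ X β hβ hX0 hX 𝓕 hF
  have hD : 64 ≤ Fintype.card I := le_trans (le_max_left _ _) hDI
  obtain ⟨⟨k1, k2⟩, ⟨k3, k4⟩, ⟨k5, k6⟩, ⟨k7, k8⟩⟩ := hD₁ _ (le_trans (le_max_right _ _) hDI)
  set D := Fintype.card I with hDdef
  have hD' : (64 : ℝ) ≤ D := by exact_mod_cast hD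
  have hD0 : (0 : ℝ) < D := by linarith
  have hlog4 : 4 ≤ Real.log D := by
    have h64 : Real.log 64 ≤ Real.log D := Real.log_le_log (by norm_num) hD'
    have h2 : Real.log 64 = 6 * Real.log 2 := by
      rw [show (64 : ℝ) = 2 ^ 6 by norm_num, Real.log_pow]; norm_num
    have := Real.log_two_gt_d9
    linarith
  set L := Real.log D with hL'
  have hlog1 : 1 ≤ L := by linarith
  -- the number of the additional scales
  set q := Nat.clog 2 D with hq
  have hq1 : D ≤ 2 ^ q := Nat.le_pow_clog (by norm_num) D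
  have hq2 : (q : ℝ) - 1 ≤ L / Real.log 2 := by
    have h4 : 2 ^ (q - 1) < D := Nat.pow_pred_clog_lt_self (by norm_num) (by omega)
    have h5 : (2 : ℝ) ^ (q - 1) ≤ D := by exact_mod_cast h4.le
    have h6 := Real.log_le_log (by positivity) h5
    rw [Real.log_pow] at h6
    have h7 : 1 ≤ q := by
      by_contra h8
      have h9 : q = 0 := by omega
      rw [h9] at hq1
      omega
    rw [le_div_iff₀ (Real.log_pos (by norm_num))]
    rw [Nat.cast_sub h7, Nat.cast_one] at h6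
    exact h6
  have hl2 := Real.log_two_gt_d9
  have hq3 : (q : ℝ) ≤ 1.4427 * L + 1 := by
    have h4 : L / Real.log 2 ≤ 1.4427 * L := by
      rw [div_le_iff₀ (by linarith)]
      nlinarith
    linarith
  have hq0 : 1 ≤ q := by
    by_contra h8
    have h9 : q = 0 := by omega
    rw [h9] at hq1
    omega
  set K := 4 * q with hK
  have hKL : (K : ℝ) + 1 ≤ 8 * L := by
    rw [hK]; push_cast; nlinarith
  have hKD : D ^ 4 ≤ 2 ^ K := by
    rw [hK, mul_comm, pow_mul]
    exact Nat.pow_le_pow_left hq1 4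
  have hKI : 64 * (K + 1) ≤ D := by
    have h4 : (64 * ((K : ℝ) + 1)) ≤ D := by
      calc 64 * ((K : ℝ) + 1) ≤ 64 * (8 * L) := by gcongr
        _ = 512 * L ^ 1 := by ring
        _ ≤ D := k8
    exact_mod_cast h4
  have hDD : (D : ℝ) ≤ (D : ℝ) ^ 2 := by nlinarith
  have H1 : 8 * L ^ 2 * 61440 ≤ (D : ℝ) ^ 2 := by
    calc 8 * L ^ 2 * 61440 = 8 * 61440 * L ^ 2 := by ring
      _ ≤ (D : ℝ) := k1
      _ ≤ (D : ℝ) ^ 2 := hDD
  have H2 : C₂ * (64 * L ^ 2) * 122880 ≤ (D : ℝ) ^ 2 := by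
    calc C₂ * (64 * L ^ 2) * 122880 = C₂ * 64 * 122880 * L ^ 2 := by ring
      _ ≤ (D : ℝ) := k2
      _ ≤ (D : ℝ) ^ 2 := hDD
  have H5 : 32 * D * D ^ 4 < 2 ^ (3 * (D - 1)) := by
    have h4 : (8 : ℕ) ^ D = 8 * 2 ^ (3 * (D - 1)) := by
      obtain ⟨D', hD''⟩ : ∃ D', D = D' + 1 := ⟨D - 1, by omega⟩
      have h5 : D - 1 = D' := by omega
      rw [h5, hD'', pow_succ, pow_mul]
      norm_num
      ring
    have h5 : 32 * 8 * D ^ 5 < 8 ^ D := by exact_mod_cast k5
    rw [h4] at h5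
    have h6 : 32 * 8 * D ^ 5 = 8 * (32 * D * D ^ 4) := by ring
    omega
  have hc' : (C₁ + 4) * 65536 * (m * L ^ 2) ≤ (D : ℝ) ^ 2 := by
    calc (C₁ + 4) * 65536 * (m * L ^ 2)
        ≤ (C₁ + 4) * 65536 * (1 / ((C₁ + 4) * 65536) * (D : ℝ) ^ 2) := by gcongr
      _ = (D : ℝ) ^ 2 := by field_simp
  have hmD : m ≤ D ^ 2 := by
    have e1 : (m : ℝ) ≤ (D : ℝ) ^ 2 := by
      have hm0 : (0 : ℝ) < m := by exact_mod_cast hm
      have hL2 : 1 ≤ L ^ 2 := one_le_pow₀ hlog1
      have h3 : (m : ℝ) ≤ m * L ^ 2 := le_mul_of_one_le_right hm0.le hL2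
      have h4 : m * L ^ 2 ≤ (C₁ + 4) * 65536 * (m * L ^ 2) :=
        le_mul_of_one_le_left (by positivity) (by linarith)
      linarith
    exact_mod_cast e1
  have hK1 : 576 * 2 ^ 15 * C * ((D ^ 2 : ℕ) : ℝ) ≤ 2 ^ D := by
    push_cast; exact k6.le
  have hK2 : (6 * 192 ^ 3 * 32 * 16 * 8 ^ 11 * (D * ((D ^ 2 : ℕ) : ℝ) ^ 3) : ℝ) ≤ 8 ^ D := by
    calc (6 * 192 ^ 3 * 32 * 16 * 8 ^ 11 * (D * ((D ^ 2 : ℕ) : ℝ) ^ 3) : ℝ)
        = 6 * 192 ^ 3 * 32 * 16 * 8 ^ 11 * (D : ℝ) ^ 7 := by push_cast; ring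
      _ ≤ 8 ^ D := k7.le
  have hne : Nonempty I := Fintype.card_pos_iff.mp (by omega)
  have hbig : ∀ A ∈ 𝓕, 2 * Fintype.card I ≤ (bd A).card := fun A hA =>
    two_mul_card_le_bd ⟨0, (hF A hA).1⟩
  set B := 𝓕.image (fun A => (bd A).card) with hB
  have hsub : {ω | ∃ A ∈ 𝓕, β * (bd A).card / 2 ≤ X A ω} ⊆
      ⋃ b ∈ B, {ω | ∃ A ∈ 𝓕.filter (fun A => (bd A).card = b), β * b / 2 ≤ X A ω} := by
    rintro ω ⟨A, hA, h⟩
    rw [Set.mem_iUnion₂]
    exact ⟨(bd A).card, Finset.mem_image_of_mem _ hA, A, Finset.mem_filter.mpr ⟨hA, rfl⟩, h⟩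
  refine (measure_mono hsub).trans ((measure_biUnion_finset_le _ _).trans ?_)
  have hBb : ∀ b ∈ B, 2 * Fintype.card I ≤ b := by
    intro b hb
    rw [hB, Finset.mem_image] at hb
    obtain ⟨A, hA, rfl⟩ := hb
    exact hbig A hA
  calc ∑ b ∈ B, μ {ω | ∃ A ∈ 𝓕.filter (fun A => (bd A).card = b), β * b / 2 ≤ X A ω}
      ≤ ∑ b ∈ B, ENNReal.ofReal (1 / 32 * (1 / (b : ℝ) ^ 2)) := by
        apply Finset.sum_le_sum
        intro b hb
        apply CHAIN3.per_b h1 h2 g0 g1 hC h3 hC₁ hL hC₂ g3 hβ hm hX0 hX hD hlog1 hc' hmD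
          (K := K) (by omega) hKL hKD hKI H1 H2 k3.le k4 H5 hK1 hK2 (hBb b hb)
        intro A hA
        rw [Finset.mem_filter] at hA
        exact ⟨hF A hA.1, hA.2⟩
    _ = ENNReal.ofReal (∑ b ∈ B, 1 / 32 * (1 / (b : ℝ) ^ 2)) := by
        rw [ENNReal.ofReal_sum_of_nonneg]
        intro b _
        positivity
    _ ≤ ENNReal.ofReal (1 / 16) := by
        apply ENNReal.ofReal_le_ofReal
        rw [← Finset.mul_sum]
        have e1 := sum_inv_sq B (fun b hb => by have := hBb b hb; omega)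
        linarith

end Pool.Agent.K9h96.EA
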