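import Pool.Agent.K9h96.EA.Stm
import Pool.Agent.H47R2.EA.SIGN

/-! Leaf CONC of project EA (helper96, MP_81d17b_pr), by helper66: concentration for the differences
of free energies. -/

set_option autoImplicit false

open MeasureTheory
open scoped ENNReal symmDiff

namespace Pool.Agent.K9h96.EA

open Pool.H47EA

namespace Cn

/-- Hoeffding's argument on the subsets of a finite set. -/
lemma hoeff {α : Type} [DecidableEq α] (c lam : ℝ) (S : Finset α) :
    ∀ h : Finset α → ℝ, (∀ U ⊆ S, ∀ e ∈ S, e ∉ U → |h (insert e U) - h U| ≤ c) →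
    ∑ U ∈ S.powerset, Real.exp (lam * h U) ≤
      2 ^ S.card * Real.exp (lam * ((∑ U ∈ S.powerset, h U) / 2 ^ S.card) +
        lam ^ 2 * c ^ 2 * S.card / 8) := by
  induction S using Finset.induction_on with
  | empty =>
    intro h _
    simp
  | insert a S ha ih =>
    intro h hc
    have hpair : ∀ x y : ℝ, |y - x| ≤ c → Real.exp (lam * x) + Real.exp (lam * y) ≤
        2 * Real.exp (lam ^ 2 * c ^ 2 / 8) * Real.exp (lam * ((x + y) / 2)) := by
      intro x y hxy
      have h1 : Real.exp (lam * x) + Real.exp (lam * y) =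
          2 * Real.exp (lam * ((x + y) / 2)) * Real.cosh (lam * (y - x) / 2) := by
        rw [Real.cosh_eq]
        have e1 : Real.exp (lam * x) = Real.exp (lam * ((x + y) / 2)) *
            Real.exp (-(lam * (y - x) / 2)) := by
          rw [← Real.exp_add]; congr 1; ring
        have e2 : Real.exp (lam * y) = Real.exp (lam * ((x + y) / 2)) *
            Real.exp (lam * (y - x) / 2) := by
          rw [← Real.exp_add]; congr 1; ring
        rw [e1, e2]
        ring
      have h2 : Real.cosh (lam * (y - x) / 2) ≤ Real.exp (lam ^ 2 * c ^ 2 / 8) := by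
        refine (Real.cosh_le_exp_half_sq _).trans ?_
        apply Real.exp_le_exp.mpr
        have h3 : (y - x) ^ 2 ≤ c ^ 2 := by
          rw [← sq_abs (y - x)]
          exact pow_le_pow_left₀ (abs_nonneg _) hxy 2
        have h4 : lam ^ 2 * (y - x) ^ 2 ≤ lam ^ 2 * c ^ 2 :=
          mul_le_mul_of_nonneg_left h3 (sq_nonneg _)
        nlinarith
      rw [h1]
      have h5 : 0 < Real.exp (lam * ((x + y) / 2)) := Real.exp_pos _
      nlinarith [mul_le_mul_of_nonneg_left h2 h5.le]
    let h' : Finset α → ℝ := fun U => (h U + h (insert a U)) / 2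
    have hc' : ∀ U ⊆ S, ∀ e ∈ S, e ∉ U → |h' (insert e U) - h' U| ≤ c := by
      intro U hU e he heU
      have hea : e ≠ a := fun hh => ha (hh ▸ he)
      have haU : a ∉ U := fun hh => ha (hU hh)
      have e1 := hc U (hU.trans (Finset.subset_insert _ _)) e (Finset.mem_insert_of_mem he) heU
      have e2 := hc (insert a U) (Finset.insert_subset_insert _ hU) e (Finset.mem_insert_of_mem he)
        (by rw [Finset.mem_insert]; push Not; exact ⟨hea, heU⟩)
      rw [Finset.insert_comm] at e2
      have e3 : h' (insert e U) - h' U = ((h (insert e U) - h U) +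
          (h (insert a (insert e U)) - h (insert a U))) / 2 := by
        simp only [h']
        ring
      rw [e3, abs_div, abs_of_pos (by norm_num : (0 : ℝ) < 2), div_le_iff₀ (by norm_num)]
      exact (abs_add_le _ _).trans (by linarith)
    have ih' := ih h' hc'
    have hsum : ∑ U ∈ (insert a S).powerset, h U = 2 * ∑ U ∈ S.powerset, h' U := by
      rw [Finset.sum_powerset_insert ha, ← Finset.sum_add_distrib, Finset.mul_sum]
      refine Finset.sum_congr rfl fun U _ => ?_
      simp only [h']
      ring
    rw [Finset.sum_powerset_insert ha, ← Finset.sum_add_distrib, hsum,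
      Finset.card_insert_of_notMem ha]
    calc ∑ U ∈ S.powerset, (Real.exp (lam * h U) + Real.exp (lam * h (insert a U))) ≤
        ∑ U ∈ S.powerset, 2 * Real.exp (lam ^ 2 * c ^ 2 / 8) * Real.exp (lam * h' U) := by
          apply Finset.sum_le_sum
          intro U hU
          rw [Finset.mem_powerset] at hU
          exact hpair _ _ (hc U (hU.trans (Finset.subset_insert _ _)) a
            (Finset.mem_insert_self _ _) (fun hh => ha (hU hh)))
      _ = 2 * Real.exp (lam ^ 2 * c ^ 2 / 8) * ∑ U ∈ S.powerset, Real.exp (lam * h' U) := by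
          rw [Finset.mul_sum]
      _ ≤ 2 * Real.exp (lam ^ 2 * c ^ 2 / 8) * (2 ^ S.card *
          Real.exp (lam * ((∑ U ∈ S.powerset, h' U) / 2 ^ S.card) +
            lam ^ 2 * c ^ 2 * S.card / 8)) := by gcongr
      _ = 2 ^ (S.card + 1) * Real.exp (lam * (2 * ∑ U ∈ S.powerset, h' U) / 2 ^ (S.card + 1) +
            lam ^ 2 * c ^ 2 * (S.card + 1) / 8) := by
          have e1 : lam * (2 * ∑ U ∈ S.powerset, h' U) / 2 ^ (S.card + 1) +
              lam ^ 2 * c ^ 2 * (S.card + 1) / 8 = lam ^ 2 * c ^ 2 / 8 +
              (lam * ((∑ U ∈ S.powerset, h' U) / 2 ^ S.card) +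
                lam ^ 2 * c ^ 2 * S.card / 8) := by
            rw [pow_succ]
            field_simp
            ring
          have e2 := Real.exp_add (lam ^ 2 * c ^ 2 / 8)
            (lam * ((∑ U ∈ S.powerset, h' U) / 2 ^ S.card) + lam ^ 2 * c ^ 2 * S.card / 8)
          rw [e1, e2, pow_succ]
          ring
      _ = _ := by
          push_cast
          congr 2
          ring

/-- the count of the exceedances -/
lemma count {α : Type} [DecidableEq α] (c t : ℝ) (hc0 : 0 < c) (ht : 0 < t) (S : Finset α)
    (hS : S.Nonempty) (h : Finset α → ℝ)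
    (hc : ∀ U ⊆ S, ∀ e ∈ S, e ∉ U → |h (insert e U) - h U| ≤ c)
    (hm : ∑ U ∈ S.powerset, h U = 0) :
    ((S.powerset.filter (fun U => t ≤ h U)).card : ℝ) ≤
      2 ^ S.card * Real.exp (-(2 * t ^ 2 / (c ^ 2 * S.card))) := by
  have hcard : (0 : ℝ) < S.card := by exact_mod_cast Finset.card_pos.mpr hS
  set lam : ℝ := 4 * t / (c ^ 2 * S.card) with hlam
  have hlam0 : 0 < lam := by positivity
  have h1 := hoeff c lam S h hc
  rw [hm, zero_div, mul_zero, zero_add] at h1
  have h2 : ((S.powerset.filter (fun U => t ≤ h U)).card : ℝ) * Real.exp (lam * t) ≤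
      ∑ U ∈ S.powerset, Real.exp (lam * h U) := by
    calc ((S.powerset.filter (fun U => t ≤ h U)).card : ℝ) * Real.exp (lam * t) =
        ∑ _U ∈ S.powerset.filter (fun U => t ≤ h U), Real.exp (lam * t) := by
          rw [Finset.sum_const, nsmul_eq_mul]
      _ ≤ ∑ U ∈ S.powerset.filter (fun U => t ≤ h U), Real.exp (lam * h U) := by
          apply Finset.sum_le_sum
          intro U hU
          have h3 := (Finset.mem_filter.mp hU).2
          apply Real.exp_le_exp.mpr
          exact mul_le_mul_of_nonneg_left h3 hlam0.le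
      _ ≤ _ := Finset.sum_le_sum_of_subset_of_nonneg (Finset.filter_subset _ _)
          fun _ _ _ => (Real.exp_pos _).le
  have h3 : ((S.powerset.filter (fun U => t ≤ h U)).card : ℝ) ≤
      2 ^ S.card * Real.exp (lam ^ 2 * c ^ 2 * S.card / 8) * Real.exp (-(lam * t)) := by
    rw [Real.exp_neg, ← div_eq_mul_inv, le_div_iff₀ (Real.exp_pos _)]
    exact h2.trans h1
  refine h3.trans (le_of_eq ?_)
  rw [mul_assoc, ← Real.exp_add]
  congr 2
  rw [hlam]
  field_simp
  ring

variable {d : ℕ}

lemma sg_abs (b : Bool) : |sg b| = 1 := by cases b <;> simp [sg]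

lemma Jc_abs (J : Coupling d) (x y : Site d) : |Jc J x y| ≤ 1 := by
  unfold Jc
  split_ifs
  · rw [sg_abs]
  · simp

lemma bond_abs (J : Coupling d) (σ : Site d → Bool) (e : Sym2 (Site d)) : |bond J σ e| ≤ 1 := by
  induction e using Sym2.ind with
  | _ x y =>
    show |Jc J x y * sg (σ x) * sg (σ y)| ≤ 1
    rw [abs_mul, abs_mul, sg_abs, sg_abs, mul_one, mul_one]
    exact Jc_abs J x y

lemma bond_congr (J J' : Coupling d) (e₀ : (lat d).edgeSet) (hJ : ∀ e, e ≠ e₀ → J e = J' e)
    (σ : Site d → Bool) (e : Sym2 (Site d)) (he : e ≠ e₀.1) : bond J σ e = bond J' σ e := by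
  induction e using Sym2.ind with
  | _ x y =>
    show Jc J x y * sg (σ x) * sg (σ y) = Jc J' x y * sg (σ x) * sg (σ y)
    have : Jc J x y = Jc J' x y := by
      unfold Jc
      split_ifs with h
      · rw [hJ ⟨s(x, y), h⟩]
        intro h1
        exact he (congrArg Subtype.val h1)
      · rfl
    rw [this]

open Classical in
lemma ham_change (J J' : Coupling d) (e₀ : (lat d).edgeSet) (hJ : ∀ e, e ≠ e₀ → J e = J' e)
    (Λ : Finset (Site d)) (σ : Site d → Bool) : ham J Λ σ ≤ ham J' Λ σ + 2 := by
  unfold ham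
  have h1 : ∑ e ∈ edgesOf Λ, bond J σ e - ∑ e ∈ edgesOf Λ, bond J' σ e ≤
      ∑ e ∈ edgesOf Λ, (if e = e₀.1 then (2 : ℝ) else 0) := by
    rw [← Finset.sum_sub_distrib]
    apply Finset.sum_le_sum
    intro e _
    split_ifs with h
    · have h2 := (abs_le.mp (bond_abs J σ e)).2
      have h3 := (abs_le.mp (bond_abs J' σ e)).1
      linarith
    · rw [bond_congr J J' e₀ hJ σ e h, sub_self]
  have h2 : ∑ e ∈ edgesOf Λ, (if e = e₀.1 then (2 : ℝ) else 0) ≤ 2 := by
    rw [Finset.sum_ite_eq' (edgesOf Λ) e₀.1 (fun _ => (2 : ℝ))]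
    split_ifs <;> norm_num
  linarith

lemma Zp_pos (β : ℝ) (J : Coupling d) (Λ : Finset (Site d)) (ω : Site d → Bool) :
    0 < Zp β J Λ ω := by
  unfold Zp
  exact Finset.sum_pos (fun _ _ => Real.exp_pos _) Finset.univ_nonempty

lemma FF_change' (β : ℝ) (hβ : 0 ≤ β) (n : ℕ) (J J' : Coupling d) (e₀ : (lat d).edgeSet)
    (hJ : ∀ e, e ≠ e₀ → J e = J' e) : FF β n J ≤ FF β n J' + 2 * β := by
  unfold FF
  have h1 : Zp β J (box d n) (fun _ => true) ≤
      Zp β J' (box d n) (fun _ => true) * Real.exp (2 * β) := by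
    unfold Zp
    rw [Finset.sum_mul]
    apply Finset.sum_le_sum
    intro η _
    rw [← Real.exp_add]
    apply Real.exp_le_exp.mpr
    have := ham_change J J' e₀ hJ (box d n) (glue (box d n) η (fun _ => true))
    nlinarith [mul_le_mul_of_nonneg_left this hβ]
  have h2 := Real.log_le_log (Zp_pos β J (box d n) (fun _ => true)) h1
  rw [Real.log_mul (Zp_pos _ _ _ _).ne' (Real.exp_pos _).ne', Real.log_exp] at h2
  exact h2

lemma FF_change (β : ℝ) (hβ : 0 ≤ β) (n : ℕ) (J J' : Coupling d) (e₀ : (lat d).edgeSet)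
    (hJ : ∀ e, e ≠ e₀ → J e = J' e) : |FF β n J - FF β n J'| ≤ 2 * β := by
  rw [abs_le]
  have h1 := FF_change' β hβ n J J' e₀ hJ
  have h2 := FF_change' β hβ n J' J e₀ (fun e he => (hJ e he).symm)
  constructor <;> linarith

lemma meas_Jc (x y : Site d) : Measurable fun J : Coupling d => Jc J x y := by
  unfold Jc
  by_cases h : (lat d).Adj x y
  · simp only [h, dif_pos]
    exact (measurable_of_finite sg).comp (measurable_pi_apply _)
  · simp only [h, dif_neg, not_false_eq_true]
    exact measurable_const

lemma meas_bond (σ : Site d → Bool) (e : Sym2 (Site d)) :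
    Measurable fun J : Coupling d => bond J σ e := by
  induction e using Sym2.ind with
  | _ x y =>
    show Measurable fun J : Coupling d => Jc J x y * sg (σ x) * sg (σ y)
    exact ((meas_Jc x y).mul_const _).mul_const _

lemma meas_FF (β : ℝ) (n : ℕ) : Measurable fun J : Coupling d => FF β n J := by
  unfold FF Zp ham
  refine Real.measurable_log.comp (Finset.measurable_sum _ fun η _ => ?_)
  refine Real.measurable_exp.comp ((Finset.measurable_sum _ fun e _ => meas_bond _ e).const_mul β)

open Classical in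
lemma tog_apply (T : Set (lat d).edgeSet) (J : Coupling d) (e : (lat d).edgeSet) :
    tog T J e = xor (decide (e ∈ T)) (J e) := by
  unfold tog
  split_ifs with h
  · rw [decide_eq_true h, Bool.true_xor]
  · rw [decide_eq_false h, Bool.false_xor]

lemma tog_tog (T U : Set (lat d).edgeSet) (J : Coupling d) : tog T (tog U J) = tog (T ∆ U) J := by
  classical
  funext e
  unfold tog
  rw [Set.mem_symmDiff]
  by_cases h1 : e ∈ T <;> by_cases h2 : e ∈ U <;> simp [h1, h2]

lemma meas_tog (T : Set (lat d).edgeSet) : Measurable (tog T : Coupling d → Coupling d) := by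
  classical
  refine measurable_pi_lambda _ fun e => ?_
  unfold tog
  by_cases h : e ∈ T
  · simp only [h, if_true]
    exact (measurable_of_finite (fun b : Bool => !b)).comp (measurable_pi_apply _)
  · simp only [h, if_false]
    exact measurable_pi_apply _

lemma map_tog (ν : (lat d).edgeSet → Measure Bool) [∀ e, IsProbabilityMeasure (ν e)]
    (U : Set (lat d).edgeSet)
    (hU : ∀ e ∈ U, ν e = (PMF.uniformOfFintype Bool).toMeasure) :
    (Measure.infinitePi ν).map (tog U) = Measure.infinitePi ν := by
  classical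
  have h := Measure.infinitePi_map_pi (μ := ν)
    (f := fun e => if e ∈ U then (fun b : Bool => !b) else id) (fun e => measurable_of_finite _)
  have e1 : (fun (J : Coupling d) (e : (lat d).edgeSet) =>
      (if e ∈ U then (fun b : Bool => !b) else id) (J e)) = tog U := by
    funext J e
    unfold tog
    split_ifs <;> rfl
  have e2 : (fun e : (lat d).edgeSet => Measure.map
      (if e ∈ U then (fun b : Bool => !b) else id) (ν e)) = ν := by
    funext e
    split_ifs with h1
    · rw [hU e h1]
      exact SIGN.map_not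
    · exact Measure.map_id
  have h2 : Measure.infinitePi (fun e : (lat d).edgeSet => Measure.map
      (if e ∈ U then (fun b : Bool => !b) else id) (ν e)) = Measure.infinitePi ν := by
    congr 1
  rw [← e1]
  exact h.trans h2

open Classical in
/-- the edges which are reversed are few -/
lemma finS (R : Finset (Fin d)) (A A' : Finset (Dir R → ℤ)) :
    ∃ S : Finset (lat d).edgeSet, (S : Set (lat d).edgeSet) = TT R A ∆ TT R A' ∧
      S.card ≤ 2 * R.card * (A ∆ A').card := by
  let g : ((Dir R → ℤ) × Fin d) × Bool → Sym2 (Site d) := fun q =>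
    if q.2 then s(emb R q.1.1, emb R q.1.1 + Pi.single q.1.2 1)
    else s(emb R q.1.1 - Pi.single q.1.2 1, emb R q.1.1)
  let F : Finset (Sym2 (Site d)) := (((A ∆ A') ×ˢ R) ×ˢ (Finset.univ : Finset Bool)).image g
  have hF : F.card ≤ 2 * R.card * (A ∆ A').card := by
    refine Finset.card_image_le.trans ?_
    rw [Finset.card_product, Finset.card_product, Finset.card_univ, Fintype.card_bool]
    exact le_of_eq (by ring)
  have hsub : ∀ e ∈ TT R A ∆ TT R A', e.1 ∈ F := by
    intro e he
    have h1 : IsR R e ∧ ∃ x ∈ A ∆ A', emb R x ∈ e.1 := by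
      rw [Set.mem_symmDiff] at he
      rcases he with ⟨⟨hR, x, hx, hxe⟩, h2⟩ | ⟨⟨hR, x, hx, hxe⟩, h2⟩
      · refine ⟨hR, x, ?_, hxe⟩
        rw [Finset.mem_symmDiff]
        exact Or.inl ⟨hx, fun h3 => h2 ⟨hR, x, h3, hxe⟩⟩
      · refine ⟨hR, x, ?_, hxe⟩
        rw [Finset.mem_symmDiff]
        exact Or.inr ⟨hx, fun h3 => h2 ⟨hR, x, h3, hxe⟩⟩
    obtain ⟨⟨y, i, hi, hy⟩, x, hx, hxe⟩ := h1
    rw [hy, Sym2.mem_iff] at hxe
    rcases hxe with h | h
    · refine Finset.mem_image.mpr ⟨((x, i), true), ?_, ?_⟩
      · exact Finset.mem_product.mpr ⟨Finset.mem_product.mpr ⟨hx, hi⟩, Finset.mem_univ _⟩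
      · simp only [g, if_true]
        rw [hy, h]
    · refine Finset.mem_image.mpr ⟨((x, i), false), ?_, ?_⟩
      · exact Finset.mem_product.mpr ⟨Finset.mem_product.mpr ⟨hx, hi⟩, Finset.mem_univ _⟩
      · simp only [g]
        rw [hy, h]
        simp
  have hfin : (TT R A ∆ TT R A').Finite := by
    apply Set.Finite.of_finite_image (f := Subtype.val) _ Subtype.val_injective.injOn
    apply F.finite_toSet.subset
    rintro _ ⟨e, he, rfl⟩
    exact hsub e he
  refine ⟨hfin.toFinset, hfin.coe_toFinset, ?_⟩
  have h1 : hfin.toFinset.card ≤ F.card := by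
    refine Finset.card_le_card_of_injOn (fun e => e.1) ?_ Subtype.val_injective.injOn
    intro e he
    rw [Set.Finite.coe_toFinset] at he
    exact hsub e he
  exact h1.trans hF

end Cn

open Classical in
theorem t_CONC : S_CONC := by
  intro d R ν _ hν β hβ n A A' t ht
  obtain ⟨S, hS, hScard⟩ := Cn.finS R A A'
  set T := TT R A with hT
  set T' := TT R A' with hT'
  set μ := Measure.infinitePi ν with hμ
  set X : Coupling d → ℝ := fun J => FF β n (tog T J) - FF β n (tog T' J) with hX
  rcases S.eq_empty_or_nonempty with hS0 | hSne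
  · have h1 : T = T' := by
      rw [hS0, Finset.coe_empty] at hS
      exact symmDiff_eq_bot.mp hS.symm
    have h2 : {J : Coupling d | t ≤ FF β n (tog T J) - FF β n (tog T' J)} = ∅ := by
      rw [Set.eq_empty_iff_forall_notMem]
      intro J hJ
      rw [Set.mem_ofPred_eq, h1, sub_self] at hJ
      linarith
    rw [h2, measure_empty]
    exact bot_le
  have hE : MeasurableSet {J : Coupling d | t ≤ X J} :=
    measurableSet_le measurable_const (((Cn.meas_FF β n).comp (Cn.meas_tog T)).sub
      ((Cn.meas_FF β n).comp (Cn.meas_tog T')))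
  have hIsR : ∀ e ∈ S, IsR R e := by
    intro e he
    have h1 : e ∈ T ∆ T' := by rw [← hS]; exact he
    rw [Set.mem_symmDiff] at h1
    rcases h1 with h1 | h1
    · exact h1.1.1
    · exact h1.1.1
  -- the pointwise count
  have hcount : ∀ J : Coupling d,
      ((S.powerset.filter (fun U : Finset (lat d).edgeSet => t ≤ X (tog (U : Set (lat d).edgeSet) J))).card : ℝ) ≤
      2 ^ S.card * Real.exp (-(2 * t ^ 2 / ((4 * β) ^ 2 * S.card))) := by
    intro J
    refine Cn.count (4 * β) t (by positivity) ht S hSne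
      (fun U => X (tog (U : Set (lat d).edgeSet) J)) ?_ ?_
    · intro U hU e he heU
      have hdiff : ∀ V : Set (lat d).edgeSet, ∀ e', e' ≠ e →
          tog V (tog ((insert e U : Finset (lat d).edgeSet) : Set (lat d).edgeSet) J) e' =
          tog V (tog (U : Set (lat d).edgeSet) J) e' := by
        intro V e' he'
        have h3 : tog ((insert e U : Finset (lat d).edgeSet) : Set (lat d).edgeSet) J e' =
            tog (U : Set (lat d).edgeSet) J e' := by
          unfold tog
          have : e' ∈ ((insert e U : Finset (lat d).edgeSet) : Set (lat d).edgeSet) ↔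
              e' ∈ (U : Set (lat d).edgeSet) := by
            rw [Finset.mem_coe, Finset.mem_coe, Finset.mem_insert]
            exact ⟨fun h => h.resolve_left he', Or.inr⟩
          by_cases h4 : e' ∈ (U : Set (lat d).edgeSet)
          · rw [if_pos h4, if_pos (this.mpr h4)]
          · rw [if_neg h4, if_neg (fun h => h4 (this.mp h))]
        unfold tog at h3 ⊢
        rw [h3]
      have h1 := Cn.FF_change β hβ.le n _ _ e (hdiff T)
      have h2 := Cn.FF_change β hβ.le n _ _ e (hdiff T')
      simp only [hX]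
      have h3 : ∀ a b c e : ℝ, |a - b| ≤ 2 * β → |c - e| ≤ 2 * β → |(a - c) - (b - e)| ≤ 4 * β := by
        intro a b c e h4 h5
        rw [abs_le] at h4 h5 ⊢
        constructor <;> linarith [h4.1, h4.2, h5.1, h5.2]
      exact h3 _ _ _ _ h1 h2
    · have hanti : ∀ U ∈ S.powerset, X (tog ((S \ U : Finset (lat d).edgeSet) :
          Set (lat d).edgeSet) J) = - X (tog (U : Set (lat d).edgeSet) J) := by
        intro U hU
        rw [Finset.mem_powerset] at hU
        have h1 : ((S \ U : Finset (lat d).edgeSet) : Set (lat d).edgeSet) =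
            (S : Set (lat d).edgeSet) ∆ (U : Set (lat d).edgeSet) := by
          ext e
          rw [Set.mem_symmDiff, Finset.mem_coe, Finset.mem_coe, Finset.mem_coe, Finset.mem_sdiff]
          constructor
          · exact fun h => Or.inl h
          · rintro (h | h)
            · exact h
            · exact absurd (hU h.1) h.2
        simp only [hX]
        rw [h1, ← Cn.tog_tog, Cn.tog_tog T, Cn.tog_tog T', hS]
        have h2 : T ∆ (T ∆ T') = T' := symmDiff_symmDiff_cancel_left T T'
        have h3 : T' ∆ (T ∆ T') = T := by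
          rw [symmDiff_comm T T', symmDiff_symmDiff_cancel_left]
        rw [h2, h3]
        ring
      have h1 : ∑ U ∈ S.powerset, X (tog (U : Set (lat d).edgeSet) J) =
          ∑ U ∈ S.powerset, X (tog ((S \ U : Finset (lat d).edgeSet) :
            Set (lat d).edgeSet) J) := by
        refine Finset.sum_nbij' (fun U => S \ U) (fun U => S \ U) ?_ ?_ ?_ ?_ ?_
        · intro U _
          exact Finset.mem_powerset.mpr Finset.sdiff_subset
        · intro U _
          exact Finset.mem_powerset.mpr Finset.sdiff_subset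
        · intro U hU
          exact Finset.sdiff_sdiff_eq_self (Finset.mem_powerset.mp hU)
        · intro U hU
          exact Finset.sdiff_sdiff_eq_self (Finset.mem_powerset.mp hU)
        · intro U hU
          rw [Finset.sdiff_sdiff_eq_self (Finset.mem_powerset.mp hU)]
      rw [Finset.sum_congr rfl hanti, Finset.sum_neg_distrib] at h1
      linarith
  set b : ℝ := Real.exp (-(2 * t ^ 2 / ((4 * β) ^ 2 * S.card))) with hb
  -- averaging
  have hinv : ∀ U ∈ S.powerset, μ {J | t ≤ X (tog (U : Set (lat d).edgeSet) J)} =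
      μ {J | t ≤ X J} := by
    intro U hU
    rw [Finset.mem_powerset] at hU
    have h1 := Cn.map_tog ν (U : Set (lat d).edgeSet) (fun e he => hν e (hIsR e (hU he)))
    have h2 : μ {J | t ≤ X J} = (μ.map (tog (U : Set (lat d).edgeSet))) {J | t ≤ X J} := by
      rw [h1]
    rw [h2, Measure.map_apply (Cn.meas_tog _) hE]
    rfl
  have hsum : (2 : ℝ≥0∞) ^ S.card * μ {J | t ≤ X J} ≤
      ENNReal.ofReal (2 ^ S.card * b) := by
    calc (2 : ℝ≥0∞) ^ S.card * μ {J | t ≤ X J} =
        ∑ U ∈ S.powerset, μ {J | t ≤ X (tog (U : Set (lat d).edgeSet) J)} := by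
          rw [Finset.sum_congr rfl hinv, Finset.sum_const, Finset.card_powerset, nsmul_eq_mul]
          push_cast
          rfl
      _ = ∑ U ∈ S.powerset, ∫⁻ J, Set.indicator
          {J | t ≤ X (tog (U : Set (lat d).edgeSet) J)} 1 J ∂μ := by
          refine Finset.sum_congr rfl fun U _ => ?_
          rw [lintegral_indicator_one]
          exact (Cn.meas_tog _) hE
      _ = ∫⁻ J, ∑ U ∈ S.powerset, Set.indicator
          {J | t ≤ X (tog (U : Set (lat d).edgeSet) J)} 1 J ∂μ := by
          rw [lintegral_finsetSum]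
          intro U _
          exact measurable_one.indicator ((Cn.meas_tog _) hE)
      _ ≤ ∫⁻ _J, ENNReal.ofReal (2 ^ S.card * b) ∂μ := by
          apply lintegral_mono
          intro J
          have h1 : ∑ U ∈ S.powerset, Set.indicator
              {J | t ≤ X (tog (U : Set (lat d).edgeSet) J)} (1 : Coupling d → ℝ≥0∞) J =
              ((S.powerset.filter (fun U : Finset (lat d).edgeSet => t ≤ X (tog (U : Set (lat d).edgeSet) J))).card :
                ℝ≥0∞) := by
            rw [Finset.card_filter, Nat.cast_sum]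
            refine Finset.sum_congr rfl fun U _ => ?_
            by_cases h2 : t ≤ X (tog (U : Set (lat d).edgeSet) J)
            · rw [if_pos h2, Set.indicator_of_mem (show J ∈ {J | t ≤ X (tog (U :
                Set (lat d).edgeSet) J)} from h2)]
              simp
            · rw [if_neg h2, Set.indicator_of_notMem (show J ∉ {J | t ≤ X (tog (U :
                Set (lat d).edgeSet) J)} from h2)]
              simp
          dsimp only
          rw [h1, ← ENNReal.ofReal_natCast]
          exact ENNReal.ofReal_le_ofReal (hcount J)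
      _ = _ := by
          rw [lintegral_const, measure_univ, mul_one]
  have hb0 : 0 ≤ b := (Real.exp_pos _).le
  have hmain : μ {J | t ≤ X J} ≤ ENNReal.ofReal b := by
    rw [ENNReal.ofReal_mul (by positivity)] at hsum
    have h2 : ENNReal.ofReal (2 ^ S.card) = (2 : ℝ≥0∞) ^ S.card := by
      rw [ENNReal.ofReal_pow (by norm_num)]
      norm_num
    rw [h2] at hsum
    have h3 : (2 : ℝ≥0∞) ^ S.card ≠ 0 := by positivity
    have h4 : (2 : ℝ≥0∞) ^ S.card ≠ ⊤ := ENNReal.pow_ne_top (by norm_num)
    exact (ENNReal.mul_le_mul_iff_right h3 h4).mp hsum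
  refine hmain.trans (ENNReal.ofReal_le_ofReal ?_)
  rw [hb]
  apply Real.exp_le_exp.mpr
  have hScard' : (S.card : ℝ) ≤ 2 * R.card * (A ∆ A').card := by exact_mod_cast hScard
  have hSpos : (0 : ℝ) < S.card := by exact_mod_cast Finset.card_pos.mpr hSne
  rw [neg_div, neg_le_neg_iff]
  rw [div_le_div_iff₀ (by nlinarith [sq_nonneg β, mul_pos hβ hβ]) (by positivity)]
  have h5 : t ^ 2 * ((4 * β) ^ 2 * S.card) = 16 * (t ^ 2 * β ^ 2) * S.card := by ring
  have h6 : 2 * t ^ 2 * (16 * β ^ 2 * R.card * (A ∆ A').card) =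
      16 * (t ^ 2 * β ^ 2) * (2 * R.card * (A ∆ A').card) := by ring
  rw [h5, h6]
  exact mul_le_mul_of_nonneg_left hScard' (by positivity)

end Pool.Agent.K9h96.EA
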