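import Pool.Agent.K9h96.EA.Base
import Pool.Agent.H47R2.EA.BASIC

/-! Leaf EN: the energy estimate (helper63). -/

set_option autoImplicit false

namespace Pool.Agent.K9h96.EA

open Pool.H47EA Pool.H47EA.Basic

namespace En

variable {d : ℕ} {R : Finset (Fin d)}

/-- the unit vector in `ℤ^d` -/
abbrev ev (i : Fin d) : Site d := Pi.single i 1

theorem ev_same (i : Fin d) : ev i i = 1 := Pi.single_eq_same _ _

theorem ev_ne {i j : Fin d} (h : j ≠ i) : ev i j = 0 := Pi.single_eq_of_ne h _

theorem step_of_dist {x y : Site d} (h : dist1 x y = 1) : ∃ i, y = x + ev i ∨ x = y + ev i := by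
  have h0 : dist1 x y ≠ 0 := by omega
  obtain ⟨i, -, hi⟩ := Finset.exists_ne_zero_of_sum_ne_zero h0
  have h1 := Finset.add_sum_erase (Finset.univ : Finset (Fin d)) (fun i => (x i - y i).natAbs)
    (Finset.mem_univ i)
  have h2 : ∑ i : Fin d, (x i - y i).natAbs = 1 := h
  rw [h2] at h1
  have h3 : ∑ j ∈ Finset.univ.erase i, (x j - y j).natAbs = 0 := by
    have : (x i - y i).natAbs ≠ 0 := hi
    omega
  have h4 : (x i - y i).natAbs = 1 := by
    omega
  have h5 : ∀ j, j ≠ i → x j = y j := by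
    intro j hj
    have := (Finset.sum_eq_zero_iff.mp h3) j (Finset.mem_erase.mpr ⟨hj, Finset.mem_univ j⟩)
    omega
  refine ⟨i, ?_⟩
  rcases Int.natAbs_eq (x i - y i) with h6 | h6
  · right
    funext j
    by_cases hj : j = i
    · subst hj
      rw [h4] at h6
      rw [Pi.add_apply, ev_same]
      push_cast at h6
      linarith
    · rw [Pi.add_apply, ev_ne hj, add_zero, h5 j hj]
  · left
    funext j
    by_cases hj : j = i
    · subst hj
      rw [h4] at h6
      rw [Pi.add_apply, ev_same]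
      push_cast at h6
      linarith
    · rw [Pi.add_apply, ev_ne hj, add_zero, h5 j hj]

theorem adj_ev (x : Site d) (i : Fin d) : (lat d).Adj x (x + ev i) := by
  show dist1 x (x + ev i) = 1
  unfold dist1
  rw [Finset.sum_eq_single i]
  · simp
  · intro j _ hj
    simp [Pi.single_eq_of_ne hj]
  · simp

theorem ev_inj {i j : Fin d} (h : ev i = ev j) : i = j := by
  by_contra hij
  have := congrFun h i
  rw [ev_same, ev_ne hij] at this
  exact one_ne_zero this

theorem ev_add_ne (x y : Site d) (i j : Fin d) : ¬ (x = y + ev j ∧ x + ev i = y) := by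
  rintro ⟨h1, h2⟩
  have h3 := congrFun h1 i
  have h4 := congrFun h2 i
  rw [Pi.add_apply] at h3 h4
  rw [ev_same] at h4
  by_cases hij : i = j
  · subst hij
    rw [ev_same] at h3
    omega
  · rw [ev_ne hij] at h3
    omega

/-- restriction of the coordinates -/
def rs' (R : Finset (Fin d)) (x : Site d) : Dir R → ℤ := fun j => x j

/-- the layer -/
def Lay (R : Finset (Fin d)) (x : Site d) : Prop := ∀ i ∈ R, x i = 0

theorem emb_of_mem (x : Dir R → ℤ) {i : Fin d} (hi : i ∈ R) : emb R x i = 0 := by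
  unfold emb; rw [dif_pos hi]

theorem emb_of_not_mem (x : Dir R → ℤ) {i : Fin d} (hi : i ∉ R) : emb R x i = x ⟨i, hi⟩ := by
  unfold emb; rw [dif_neg hi]

theorem rs_emb (x : Dir R → ℤ) : rs' R (emb R x) = x := by
  funext j
  unfold rs'
  rw [emb_of_not_mem x j.2]

theorem lay_emb (x : Dir R → ℤ) : Lay R (emb R x) := fun _ hi => emb_of_mem x hi

theorem emb_rs {x : Site d} (hx : Lay R x) : emb R (rs' R x) = x := by
  funext i
  by_cases hi : i ∈ R
  · rw [emb_of_mem _ hi, hx i hi]
  · rw [emb_of_not_mem _ hi]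
    rfl

theorem emb_add (x : Dir R → ℤ) (j : Dir R) : emb R (x + uv j) = emb R x + ev j.1 := by
  funext i
  rw [Pi.add_apply]
  by_cases hi : i ∈ R
  · rw [emb_of_mem _ hi, emb_of_mem _ hi]
    have : i ≠ j.1 := fun h => j.2 (h ▸ hi)
    rw [ev_ne this, add_zero]
  · rw [emb_of_not_mem _ hi, emb_of_not_mem _ hi, Pi.add_apply]
    congr 1
    unfold uv
    by_cases hij : i = j.1
    · subst hij
      simp
    · rw [ev_ne hij, Pi.single_eq_of_ne]
      intro h
      exact hij (congrArg Subtype.val h)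

theorem emb_inj {x y : Dir R → ℤ} (h : emb R x = emb R y) : x = y := by
  rw [← rs_emb x, h, rs_emb]

theorem rs_add {x : Site d} {i : Fin d} (hi : i ∉ R) :
    rs' R (x + ev i) = rs' R x + uv ⟨i, hi⟩ := by
  funext j
  unfold rs' uv
  rw [Pi.add_apply, Pi.add_apply]
  congr 1
  by_cases hij : j.1 = i
  · have : j = ⟨i, hi⟩ := Subtype.ext hij
    subst this
    simp
  · rw [ev_ne hij, Pi.single_eq_of_ne]
    intro h
    exact hij (congrArg Subtype.val h)

theorem lay_add {x : Site d} {i : Fin d} (hi : i ∉ R) : Lay R (x + ev i) ↔ Lay R x := by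
  unfold Lay
  refine forall₂_congr fun k hk => ?_
  have : k ≠ i := fun h => hi (h ▸ hk)
  rw [Pi.add_apply, ev_ne this, add_zero]

/-- in the copy of `A` -/
def InA (R : Finset (Fin d)) (A : Finset (Dir R → ℤ)) (x : Site d) : Prop :=
  Lay R x ∧ rs' R x ∈ A

theorem inA_emb {A : Finset (Dir R → ℤ)} (x : Dir R → ℤ) : InA R A (emb R x) ↔ x ∈ A := by
  unfold InA
  rw [rs_emb]
  exact and_iff_right (lay_emb x)

theorem inA_iff {A : Finset (Dir R → ℤ)} {x : Site d} : InA R A x ↔ ∃ z ∈ A, emb R z = x := by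
  constructor
  · rintro ⟨h1, h2⟩
    exact ⟨_, h2, emb_rs h1⟩
  · rintro ⟨z, hz, rfl⟩
    exact (inA_emb z).mpr hz

/-- the edges of the contour -/
noncomputable def ECt (R : Finset (Fin d)) (A : Finset (Dir R → ℤ)) : Finset (Sym2 (Site d)) :=
  (bd A).image fun p => s(emb R p.1, emb R (p.1 + uv p.2))

theorem mem_ECt {A : Finset (Dir R → ℤ)} {x : Site d} {i : Fin d} :
    s(x, x + ev i) ∈ ECt R A ↔ ∃ hi : i ∉ R, Lay R x ∧ (rs' R x, ⟨i, hi⟩) ∈ bd A := by
  unfold ECt
  rw [Finset.mem_image]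
  constructor
  · rintro ⟨p, hp, h⟩
    rw [Sym2.eq_iff, emb_add] at h
    rcases h with ⟨h1, h2⟩ | ⟨h1, h2⟩
    · rw [← h1] at h2
      have h3 : p.2.1 = i := ev_inj (add_left_cancel h2)
      have hi : i ∉ R := h3 ▸ p.2.2
      refine ⟨hi, h1 ▸ lay_emb p.1, ?_⟩
      have h4 : rs' R x = p.1 := by rw [← h1, rs_emb]
      have h5 : (⟨i, hi⟩ : Dir R) = p.2 := Subtype.ext h3.symm
      rw [h4, h5]
      exact hp
    · exact absurd ⟨h1, h2⟩ (ev_add_ne _ _ _ _)
  · rintro ⟨hi, h1, h2⟩
    refine ⟨_, h2, ?_⟩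
    simp only
    rw [emb_add, emb_rs h1]

theorem ECt_inj {A : Finset (Dir R → ℤ)} : Set.InjOn
    (fun p : (Dir R → ℤ) × Dir R => s(emb R p.1, emb R (p.1 + uv p.2))) (bd A) := by
  intro p _ q _ h
  simp only [emb_add, Sym2.eq_iff] at h
  rcases h with ⟨h1, h2⟩ | ⟨h1, h2⟩
  · rw [h1] at h2
    have h3 : p.2.1 = q.2.1 := ev_inj (add_left_cancel h2)
    exact Prod.ext (emb_inj h1) (Subtype.ext h3)
  · exact absurd ⟨h1, h2⟩ (ev_add_ne _ _ _ _)

theorem isR_iff {x : Site d} {i : Fin d} (h : s(x, x + ev i) ∈ (lat d).edgeSet) :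
    IsR R ⟨s(x, x + ev i), h⟩ ↔ i ∈ R := by
  unfold IsR
  constructor
  · rintro ⟨z, j, hj, h1⟩
    rw [Sym2.eq_iff] at h1
    rcases h1 with ⟨h1, h2⟩ | ⟨h1, h2⟩
    · rw [← h1] at h2
      have : i = j := ev_inj (add_left_cancel h2)
      rw [this]; exact hj
    · exact absurd ⟨h1, h2⟩ (ev_add_ne _ _ _ _)
  · intro hi
    exact ⟨x, i, hi, rfl⟩

theorem mem_TT {A : Finset (Dir R → ℤ)} {x : Site d} {i : Fin d}
    (h : s(x, x + ev i) ∈ (lat d).edgeSet) :
    (⟨s(x, x + ev i), h⟩ : (lat d).edgeSet) ∈ TT R A ↔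
      i ∈ R ∧ (InA R A x ∨ InA R A (x + ev i)) := by
  show (IsR R ⟨s(x, x + ev i), h⟩ ∧ ∃ z ∈ A, emb R z ∈ s(x, x + ev i)) ↔ _
  rw [isR_iff, inA_iff, inA_iff]
  refine and_congr_right fun _ => ?_
  constructor
  · rintro ⟨z, hz, h1⟩
    rw [Sym2.mem_iff] at h1
    rcases h1 with h1 | h1
    · exact Or.inl ⟨z, hz, h1⟩
    · exact Or.inr ⟨z, hz, h1⟩
  · rintro (⟨z, hz, h1⟩ | ⟨z, hz, h1⟩)
    · exact ⟨z, hz, by rw [Sym2.mem_iff]; exact Or.inl h1⟩
    · exact ⟨z, hz, by rw [Sym2.mem_iff]; exact Or.inr h1⟩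

theorem sg_not (b : Bool) : sg (!b) = -sg b := by cases b <;> simp [sg]

theorem Jc_tog (T : Set (lat d).edgeSet) (J : Coupling d) (x : Site d) (i : Fin d)
    (h : s(x, x + ev i) ∈ (lat d).edgeSet) :
    (⟨s(x, x + ev i), h⟩ ∈ T → Jc (tog T J) x (x + ev i) = -Jc J x (x + ev i)) ∧
    (⟨s(x, x + ev i), h⟩ ∉ T → Jc (tog T J) x (x + ev i) = Jc J x (x + ev i)) := by
  have ha := adj_ev x i
  unfold Jc tog
  rw [dif_pos ha, dif_pos ha]
  constructor
  · intro h1
    rw [if_pos h1, sg_not]
  · intro h1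
    rw [if_neg h1]

open Classical in
/-- reversal of the spins in the copy of `A` -/
noncomputable def flp (R : Finset (Fin d)) (A : Finset (Dir R → ℤ)) (σ : Site d → Bool) :
    Site d → Bool := fun x => if InA R A x then !(σ x) else σ x

/-- the configuration has the contour `A` -/
def HasC (R : Finset (Fin d)) (A : Finset (Dir R → ℤ)) (σ : Site d → Bool) : Prop :=
  ∀ x ∈ A, ∀ y, y ∉ A → nn x y → σ (emb R x) = false ∧ σ (emb R y) = true

open Classical in
theorem bond_flp {A : Finset (Dir R → ℤ)} {σ : Site d → Bool} (hσ : HasC R A σ) (J : Coupling d)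
    (x : Site d) (i : Fin d) :
    bond (tog (TT R A) J) (flp R A σ) s(x, x + ev i) = bond J σ s(x, x + ev i) +
      if s(x, x + ev i) ∈ ECt R A then 2 * bond J (fun _ => true) s(x, x + ev i) else 0 := by
  have he : s(x, x + ev i) ∈ (lat d).edgeSet := adj_ev x i
  have hJt := Jc_tog (TT R A) J x i he
  have hmem := mem_TT (R := R) (A := A) he
  rw [bond_mk, bond_mk, bond_mk]
  have hst : sg true = 1 := by simp [sg]
  have hsf : sg false = -1 := by simp [sg]
  by_cases hi : i ∈ R
  · -- an edge leaving the layer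
    have hnot : s(x, x + ev i) ∉ ECt R A := by
      rw [mem_ECt]
      rintro ⟨h, -⟩
      exact h hi
    rw [if_neg hnot, add_zero]
    by_cases h1 : InA R A x
    · have h2 : ¬ InA R A (x + ev i) := by
        rintro ⟨h2, -⟩
        have h3 := h2 i hi
        have h4 := h1.1 i hi
        rw [Pi.add_apply, ev_same, h4] at h3
        omega
      rw [hJt.1 (hmem.mpr ⟨hi, Or.inl h1⟩)]
      unfold flp
      rw [if_pos h1, if_neg h2, sg_not]
      ring
    · by_cases h2 : InA R A (x + ev i)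
      · rw [hJt.1 (hmem.mpr ⟨hi, Or.inr h2⟩)]
        unfold flp
        rw [if_neg h1, if_pos h2, sg_not]
        ring
      · rw [hJt.2 (fun h => by
          rcases (hmem.mp h).2 with h | h
          · exact h1 h
          · exact h2 h)]
        unfold flp
        rw [if_neg h1, if_neg h2]
  · rw [hJt.2 (fun h => hi (hmem.mp h).1)]
    by_cases hL : Lay R x
    · have hL' : Lay R (x + ev i) := (lay_add hi).mpr hL
      have e1 : InA R A x ↔ rs' R x ∈ A := and_iff_right hL
      have e2 : InA R A (x + ev i) ↔ rs' R x + uv ⟨i, hi⟩ ∈ A := by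
        unfold InA
        rw [and_iff_right hL', rs_add hi]
      have e3 : s(x, x + ev i) ∈ ECt R A ↔ ¬ (rs' R x ∈ A ↔ rs' R x + uv ⟨i, hi⟩ ∈ A) := by
        rw [mem_ECt]
        constructor
        · rintro ⟨_, _, h⟩
          exact mem_bd.mp h
        · intro h
          exact ⟨hi, hL, mem_bd.mpr h⟩
      have e4 : emb R (rs' R x) = x := emb_rs hL
      have e5 : emb R (rs' R x + uv ⟨i, hi⟩) = x + ev i := by rw [emb_add, e4]
      have hnn : nn (rs' R x) (rs' R x + uv ⟨i, hi⟩) := ⟨_, Or.inl rfl⟩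
      have hnn' : nn (rs' R x + uv ⟨i, hi⟩) (rs' R x) := ⟨_, Or.inr rfl⟩
      unfold flp
      by_cases h1 : rs' R x ∈ A
      · by_cases h2 : rs' R x + uv ⟨i, hi⟩ ∈ A
        · rw [if_pos (e1.mpr h1), if_pos (e2.mpr h2), if_neg (fun h => (e3.mp h) (iff_of_true h1 h2)),
            sg_not, sg_not]
          ring
        · have h3 := hσ _ h1 _ h2 hnn
          rw [e4, e5] at h3
          rw [if_pos (e1.mpr h1), if_neg (fun h => h2 (e2.mp h)),
            if_pos (e3.mpr (fun h => h2 (h.mp h1))), h3.1, h3.2, sg_not, hst, hsf]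
          ring
      · by_cases h2 : rs' R x + uv ⟨i, hi⟩ ∈ A
        · have h3 := hσ _ h2 _ h1 hnn'
          rw [e4, e5] at h3
          rw [if_neg (fun h => h1 (e1.mp h)), if_pos (e2.mpr h2),
            if_pos (e3.mpr (fun h => h1 (h.mpr h2))), h3.1, h3.2, sg_not, hst, hsf]
          ring
        · rw [if_neg (fun h => h1 (e1.mp h)), if_neg (fun h => h2 (e2.mp h)),
            if_neg (fun h => (e3.mp h) (iff_of_false h1 h2)), add_zero]
    · have hL' : ¬ Lay R (x + ev i) := fun h => hL ((lay_add hi).mp h)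
      have hnot : s(x, x + ev i) ∉ ECt R A := by
        rw [mem_ECt]
        rintro ⟨_, h, -⟩
        exact hL h
      unfold flp
      rw [if_neg hnot, if_neg (fun h => hL h.1), if_neg (fun h => hL' h.1), add_zero]

theorem ECt_sub {A : Finset (Dir R → ℤ)} {Λ : Finset (Site d)} (hA : ∀ x ∈ A, emb R x ∈ Λ) :
    ECt R A ⊆ edgesOf Λ := by
  intro e he
  unfold ECt at he
  rw [Finset.mem_image] at he
  obtain ⟨p, hp, rfl⟩ := he
  rw [mem_edgesOf]
  have hadj : dist1 (emb R p.1) (emb R (p.1 + uv p.2)) = 1 := by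
    rw [emb_add]
    exact adj_ev _ _
  rw [mem_bd] at hp
  by_cases h1 : p.1 ∈ A
  · exact ⟨_, hA _ h1, _, hadj, rfl⟩
  · have h2 : p.1 + uv p.2 ∈ A := by
      by_contra h2
      exact hp (iff_of_false h1 h2)
    exact ⟨_, hA _ h2, _, by rw [dist1_comm]; exact hadj, Sym2.eq_swap⟩

theorem ham_flp {A : Finset (Dir R → ℤ)} {σ : Site d → Bool} (hσ : HasC R A σ) (J : Coupling d)
    {Λ : Finset (Site d)} (hA : ∀ x ∈ A, emb R x ∈ Λ) :
    ham (tog (TT R A) J) Λ (flp R A σ) = ham J Λ σ + 2 * nrg R A J := by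
  classical
  unfold ham
  have h1 : ∀ e ∈ edgesOf Λ, bond (tog (TT R A) J) (flp R A σ) e = bond J σ e +
      if e ∈ ECt R A then 2 * bond J (fun _ => true) e else 0 := by
    intro e he
    obtain ⟨x, -, y, hxy, rfl⟩ := mem_edgesOf.mp he
    obtain ⟨i, h | h⟩ := step_of_dist hxy
    · rw [h]
      exact bond_flp hσ J x i
    · rw [h, Sym2.eq_swap]
      exact bond_flp hσ J y i
  rw [Finset.sum_congr rfl h1, Finset.sum_add_distrib]
  congr 1
  rw [← Finset.sum_filter, Finset.filter_mem_eq_inter, Finset.inter_eq_right.mpr (ECt_sub hA)]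
  unfold ECt
  rw [Finset.sum_image ECt_inj, ← Finset.mul_sum]
  unfold nrg
  congr 1
  refine Finset.sum_congr rfl fun p _ => ?_
  rw [bond_mk]
  have hst : sg true = 1 := by simp [sg]
  rw [hst]
  ring

end En

open En in
theorem t_EN (hfill : S_FILL) : S_EN := by
  classical
  intro d R hR β hβ n J
  set Λ := box d n with hΛ
  have hZ : 0 < Zp β J Λ (fun _ => true) := Zp_pos _ _ _ _
  have hmemΛ : ∀ x : Site d, x ∈ Λ ↔ ∀ i, |x i| ≤ n := by
    intro x
    rw [hΛ]
    unfold box
    rw [Finset.mem_Icc]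
    constructor
    · intro h i
      exact abs_le.mpr ⟨h.1 i, h.2 i⟩
    · intro h
      exact ⟨fun i => (abs_le.mp (h i)).1, fun i => (abs_le.mp (h i)).2⟩
  have hembΛ : ∀ x : Dir R → ℤ, (∀ j, |x j| ≤ n) → emb R x ∈ Λ := by
    intro x hx
    rw [hmemΛ]
    intro i
    by_cases hi : i ∈ R
    · rw [emb_of_mem _ hi]; simp
    · rw [emb_of_not_mem _ hi]; exact hx _
  -- the pointwise bound
  have hpt : ∀ η : Λ → Bool, (if glue Λ η (fun _ => true) 0 then (0 : ℝ) else 1) ≤
      ∑ A ∈ regs (Dir R) n, if HasC R A (glue Λ η (fun _ => true)) then (1 : ℝ) else 0 := by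
    intro η
    set σ := glue Λ η (fun _ => true) with hσ
    by_cases h0 : σ 0 = true
    · rw [if_pos h0]
      exact Finset.sum_nonneg fun _ _ => by split_ifs <;> norm_num
    · rw [if_neg h0]
      have hemb0 : emb R (0 : Dir R → ℤ) = 0 := by
        funext i
        by_cases hi : i ∈ R
        · rw [emb_of_mem _ hi]; rfl
        · rw [emb_of_not_mem _ hi]; rfl
      obtain ⟨A, hA, hAn, hAσ⟩ := hfill (Dir R) hR n {x | σ (emb R x) = false} (by
        intro x hx j
        have hx' : σ (emb R x) = false := hx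
        by_contra hcon
        have : emb R x ∉ Λ := by
          intro h
          have := (hmemΛ _).mp h j.1
          rw [emb_of_not_mem _ j.2] at this
          exact hcon this
        rw [hσ, glue_not_mem _ _ this] at hx'
        exact absurd hx' (by simp)) (by
        show σ (emb R 0) = false
        rw [hemb0]
        simpa using h0)
      have hmem : A ∈ regs (Dir R) n := by
        unfold regs
        rw [Finset.mem_filter, Finset.mem_powerset]
        refine ⟨fun x hx => ?_, hA⟩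
        rw [Finset.mem_Icc]
        exact ⟨fun i => (abs_le.mp (hAn x hx i)).1, fun i => (abs_le.mp (hAn x hx i)).2⟩
      have hhas : HasC R A σ := by
        intro x hx y hy hxy
        have h1 := hAσ x hx y hy hxy
        refine ⟨h1.1, ?_⟩
        have h2 : ¬ (σ (emb R y) = false) := h1.2
        simpa using h2
      calc (1 : ℝ) = if HasC R A σ then (1 : ℝ) else 0 := by rw [if_pos hhas]
        _ ≤ _ := Finset.single_le_sum (f := fun A => if HasC R A σ then (1 : ℝ) else 0)
            (fun _ _ => by split_ifs <;> norm_num) hmem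
  -- the bound for one contour
  have hone : ∀ A ∈ regs (Dir R) n, ∑ η : Λ → Bool, Real.exp (β * ham J Λ (glue Λ η (fun _ => true))) *
      (if HasC R A (glue Λ η (fun _ => true)) then (1 : ℝ) else 0) ≤
      Real.exp (-(2 * β * nrg R A J)) * Zp β (tog (TT R A) J) Λ (fun _ => true) := by
    intro A hA
    have hAΛ : ∀ x ∈ A, emb R x ∈ Λ := by
      intro x hx
      unfold regs at hA
      rw [Finset.mem_filter, Finset.mem_powerset] at hA
      have := Finset.mem_Icc.mp (hA.1 hx)
      exact hembΛ x fun j => abs_le.mpr ⟨this.1 j, this.2 j⟩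
    -- the involution of the configurations
    let φ : (Λ → Bool) → (Λ → Bool) := fun η x => if InA R A x then !(η x) else η x
    have hφφ : ∀ η, φ (φ η) = η := by
      intro η
      funext x
      show (if InA R A x then !(if InA R A x then !(η x) else η x) else
        (if InA R A x then !(η x) else η x)) = η x
      by_cases h : InA R A x
      · simp [h]
      · simp [h]
    have hglue : ∀ η, glue Λ (φ η) (fun _ => true) = flp R A (glue Λ η (fun _ => true)) := by
      intro η
      funext x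
      unfold flp
      by_cases hx : x ∈ Λ
      · rw [glue_mem _ _ hx, glue_mem _ _ hx]
      · rw [glue_not_mem _ _ hx, glue_not_mem _ _ hx]
        have : ¬ InA R A x := by
          intro h
          obtain ⟨z, hz, rfl⟩ := inA_iff.mp h
          exact hx (hAΛ z hz)
        rw [if_neg this]
    unfold Zp
    rw [Finset.mul_sum, ← Equiv.sum_comp (Function.Involutive.toPerm φ hφφ)
      (fun η => Real.exp (-(2 * β * nrg R A J)) *
        Real.exp (β * ham (tog (TT R A) J) Λ (glue Λ η (fun _ => true))))]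
    refine Finset.sum_le_sum fun η _ => ?_
    show _ ≤ Real.exp (-(2 * β * nrg R A J)) *
        Real.exp (β * ham (tog (TT R A) J) Λ (glue Λ (φ η) (fun _ => true)))
    by_cases h : HasC R A (glue Λ η (fun _ => true))
    · rw [if_pos h, mul_one, hglue, ham_flp h J hAΛ, ← Real.exp_add]
      apply le_of_eq
      congr 1
      ring
    · rw [if_neg h, mul_zero]
      positivity
  have hFF : ∀ A, Real.exp (-(2 * β * nrg R A J) + (FF β n (tog (TT R A) J) - FF β n J)) =
      Real.exp (-(2 * β * nrg R A J)) * Zp β (tog (TT R A) J) Λ (fun _ => true) /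
        Zp β J Λ (fun _ => true) := by
    intro A
    unfold FF
    rw [Real.exp_add, Real.exp_sub, Real.exp_log (Zp_pos _ _ _ _), Real.exp_log (Zp_pos _ _ _ _),
      mul_div_assoc]
  rw [Finset.sum_congr rfl fun A _ => hFF A, ← Finset.sum_div]
  unfold gE
  apply div_le_div_of_nonneg_right _ hZ.le
  refine le_trans ?_ (Finset.sum_le_sum hone)
  rw [Finset.sum_comm]
  refine Finset.sum_le_sum fun η _ => ?_
  rw [← Finset.mul_sum]
  exact mul_le_mul_of_nonneg_left (hpt η) (Real.exp_pos _).le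

end Pool.Agent.K9h96.EA
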