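import Pool.Agent.K9h96.EA.Base
import Pool.Agent.K9h1.EB.Geo2

/-!
# Coarse graining: closeness and boundary (leaf F12, by helper90 for helper96)

The isoperimetric inequality in boxes and the counting lemmas are those of
`Pool/Agent/K9h1/EB/Poin.lean`, `Geo2.lean` (helper66).
-/

set_option autoImplicit false
set_option linter.all false

open scoped symmDiff

namespace Pool.Agent.K9h96.EA

namespace FF12

open Pool.Agent.K9h1

variable {I : Type} [Fintype I] [DecidableEq I]

lemma bd_eq (A : Finset (I → ℤ)) : bd A = EB.bd A := by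
  ext e
  rw [mem_bd, EB.mem_bd]
  rfl

lemma blk_eq (l : ℕ) (x : I → ℤ) : blk l x = EB.blk (2 ^ l) x := by
  funext c
  show x c / 2 ^ l = x c / ((2 ^ l : ℕ) : ℤ)
  push_cast
  rfl

lemma block_eq (l : ℕ) (u : I → ℤ) : block l u = EB.cube (2 ^ l) u := by
  unfold block EB.cube
  push_cast
  rfl

lemma filt_eq (l : ℕ) (A : Finset (I → ℤ)) (u : I → ℤ) :
    (A.filter fun x => blk l x = u) = A ∩ EB.cube (2 ^ l) u := by
  ext x
  rw [Finset.mem_filter, Finset.mem_inter, EB.G2.mem_cube _ Nat.one_le_two_pow, blk_eq]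

lemma mem_cg (l : ℕ) (A : Finset (I → ℤ)) (u : I → ℤ) :
    u ∈ cg l A ↔ (2 ^ l) ^ Fintype.card I < 2 * (A ∩ EB.cube (2 ^ l) u).card := by
  unfold cg
  rw [Finset.mem_filter, filt_eq, pow_mul, and_iff_right_iff_imp]
  intro h
  have h2 : 0 < (A ∩ EB.cube (2 ^ l) u).card := by omega
  obtain ⟨x, hx⟩ := Finset.card_pos.mp h2
  rw [Finset.mem_inter, EB.G2.mem_cube _ Nat.one_le_two_pow] at hx
  exact Finset.mem_image.mpr ⟨x, hx.1, by rw [blk_eq]; exact hx.2⟩

/-- many edges at a coarse boundary face -/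
lemma face (l : ℕ) (hI : 1 ≤ Fintype.card I) (A : Finset (I → ℤ)) (q : I → ℤ) (i : I)
    (h : (q, i) ∈ bd (cg l A)) :
    (2 ^ l) ^ (Fintype.card I - 1) ≤ 8 * EB.G2.inn A (EB.G2.two (2 ^ l) q i) := by
  set n : ℕ := 2 ^ l with hn2
  have hn : 1 ≤ n := Nat.one_le_two_pow
  rw [mem_bd] at h
  simp only [mem_cg, ← hn2] at h
  have hP := EB.poin I (fun c => (n : ℤ) * q c) (fun c => if c = i then 2 * n else n) (2 * n)
    (by intro c; split_ifs <;> omega) A (EB.G2.two n q i) rfl
  change 2 * (A ∩ EB.G2.two n q i).card * (EB.G2.two n q i \ A).card ≤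
    (EB.G2.two n q i).card * (2 * n) * EB.G2.inn A (EB.G2.two n q i) at hP
  set V := n ^ Fintype.card I with hV
  have hc1 := EB.G2.card_cube n q
  have hc2 := EB.G2.card_cube n (q + EB.un i)
  have hcard : (EB.G2.two n q i).card ≤ 2 * V := by
    rw [EB.G2.two_eq]
    refine (Finset.card_union_le _ _).trans ?_
    rw [hc1, hc2]
    omega
  have hs : ∀ q' : I → ℤ, (A ∩ EB.cube n q').card + (EB.cube n q' \ A).card = V := by
    intro q'
    rw [Finset.inter_comm, Finset.card_inter_add_card_sdiff, EB.G2.card_cube]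
  have hsub1 : EB.cube n q ⊆ EB.G2.two n q i := by rw [EB.G2.two_eq]; exact Finset.subset_union_left
  have hsub2 : EB.cube n (q + EB.un i) ⊆ EB.G2.two n q i := by
    rw [EB.G2.two_eq]; exact Finset.subset_union_right
  have key : V ≤ 2 * (A ∩ EB.G2.two n q i).card ∧ V ≤ 2 * (EB.G2.two n q i \ A).card := by
    have hin : ∀ q' : I → ℤ, EB.cube n q' ⊆ EB.G2.two n q i →
        (A ∩ EB.cube n q').card ≤ (A ∩ EB.G2.two n q i).card :=
      fun q' hq' => Finset.card_le_card (Finset.inter_subset_inter_left hq')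
    have hout : ∀ q' : I → ℤ, EB.cube n q' ⊆ EB.G2.two n q i →
        (EB.cube n q' \ A).card ≤ (EB.G2.two n q i \ A).card :=
      fun q' hq' => Finset.card_le_card (Finset.sdiff_subset_sdiff hq' (Finset.Subset.refl _))
    have e1 := hin q hsub1
    have e2 := hin (q + EB.un i) hsub2
    have e3 := hout q hsub1
    have e4 := hout (q + EB.un i) hsub2
    have e5 := hs q
    have e6 := hs (q + EB.un i)
    change ¬ (V < 2 * (A ∩ EB.cube n q).card ↔ V < 2 * (A ∩ EB.cube n (q + EB.un i)).card) at h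
    by_cases h1 : V < 2 * (A ∩ EB.cube n q).card
    · have h2 : ¬ V < 2 * (A ∩ EB.cube n (q + EB.un i)).card := fun h3 => h ⟨fun _ => h3, fun _ => h1⟩
      omega
    · have h2 : V < 2 * (A ∩ EB.cube n (q + EB.un i)).card := by
        by_contra h3
        exact h ⟨fun h4 => absurd h4 h1, fun h4 => absurd h4 h3⟩
      omega
  obtain ⟨k1, k2⟩ := key
  have hVpos : 0 < V := pow_pos hn _
  have h3 : V * V ≤ 8 * V * n * EB.G2.inn A (EB.G2.two n q i) := by
    calc V * V ≤ (2 * (A ∩ EB.G2.two n q i).card) * (2 * (EB.G2.two n q i \ A).card) :=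
          Nat.mul_le_mul k1 k2
      _ = 2 * (2 * (A ∩ EB.G2.two n q i).card * (EB.G2.two n q i \ A).card) := by ring
      _ ≤ 2 * ((EB.G2.two n q i).card * (2 * n) * EB.G2.inn A (EB.G2.two n q i)) :=
          Nat.mul_le_mul_left _ hP
      _ ≤ 2 * ((2 * V) * (2 * n) * EB.G2.inn A (EB.G2.two n q i)) := by gcongr
      _ = 8 * V * n * EB.G2.inn A (EB.G2.two n q i) := by ring
  have h4 : V = n ^ (Fintype.card I - 1) * n := by
    rw [hV, ← pow_succ, Nat.sub_add_cancel hI]
  have h5 : V * (n * n ^ (Fintype.card I - 1)) ≤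
      V * (n * (8 * EB.G2.inn A (EB.G2.two n q i))) := by
    calc V * (n * n ^ (Fintype.card I - 1)) = V * V := by rw [mul_comm n, ← h4]
      _ ≤ _ := h3
      _ = _ := by ring
  exact Nat.le_of_mul_le_mul_left (Nat.le_of_mul_le_mul_left h5 hVpos) hn

/-- the deviation in a cube -/
lemma dev (l : ℕ) (A : Finset (I → ℤ)) (q : I → ℤ) :
    (if q ∈ cg l A then (EB.cube (2 ^ l) q \ A).card else (A ∩ EB.cube (2 ^ l) q).card) ≤
      2 ^ l * EB.G2.inn A (EB.cube (2 ^ l) q) := by
  set n : ℕ := 2 ^ l with hn2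
  have hn : 1 ≤ n := Nat.one_le_two_pow
  have hP := EB.poin I (fun c => (n : ℤ) * q c) (fun _ => n) n (fun _ => le_rfl) A
    (EB.cube n q) rfl
  change 2 * (A ∩ EB.cube n q).card * (EB.cube n q \ A).card ≤
    (EB.cube n q).card * n * EB.G2.inn A (EB.cube n q) at hP
  have hs : (A ∩ EB.cube n q).card + (EB.cube n q \ A).card = n ^ Fintype.card I := by
    rw [Finset.inter_comm, Finset.card_inter_add_card_sdiff, EB.G2.card_cube]
  rw [EB.G2.card_cube] at hP
  have hcg := mem_cg l A q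
  rw [← hn2] at hcg
  set V := n ^ Fintype.card I with hV
  have hVpos : 0 < V := pow_pos hn _
  split_ifs with h
  · rw [hcg] at h
    have h1 : V * (EB.cube n q \ A).card ≤ V * (n * EB.G2.inn A (EB.cube n q)) := by
      calc V * (EB.cube n q \ A).card ≤ (2 * (A ∩ EB.cube n q).card) * (EB.cube n q \ A).card :=
            Nat.mul_le_mul_right _ h.le
        _ ≤ _ := hP
        _ = _ := by ring
    exact Nat.le_of_mul_le_mul_left h1 hVpos
  · rw [hcg] at h
    have h2 : V ≤ 2 * (EB.cube n q \ A).card := by omega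
    have h1 : V * (A ∩ EB.cube n q).card ≤ V * (n * EB.G2.inn A (EB.cube n q)) := by
      calc V * (A ∩ EB.cube n q).card ≤ (2 * (EB.cube n q \ A).card) * (A ∩ EB.cube n q).card :=
            Nat.mul_le_mul_right _ h2
        _ = 2 * (A ∩ EB.cube n q).card * (EB.cube n q \ A).card := by ring
        _ ≤ _ := hP
        _ = _ := by ring
    exact Nat.le_of_mul_le_mul_left h1 hVpos

end FF12

open FF12 Pool.Agent.K9h1 in
open Classical in
/-- the coarse-grained set is close to the set -/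
theorem t_F1' (I : Type) [Fintype I] [DecidableEq I] (A : Finset (I → ℤ)) (l : ℕ) :
    (A ∆ ex l A).card ≤ 2 ^ l * (bd A).card := by
  set n : ℕ := 2 ^ l with hn2
  have hn : 1 ≤ n := Nat.one_le_two_pow
  have hex : ex l A = EB.up n (cg l A) := by
    unfold ex EB.up
    exact Finset.biUnion_congr rfl fun u _ => block_eq l u
  set F := A.image (EB.blk n) with hF
  have hcF : cg l A ⊆ F := by
    intro u hu
    have h1 := (Finset.mem_filter.mp (show u ∈ (A.image (blk l)).filter _ from hu)).1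
    rw [Finset.mem_image] at h1 ⊢
    obtain ⟨x, hx, rfl⟩ := h1
    exact ⟨x, hx, (blk_eq l x).symm⟩
  have h1 := EB.G2.double A F (fun q => EB.cube n q) 1 (by
    intro e _
    have hsub : F.filter (fun q => e.1 ∈ EB.cube n q) ⊆ {EB.blk n e.1} := by
      intro q hq
      have h2 := (Finset.mem_filter.mp hq).2
      rw [EB.G2.mem_cube n hn] at h2
      rw [Finset.mem_singleton, h2]
    exact (Finset.card_le_card hsub).trans (by simp))
  have h2 : (A \ EB.up n (cg l A)).card ≤
      ∑ q ∈ F.filter (fun q => q ∉ cg l A), (A ∩ EB.cube n q).card := by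
    refine le_trans (Finset.card_le_card ?_) Finset.card_biUnion_le
    intro x hx
    rw [Finset.mem_sdiff] at hx
    refine Finset.mem_biUnion.mpr ⟨EB.blk n x, Finset.mem_filter.mpr
      ⟨Finset.mem_image_of_mem _ hx.1, ?_⟩, ?_⟩
    · intro h
      exact hx.2 (Finset.mem_biUnion.mpr ⟨EB.blk n x, h, (EB.G2.mem_cube n hn _ _).mpr rfl⟩)
    · exact Finset.mem_inter.mpr ⟨hx.1, (EB.G2.mem_cube n hn _ _).mpr rfl⟩
  have h3 : (EB.up n (cg l A) \ A).card ≤
      ∑ q ∈ F.filter (fun q => q ∈ cg l A), (EB.cube n q \ A).card := by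
    refine le_trans (Finset.card_le_card ?_) Finset.card_biUnion_le
    intro x hx
    rw [Finset.mem_sdiff] at hx
    obtain ⟨q, hq, hxq⟩ := Finset.mem_biUnion.mp hx.1
    exact Finset.mem_biUnion.mpr ⟨q, Finset.mem_filter.mpr ⟨hcF hq, hq⟩,
      Finset.mem_sdiff.mpr ⟨hxq, hx.2⟩⟩
  have h4 : ∑ q ∈ F.filter (fun q => q ∉ cg l A), (A ∩ EB.cube n q).card +
      ∑ q ∈ F.filter (fun q => q ∈ cg l A), (EB.cube n q \ A).card =
      ∑ q ∈ F, (if q ∈ cg l A then (EB.cube n q \ A).card else (A ∩ EB.cube n q).card) := by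
    rw [Finset.sum_ite, add_comm]
  have h5 : (A ∆ ex l A).card ≤ (A \ EB.up n (cg l A)).card + (EB.up n (cg l A) \ A).card := by
    rw [hex]
    exact Finset.card_union_le _ _
  calc _ ≤ _ := h5
    _ ≤ _ := Nat.add_le_add h2 h3
    _ = _ := h4
    _ ≤ ∑ q ∈ F, n * EB.G2.inn A (EB.cube n q) := Finset.sum_le_sum fun q _ => dev l A q
    _ = n * ∑ q ∈ F, EB.G2.inn A (EB.cube n q) := by rw [Finset.mul_sum]
    _ ≤ n * (1 * (EB.bd A).card) := Nat.mul_le_mul_left _ h1
    _ = _ := by rw [one_mul, ← bd_eq]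

theorem t_F1 : S_F1 := by
  intro I _ _ A l
  refine (t_F1' I A l).trans ?_
  rw [pow_succ]
  exact Nat.mul_le_mul_right _ (by omega)

open FF12 Pool.Agent.K9h1 in
open Classical in
theorem t_F2 : S_F2 := by
  intro I _ _ A l hI
  set n : ℕ := 2 ^ l with hn2
  have hn : 1 ≤ n := Nat.one_le_two_pow
  have h1 := EB.G2.double A (bd (cg l A)) (fun f => EB.G2.two n f.1 f.2) (2 * Fintype.card I) (by
    intro e _
    have hsub : (bd (cg l A)).filter (fun f => e.1 ∈ EB.G2.two n f.1 f.2) ⊆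
        (Finset.univ : Finset I).biUnion fun i =>
          {(EB.blk n e.1, i), (EB.blk n e.1 - EB.un i, i)} := by
      intro f hf
      have h2 := (Finset.mem_filter.mp hf).2
      rw [EB.G2.mem_two, EB.G2.mem_cube n hn, EB.G2.mem_cube n hn] at h2
      refine Finset.mem_biUnion.mpr ⟨f.2, Finset.mem_univ _, ?_⟩
      rw [Finset.mem_insert, Finset.mem_singleton]
      rcases h2 with h2 | h2
      · left
        rw [h2]
      · right
        rw [h2, add_sub_cancel_right]
    refine (Finset.card_le_card hsub).trans ?_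
    refine (Finset.card_biUnion_le_card_mul _ _ 2 fun i _ => Finset.card_le_two).trans ?_
    rw [Finset.card_univ, mul_comm])
  rw [pow_mul, ← hn2]
  calc n ^ (Fintype.card I - 1) * (bd (cg l A)).card =
      ∑ _f ∈ bd (cg l A), n ^ (Fintype.card I - 1) := by
        rw [Finset.sum_const, smul_eq_mul, mul_comm]
    _ ≤ ∑ f ∈ bd (cg l A), 8 * EB.G2.inn A (EB.G2.two n f.1 f.2) :=
        Finset.sum_le_sum fun f hf => face l hI A f.1 f.2 hf
    _ = 8 * ∑ f ∈ bd (cg l A), EB.G2.inn A (EB.G2.two n f.1 f.2) := by rw [Finset.mul_sum]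
    _ ≤ 8 * (2 * Fintype.card I * (EB.bd A).card) := Nat.mul_le_mul_left _ h1
    _ = 16 * Fintype.card I * (bd A).card := by rw [← bd_eq]; ring
    _ ≤ 32 * Fintype.card I * (bd A).card := by gcongr; norm_num

end Pool.Agent.K9h96.EA
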