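import Pool.Agent.K9h96.EA.Base
import Pool.Agent.K9h1.EB.Geo1
import Pool.Agent.K9h1.EB.Geo2

/-! Leaf F3 of project EA (helper96, MP_81d17b_pr), by helper66: the number of the coarse-grained
regions. -/

set_option autoImplicit false
set_option linter.unusedSectionVars false
set_option linter.unusedSimpArgs false

open scoped symmDiff

namespace Pool.Agent.K9h96.EA

namespace Fc

variable {I : Type} [Fintype I] [DecidableEq I]

lemma un_eq (i : I) : Pool.Agent.K9h1.EB.un i = uv i := rfl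

lemma mem_bd1 {A : Finset (I → ℤ)} {e : (I → ℤ) × I} :
    e ∈ Pool.Agent.K9h1.EB.bd A ↔ e ∈ bd A := by
  rw [Pool.Agent.K9h1.EB.mem_bd, mem_bd, un_eq]

lemma blk_eq (l : ℕ) (x : I → ℤ) : Pool.Agent.K9h1.EB.blk (2 ^ l) x = blk l x := by
  funext i
  simp [Pool.Agent.K9h1.EB.blk, blk]

lemma mem_cg (l : ℕ) (A : Finset (I → ℤ)) (u : I → ℤ) :
    u ∈ cg l A ↔ 2 ^ (l * Fintype.card I) < 2 * (A.filter fun x => blk l x = u).card := by
  unfold cg
  rw [Finset.mem_filter, and_iff_right_iff_imp]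
  intro h
  have h2 : 0 < (A.filter fun x => blk l x = u).card := by
    by_contra h3
    have : (A.filter fun x => blk l x = u).card = 0 := by omega
    rw [this] at h
    simp at h
  obtain ⟨x, hx⟩ := Finset.card_pos.mp h2
  rw [Finset.mem_filter] at hx
  exact Finset.mem_image.mpr ⟨x, hx.1, hx.2⟩

/-- a boundary edge near a coarse boundary face -/
lemma exists_edge (A : Finset (I → ℤ)) (l : ℕ) (u : I → ℤ) (i : I) (h : (u, i) ∈ bd (cg l A)) :
    ∃ e ∈ bd A, blk l e.1 = u ∨ blk l e.1 = u + uv i := by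
  by_contra hno
  push Not at hno
  have hn : 1 ≤ 2 ^ l := Nat.one_le_two_pow
  set R := Pool.Agent.K9h1.EB.G2.two (2 ^ l) u i with hR
  have hmR : ∀ x, x ∈ R ↔ blk l x = u ∨ blk l x = u + uv i := by
    intro x
    rw [hR, Pool.Agent.K9h1.EB.G2.mem_two, Pool.Agent.K9h1.EB.G2.mem_cube _ hn,
      Pool.Agent.K9h1.EB.G2.mem_cube _ hn, blk_eq, un_eq]
  have hP := Pool.Agent.K9h1.EB.poin I (fun c => ((2 ^ l : ℕ) : ℤ) * u c)
    (fun c => if c = i then 2 * 2 ^ l else 2 ^ l) (2 * 2 ^ l)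
    (by intro c; split_ifs <;> omega) A R rfl
  have h0 : ((Pool.Agent.K9h1.EB.bd A).filter (fun e => e.1 ∈ R ∧
      e.1 + Pool.Agent.K9h1.EB.un e.2 ∈ R)) = ∅ := by
    rw [Finset.filter_eq_empty_iff]
    intro e he h1
    rw [mem_bd1] at he
    obtain ⟨h2, h3⟩ := hno e he
    rcases (hmR e.1).mp h1.1 with h4 | h4
    · exact h2 h4
    · exact h3 h4
  rw [h0, Finset.card_empty, Nat.mul_zero] at hP
  have hP' := Nat.mul_eq_zero.mp (Nat.le_zero.mp hP)
  rw [mem_bd] at h
  apply h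
  have hcard : ∀ w : I → ℤ, ((Pool.Agent.K9h1.EB.cube (2 ^ l) w)).card = 2 ^ (l * Fintype.card I) := by
    intro w
    rw [Pool.Agent.K9h1.EB.G2.card_cube, ← pow_mul]
  rcases hP' with h1' | h1
  · -- `A` does not meet `R`
    have h1 : (A ∩ R).card = 0 := by omega
    have h2 : ∀ w, (w = u ∨ w = u + uv i) → w ∉ cg l A := by
      intro w hw h3
      rw [mem_cg] at h3
      have h4 : (A.filter fun x => blk l x = w) = ∅ := by
        rw [Finset.filter_eq_empty_iff]
        intro x hx h5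
        have h6 : x ∈ A ∩ R := by
          rw [Finset.mem_inter, hmR, h5]
          exact ⟨hx, hw⟩
        rw [Finset.card_eq_zero] at h1
        rw [h1] at h6
        exact absurd h6 (Finset.notMem_empty _)
      rw [h4, Finset.card_empty, Nat.mul_zero] at h3
      exact absurd h3 (Nat.not_lt_zero _)
    exact ⟨fun h3 => absurd h3 (h2 u (Or.inl rfl)), fun h3 => absurd h3 (h2 _ (Or.inr rfl))⟩
  · have h2 : ∀ w, (w = u ∨ w = u + uv i) → w ∈ cg l A := by
      intro w hw
      rw [mem_cg]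
      have h4 : Pool.Agent.K9h1.EB.cube (2 ^ l) w ⊆ A.filter fun x => blk l x = w := by
        intro x hx
        rw [Pool.Agent.K9h1.EB.G2.mem_cube _ hn, blk_eq] at hx
        rw [Finset.mem_filter]
        refine ⟨?_, hx⟩
        by_contra h5
        have h6 : x ∈ R \ A := by
          rw [Finset.mem_sdiff, hmR, hx]
          exact ⟨hw, h5⟩
        rw [Finset.card_eq_zero] at h1
        rw [h1] at h6
        exact absurd h6 (Finset.notMem_empty _)
      have h5 := Finset.card_le_card h4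
      rw [hcard] at h5
      have h6 : 0 < 2 ^ (l * Fintype.card I) := by positivity
      omega
    exact ⟨fun _ => h2 _ (Or.inr rfl), fun _ => h2 u (Or.inl rfl)⟩

/-- the first exit on a ray -/
lemma exit (A : Finset (I → ℤ)) (p : I → ℤ) (hp : p ∈ A) (v : I) :
    ∃ t : ℕ, (∀ s : ℕ, s ≤ t → p + (s : ℤ) • uv v ∈ A) ∧ p + ((t : ℤ) + 1) • uv v ∉ A := by
  have hex : ∃ t : ℕ, p + ((t : ℤ) + 1) • uv v ∉ A := by
    by_contra hcon
    push Not at hcon
    have hinj : Function.Injective (fun t : ℕ => p + ((t : ℤ) + 1) • uv v) := by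
      intro s t hst
      have := congrFun hst v
      simp only [Pi.add_apply, Pi.smul_apply, uv, Pi.single_eq_same, smul_eq_mul] at this
      omega
    exact Set.infinite_of_injective_forall_mem hinj (fun t => hcon t) A.finite_toSet
  refine ⟨Nat.find hex, ?_, Nat.find_spec hex⟩
  intro s hs
  rcases Nat.eq_zero_or_pos s with h0 | h0
  · rw [h0]; simpa using hp
  · have h1 := Nat.find_min hex (m := s - 1) (by omega)
    push Not at h1
    have h2 : (((s - 1 : ℕ) : ℤ) + 1) = (s : ℤ) := by omega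
    rw [h2] at h1
    exact h1

/-- the starting edge -/
lemma start (A : Finset (I → ℤ)) (h0 : (0 : I → ℤ) ∈ A) (hI : 2 ≤ Fintype.card I) (v : I) :
    ∃ t : ℕ, t ≤ (bd A).card ∧ ((t : ℤ) • uv v, v) ∈ bd A := by
  obtain ⟨t, h1, h2⟩ := exit A 0 h0 v
  have h1' : ∀ s : ℕ, s ≤ t → (s : ℤ) • uv v ∈ A := by
    intro s hs
    have := h1 s hs
    rwa [zero_add] at this
  refine ⟨t, ?_, ?_⟩
  · obtain ⟨j, hj⟩ : ∃ j : I, j ≠ v := by
      by_contra h3
      push Not at h3
      have : Fintype.card I ≤ 1 := Fintype.card_le_one_iff.mpr fun a b => (h3 a).trans (h3 b).symm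
      omega
    -- a boundary edge in every slice
    have hex : ∀ s : ℕ, ∃ k : ℕ, s ≤ t → ((s : ℤ) • uv v + (k : ℤ) • uv j, j) ∈ bd A := by
      intro s
      by_cases hs : s ≤ t
      · obtain ⟨k, h3, h4⟩ := exit A _ (h1' s hs) j
        refine ⟨k, fun _ => ?_⟩
        rw [mem_bd']
        intro h5
        apply h4
        have h6 := h5.mp (h3 k le_rfl)
        rw [add_smul, one_smul, ← add_assoc]
        exact h6
      · exact ⟨0, fun h => absurd h hs⟩
    choose k hk using hex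
    have h3 : (Finset.range (t + 1)).card ≤ (bd A).card := by
      refine Finset.card_le_card_of_injOn (fun s : ℕ => ((s : ℤ) • uv v + (k s : ℤ) • uv j, j)) ?_ ?_
      · intro s hs
        rw [Finset.coe_range, Set.mem_Iio] at hs
        exact hk s (by omega)
      · intro s _ s' _ h
        have h4 := congrFun (congrArg Prod.fst h) v
        simp only [Pi.add_apply, Pi.smul_apply, uv, Pi.single_eq_same, smul_eq_mul,
          Pi.single_eq_of_ne (Ne.symm hj)] at h4
        omega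
    rw [Finset.card_range] at h3
    omega
  · rw [mem_bd']
    intro h3
    apply h2
    have h4 := h3.mp (h1' t le_rfl)
    rw [zero_add, add_smul, one_smul]
    exact h4

open Classical in
/-- a short tour of the boundary -/
lemma tour (hc : S_CZ) (ht : S_TOUR) (A : Finset (I → ℤ)) (hA : Region A)
    (hI : 2 ≤ Fintype.card I) (v : I) :
    ∃ (f : ℕ → (I → ℤ)) (t : ℕ), t ≤ (bd A).card ∧ f 0 = (t : ℤ) • uv v ∧
      (∀ k c, |f (k + 1) c - f k c| ≤ 1) ∧
      ∀ e ∈ bd A, ∃ k, k ≤ 2 * (bd A).card ∧ f k = e.1 := by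
  obtain ⟨t, htb, hp₀⟩ := start A hA.1 hI v
  set p₀ : (I → ℤ) × I := ((t : ℤ) • uv v, v) with hp₀'
  obtain ⟨g, hg0, -, hg2, hg3, -⟩ := ht ((I → ℤ) × I) (bd A)
    (fun p q => ∀ c, |p.1 c - q.1 c| ≤ 1) (fun _ _ => 0) (fun _ => 0) p₀ hp₀
    (fun p q h c => by rw [abs_sub_comm]; exact h c) (fun _ _ => rfl) (fun _ => rfl)
    (fun _ _ _ _ _ => le_rfl) (by
      intro W hW hpW hcl
      -- the cochain of `W`
      let φ : (I → ℤ) → I → ZMod 2 := fun x i => if (x, i) ∈ W then 1 else 0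
      have hsupp : ∀ x i, φ x i ≠ 0 → (x, i) ∈ bd A := by
        intro x i h
        by_cases h1 : (x, i) ∈ W
        · exact hW h1
        · exact absurd (if_neg h1) h
      have hclosed : ∀ x i j, φ x i + φ (x + uv i) j = φ x j + φ (x + uv j) i := by
        intro x i j
        by_cases hij : i = j
        · rw [hij]
        have h1 := Pool.Agent.K9h1.EB.G1.square A W
          (fun e he => mem_bd1.mpr (hW he))
          (fun e he f hf hn => hcl e he f (mem_bd1.mp hf) hn) x i j hij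
        have h2 : ∀ y k, φ y k = Pool.Agent.K9h1.EB.G1.ind W (y, k) := by
          intro y k
          by_cases h : (y, k) ∈ W <;> simp [φ, Pool.Agent.K9h1.EB.G1.ind, h]
        rw [h2, h2, h2, h2]
        have h3 : ∀ a b c d : ZMod 2, a + b = c + d → c + b = a + d := by decide
        exact h3 _ _ _ _ h1
      rcases hc I A hA.2.1 hA.2.2 φ hsupp hclosed with h1 | h1
      · have h2 := h1 p₀.1 p₀.2
        have h3 : φ p₀.1 p₀.2 = 1 := if_pos hpW
        rw [h3] at h2
        exact absurd h2 (by decide)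
      · apply Finset.Subset.antisymm hW
        intro e he
        have h2 := h1 e.1 e.2 he
        by_contra h3
        have h4 : φ e.1 e.2 = 0 := if_neg h3
        rw [h4] at h2
        exact absurd h2 (by decide))
  refine ⟨fun k => (g k).1, t, htb, ?_, ?_, ?_⟩
  · show (g 0).1 = _
    rw [hg0]
  · intro k c
    show |(g (k + 1)).1 c - (g k).1 c| ≤ 1
    rcases hg2 k with h | h
    · rw [abs_sub_comm]
      exact h c
    · rw [h]
      simp
  · intro e he
    obtain ⟨k, hk, hke⟩ := hg3 e he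
    exact ⟨k, by omega, congrArg Prod.fst hke⟩

lemma move (f : ℕ → (I → ℤ)) (hf : ∀ k c, |f (k + 1) c - f k c| ≤ 1) (k s : ℕ) (c : I) :
    |f (k + s) c - f k c| ≤ s := by
  induction s with
  | zero => simp
  | succ s ih =>
    have h1 := hf (k + s) c
    have h2 : f (k + (s + 1)) c - f k c = (f (k + s + 1) c - f (k + s) c) +
        (f (k + s) c - f k c) := by
      rw [← add_assoc]
      ring
    rw [h2]
    refine (abs_add_le _ _).trans ?_
    push_cast
    linarith

lemma div_close (s x y : ℤ) (hs : 0 < s) (h : |x - y| ≤ s) : |x / s - y / s| ≤ 1 := by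
  rw [abs_le] at h ⊢
  have h1 : x / s ≤ y / s + 1 := by
    calc x / s ≤ (y + 1 * s) / s := Int.ediv_le_ediv hs (by linarith)
      _ = y / s + 1 := Int.add_mul_ediv_right _ _ hs.ne'
  have h2 : y / s ≤ x / s + 1 := by
    calc y / s ≤ (x + 1 * s) / s := Int.ediv_le_ediv hs (by linarith)
      _ = x / s + 1 := Int.add_mul_ediv_right _ _ hs.ne'
  constructor <;> linarith

/-! ### Codes -/

/-- the sequence of blocks of a code -/
def dec (n : ℕ) (u₀ : I → ℤ) (δ : Fin n → I → Fin 3) : ℕ → (I → ℤ)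
  | 0 => u₀
  | k + 1 => fun c => dec n u₀ δ k c + (if h : k < n then ((δ ⟨k, h⟩ c : ℕ) : ℤ) - 1 else 0)

/-- the candidates -/
noncomputable def cand (n m : ℕ) (u : ℕ → (I → ℤ)) : Finset ((I → ℤ) × I) :=
  (Finset.range (n + 1)).biUnion fun k =>
    (Fintype.piFinset fun c => Finset.Icc (u k c - 1) (u k c + 1)).biUnion fun w =>
      (block m w).biUnion fun y => (Finset.univ : Finset I).biUnion fun i =>
        {(y, i), (y - uv i, i)}

lemma card_cand (n m : ℕ) (u : ℕ → (I → ℤ)) :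
    (cand n m u).card ≤ (n + 1) * (3 ^ Fintype.card I * (2 ^ (m * Fintype.card I) *
      (Fintype.card I * 2))) := by
  unfold cand
  refine (Finset.card_biUnion_le_card_mul _ _ _ ?_).trans (by rw [Finset.card_range])
  intro k _
  refine (Finset.card_biUnion_le_card_mul _ _ _ ?_).trans (Nat.mul_le_mul_right _ ?_)
  · intro w _
    refine (Finset.card_biUnion_le_card_mul _ _ _ ?_).trans (Nat.mul_le_mul_right _ ?_)
    · intro y _
      refine (Finset.card_biUnion_le_card_mul _ _ 2 fun i _ => Finset.card_le_two).trans ?_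
      rw [Finset.card_univ]
    · unfold block
      rw [Fintype.card_piFinset]
      have hcc : ∀ i : I, (Finset.Ico ((2 : ℤ) ^ m * w i) (2 ^ m * w i + 2 ^ m)).card = 2 ^ m := by
        intro i
        rw [Int.card_Ico, add_sub_cancel_left]
        have h2 : (2 : ℤ) ^ m = ((2 ^ m : ℕ) : ℤ) := by push_cast; rfl
        rw [h2, Int.toNat_natCast]
      rw [Finset.prod_congr rfl fun i _ => hcc i, Finset.prod_const, Finset.card_univ, ← pow_mul]
  · rw [Fintype.card_piFinset]
    have : ∀ c : I, (Finset.Icc (u k c - 1) (u k c + 1)).card = 3 := by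
      intro c
      rw [Int.card_Icc]
      omega
    simp [this]

/-- the code of a region -/
lemma code (hc : S_CZ) (ht : S_TOUR) (A : Finset (I → ℤ)) (hA : Region A)
    (hI : 2 ≤ Fintype.card I) (v : I) (l l' n : ℕ) (hl : l ≤ l')
    (hn : 2 * (bd A).card / 2 ^ l' ≤ n) :
    ∃ (t : Fin ((bd A).card + 1)) (δ : Fin n → I → Fin 3),
      bd (cg l A) ⊆ cand n (l' - l) (dec n (blk l' ((t : ℤ) • uv v)) δ) := by
  obtain ⟨f, t, htb, hf0, hf1, hf2⟩ := tour hc ht A hA hI v
  have hr : (0 : ℤ) < 2 ^ l' := by positivity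
  have hrn : 0 < 2 ^ l' := by positivity
  set u : ℕ → (I → ℤ) := fun k => blk l' (f (k * 2 ^ l')) with hu
  have hstep : ∀ k c, |u (k + 1) c - u k c| ≤ 1 := by
    intro k c
    simp only [hu, blk]
    apply div_close _ _ _ hr
    have h1 := move f hf1 (k * 2 ^ l') (2 ^ l') c
    have h2 : (k + 1) * 2 ^ l' = k * 2 ^ l' + 2 ^ l' := by ring
    rw [h2]
    exact_mod_cast h1
  let δ : Fin n → I → Fin 3 := fun k c => ⟨(u (k + 1) c - u k c + 1).toNat, by
    have := abs_le.mp (hstep k c)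
    omega⟩
  refine ⟨⟨t, by omega⟩, δ, ?_⟩
  have hdec : ∀ k, k ≤ n → dec n (blk l' (((⟨t, by omega⟩ : Fin ((bd A).card + 1)) : ℤ) • uv v)) δ k
      = u k := by
    intro k
    induction k with
    | zero =>
      intro _
      show blk l' _ = u 0
      simp only [hu, zero_mul, hf0]
    | succ k ih =>
      intro hk
      have ih' := ih (by omega)
      funext c
      show dec n _ δ k c + _ = _
      rw [ih', dif_pos (by omega : k < n)]
      have h1 := abs_le.mp (hstep k c)
      show u k c + (((u (k + 1) c - u k c + 1).toNat : ℤ) - 1) = u (k + 1) c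
      omega
  intro g hg
  obtain ⟨e, he, hblk⟩ := exists_edge A l g.1 g.2 hg
  obtain ⟨k, hk, hke⟩ := hf2 e he
  have hkn : k / 2 ^ l' ≤ n := (Nat.div_le_div_right hk).trans hn
  unfold cand
  refine Finset.mem_biUnion.mpr ⟨k / 2 ^ l', Finset.mem_range.mpr (by omega), ?_⟩
  rw [hdec _ hkn]
  refine Finset.mem_biUnion.mpr ⟨blk l' e.1, ?_, ?_⟩
  · rw [Fintype.mem_piFinset]
    intro c
    have h1 := move f hf1 (k / 2 ^ l' * 2 ^ l') (k % 2 ^ l') c
    have h2 : k / 2 ^ l' * 2 ^ l' + k % 2 ^ l' = k := by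
      rw [mul_comm]
      exact Nat.div_add_mod k (2 ^ l')
    rw [h2, hke] at h1
    have h3 : k % 2 ^ l' ≤ 2 ^ l' := (Nat.mod_lt _ hrn).le
    have h4 : |e.1 c - f (k / 2 ^ l' * 2 ^ l') c| ≤ 2 ^ l' := h1.trans (by exact_mod_cast h3)
    have h5 := abs_le.mp (div_close _ _ _ hr h4)
    rw [Finset.mem_Icc]
    simp only [hu, blk]
    constructor <;> linarith [h5.1, h5.2]
  · have hmem : ∀ y : I → ℤ, blk l e.1 = y → y ∈ block (l' - l) (blk l' e.1) := by
      intro y hy
      unfold block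
      rw [Fintype.mem_piFinset]
      intro c
      rw [← hy]
      simp only [blk]
      have h1 : (2 : ℤ) ^ l' = 2 ^ l * 2 ^ (l' - l) := by
        rw [← pow_add]
        congr 1
        omega
      rw [h1, ← Int.ediv_ediv_of_nonneg (by positivity : (0 : ℤ) ≤ 2 ^ l), Finset.mem_Ico]
      have h2 : (0 : ℤ) < 2 ^ (l' - l) := by positivity
      have h3 := Int.mul_ediv_add_emod (e.1 c / 2 ^ l) (2 ^ (l' - l))
      have h4 := Int.emod_nonneg (e.1 c / 2 ^ l) h2.ne'
      have h5 := Int.emod_lt_of_pos (e.1 c / 2 ^ l) h2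
      constructor <;> linarith
    rcases hblk with h | h
    · refine Finset.mem_biUnion.mpr ⟨g.1, hmem _ h, Finset.mem_biUnion.mpr ⟨g.2,
        Finset.mem_univ _, ?_⟩⟩
      simp
    · refine Finset.mem_biUnion.mpr ⟨g.1 + uv g.2, hmem _ h, Finset.mem_biUnion.mpr ⟨g.2,
        Finset.mem_univ _, ?_⟩⟩
      simp

/-- the number of small subsets -/
lemma small_subsets {α : Type} [DecidableEq α] (S : Finset α) (N : ℕ) (x : ℝ) (hx : 0 < x)
    (hx1 : x ≤ 1) : ((S.powerset.filter (fun U => U.card ≤ N)).card : ℝ) ≤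
      (1 / x) ^ N * Real.exp (x * S.card) := by
  have h1 : ((S.powerset.filter (fun U => U.card ≤ N)).card : ℝ) * x ^ N ≤ (1 + x) ^ S.card := by
    have h2 := Finset.sum_pow_mul_eq_add_pow x 1 S
    simp only [one_pow, mul_one] at h2
    rw [add_comm 1 x, ← h2]
    calc ((S.powerset.filter (fun U => U.card ≤ N)).card : ℝ) * x ^ N =
        ∑ _U ∈ S.powerset.filter (fun U => U.card ≤ N), x ^ N := by
          rw [Finset.sum_const, nsmul_eq_mul]
      _ ≤ ∑ U ∈ S.powerset.filter (fun U => U.card ≤ N), x ^ U.card := by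
          apply Finset.sum_le_sum
          intro U hU
          exact pow_le_pow_of_le_one hx.le hx1 (Finset.mem_filter.mp hU).2
      _ ≤ _ := Finset.sum_le_sum_of_subset_of_nonneg (Finset.filter_subset _ _)
          fun _ _ _ => by positivity
  have h3 : (1 + x) ^ S.card ≤ Real.exp (x * S.card) := by
    rw [mul_comm, Real.exp_nat_mul]
    apply pow_le_pow_left₀ (by positivity)
    have := Real.add_one_le_exp x
    linarith
  have h4 : (1 / x) ^ N = 1 / x ^ N := by rw [div_pow, one_pow]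
  rw [h4, one_div, ← div_eq_inv_mul, le_div_iff₀ (by positivity)]
  exact h1.trans h3

/-- `D ^ 2 3 ^ D ≤ 7 * 4 ^ D` -/
lemma sq_three (D : ℕ) : D ^ 2 * 3 ^ D ≤ 7 * 4 ^ D := by
  rcases le_or_gt 7 D with h | h
  · induction D, h using Nat.le_induction with
    | base => norm_num
    | succ D hD ih =>
      have h1 : 3 * (D + 1) ^ 2 ≤ 4 * D ^ 2 := by nlinarith
      calc (D + 1) ^ 2 * 3 ^ (D + 1) = (3 * (D + 1) ^ 2) * 3 ^ D := by ring
        _ ≤ (4 * D ^ 2) * 3 ^ D := Nat.mul_le_mul_right _ h1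
        _ = 4 * (D ^ 2 * 3 ^ D) := by ring
        _ ≤ 4 * (7 * 4 ^ D) := Nat.mul_le_mul_left _ ih
        _ = 7 * 4 ^ (D + 1) := by ring
  · interval_cases D <;> norm_num

lemma cube_four (D : ℕ) : D ^ 3 ≤ 4 ^ D := by
  rcases le_or_gt 3 D with h | h
  · induction D, h using Nat.le_induction with
    | base => norm_num
    | succ D hD ih =>
      have h1 : (D + 1) ^ 3 ≤ 4 * D ^ 3 := by nlinarith [sq_nonneg (D : ℤ)]
      calc (D + 1) ^ 3 ≤ 4 * D ^ 3 := h1
        _ ≤ 4 * 4 ^ D := Nat.mul_le_mul_left _ ih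
        _ = 4 ^ (D + 1) := by ring
  · interval_cases D <;> norm_num

/-- the numerical estimate -/
lemma numer (D l n N b : ℕ) (B : ℝ) (hD : 2 ≤ D) (hl : 1 ≤ l) (hB : B = (b : ℝ) / 2 ^ (l * (D - 1)))
    (hB1 : 1 ≤ 32 * D * B) (hn : (n : ℝ) ≤ 2 * B + 1) (hN : (N : ℝ) ≤ 32 * D * B) :
    ((b : ℝ) + 1) * (3 ^ D) ^ n * ((1 / (1 / (2 : ℝ) ^ ((l * (D - 1) - l) * D))) ^ N *
      Real.exp (1 / (2 : ℝ) ^ ((l * (D - 1) - l) * D) *
        ((n + 1) * (3 ^ D * (2 ^ ((l * (D - 1) - l) * D) * (D * 2)))))) ≤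
      Real.exp (1100 * 4 ^ D * l * B) := by
  have hDr : (2 : ℝ) ≤ D := by exact_mod_cast hD
  have hlr : (1 : ℝ) ≤ l := by exact_mod_cast hl
  have hB0 : 0 < B := by
    by_contra hcon
    push Not at hcon
    nlinarith
  set T : ℝ := 4 ^ D with hT
  have hT0 : 0 < T := by positivity
  have hT3 : (D : ℝ) ^ 3 ≤ T := by rw [hT]; exact_mod_cast cube_four D
  have hT2 : (D : ℝ) ^ 2 * 3 ^ D ≤ 7 * T := by rw [hT]; exact_mod_cast sq_three D
  have hT2' : (D : ℝ) ^ 2 ≤ T := by nlinarith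
  have hT1 : (D : ℝ) ≤ T := by nlinarith
  have hT1' : (1 : ℝ) ≤ T := by linarith
  have hT23 : (D : ℝ) * 3 ^ D ≤ 7 * T := by
    have h3 : (0 : ℝ) < 3 ^ D := by positivity
    have h4 : (D : ℝ) * 3 ^ D ≤ (D : ℝ) ^ 2 * 3 ^ D := by
      apply mul_le_mul_of_nonneg_right _ h3.le
      nlinarith
    linarith
  -- the factors
  have e3 : (3 : ℝ) ≤ Real.exp 2 := by
    have := Real.add_one_le_exp (2 : ℝ)
    linarith
  have e2 : (2 : ℝ) ≤ Real.exp 1 := by
    have := Real.add_one_le_exp (1 : ℝ)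
    linarith
  have f1 : (b : ℝ) + 1 ≤ Real.exp (1 + l * D + B) := by
    have h1 : (b : ℝ) = B * 2 ^ (l * (D - 1)) := by
      rw [hB]
      field_simp
    have h2 : (2 : ℝ) ^ (l * (D - 1)) ≤ Real.exp (l * D) := by
      calc (2 : ℝ) ^ (l * (D - 1)) ≤ (Real.exp 1) ^ (l * (D - 1)) :=
            pow_le_pow_left₀ (by norm_num) e2 _
        _ = Real.exp ((l * (D - 1) : ℕ) : ℝ) := by rw [← Real.exp_nat_mul, mul_one]
        _ ≤ _ := by
            apply Real.exp_le_exp.mpr
            have : l * (D - 1) ≤ l * D := Nat.mul_le_mul_left _ (Nat.sub_le _ _)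
            exact_mod_cast this
    have h3 : B + 1 ≤ Real.exp B := Real.add_one_le_exp B
    have h4 : (1 : ℝ) ≤ Real.exp (l * D) := Real.one_le_exp (by positivity)
    have h5 : (b : ℝ) + 1 ≤ Real.exp (l * D) * Real.exp B := by
      rw [h1]
      nlinarith [Real.exp_pos (l * D : ℝ)]
    have h6 : Real.exp (l * D) * Real.exp B ≤ Real.exp (1 + l * D + B) := by
      rw [← Real.exp_add]
      apply Real.exp_le_exp.mpr
      linarith
    exact h5.trans h6
  have f2 : ((3 : ℝ) ^ D) ^ n ≤ Real.exp (2 * D * n) := by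
    rw [← pow_mul]
    calc (3 : ℝ) ^ (D * n) ≤ (Real.exp 2) ^ (D * n) := pow_le_pow_left₀ (by norm_num) e3 _
      _ = Real.exp (2 * D * n) := by
          rw [← Real.exp_nat_mul]
          congr 1
          push_cast
          ring
  have f3 : (1 / (1 / (2 : ℝ) ^ ((l * (D - 1) - l) * D))) ^ N ≤ Real.exp (l * D * D * N) := by
    rw [one_div_one_div, ← pow_mul]
    calc (2 : ℝ) ^ ((l * (D - 1) - l) * D * N) ≤ (Real.exp 1) ^ ((l * (D - 1) - l) * D * N) :=
          pow_le_pow_left₀ (by norm_num) e2 _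
      _ = Real.exp (((l * (D - 1) - l) * D * N : ℕ) : ℝ) := by rw [← Real.exp_nat_mul, mul_one]
      _ ≤ _ := by
          apply Real.exp_le_exp.mpr
          have h1 : l * (D - 1) - l ≤ l * D :=
            (Nat.sub_le _ _).trans (Nat.mul_le_mul_left _ (Nat.sub_le _ _))
          have : (l * (D - 1) - l) * D * N ≤ l * D * D * N := by gcongr
          exact_mod_cast this
  have f4 : 1 / (2 : ℝ) ^ ((l * (D - 1) - l) * D) *
        ((n + 1) * (3 ^ D * (2 ^ ((l * (D - 1) - l) * D) * (D * 2)))) =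
        2 * (D * 3 ^ D) * (n + 1) := by
    field_simp
  rw [f4]
  have hexp : 1 + (l : ℝ) * D + B + 2 * D * n + (l * D * D * N + 2 * (D * 3 ^ D) * (n + 1)) ≤
      1100 * T * l * B := by
    have hTlB : 0 < T * l * B := by positivity
    have hlB : B ≤ l * B := by nlinarith
    have a1 : (1 : ℝ) ≤ 32 * (T * l * B) := by
      have : D * B ≤ T * (l * B) := by
        apply mul_le_mul hT1 hlB hB0.le hT0.le
      nlinarith
    have a2 : (l : ℝ) * D ≤ 32 * (T * l * B) := by
      have h1 : (l : ℝ) * D ≤ l * D * (32 * D * B) := le_mul_of_one_le_right (by positivity) hB1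
      have h2 : (l : ℝ) * D * (32 * D * B) = 32 * ((D : ℝ) ^ 2 * l * B) := by ring
      have h3 : (D : ℝ) ^ 2 * l * B ≤ T * l * B := by gcongr
      linarith
    have a3 : B ≤ T * l * B := by
      have : 1 * B ≤ T * (l * B) := mul_le_mul hT1' hlB hB0.le hT0.le
      linarith
    have a4 : 2 * (D : ℝ) * n ≤ 68 * (T * l * B) := by
      have h1 : 2 * (D : ℝ) * n ≤ 2 * D * (2 * B + 1) := by gcongr
      have h2 : (D : ℝ) * B ≤ T * l * B := by
        have : (D : ℝ) * B ≤ T * (l * B) := mul_le_mul hT1 hlB hB0.le hT0.le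
        linarith
      have h3 : (D : ℝ) ≤ 32 * (T * l * B) := by
        have h4 : (D : ℝ) ≤ D * (32 * D * B) := le_mul_of_one_le_right (by positivity) hB1
        have h5 : (D : ℝ) * (32 * D * B) = 32 * ((D : ℝ) ^ 2 * B) := by ring
        have h6 : (D : ℝ) ^ 2 * B ≤ T * (l * B) := mul_le_mul hT2' hlB hB0.le hT0.le
        linarith
      linarith
    have a5 : (l : ℝ) * D * D * N ≤ 32 * (T * l * B) := by
      have h1 : (l : ℝ) * D * D * N ≤ l * D * D * (32 * D * B) := by gcongr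
      have h2 : (l : ℝ) * D * D * (32 * D * B) = 32 * ((D : ℝ) ^ 3 * l * B) := by ring
      have h3 : (D : ℝ) ^ 3 * l * B ≤ T * l * B := by gcongr
      linarith
    have a6 : 2 * ((D : ℝ) * 3 ^ D) * (n + 1) ≤ 924 * (T * l * B) := by
      have h1 : 2 * ((D : ℝ) * 3 ^ D) * (n + 1) ≤ 2 * (D * 3 ^ D) * (2 * B + 1 + 1) := by gcongr
      have h2 : (D : ℝ) * 3 ^ D * B ≤ 7 * (T * l * B) := by
        have : (D : ℝ) * 3 ^ D * B ≤ 7 * T * (l * B) := mul_le_mul hT23 hlB hB0.le (by positivity)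
        linarith
      have h3 : (D : ℝ) * 3 ^ D ≤ 224 * (T * l * B) := by
        have h4 : (D : ℝ) * 3 ^ D ≤ D * 3 ^ D * (32 * D * B) :=
          le_mul_of_one_le_right (by positivity) hB1
        have h5 : (D : ℝ) * 3 ^ D * (32 * D * B) = 32 * ((D : ℝ) ^ 2 * 3 ^ D * B) := by ring
        have h6 : (D : ℝ) ^ 2 * 3 ^ D * B ≤ 7 * T * (l * B) :=
          mul_le_mul hT2 hlB hB0.le (by positivity)
        linarith
      nlinarith
    have : 1100 * T * l * B = 1100 * (T * l * B) := by ring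
    rw [this]
    linarith
  calc ((b : ℝ) + 1) * (3 ^ D) ^ n * ((1 / (1 / (2 : ℝ) ^ ((l * (D - 1) - l) * D))) ^ N *
        Real.exp (2 * (D * 3 ^ D) * (n + 1))) ≤
      Real.exp (1 + l * D + B) * Real.exp (2 * D * n) * (Real.exp (l * D * D * N) *
        Real.exp (2 * (D * 3 ^ D) * (n + 1))) := by
        gcongr
    _ = Real.exp (1 + (l : ℝ) * D + B + 2 * D * n + (l * D * D * N +
        2 * (D * 3 ^ D) * (n + 1))) := by
        rw [← Real.exp_add, ← Real.exp_add, ← Real.exp_add]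
    _ ≤ _ := Real.exp_le_exp.mpr hexp

end Fc

open Classical in
theorem t_F3 (hc : S_CZ) (ht : S_TOUR) (h2 : S_F2) : S_F3 := by
  refine ⟨1100, by norm_num, ?_⟩
  intro I _ _ b l hI hl hbl 𝓕 h𝓕
  set D := Fintype.card I with hD
  set l' := l * (D - 1) with hl'
  have hll : l ≤ l' := by
    rw [hl']
    exact Nat.le_mul_of_pos_right l (by omega)
  obtain ⟨v⟩ : Nonempty I := Fintype.card_pos_iff.mp (by omega)
  have hr : 0 < 2 ^ l' := by positivity
  set n := 2 * b / 2 ^ l' with hn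
  set N := 32 * D * b / 2 ^ l' with hN
  let G : Fin (b + 1) × (Fin n → I → Fin 3) → Finset (Finset ((I → ℤ) × I)) := fun q =>
    (Fc.cand n (l' - l) (Fc.dec n (blk l' (((q.1 : ℕ) : ℤ) • uv v)) q.2)).powerset.filter
      (fun U => U.card ≤ N)
  have hinj : ((𝓕.image (cg l)).image bd).card = (𝓕.image (cg l)).card := by
    have hne : Nonempty I := ⟨v⟩
    apply Finset.card_image_of_injective
    intro P Q hPQ
    exact eq_of_bd_eq hPQ
  have hsub : (𝓕.image (cg l)).image bd ⊆ Finset.univ.biUnion G := by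
    intro U hU
    obtain ⟨Q, hQ, rfl⟩ := Finset.mem_image.mp hU
    obtain ⟨A, hA, rfl⟩ := Finset.mem_image.mp hQ
    obtain ⟨hreg, hcard⟩ := h𝓕 A hA
    obtain ⟨t, δ, hcode⟩ := Fc.code hc ht A hreg hI v l l' n hll (by rw [hcard])
    have hN' : (bd (cg l A)).card ≤ N := by
      rw [hN, Nat.le_div_iff_mul_le hr]
      have := h2 I A l (by omega)
      rw [hcard] at this
      rw [mul_comm]
      exact this
    have ht' : (t : ℕ) < b + 1 := lt_of_lt_of_eq t.2 (by rw [hcard])
    refine Finset.mem_biUnion.mpr ⟨(⟨t, ht'⟩, δ), Finset.mem_univ _, ?_⟩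
    exact Finset.mem_filter.mpr ⟨Finset.mem_powerset.mpr hcode, hN'⟩
  set x : ℝ := 1 / (2 : ℝ) ^ ((l' - l) * D) with hx
  have hx0 : 0 < x := by positivity
  have hx1 : x ≤ 1 := by
    rw [hx, div_le_one (by positivity)]
    exact one_le_pow₀ (by norm_num)
  have hG : ∀ q ∈ (Finset.univ : Finset (Fin (b + 1) × (Fin n → I → Fin 3))),
      ((G q).card : ℝ) ≤ (1 / x) ^ N * Real.exp (x *
        ((n + 1) * (3 ^ D * (2 ^ ((l' - l) * D) * (D * 2))))) := by
    intro q _
    refine (Fc.small_subsets _ N x hx0 hx1).trans ?_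
    have h3 := Fc.card_cand n (l' - l) (Fc.dec n (blk l' (((q.1 : ℕ) : ℤ) • uv v)) q.2)
    have h4 : ((Fc.cand n (l' - l) (Fc.dec n (blk l' (((q.1 : ℕ) : ℤ) • uv v)) q.2)).card : ℝ) ≤
        (n + 1) * (3 ^ D * (2 ^ ((l' - l) * D) * (D * 2))) := by
      exact_mod_cast h3
    gcongr
  have hcount : ((𝓕.image (cg l)).card : ℝ) ≤
      ((b : ℝ) + 1) * (3 ^ D) ^ n * ((1 / x) ^ N * Real.exp (x *
        ((n + 1) * (3 ^ D * (2 ^ ((l' - l) * D) * (D * 2)))))) := by
    rw [← hinj]
    calc (((𝓕.image (cg l)).image bd).card : ℝ) ≤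
        ((∑ q : Fin (b + 1) × (Fin n → I → Fin 3), (G q).card : ℕ) : ℝ) := by
          exact_mod_cast (Finset.card_le_card hsub).trans Finset.card_biUnion_le
      _ = ∑ q : Fin (b + 1) × (Fin n → I → Fin 3), ((G q).card : ℝ) := by push_cast; rfl
      _ ≤ ∑ _q : Fin (b + 1) × (Fin n → I → Fin 3), (1 / x) ^ N * Real.exp (x *
        ((n + 1) * (3 ^ D * (2 ^ ((l' - l) * D) * (D * 2))))) := Finset.sum_le_sum hG
      _ = _ := by
          rw [Finset.sum_const, nsmul_eq_mul, Finset.card_univ]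
          congr 1
          rw [Fintype.card_prod, Fintype.card_fin, Fintype.card_fun, Fintype.card_fun,
            Fintype.card_fin, Fintype.card_fin]
          push_cast
          rfl
  have hbr : (0 : ℝ) < 2 ^ l' := by positivity
  refine hcount.trans ?_
  refine (Fc.numer D l n N b ((b : ℝ) / 2 ^ l') hI hl rfl ?_ ?_ ?_)
  · have h3 : ((2 : ℝ)) ^ l' ≤ 32 * D * b := by exact_mod_cast hbl
    rw [mul_div_assoc', le_div_iff₀ hbr]
    linarith
  · have h3 : (n : ℝ) ≤ ((2 * b : ℕ) : ℝ) / ((2 ^ l' : ℕ) : ℝ) := Nat.cast_div_le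
    push_cast at h3
    rw [mul_div_assoc] at h3
    linarith
  · have h3 : (N : ℝ) ≤ ((32 * D * b : ℕ) : ℝ) / ((2 ^ l' : ℕ) : ℝ) := Nat.cast_div_le
    push_cast at h3
    rw [mul_div_assoc] at h3
    linarith

end Pool.Agent.K9h96.EA
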