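import Pool.Agent.K9h96.EA.Base

/-! Leaf FILL: the filled cluster of the origin (helper63). -/

set_option autoImplicit false

open Relation

namespace Pool.Agent.K9h96.EA

namespace Fill

variable {I : Type} [Fintype I] [DecidableEq I]

/-- connected inside `S` -/
def Cn (S : Set (I → ℤ)) (x y : I → ℤ) : Prop :=
  ReflTransGen (fun a b => nn a b ∧ a ∈ S ∧ b ∈ S) x y

omit [Fintype I] in
theorem nn_symm {x y : I → ℤ} (h : nn x y) : nn y x := by
  obtain ⟨i, h | h⟩ := h
  · exact ⟨i, Or.inr h⟩
  · exact ⟨i, Or.inl h⟩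

omit [Fintype I] in
theorem Cn.symm {S : Set (I → ℤ)} {x y : I → ℤ} (h : Cn S x y) : Cn S y x := by
  unfold Cn at h ⊢
  induction h with
  | refl => exact ReflTransGen.refl
  | tail _ hbc ih => exact ReflTransGen.head ⟨nn_symm hbc.1, hbc.2.2, hbc.2.1⟩ ih

omit [Fintype I] in
theorem Cn.trans {S : Set (I → ℤ)} {x y z : I → ℤ} (h : Cn S x y) (h' : Cn S y z) : Cn S x z :=
  ReflTransGen.trans h h'

omit [Fintype I] in
theorem nn_update (x : I → ℤ) (i : I) (k : ℤ) :
    nn (Function.update x i k) (Function.update x i (k + 1)) := by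
  refine ⟨i, Or.inl ?_⟩
  funext j
  unfold uv
  by_cases h : j = i
  · subst h; simp
  · simp [h]

omit [Fintype I] in
/-- moving along a line inside `S` -/
theorem line {S : Set (I → ℤ)} {x : I → ℤ} {i : I} (h : ∀ s : ℤ, Function.update x i s ∈ S)
    (t : ℤ) : Cn S x (Function.update x i t) := by
  have h1 : ∀ k : ℕ, Cn S x (Function.update x i (x i + k)) := by
    intro k
    induction k with
    | zero =>
      have : Function.update x i (x i + ((0 : ℕ) : ℤ)) = x := by simp
      rw [this]
      exact ReflTransGen.refl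
    | succ k ih =>
      refine ih.tail ⟨?_, h _, h _⟩
      push_cast
      rw [← add_assoc]
      exact nn_update x i _
  have h2 : ∀ k : ℕ, Cn S x (Function.update x i (x i - k)) := by
    intro k
    induction k with
    | zero =>
      have : Function.update x i (x i - ((0 : ℕ) : ℤ)) = x := by simp
      rw [this]
      exact ReflTransGen.refl
    | succ k ih =>
      refine ih.tail ⟨nn_symm ?_, h _, h _⟩
      have h3 := nn_update x i (x i - ((k + 1 : ℕ) : ℤ))
      have h4 : x i - ((k + 1 : ℕ) : ℤ) + 1 = x i - k := by push_cast; ring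
      rwa [h4] at h3
  rcases le_total (x i) t with ht | ht
  · have h3 := h1 (t - x i).toNat
    rwa [Int.toNat_of_nonneg (by omega), add_sub_cancel] at h3
  · have h3 := h2 (x i - t).toNat
    rwa [Int.toNat_of_nonneg (by omega), sub_sub_cancel] at h3

/-- outside of the box -/
def Out (I : Type) (n : ℕ) : Set (I → ℤ) := {x | ∃ i, (n : ℤ) < |x i|}

theorem out_conn (hI : 2 ≤ Fintype.card I) (n : ℕ) {x : I → ℤ} (hx : x ∈ Out I n) :
    Cn (Out I n) x (fun _ => (n : ℤ) + 1) := by
  obtain ⟨i, hi⟩ := hx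
  -- first the coordinates different from `i`
  have h1 : ∀ T : Finset I, i ∉ T →
      Cn (Out I n) x (fun j => if j ∈ T then (n : ℤ) + 1 else x j) := by
    intro T
    induction T using Finset.induction_on with
    | empty =>
      intro _
      have : (fun j => if j ∈ (∅ : Finset I) then (n : ℤ) + 1 else x j) = x := by
        funext j; simp
      rw [this]
      exact ReflTransGen.refl
    | insert a T ha ih =>
      intro hiT
      rw [Finset.mem_insert, not_or] at hiT
      refine (ih hiT.2).trans ?_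
      have h2 := line (S := Out I n) (x := fun j => if j ∈ T then (n : ℤ) + 1 else x j) (i := a)
        (fun s => ⟨i, by
          rw [Function.update_of_ne hiT.1]
          simp only [hiT.2, if_false]
          exact hi⟩) ((n : ℤ) + 1)
      have h3 : Function.update (fun j => if j ∈ T then (n : ℤ) + 1 else x j) a ((n : ℤ) + 1) =
          fun j => if j ∈ insert a T then (n : ℤ) + 1 else x j := by
        funext j
        by_cases hj : j = a
        · subst hj; simp
        · rw [Function.update_of_ne hj]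
          simp [Finset.mem_insert, hj]
      rwa [h3] at h2
  have h2 := h1 (Finset.univ.erase i) (Finset.notMem_erase i _)
  refine h2.trans ?_
  obtain ⟨j, hj⟩ : ∃ j : I, j ≠ i := by
    have : Nontrivial I := Fintype.one_lt_card_iff_nontrivial.mp (by omega)
    exact exists_ne i
  have h3 := line (S := Out I n)
    (x := fun j => if j ∈ Finset.univ.erase i then (n : ℤ) + 1 else x j) (i := i)
    (fun s => ⟨j, by
      rw [Function.update_of_ne hj]
      simp only [Finset.mem_erase, Finset.mem_univ, and_true, ne_eq, hj, not_false_eq_true, if_true]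
      rw [abs_of_nonneg (by positivity)]
      omega⟩) ((n : ℤ) + 1)
  have h4 : Function.update (fun j => if j ∈ Finset.univ.erase i then (n : ℤ) + 1 else x j) i
      ((n : ℤ) + 1) = fun _ => (n : ℤ) + 1 := by
    funext k
    by_cases hk : k = i
    · subst hk; simp
    · rw [Function.update_of_ne hk]
      simp [hk]
  rwa [h4] at h3

omit [Fintype I] in
theorem Cn.mono {S T : Set (I → ℤ)} (h : S ⊆ T) {x y : I → ℤ} (h' : Cn S x y) : Cn T x y := by
  unfold Cn at h' ⊢
  induction h' with
  | refl => exact ReflTransGen.refl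
  | tail _ hbc ih => exact ih.tail ⟨hbc.1, h hbc.2.1, h hbc.2.2⟩

end Fill

open Fill in
theorem t_FILL : S_FILL := by
  classical
  intro I _ _ hI n M hM h0
  -- the cluster
  obtain ⟨C, hC⟩ : ∃ C : Set (I → ℤ), C = {x | x ∈ M ∧ Cn M 0 x} := ⟨_, rfl⟩
  have hCM : C ⊆ M := fun x hx => by rw [hC] at hx; exact hx.1
  have h0C : (0 : I → ℤ) ∈ C := by rw [hC]; exact ⟨h0, ReflTransGen.refl⟩
  have hCstep : ∀ x ∈ C, ∀ y ∈ M, nn x y → y ∈ C := by
    intro x hx y hy hxy
    rw [hC] at hx ⊢
    exact ⟨hy, hx.2.tail ⟨hxy, hx.1, hy⟩⟩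
  have hCbox : ∀ x ∈ C, ∀ i, |x i| ≤ n := fun x hx => hM x (hCM hx)
  have hOutC : Out I n ⊆ Cᶜ := by
    rintro x ⟨i, hi⟩ hx
    exact absurd (hCbox x hx i) (not_le.mpr hi)
  -- the outer component of the complement
  obtain ⟨O, hO⟩ : ∃ O : Set (I → ℤ), O = {x | x ∈ Cᶜ ∧ ∃ y ∈ Out I n, Cn Cᶜ x y} := ⟨_, rfl⟩
  have hOC : O ⊆ Cᶜ := fun x hx => by rw [hO] at hx; exact hx.1
  have hOutO : Out I n ⊆ O := fun x hx => by
    rw [hO]; exact ⟨hOutC hx, x, hx, ReflTransGen.refl⟩
  have hOstep : ∀ y ∈ O, ∀ x ∈ Cᶜ, nn x y → x ∈ O := by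
    intro y hy x hx hxy
    have hyC := hOC hy
    rw [hO] at hy ⊢
    obtain ⟨-, z, hz, hyz⟩ := hy
    exact ⟨hx, z, hz, ReflTransGen.head ⟨hxy, hx, hyC⟩ hyz⟩
  have hOcn : ∀ x y, Cn Cᶜ x y → y ∈ O → x ∈ Cᶜ → x ∈ O := by
    intro x y hxy hy hx
    rw [hO] at hy ⊢
    obtain ⟨-, z, hz, hyz⟩ := hy
    exact ⟨hx, z, hz, hxy.trans hyz⟩
  have hOcomp : ∀ x, x ∉ O → ∀ i, |x i| ≤ n := by
    intro x hx i
    by_contra h
    exact hx (hOutO ⟨i, not_le.mp h⟩)
  -- the set
  obtain ⟨A, hA⟩ : ∃ A : Finset (I → ℤ), ∀ x, x ∈ A ↔ x ∉ O := by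
    refine ⟨(Finset.Icc (fun _ : I => -(n : ℤ)) (fun _ => (n : ℤ))).filter (· ∉ O), fun x => ?_⟩
    rw [Finset.mem_filter, Finset.mem_Icc, and_iff_right_iff_imp]
    intro hx
    exact ⟨fun i => (abs_le.mp (hOcomp x hx i)).1, fun i => (abs_le.mp (hOcomp x hx i)).2⟩
  have hCA : ∀ x ∈ C, x ∈ A := fun x hx => (hA x).mpr fun h => hOC h hx
  -- connected to the origin
  have hcn0 : ∀ x ∈ A, Cn (A : Set (I → ℤ)) 0 x := by
    have hcnC : ∀ x ∈ C, Cn (A : Set (I → ℤ)) 0 x := by
      intro x hx
      have hx2 : Cn M 0 x := by rw [hC] at hx; exact hx.2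
      clear hx
      have key : Cn (A : Set (I → ℤ)) 0 x ∧ x ∈ C := by
        unfold Cn at hx2
        induction hx2 with
        | refl => exact ⟨ReflTransGen.refl, h0C⟩
        | tail _ hbc ih =>
          have h1 := hCstep _ ih.2 _ hbc.2.2 hbc.1
          exact ⟨ih.1.tail ⟨hbc.1, hCA _ ih.2, hCA _ h1⟩, h1⟩
      exact key.1
    intro x hx
    have hxO := (hA x).mp hx
    by_cases hxC : x ∈ C
    · exact hcnC x hxC
    obtain ⟨i⟩ : Nonempty I := Fintype.card_pos_iff.mp (by omega)
    -- the ray from `x`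
    obtain ⟨r, hr⟩ : ∃ r : ℕ → I → ℤ, r = fun k : ℕ => Function.update x i (x i + k) := ⟨_, rfl⟩
    have hr0 : r 0 = x := by rw [hr]; simp
    have hrs : ∀ k, nn (r k) (r (k + 1)) := by
      intro k
      rw [hr]
      have := nn_update x i (x i + k)
      show nn (Function.update x i (x i + k)) (Function.update x i (x i + ((k + 1 : ℕ) : ℤ)))
      push_cast
      rw [← add_assoc]
      exact this
    have hex : ∃ k, r k ∈ C := by
      by_contra hcon
      push Not at hcon
      have h1 : ∀ k, Cn Cᶜ x (r k) := by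
        intro k
        induction k with
        | zero => rw [hr0]; exact ReflTransGen.refl
        | succ k ih => exact ih.tail ⟨hrs k, hcon k, hcon (k + 1)⟩
      apply hxO
      refine hOcn x (r (n + 1 + (x i).natAbs)) (h1 _) (hOutO ⟨i, ?_⟩) hxC
      rw [hr]
      simp only [Function.update_self]
      push_cast
      rw [lt_abs]
      left
      have := neg_abs_le (x i)
      omega
    -- the first point of the ray in `C`
    classical
    obtain ⟨k, hk, hkmin⟩ : ∃ k, r k ∈ C ∧ ∀ j < k, r j ∉ C :=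
      ⟨Nat.find hex, Nat.find_spec hex, fun j hj => Nat.find_min hex hj⟩
    have h1 : ∀ j, j < k → Cn Cᶜ x (r j) := by
      intro j
      induction j with
      | zero => intro _; rw [hr0]; exact ReflTransGen.refl
      | succ j ih =>
        intro hj
        exact (ih (by omega)).tail ⟨hrs j, hkmin j (by omega), hkmin (j + 1) hj⟩
    have h2 : ∀ j, j ≤ k → r j ∈ A := by
      intro j hj
      rcases Nat.lt_or_ge j k with h | h
      · rw [hA]
        intro h3
        exact hxO (hOcn x (r j) (h1 j h) h3 hxC)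
      · have : j = k := by omega
        subst this
        exact hCA _ hk
    have h3 : ∀ j, j ≤ k → Cn (A : Set (I → ℤ)) x (r j) := by
      intro j
      induction j with
      | zero => intro _; rw [hr0]; exact ReflTransGen.refl
      | succ j ih =>
        intro hj
        exact (ih (by omega)).tail ⟨hrs j, h2 j (by omega), h2 (j + 1) hj⟩
    exact (hcnC _ hk).trans (h3 k le_rfl).symm
  refine ⟨A, ⟨hCA 0 h0C, ?_, ?_⟩, fun x hx => hOcomp x ((hA x).mp hx), ?_⟩
  · intro x hx y hy
    exact (hcn0 x hx).symm.trans (hcn0 y hy)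
  · -- the complement
    have hAO : (A : Set (I → ℤ))ᶜ = O := by
      ext x
      rw [Set.mem_compl_iff, Finset.mem_coe, hA, not_not]
    rw [hAO]
    have h1 : ∀ x ∈ O, ∃ y ∈ Out I n, Cn O x y := by
      intro x hx
      have hx' := hx
      rw [hO] at hx'
      obtain ⟨-, y, hy, hxy⟩ := hx'
      refine ⟨y, hy, ?_⟩
      clear hx
      unfold Cn at hxy
      induction hxy using ReflTransGen.head_induction_on with
      | refl => exact ReflTransGen.refl
      | head hab hby ih =>
        have hb : _ ∈ O := hOcn _ y hby (hOutO hy) hab.2.2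
        exact ReflTransGen.head ⟨hab.1, hOstep _ hb _ hab.2.1 hab.1, hb⟩ ih
    have h2 : ∀ x ∈ O, Cn O x (fun _ => (n : ℤ) + 1) := by
      intro x hx
      obtain ⟨y, hy, hxy⟩ := h1 x hx
      exact hxy.trans ((out_conn hI n hy).mono hOutO)
    intro x hx y hy
    exact (h2 x hx).trans (h2 y hy).symm
  · intro x hx y hy hxy
    have hxO := (hA x).mp hx
    have hyO : y ∈ O := by
      by_contra h
      exact hy ((hA y).mpr h)
    have hxC : x ∈ C := by
      by_contra h
      exact hxO (hOstep y hyO x h hxy)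
    refine ⟨hCM hxC, fun hyM => ?_⟩
    exact hOC hyO (hCstep x hxC y hyM hxy)

end Pool.Agent.K9h96.EA
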