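import Pool.Agent.K9h96.EA.Stm2
import Pool.Agent.K9h96.EA.F12

/-!
# Coarse graining with blocks of side two in a set of directions (leaf G012, helper90 for helper96)
-/

set_option autoImplicit false
set_option linter.all false

open scoped symmDiff

namespace Pool.Agent.K9h96.EA

namespace GT

open Pool.Agent.K9h1 FF12

variable {I : Type} [Fintype I] [DecidableEq I]

/-- the box with the corner `a` and the sides two (directions in `T`) and one (the others) -/
noncomputable def bx (T : Finset I) (a : I → ℤ) : Finset (I → ℤ) :=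
  Fintype.piFinset fun c => Finset.Ico (a c) (a c + ((if c ∈ T then 2 else 1 : ℕ) : ℤ))

lemma mem_bx {T : Finset I} {a x : I → ℤ} :
    x ∈ bx T a ↔ ∀ c, a c ≤ x c ∧ x c < a c + (if c ∈ T then 2 else 1) := by
  unfold bx
  rw [Fintype.mem_piFinset]
  refine forall_congr' fun c => ?_
  rw [Finset.mem_Ico]
  split_ifs <;> simp

lemma card_bx (T : Finset I) (a : I → ℤ) : (bx T a).card = 2 ^ T.card := by
  unfold bx
  rw [Fintype.card_piFinset]
  have h : ∀ c : I, (Finset.Ico (a c) (a c + ((if c ∈ T then 2 else 1 : ℕ) : ℤ))).card =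
      if c ∈ T then 2 else 1 := by
    intro c
    rw [Int.card_Ico]
    split_ifs <;> simp
  rw [Finset.prod_congr rfl (fun c _ => h c), Finset.prod_ite_mem, Finset.univ_inter,
    Finset.prod_const]

lemma poin_bx (T : Finset I) (a : I → ℤ) (A : Finset (I → ℤ)) :
    2 * (A ∩ bx T a).card * (bx T a \ A).card ≤ 2 ^ T.card * 2 * EB.G2.inn A (bx T a) := by
  have h := EB.poin I a (fun c => if c ∈ T then 2 else 1) 2
    (by intro c; split_ifs <;> omega) A (bx T a) rfl
  rw [card_bx] at h
  exact h

/-- edges inside a box have directions in `T` -/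
lemma dir_bx {T : Finset I} {a : I → ℤ} {e : (I → ℤ) × I} (h1 : e.1 ∈ bx T a)
    (h2 : e.1 + EB.un e.2 ∈ bx T a) : e.2 ∈ T := by
  by_contra h
  have h3 := mem_bx.1 h1 e.2
  have h4 := mem_bx.1 h2 e.2
  rw [if_neg h] at h3 h4
  simp only [Pi.add_apply, EB.un, Pi.single_eq_same] at h4
  omega

/-- the corner of a block -/
def cor (T : Finset I) (u : I → ℤ) : I → ℤ := fun c => if c ∈ T then 2 * u c else u c

lemma blockT_eq (T : Finset I) (u : I → ℤ) : blockT T u = bx T (cor T u) := by
  ext x
  rw [mem_bx, blockT, Fintype.mem_piFinset]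
  refine forall_congr' fun c => ?_
  unfold cor
  split_ifs with h
  · rw [Finset.mem_Ico]
  · rw [Finset.mem_singleton]
    omega

lemma mem_blockT {T : Finset I} {u x : I → ℤ} : x ∈ blockT T u ↔ blkT T x = u := by
  rw [blockT, Fintype.mem_piFinset, funext_iff]
  refine forall_congr' fun c => ?_
  unfold blkT
  split_ifs with h
  · rw [Finset.mem_Ico]
    omega
  · rw [Finset.mem_singleton]

lemma card_blockT (T : Finset I) (u : I → ℤ) : (blockT T u).card = 2 ^ T.card := by
  rw [blockT_eq, card_bx]

lemma filt_eqT (T : Finset I) (A : Finset (I → ℤ)) (u : I → ℤ) :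
    (A.filter fun x => blkT T x = u) = A ∩ blockT T u := by
  ext x
  rw [Finset.mem_filter, Finset.mem_inter, mem_blockT]

lemma mem_cgT {T : Finset I} {A : Finset (I → ℤ)} {u : I → ℤ} :
    u ∈ cgT T A ↔ 2 ^ T.card < 2 * (A ∩ blockT T u).card := by
  unfold cgT
  rw [Finset.mem_filter, filt_eqT, and_iff_right_iff_imp]
  intro h
  have h2 : 0 < (A ∩ blockT T u).card := by
    have := (Nat.zero_le (2 ^ T.card)).trans_lt h
    omega
  obtain ⟨x, hx⟩ := Finset.card_pos.mp h2
  rw [Finset.mem_inter, mem_blockT] at hx
  exact Finset.mem_image.mpr ⟨x, hx.1, hx.2⟩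

lemma mem_exT {T : Finset I} {A : Finset (I → ℤ)} {x : I → ℤ} :
    x ∈ exT T A ↔ blkT T x ∈ cgT T A := by
  unfold exT
  rw [Finset.mem_biUnion]
  constructor
  · rintro ⟨u, hu, hx⟩
    rw [mem_blockT] at hx
    rw [hx]
    exact hu
  · intro h
    exact ⟨_, h, mem_blockT.2 rfl⟩

/-- two neighbouring blocks -/
lemma two_eq {T : Finset I} {i : I} (hi : i ∉ T) (u : I → ℤ) :
    bx (insert i T) (cor T u) = blockT T u ∪ blockT T (u + EB.un i) := by
  ext x
  rw [Finset.mem_union, mem_bx, mem_blockT, mem_blockT, funext_iff, funext_iff]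
  constructor
  · intro h
    have hi2 := h i
    rw [if_pos (Finset.mem_insert_self i T)] at hi2
    unfold cor at hi2
    rw [if_neg hi] at hi2
    by_cases h1 : x i = u i
    · left
      intro c
      by_cases hc : c = i
      · subst hc
        unfold blkT
        rw [if_neg hi]
        exact h1
      · have h2 := h c
        unfold cor at h2
        unfold blkT
        by_cases hcT : c ∈ T
        · rw [if_pos (Finset.mem_insert_of_mem hcT), if_pos hcT] at h2
          rw [if_pos hcT]
          omega
        · have hcI : c ∉ insert i T := by rw [Finset.mem_insert]; tauto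
          rw [if_neg hcI, if_neg hcT] at h2
          rw [if_neg hcT]
          omega
    · right
      intro c
      by_cases hc : c = i
      · subst hc
        unfold blkT
        rw [if_neg hi]
        simp only [Pi.add_apply, EB.un, Pi.single_eq_same]
        omega
      · have h2 := h c
        unfold cor at h2
        unfold blkT
        simp only [Pi.add_apply, EB.un, Pi.single_eq_of_ne hc, add_zero]
        by_cases hcT : c ∈ T
        · rw [if_pos (Finset.mem_insert_of_mem hcT), if_pos hcT] at h2
          rw [if_pos hcT]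
          omega
        · have hcI : c ∉ insert i T := by rw [Finset.mem_insert]; tauto
          rw [if_neg hcI, if_neg hcT] at h2
          rw [if_neg hcT]
          omega
  · intro h c
    unfold cor
    by_cases hc : c = i
    · subst hc
      rw [if_pos (Finset.mem_insert_self c T), if_neg hi]
      rcases h with h | h
      · have h2 := h c
        unfold blkT at h2
        rw [if_neg hi] at h2
        omega
      · have h2 := h c
        unfold blkT at h2
        rw [if_neg hi] at h2
        simp only [Pi.add_apply, EB.un, Pi.single_eq_same] at h2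
        omega
    · have h2 : blkT T x c = u c := by
        rcases h with h | h
        · exact h c
        · have h2 := h c
          simp only [Pi.add_apply, EB.un, Pi.single_eq_of_ne hc, add_zero] at h2
          exact h2
      unfold blkT at h2
      by_cases hcT : c ∈ T
      · rw [if_pos (Finset.mem_insert_of_mem hcT), if_pos hcT]
        rw [if_pos hcT] at h2
        omega
      · have hcI : c ∉ insert i T := by rw [Finset.mem_insert]; tauto
        rw [if_neg hcI, if_neg hcT]
        rw [if_neg hcT] at h2
        omega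

lemma ne_add_un (u : I → ℤ) (i : I) : u ≠ u + EB.un i := by
  intro h
  have := congrFun h i
  simp [EB.un] at this

lemma disj_blocks {T : Finset I} {u v : I → ℤ} (h : u ≠ v) :
    Disjoint (blockT T u) (blockT T v) := by
  rw [Finset.disjoint_left]
  intro x h1 h2
  rw [mem_blockT] at h1 h2
  exact h (h1.symm.trans h2)

/-- double counting with weights -/
lemma double' {α : Type} (A : Finset (I → ℤ)) (F : Finset α) (R : α → Finset (I → ℤ)) (w : I → ℕ)
    (hw : ∀ e ∈ bd A, (F.filter (fun f => e.1 ∈ R f ∧ e.1 + EB.un e.2 ∈ R f)).card ≤ w e.2) :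
    ∑ f ∈ F, EB.G2.inn A (R f) ≤ ∑ i, w i * bi A i := by
  classical
  calc ∑ f ∈ F, EB.G2.inn A (R f)
      = ∑ f ∈ F, ∑ e ∈ bd A, (if e.1 ∈ R f ∧ e.1 + EB.un e.2 ∈ R f then 1 else 0) := by
        apply Finset.sum_congr rfl
        intro f _
        unfold EB.G2.inn
        rw [← bd_eq, ← Finset.card_filter]
    _ = ∑ e ∈ bd A, ∑ f ∈ F, (if e.1 ∈ R f ∧ e.1 + EB.un e.2 ∈ R f then 1 else 0) :=
        Finset.sum_comm
    _ ≤ ∑ e ∈ bd A, w e.2 := by
        apply Finset.sum_le_sum
        intro e he
        rw [← Finset.card_filter]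
        exact hw e he
    _ = ∑ i, ∑ e ∈ bd A with e.2 = i, w e.2 := (Finset.sum_fiberwise _ _ _).symm
    _ = ∑ i, w i * bi A i := by
        apply Finset.sum_congr rfl
        intro i _
        have : ∀ e ∈ (bd A).filter (fun e => e.2 = i), w e.2 = w i := by
          intro e he
          rw [(Finset.mem_filter.1 he).2]
        rw [Finset.sum_congr rfl this, Finset.sum_const, smul_eq_mul, mul_comm]
        rfl

/-- the deviation in a block -/
lemma devT (T : Finset I) (A : Finset (I → ℤ)) (u : I → ℤ) :
    (if u ∈ cgT T A then (blockT T u \ A).card else (A ∩ blockT T u).card) ≤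
      2 * EB.G2.inn A (blockT T u) := by
  have hP := poin_bx T (cor T u) A
  rw [← blockT_eq] at hP
  have hs : (A ∩ blockT T u).card + (blockT T u \ A).card = 2 ^ T.card := by
    rw [Finset.inter_comm, Finset.card_inter_add_card_sdiff, card_blockT]
  have hcg := mem_cgT (T := T) (A := A) (u := u)
  set V := 2 ^ T.card with hV
  have hVpos : 0 < V := pow_pos (by norm_num) _
  split_ifs with h
  · rw [hcg] at h
    have h1 : V * (blockT T u \ A).card ≤ V * (2 * EB.G2.inn A (blockT T u)) := by
      calc V * (blockT T u \ A).card ≤ (2 * (A ∩ blockT T u).card) * (blockT T u \ A).card :=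
            Nat.mul_le_mul_right _ h.le
        _ ≤ _ := hP
        _ = _ := by ring
    exact Nat.le_of_mul_le_mul_left h1 hVpos
  · rw [hcg] at h
    have h2 : V ≤ 2 * (blockT T u \ A).card := by omega
    have h1 : V * (A ∩ blockT T u).card ≤ V * (2 * EB.G2.inn A (blockT T u)) := by
      calc V * (A ∩ blockT T u).card ≤ (2 * (blockT T u \ A).card) * (A ∩ blockT T u).card :=
            Nat.mul_le_mul_right _ h2
        _ = 2 * (A ∩ blockT T u).card * (blockT T u \ A).card := by ring
        _ ≤ _ := hP
        _ = _ := by ring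
    exact Nat.le_of_mul_le_mul_left h1 hVpos

/-- many edges at a coarse boundary face -/
lemma faceT {T : Finset I} {i : I} (hi : i ∉ T) (A : Finset (I → ℤ)) (u : I → ℤ)
    (h : (u, i) ∈ bd (cgT T A)) :
    2 ^ T.card ≤ 8 * EB.G2.inn A (bx (insert i T) (cor T u)) := by
  rw [mem_bd] at h
  simp only [mem_cgT] at h
  have hP := poin_bx (insert i T) (cor T u) A
  rw [Finset.card_insert_of_notMem hi] at hP
  set V := 2 ^ T.card with hV
  set B := bx (insert i T) (cor T u) with hB
  have hsub := two_eq hi u
  rw [← hB] at hsub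
  have hs : ∀ q' : I → ℤ, (A ∩ blockT T q').card + (blockT T q' \ A).card = V := by
    intro q'
    rw [Finset.inter_comm, Finset.card_inter_add_card_sdiff, card_blockT]
  have hsub1 : blockT T u ⊆ B := by rw [hsub]; exact Finset.subset_union_left
  have hsub2 : blockT T (u + EB.un i) ⊆ B := by rw [hsub]; exact Finset.subset_union_right
  have key : V ≤ 2 * (A ∩ B).card ∧ V ≤ 2 * (B \ A).card := by
    have e1 : (A ∩ blockT T u).card ≤ (A ∩ B).card :=
      Finset.card_le_card (Finset.inter_subset_inter_left hsub1)
    have e2 : (A ∩ blockT T (u + EB.un i)).card ≤ (A ∩ B).card :=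
      Finset.card_le_card (Finset.inter_subset_inter_left hsub2)
    have e3 : (blockT T u \ A).card ≤ (B \ A).card :=
      Finset.card_le_card (Finset.sdiff_subset_sdiff hsub1 (Finset.Subset.refl _))
    have e4 : (blockT T (u + EB.un i) \ A).card ≤ (B \ A).card :=
      Finset.card_le_card (Finset.sdiff_subset_sdiff hsub2 (Finset.Subset.refl _))
    have e5 := hs u
    have e6 := hs (u + EB.un i)
    change ¬ (V < 2 * (A ∩ blockT T u).card ↔ V < 2 * (A ∩ blockT T (u + EB.un i)).card) at h
    by_cases h1 : V < 2 * (A ∩ blockT T u).card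
    · have h2 : ¬ V < 2 * (A ∩ blockT T (u + EB.un i)).card :=
        fun h3 => h ⟨fun _ => h3, fun _ => h1⟩
      omega
    · have h2 : V < 2 * (A ∩ blockT T (u + EB.un i)).card := by
        by_contra h3
        exact h ⟨fun h4 => absurd h4 h1, fun h4 => absurd h4 h3⟩
      omega
  obtain ⟨k1, k2⟩ := key
  have hVpos : 0 < V := pow_pos (by norm_num) _
  have h3 : V * V ≤ V * (8 * EB.G2.inn A B) := by
    calc V * V ≤ (2 * (A ∩ B).card) * (2 * (B \ A).card) := Nat.mul_le_mul k1 k2
      _ = 2 * (2 * (A ∩ B).card * (B \ A).card) := by ring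
      _ ≤ 2 * (2 ^ (T.card + 1) * 2 * EB.G2.inn A B) := Nat.mul_le_mul_left _ hP
      _ = V * (8 * EB.G2.inn A B) := by rw [hV, pow_succ]; ring
  exact Nat.le_of_mul_le_mul_left h3 hVpos

/-- the boundary of the coarse-grained set in a new direction -/
lemma bi_cg {T : Finset I} {i : I} (hi : i ∉ T) (A : Finset (I → ℤ)) :
    2 ^ T.card * bi (cgT T A) i ≤ 16 * (bi A i + ∑ j ∈ T, bi A j) := by
  classical
  set F := (bd (cgT T A)).filter (fun e => e.2 = i) with hF
  have h1 := double' A F (fun f => bx (insert i T) (cor T f.1))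
    (fun j => if j ∈ insert i T then 2 else 0) (by
      intro e _
      by_cases he : e.2 ∈ insert i T
      · rw [if_pos he]
        have hsub : F.filter (fun f => e.1 ∈ bx (insert i T) (cor T f.1) ∧
            e.1 + EB.un e.2 ∈ bx (insert i T) (cor T f.1)) ⊆
            {(blkT T e.1, i), (blkT T e.1 - EB.un i, i)} := by
          intro f hf
          obtain ⟨hfF, h2, -⟩ := Finset.mem_filter.mp hf
          have hfi : f.2 = i := (Finset.mem_filter.mp hfF).2
          rw [two_eq hi, Finset.mem_union, mem_blockT, mem_blockT] at h2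
          rw [Finset.mem_insert, Finset.mem_singleton]
          rcases h2 with h2 | h2
          · left
            rw [h2, ← hfi]
          · right
            rw [h2, add_sub_cancel_right, ← hfi]
        exact (Finset.card_le_card hsub).trans Finset.card_le_two
      · rw [if_neg he, Nat.le_zero, Finset.card_eq_zero, Finset.filter_eq_empty_iff]
        rintro f - ⟨h2, h3⟩
        exact he (dir_bx h2 h3))
  have h2 : ∑ j, (if j ∈ insert i T then 2 else 0) * bi A j = 2 * (bi A i + ∑ j ∈ T, bi A j) := by
    rw [← Finset.sum_insert hi, Finset.mul_sum]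
    simp_rw [ite_mul, zero_mul]
    rw [Finset.sum_ite_mem, Finset.univ_inter]
  rw [h2] at h1
  calc 2 ^ T.card * bi (cgT T A) i = ∑ _f ∈ F, 2 ^ T.card := by
        rw [Finset.sum_const, smul_eq_mul, mul_comm]
        rfl
    _ ≤ ∑ f ∈ F, 8 * EB.G2.inn A (bx (insert i T) (cor T f.1)) := by
        apply Finset.sum_le_sum
        intro f hf
        obtain ⟨hf1, hf2⟩ := Finset.mem_filter.mp hf
        apply faceT hi A f.1
        rw [← hf2]
        exact hf1
    _ = 8 * ∑ f ∈ F, EB.G2.inn A (bx (insert i T) (cor T f.1)) := by rw [Finset.mul_sum]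
    _ ≤ 8 * (2 * (bi A i + ∑ j ∈ T, bi A j)) := Nat.mul_le_mul_left _ h1
    _ = _ := by ring

/-- a block for `insert i T` is the union of two blocks for `T` -/
lemma block_insert {T : Finset I} {i : I} (hi : i ∉ T) (w : I → ℤ) :
    blockT (insert i T) w = blockT T (Function.update w i (2 * w i)) ∪
      blockT T (Function.update w i (2 * w i) + EB.un i) := by
  rw [← two_eq hi, blockT_eq]
  congr 1
  funext c
  unfold cor
  by_cases hc : c = i
  · subst hc
    rw [if_pos (Finset.mem_insert_self c T), if_neg hi, Function.update_self]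
  · rw [Function.update_of_ne hc]
    by_cases hcT : c ∈ T
    · rw [if_pos (Finset.mem_insert_of_mem hcT), if_pos hcT]
    · have hcI : c ∉ insert i T := by rw [Finset.mem_insert]; tauto
      rw [if_neg hcI, if_neg hcT]

lemma card_insert_block {T : Finset I} {i : I} (hi : i ∉ T) (w : I → ℤ) (A : Finset (I → ℤ)) :
    (A ∩ blockT (insert i T) w).card = (A ∩ blockT T (Function.update w i (2 * w i))).card +
      (A ∩ blockT T (Function.update w i (2 * w i) + EB.un i)).card := by
  rw [block_insert hi, Finset.inter_union_distrib_left, Finset.card_union_of_disjoint]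
  exact (disj_blocks (ne_add_un _ i)).mono Finset.inter_subset_right Finset.inter_subset_right

/-- the two approximations -/
lemma ex_diff {T : Finset I} {i : I} (hi : i ∉ T) (A : Finset (I → ℤ)) :
    (exT T A ∆ exT (insert i T) A).card ≤ 2 ^ T.card * bi (cgT T A) i := by
  classical
  set F := (bd (cgT T A)).filter (fun e => e.2 = i) with hF
  let W : (I → ℤ) → (I → ℤ) := fun v => Function.update v i (v i / 2)
  let Dd : (I → ℤ) × I → Finset (I → ℤ) := fun f =>
    if (f.1 ∈ cgT T A ↔ W f.1 ∈ cgT (insert i T) A) then blockT T (f.1 + EB.un i)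
    else blockT T f.1
  have hsub : exT T A ∆ exT (insert i T) A ⊆ F.biUnion Dd := by
    intro x hx
    set w := blkT (insert i T) x with hw
    set u₀ := Function.update w i (2 * w i) with hu₀
    have hne : ¬ (blkT T x ∈ cgT T A ↔ w ∈ cgT (insert i T) A) := by
      rw [Finset.mem_symmDiff, mem_exT, mem_exT] at hx
      tauto
    have hxb : x ∈ blockT (insert i T) w := mem_blockT.2 rfl
    rw [block_insert hi, Finset.mem_union, mem_blockT, mem_blockT] at hxb
    have hW : W u₀ = w := by
      show Function.update u₀ i (u₀ i / 2) = w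
      rw [hu₀, Function.update_self, Function.update_idem,
        Int.mul_ediv_cancel_left _ (by norm_num : (2 : ℤ) ≠ 0), Function.update_eq_self]
    have hcount := card_insert_block hi w A
    rw [← hu₀] at hcount hxb
    have hcw := mem_cgT (T := insert i T) (A := A) (u := w)
    rw [Finset.card_insert_of_notMem hi, pow_succ, hcount] at hcw
    have hc1 := mem_cgT (T := T) (A := A) (u := u₀)
    have hc2 := mem_cgT (T := T) (A := A) (u := u₀ + EB.un i)
    have hface : ¬ (u₀ ∈ cgT T A ↔ u₀ + EB.un i ∈ cgT T A) := by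
      intro hiff
      apply hne
      by_cases h1 : u₀ ∈ cgT T A
      · have h2 := hiff.1 h1
        have h3 : w ∈ cgT (insert i T) A := by
          rw [hcw]
          rw [hc1] at h1
          rw [hc2] at h2
          omega
        have h4 : blkT T x ∈ cgT T A := by
          rcases hxb with h | h
          · rw [h]; exact h1
          · rw [h]; exact h2
        exact ⟨fun _ => h3, fun _ => h4⟩
      · have h2 : u₀ + EB.un i ∉ cgT T A := fun h => h1 (hiff.2 h)
        have h3 : w ∉ cgT (insert i T) A := by
          rw [hcw]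
          rw [hc1] at h1
          rw [hc2] at h2
          omega
        have h4 : blkT T x ∉ cgT T A := by
          rcases hxb with h | h
          · rw [h]; exact h1
          · rw [h]; exact h2
        exact ⟨fun h => absurd h h4, fun h => absurd h h3⟩
    rw [Finset.mem_biUnion]
    refine ⟨(u₀, i), ?_, ?_⟩
    · rw [hF, Finset.mem_filter, mem_bd]
      exact ⟨hface, rfl⟩
    · show x ∈ (if (u₀ ∈ cgT T A ↔ W u₀ ∈ cgT (insert i T) A) then blockT T (u₀ + EB.un i)
        else blockT T u₀)
      rw [hW]
      rcases hxb with h | h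
      · rw [h] at hne
        rw [if_neg hne, mem_blockT]
        exact h
      · rw [h] at hne
        rw [if_pos (by tauto), mem_blockT]
        exact h
  refine (Finset.card_le_card hsub).trans ?_
  refine (Finset.card_biUnion_le_card_mul _ _ (2 ^ T.card) ?_).trans ?_
  · intro f _
    simp only [Dd]
    split_ifs
    · rw [card_blockT]
    · rw [card_blockT]
  · rw [mul_comm]
    exact le_of_eq rfl

end GT

open GT Pool.Agent.K9h1 in
theorem t_G0 : S_G0 := by
  intro I _ _ A T
  classical
  set F := A.image (blkT T) with hF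
  have hcF : cgT T A ⊆ F := Finset.filter_subset _ _
  have h1 := double' A F (fun q => blockT T q) (fun j => if j ∈ T then 1 else 0) (by
    intro e _
    by_cases he : e.2 ∈ T
    · rw [if_pos he]
      have hsub : F.filter (fun q => e.1 ∈ blockT T q ∧ e.1 + EB.un e.2 ∈ blockT T q) ⊆
          {blkT T e.1} := by
        intro q hq
        have h2 := (Finset.mem_filter.mp hq).2.1
        rw [mem_blockT] at h2
        rw [Finset.mem_singleton, h2]
      exact (Finset.card_le_card hsub).trans (by simp)
    · rw [if_neg he, Nat.le_zero, Finset.card_eq_zero, Finset.filter_eq_empty_iff]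
      rintro f - ⟨h2, h3⟩
      rw [blockT_eq] at h2 h3
      exact he (dir_bx h2 h3))
  have hw : ∑ j, (if j ∈ T then 1 else 0) * bi A j = ∑ j ∈ T, bi A j := by
    simp_rw [ite_mul, zero_mul, one_mul]
    rw [Finset.sum_ite_mem, Finset.univ_inter]
  rw [hw] at h1
  have h2 : (A \ exT T A).card ≤
      ∑ q ∈ F.filter (fun q => q ∉ cgT T A), (A ∩ blockT T q).card := by
    refine le_trans (Finset.card_le_card ?_) Finset.card_biUnion_le
    intro x hx
    rw [Finset.mem_sdiff, mem_exT] at hx
    exact Finset.mem_biUnion.mpr ⟨blkT T x, Finset.mem_filter.mpr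
      ⟨Finset.mem_image_of_mem _ hx.1, hx.2⟩, Finset.mem_inter.mpr ⟨hx.1, mem_blockT.mpr rfl⟩⟩
  have h3 : (exT T A \ A).card ≤
      ∑ q ∈ F.filter (fun q => q ∈ cgT T A), (blockT T q \ A).card := by
    refine le_trans (Finset.card_le_card ?_) Finset.card_biUnion_le
    intro x hx
    rw [Finset.mem_sdiff, mem_exT] at hx
    exact Finset.mem_biUnion.mpr ⟨blkT T x, Finset.mem_filter.mpr ⟨hcF hx.1, hx.1⟩,
      Finset.mem_sdiff.mpr ⟨mem_blockT.mpr rfl, hx.2⟩⟩
  have h4 : ∑ q ∈ F.filter (fun q => q ∉ cgT T A), (A ∩ blockT T q).card +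
      ∑ q ∈ F.filter (fun q => q ∈ cgT T A), (blockT T q \ A).card =
      ∑ q ∈ F, (if q ∈ cgT T A then (blockT T q \ A).card else (A ∩ blockT T q).card) := by
    rw [Finset.sum_ite, add_comm]
  have h5 : (A ∆ exT T A).card ≤ (A \ exT T A).card + (exT T A \ A).card :=
    Finset.card_union_le _ _
  calc _ ≤ _ := h5
    _ ≤ _ := Nat.add_le_add h2 h3
    _ = _ := h4
    _ ≤ ∑ q ∈ F, 2 * EB.G2.inn A (blockT T q) := Finset.sum_le_sum fun q _ => devT T A q
    _ = 2 * ∑ q ∈ F, EB.G2.inn A (blockT T q) := by rw [Finset.mul_sum]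
    _ ≤ 2 * ∑ j ∈ T, bi A j := Nat.mul_le_mul_left _ h1
    _ ≤ _ := Nat.mul_le_mul_right _ (by norm_num)

theorem t_G1 : S_G1 := by
  intro I _ _ A T i hi
  exact (GT.bi_cg hi A).trans (Nat.mul_le_mul_right _ (by norm_num))

theorem t_G2 : S_G2 := by
  intro I _ _ A T i hi
  exact ((GT.ex_diff hi A).trans (GT.bi_cg hi A)).trans (Nat.mul_le_mul_right _ (by norm_num))

end Pool.Agent.K9h96.EA
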