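import Pool.Agent.K9h96.EA.LM3

/-! Leaf LM, part 4 (helper96): the count. -/

set_option autoImplicit false
set_option linter.unusedSectionVars false

namespace Pool.Agent.K9h96.EA

namespace LM

variable {I : Type} [Fintype I] [DecidableEq I]

/-- sum of a geometric series over the integers -/
theorem sum_geom (D M : ℕ) (hD : 1 ≤ D) :
    ∑ j ∈ Finset.Icc (-(M : ℤ)) M, ((D : ℝ) / (D + 1)) ^ j.natAbs ≤ 2 * (D + 1) := by
  classical
  set x : ℝ := (D : ℝ) / (D + 1) with hx
  have hD0 : (0 : ℝ) < (D : ℝ) + 1 := by positivity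
  have hx0 : 0 ≤ x := by positivity
  have hx1 : x < 1 := by rw [hx, div_lt_one hD0]; linarith
  have hsub : Finset.Icc (-(M : ℤ)) M ⊆ (Finset.range (M + 1)).image (fun k : ℕ => (k : ℤ)) ∪
      (Finset.range (M + 1)).image (fun k : ℕ => -(k : ℤ)) := by
    intro j hj
    rw [Finset.mem_Icc] at hj
    rw [Finset.mem_union, Finset.mem_image, Finset.mem_image]
    rcases le_or_gt 0 j with h | h
    · exact Or.inl ⟨j.natAbs, Finset.mem_range.mpr (by omega), by omega⟩
    · exact Or.inr ⟨j.natAbs, Finset.mem_range.mpr (by omega), by omega⟩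
  have hnn : ∀ j : ℤ, 0 ≤ x ^ j.natAbs := fun j => pow_nonneg hx0 _
  have hgeo : ∑ k ∈ Finset.range (M + 1), x ^ k ≤ D + 1 := by
    have h1 : (1 - x) * ∑ k ∈ Finset.range (M + 1), x ^ k ≤ 1 := by
      have h2 := geom_sum_mul x (M + 1)
      have h3 : 0 ≤ x ^ (M + 1) := pow_nonneg hx0 _
      nlinarith
    have h4 : 1 - x = 1 / ((D : ℝ) + 1) := by rw [hx]; field_simp; ring
    rw [h4] at h1
    have h5 := mul_le_mul_of_nonneg_left h1 hD0.le
    rw [← mul_assoc, mul_one_div_cancel hD0.ne', one_mul, mul_one] at h5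
    exact h5
  calc ∑ j ∈ Finset.Icc (-(M : ℤ)) M, x ^ j.natAbs
      ≤ ∑ j ∈ (Finset.range (M + 1)).image (fun k : ℕ => (k : ℤ)) ∪
          (Finset.range (M + 1)).image (fun k : ℕ => -(k : ℤ)), x ^ j.natAbs :=
        Finset.sum_le_sum_of_subset_of_nonneg hsub fun j _ _ => hnn j
    _ ≤ ∑ j ∈ (Finset.range (M + 1)).image (fun k : ℕ => (k : ℤ)), x ^ j.natAbs +
          ∑ j ∈ (Finset.range (M + 1)).image (fun k : ℕ => -(k : ℤ)), x ^ j.natAbs := by
        rw [← Finset.sum_union_inter]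
        have : 0 ≤ ∑ j ∈ (Finset.range (M + 1)).image (fun k : ℕ => (k : ℤ)) ∩
          (Finset.range (M + 1)).image (fun k : ℕ => -(k : ℤ)), x ^ j.natAbs :=
          Finset.sum_nonneg fun j _ => hnn j
        linarith
    _ = ∑ k ∈ Finset.range (M + 1), x ^ k + ∑ k ∈ Finset.range (M + 1), x ^ k := by
        rw [Finset.sum_image (fun a _ b _ h => by simpa using h),
          Finset.sum_image (fun a _ b _ h => by simpa using h)]
        simp
    _ ≤ 2 * (D + 1) := by linarith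

/-- the vertical displacements of the codes -/
noncomputable def dels (n M : ℕ) : Finset (Fin n → ℤ) :=
  (Fintype.piFinset fun _ : Fin n => Finset.Icc (-(M : ℤ)) M).filter
    fun δ => ∑ k, (δ k).natAbs ≤ M

theorem card_dels (D n M : ℕ) (hD : 1 ≤ D) :
    ((dels n M).card : ℝ) ≤ (1 + 1 / (D : ℝ)) ^ M * (2 * (D + 1)) ^ n := by
  set x : ℝ := (D : ℝ) / (D + 1) with hx
  have hDp : (0 : ℝ) < D := by exact_mod_cast hD
  have hD0 : (0 : ℝ) < (D : ℝ) + 1 := by positivity
  have hx0 : 0 < x := by positivity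
  have hx1 : x ≤ 1 := by rw [hx, div_le_one hD0]; linarith
  have h1 : ((dels n M).card : ℝ) * x ^ M ≤ (2 * (D + 1)) ^ n := by
    calc ((dels n M).card : ℝ) * x ^ M = ∑ δ ∈ dels n M, x ^ M := by
          rw [Finset.sum_const, nsmul_eq_mul]
      _ ≤ ∑ δ ∈ dels n M, ∏ k, x ^ (δ k).natAbs := by
          refine Finset.sum_le_sum fun δ hδ => ?_
          rw [Finset.prod_pow_eq_pow_sum]
          exact pow_le_pow_of_le_one hx0.le hx1 (Finset.mem_filter.mp hδ).2
      _ ≤ ∑ δ ∈ Fintype.piFinset fun _ : Fin n => Finset.Icc (-(M : ℤ)) M,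
            ∏ k, x ^ (δ k).natAbs :=
          Finset.sum_le_sum_of_subset_of_nonneg (Finset.filter_subset _ _)
            fun δ _ _ => Finset.prod_nonneg fun k _ => pow_nonneg hx0.le _
      _ = ∏ k : Fin n, ∑ j ∈ Finset.Icc (-(M : ℤ)) M, x ^ j.natAbs :=
          (Finset.prod_univ_sum (fun _ : Fin n => Finset.Icc (-(M : ℤ)) M)
            (fun _ j => x ^ j.natAbs)).symm
      _ ≤ ∏ k : Fin n, (2 * ((D : ℝ) + 1)) :=
          Finset.prod_le_prod (fun k _ => Finset.sum_nonneg fun j _ => pow_nonneg hx0.le _)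
            fun k _ => sum_geom D M hD
      _ = (2 * (D + 1)) ^ n := by rw [Finset.prod_const, Finset.card_univ, Fintype.card_fin]
  have h2 : (1 + 1 / (D : ℝ)) ^ M * x ^ M = 1 := by
    rw [← mul_pow, hx]
    have : (1 + 1 / (D : ℝ)) * (D / (D + 1)) = 1 := by field_simp
    rw [this, one_pow]
  have h3 : 0 < (1 + 1 / (D : ℝ)) ^ M := by positivity
  calc ((dels n M).card : ℝ) = (1 + 1 / (D : ℝ)) ^ M * (((dels n M).card : ℝ) * x ^ M) := by
        rw [mul_comm ((dels n M).card : ℝ), ← mul_assoc, h2, one_mul]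
    _ ≤ (1 + 1 / (D : ℝ)) ^ M * (2 * (D + 1)) ^ n := mul_le_mul_of_nonneg_left h1 h3.le

/-- the codes determine the set -/
theorem code_inj {A B : Finset (I → ℤ)} {b n t : ℕ} {v : I} {f g : ℕ → (I → ℤ)}
    (hA : Code A b n v t f) (hB : Code B b n v t g)
    (h1 : ∀ k, k < n → f (k + 1) - f k - (f (k + 1) v - f k v) • uv v =
      g (k + 1) - g k - (g (k + 1) v - g k v) • uv v)
    (h2 : ∀ k, k < n → f (k + 1) v - f k v = g (k + 1) v - g k v) : A = B := by
  have h : ∀ k, k ≤ n → f k = g k := by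
    intro k
    induction k with
    | zero => intro _; rw [hA.start, hB.start]
    | succ k ih =>
      intro hk
      have e1 := h1 k (by omega)
      have e2 := h2 k (by omega)
      rw [e2, sub_left_inj, ih (by omega), sub_left_inj] at e1
      exact e1
  apply eq_of_VV (v := v)
  intro x
  rw [hA.cover, hB.cover]
  constructor
  · rintro ⟨k, hk, rfl⟩; exact ⟨k, hk, (h k hk).symm⟩
  · rintro ⟨k, hk, rfl⟩; exact ⟨k, hk, h k hk⟩

/-- the set of the codes -/
noncomputable def codes (I : Type) [Fintype I] [DecidableEq I] (b n : ℕ) :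
    Finset (I × ℕ × (Fin n → (I → ℤ)) × (Fin n → ℤ)) :=
  Finset.univ ×ˢ Finset.range (b + 1) ×ˢ (Fintype.piFinset fun _ : Fin n => Hs I) ×ˢ dels n (8 * b)

theorem card_le_codes (b : ℕ) (h2 : 2 ≤ Fintype.card I) (𝓕 : Finset (Finset (I → ℤ)))
    (h𝓕 : ∀ A ∈ 𝓕, Region A ∧ (bd A).card = b) :
    𝓕.card ≤ (codes I b (2 * (b / Fintype.card I))).card := by
  classical
  set n := 2 * (b / Fintype.card I) with hn
  have hex : ∀ A : Finset (I → ℤ), ∃ c : I × ℕ × (ℕ → (I → ℤ)),
      A ∈ 𝓕 → Code A b n c.1 c.2.1 c.2.2 := by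
    intro A
    by_cases hA : A ∈ 𝓕
    · obtain ⟨hR, hb⟩ := h𝓕 A hA
      obtain ⟨v, t, f, hc⟩ := exists_code h2 hR
      rw [hb, ← hn] at hc
      exact ⟨(v, t, f), fun _ => hc⟩
    · have : Nonempty I := Fintype.card_pos_iff.mp (by omega)
      exact ⟨(Classical.arbitrary I, 0, fun _ => 0), fun h => absurd h hA⟩
  choose c hc using hex
  let F : Finset (I → ℤ) → I × ℕ × (Fin n → (I → ℤ)) × (Fin n → ℤ) := fun A =>
    ((c A).1, (c A).2.1,
      fun k => (c A).2.2 (k + 1) - (c A).2.2 k -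
        ((c A).2.2 (k + 1) (c A).1 - (c A).2.2 k (c A).1) • uv (c A).1,
      fun k => (c A).2.2 (k + 1) (c A).1 - (c A).2.2 k (c A).1)
  apply Finset.card_le_card_of_injOn F
  · intro A hA
    have h := hc A hA
    have hsum : ∑ k : Fin n, ((c A).2.2 (k + 1) (c A).1 - (c A).2.2 k (c A).1).natAbs ≤ 8 * b := by
      have h3 := h.sum
      rw [Finset.sum_range] at h3
      exact h3
    show F A ∈ codes I b n
    unfold codes
    rw [Finset.mem_product, Finset.mem_product, Finset.mem_product]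
    refine ⟨Finset.mem_univ _, Finset.mem_range.mpr (Nat.lt_succ_of_le h.le), ?_, ?_⟩
    · rw [Fintype.mem_piFinset]
      exact fun k => h.step k
    · unfold dels
      rw [Finset.mem_filter, Fintype.mem_piFinset]
      refine ⟨fun k => ?_, hsum⟩
      have h4 := Finset.single_le_sum (f := fun k : Fin n =>
        ((c A).2.2 (k + 1) (c A).1 - (c A).2.2 k (c A).1).natAbs) (fun k _ => Nat.zero_le _)
        (Finset.mem_univ k)
      have h5 : ((c A).2.2 (k + 1) (c A).1 - (c A).2.2 k (c A).1).natAbs ≤ 8 * b :=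
        h4.trans hsum
      show (c A).2.2 (k + 1) (c A).1 - (c A).2.2 k (c A).1 ∈ _
      rw [Finset.mem_Icc]
      constructor <;> omega
  · intro A hA B hB hAB
    have hAB' : F A = F B := hAB
    have e1 : (F A).1 = (F B).1 := congrArg Prod.fst hAB'
    have e2 : (F A).2.1 = (F B).2.1 := congrArg (fun z => z.2.1) hAB'
    have e3 : (F A).2.2.1 = (F B).2.2.1 := congrArg (fun z => z.2.2.1) hAB'
    have e4 : (F A).2.2.2 = (F B).2.2.2 := congrArg (fun z => z.2.2.2) hAB'
    simp only [F] at e1 e2 e3 e4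
    have hA' := hc A hA
    have hB' := hc B hB
    rw [← e1, ← e2] at hB'
    rw [← e1] at e3 e4
    exact code_inj hA' hB' (fun k hk => congrFun e3 ⟨k, hk⟩) (fun k hk => congrFun e4 ⟨k, hk⟩)

theorem card_codes (b n : ℕ) (h2 : 2 ≤ Fintype.card I) :
    ((codes I b n).card : ℝ) ≤ Fintype.card I * (b + 1) *
      (((2 * (Fintype.card I : ℝ) + 1) ^ 2) ^ n * ((1 + 1 / (Fintype.card I : ℝ)) ^ (8 * b) *
        (2 * (Fintype.card I + 1)) ^ n)) := by
  unfold codes
  rw [Finset.card_product, Finset.card_product, Finset.card_product, Finset.card_univ,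
    Finset.card_range, Fintype.card_piFinset_const]
  push_cast
  have h1 := card_dels (Fintype.card I) n (8 * b) (by omega)
  have h3 : (((Hs I).card : ℝ)) ≤ (2 * (Fintype.card I : ℝ) + 1) ^ 2 := by
    exact_mod_cast card_Hs (I := I)
  have h4 : ((Hs I).card : ℝ) ^ n ≤ ((2 * (Fintype.card I : ℝ) + 1) ^ 2) ^ n :=
    pow_le_pow_left₀ (by positivity) h3 n
  calc (Fintype.card I : ℝ) * ((b + 1) * (((Hs I).card : ℝ) ^ n * ((dels n (8 * b)).card : ℝ)))
      ≤ (Fintype.card I : ℝ) * ((b + 1) * (((2 * (Fintype.card I : ℝ) + 1) ^ 2) ^ n *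
          ((1 + 1 / (Fintype.card I : ℝ)) ^ (8 * b) * (2 * (Fintype.card I + 1)) ^ n))) := by
        gcongr
    _ = _ := by ring

end LM

theorem t_LM : S_LM := by
  refine ⟨40, by norm_num, ?_⟩
  intro I _ _ b h2 𝓕 h𝓕
  rcases 𝓕.eq_empty_or_nonempty with hE | ⟨A₀, hA₀⟩
  · rw [hE]; simp [Real.exp_nonneg]
  -- `b ≥ 2 D`
  have hb : 2 * Fintype.card I ≤ b := by
    obtain ⟨h1, h3⟩ := h𝓕 A₀ hA₀
    rw [← h3]
    exact two_mul_card_le_bd ⟨0, h1.1⟩
  have h1 := LM.card_le_codes b h2 𝓕 h𝓕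
  have h3 := LM.card_codes (I := I) b (2 * (b / Fintype.card I)) h2
  have h4 : (𝓕.card : ℝ) ≤ ((LM.codes I b (2 * (b / Fintype.card I))).card : ℝ) := by
    exact_mod_cast h1
  refine (h4.trans h3).trans ?_
  clear h1 h3 h4
  set D : ℝ := (Fintype.card I : ℝ) with hD
  set n : ℕ := 2 * (b / Fintype.card I) with hn
  have hD2 : 2 ≤ D := by rw [hD]; exact_mod_cast h2
  have hD0 : 0 < D := by linarith
  have hbD : 2 * D ≤ (b : ℝ) := by rw [hD]; exact_mod_cast hb
  have hlog2 : Real.log 2 ≤ Real.log D := Real.log_le_log (by norm_num) hD2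
  have hl2 : 0.6931 < Real.log 2 := by have := Real.log_two_gt_d9; linarith
  set s : ℝ := (b : ℝ) / D with hs
  have hs2 : 2 ≤ s := by rw [hs, le_div_iff₀ hD0]; exact hbD
  have hns : (n : ℝ) ≤ 2 * s := by
    rw [hn, hs]
    push_cast
    have : ((b / Fintype.card I : ℕ) : ℝ) ≤ (b : ℝ) / D := Nat.cast_div_le
    linarith
  have hbs : (b : ℝ) = s * D := by rw [hs]; field_simp
  have hlD : 0 < Real.log D := by linarith
  -- the factors
  have f1 : D ≤ Real.exp (Real.log D) := by rw [Real.exp_log hD0]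
  have f2 : (b : ℝ) + 1 ≤ Real.exp (Real.log 2 + Real.log s + Real.log D) := by
    rw [Real.exp_add, Real.exp_add, Real.exp_log (by norm_num), Real.exp_log (by linarith),
      Real.exp_log hD0, hbs]
    nlinarith
  have hDcube : 2 * D + 1 ≤ D ^ 3 := by nlinarith [sq_nonneg (D - 2), mul_pos hD0 hD0]
  have hDcube' : 2 * (D + 1) ≤ D ^ 3 := by nlinarith [sq_nonneg (D - 2), mul_pos hD0 hD0]
  have f3 : ((2 * D + 1) ^ 2) ^ n * (2 * (D + 1)) ^ n ≤ Real.exp (9 * Real.log D * n) := by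
    have e1 : Real.exp (9 * Real.log D * n) = (D ^ 9) ^ n := by
      rw [mul_comm (9 * Real.log D), Real.exp_nat_mul, mul_comm (9 : ℝ), Real.exp_mul,
        Real.exp_log hD0]
      norm_cast
    rw [e1, ← mul_pow]
    apply pow_le_pow_left₀ (by positivity)
    calc (2 * D + 1) ^ 2 * (2 * (D + 1)) ≤ (D ^ 3) ^ 2 * D ^ 3 := by gcongr
      _ = D ^ 9 := by ring
  have f4 : (1 + 1 / D) ^ (8 * b) ≤ Real.exp (8 * s) := by
    have e1 : 1 + 1 / D ≤ Real.exp (1 / D) := by
      have := Real.add_one_le_exp (1 / D); linarith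
    calc (1 + 1 / D) ^ (8 * b) ≤ (Real.exp (1 / D)) ^ (8 * b) :=
          pow_le_pow_left₀ (by positivity) e1 _
      _ = Real.exp (8 * s) := by
          rw [← Real.exp_nat_mul]
          congr 1
          push_cast
          rw [hs]; ring
  have hlogs : Real.log s ≤ s := (Real.log_le_sub_one_of_pos (by linarith)).trans (by linarith)
  calc D * ((b : ℝ) + 1) * (((2 * D + 1) ^ 2) ^ n * ((1 + 1 / D) ^ (8 * b) * (2 * (D + 1)) ^ n))
      = D * ((b : ℝ) + 1) * ((1 + 1 / D) ^ (8 * b) *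
          (((2 * D + 1) ^ 2) ^ n * (2 * (D + 1)) ^ n)) := by ring
    _ ≤ Real.exp (Real.log D) * Real.exp (Real.log 2 + Real.log s + Real.log D) *
          (Real.exp (8 * s) * Real.exp (9 * Real.log D * n)) := by
        gcongr
    _ = Real.exp (Real.log D + (Real.log 2 + Real.log s + Real.log D) +
          (8 * s + 9 * Real.log D * n)) := by
        rw [← Real.exp_add, ← Real.exp_add, ← Real.exp_add]
    _ ≤ Real.exp (40 * Real.log D / D * b) := by
        apply Real.exp_le_exp.mpr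
        have e1 : 40 * Real.log D / D * b = 40 * Real.log D * s := by rw [hs]; ring
        rw [e1]
        have e2 : 9 * Real.log D * n ≤ 18 * (Real.log D * s) := by nlinarith
        have e3 : s ≤ 1.5 * (Real.log D * s) := by nlinarith
        have e4 : Real.log D ≤ 0.5 * (Real.log D * s) := by nlinarith
        nlinarith

end Pool.Agent.K9h96.EA
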