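import Pool.Agent.K9h96.EA.Stm2
import Pool.Agent.K9h96.EA.LM
import Pool.Agent.K9h1.EB.Geo2

/-! Leaf G3 (helper96): number of the coarse-grained regions (blocks with side `2` in a few
directions). -/

set_option autoImplicit false
set_option linter.unusedSectionVars false

namespace Pool.Agent.K9h96.EA

namespace Gt

open LM

variable {I : Type} [Fintype I] [DecidableEq I]

/-- the `ℓ¹` distance -/
def l1 (x y : I → ℤ) : ℕ := ∑ c, (x c - y c).natAbs

theorem l1_self (x : I → ℤ) : l1 x x = 0 := by simp [l1]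

theorem l1_comm (x y : I → ℤ) : l1 x y = l1 y x := by
  unfold l1; exact Finset.sum_congr rfl fun c _ => by omega

theorem l1_tri (x y z : I → ℤ) : l1 x z ≤ l1 x y + l1 y z := by
  unfold l1
  rw [← Finset.sum_add_distrib]
  exact Finset.sum_le_sum fun c _ => by omega

theorem l1_blkT (T : Finset I) (x y : I → ℤ) : l1 (blkT T x) (blkT T y) ≤ l1 x y := by
  unfold l1
  refine Finset.sum_le_sum fun c _ => ?_
  unfold blkT
  split_ifs
  · omega
  · exact le_rfl

theorem l1_uv (x : I → ℤ) (i : I) : l1 (x + uv i) x = 1 := by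
  unfold l1
  have h : ∀ c, ((x + uv i) c - x c).natAbs = if c = i then 1 else 0 := by
    intro c
    by_cases hc : c = i
    · subst hc; simp [uv]
    · simp [uv, hc]
  rw [Finset.sum_congr rfl fun c _ => h c]
  simp

open Classical in
/-- cochain of a set of boundary edges -/
noncomputable def ch (W : Finset ((I → ℤ) × I)) (x : I → ℤ) (i : I) : ZMod 2 :=
  if (x, i) ∈ W then 1 else 0

theorem ch_closed {A : Finset (I → ℤ)} {W : Finset ((I → ℤ) × I)} (hW : W ⊆ bd A)
    (hcl : ∀ p ∈ W, ∀ q ∈ bd A, l1 p.1 q.1 ≤ 2 → q ∈ W) (x : I → ℤ) (i j : I) :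
    ch W x i + ch W (x + uv i) j = ch W x j + ch W (x + uv j) i := by
  have hx1 : ∀ y, (y = x ∨ y = x + uv i ∨ y = x + uv j) → l1 y x ≤ 1 := by
    rintro y (rfl | rfl | rfl)
    · rw [l1_self]; omega
    · rw [l1_uv]
    · rw [l1_uv]
  obtain ⟨t, ht⟩ : ∃ t : ZMod 2, ∀ p ∈ bd A,
      (p.1 = x ∨ p.1 = x + uv i ∨ p.1 = x + uv j) → ch W p.1 p.2 = t := by
    by_cases h : ∃ p ∈ bd A, (p.1 = x ∨ p.1 = x + uv i ∨ p.1 = x + uv j)
    · obtain ⟨p, hp, hpx⟩ := h
      refine ⟨ch W p.1 p.2, fun q hq hqx => ?_⟩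
      have hd : l1 p.1 q.1 ≤ 2 := by
        have h1 := l1_tri p.1 x q.1
        have h2 := hx1 p.1 hpx
        have h3 := hx1 q.1 hqx
        rw [l1_comm] at h3
        omega
      have hiff : q ∈ W ↔ p ∈ W :=
        ⟨fun h1 => hcl q h1 p hp (by rw [l1_comm]; exact hd), fun h1 => hcl p h1 q hq hd⟩
      unfold ch
      simp only [Prod.mk.eta, hiff]
    · refine ⟨0, fun p hp hpx => absurd ⟨p, hp, hpx⟩ h⟩
  have key : ∀ y k, (y = x ∨ y = x + uv i ∨ y = x + uv j) → ch W y k = t * ib A y k := by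
    intro y k hy
    by_cases h : (y, k) ∈ bd A
    · rw [ib_of_mem A h, mul_one]; exact ht (y, k) h hy
    · rw [ib_of_not_mem A h, mul_zero]
      unfold ch
      rw [if_neg (fun h1 => h (hW h1))]
  rw [key x i (Or.inl rfl), key (x + uv i) j (Or.inr (Or.inl rfl)), key x j (Or.inl rfl),
    key (x + uv j) i (Or.inr (Or.inr rfl)), ← mul_add, ← mul_add, ib_closed A x i j]

/-- a short tour of the boundary -/
theorem tour (A : Finset (I → ℤ)) (hA : Region A) (hI : 2 ≤ Fintype.card I) (v : I) :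
    ∃ (f : ℕ → (I → ℤ)) (t : ℕ), t ≤ (bd A).card ∧ f 0 = up v 0 t ∧
      (∀ k, l1 (f (k + 1)) (f k) ≤ 2) ∧
      ∀ e ∈ bd A, ∃ k, k ≤ 2 * (bd A).card ∧ f k = e.1 := by
  obtain ⟨t, htb, ht⟩ := exists_start hI hA.1 v
  set p₀ : (I → ℤ) × I := (up v 0 t, v) with hp₀'
  have hp₀ : p₀ ∈ bd A := VV_iff.mp ht
  obtain ⟨g, hg0, -, hg2, hg3, -⟩ := t_TOUR ((I → ℤ) × I) (bd A)
    (fun p q => l1 p.1 q.1 ≤ 2) (fun _ _ => 0) (fun _ => 0) p₀ hp₀
    (fun p q h => by rw [l1_comm]; exact h) (fun _ _ => rfl) (fun _ => rfl)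
    (fun _ _ _ _ _ => le_rfl) (by
      intro W hW hpW hcl
      have h0 : ∀ x i, ch W x i ≠ 0 → (x, i) ∈ bd A := by
        intro x i h
        by_contra h1
        exact h (if_neg (fun h2 => h1 (hW h2)))
      rcases t_CZ I A hA.2.1 hA.2.2 (ch W) h0 (ch_closed hW hcl) with h | h
      · have h1 := h p₀.1 p₀.2
        unfold ch at h1
        rw [Prod.mk.eta, if_pos hpW] at h1
        exact absurd h1 one_ne_zero
      · apply Finset.Subset.antisymm hW
        intro e he
        have h1 := h e.1 e.2 he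
        by_contra h2
        unfold ch at h1
        rw [Prod.mk.eta, if_neg h2] at h1
        exact absurd h1.symm one_ne_zero)
  refine ⟨fun k => (g k).1, t, htb, ?_, ?_, ?_⟩
  · show (g 0).1 = _
    rw [hg0]
  · intro k
    show l1 (g (k + 1)).1 (g k).1 ≤ 2
    rcases hg2 k with h | h
    · rw [l1_comm]; exact h
    · rw [h, l1_self]; omega
  · intro e he
    obtain ⟨k, hk, hke⟩ := hg3 e he
    exact ⟨k, by omega, congrArg Prod.fst hke⟩

theorem mem_cgT (T : Finset I) (A : Finset (I → ℤ)) (u : I → ℤ) :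
    u ∈ cgT T A ↔ 2 ^ T.card < 2 * (A.filter fun x => blkT T x = u).card := by
  unfold cgT
  rw [Finset.mem_filter, and_iff_right_iff_imp]
  intro h
  have h2 : 0 < (A.filter fun x => blkT T x = u).card := by
    by_contra h3
    have : (A.filter fun x => blkT T x = u).card = 0 := by omega
    rw [this] at h
    simp at h
  obtain ⟨x, hx⟩ := Finset.card_pos.mp h2
  rw [Finset.mem_filter] at hx
  exact Finset.mem_image.mpr ⟨x, hx.1, hx.2⟩

theorem mem_blockT (T : Finset I) (u x : I → ℤ) : x ∈ blockT T u ↔ blkT T x = u := by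
  unfold blockT
  rw [Fintype.mem_piFinset]
  constructor
  · intro h
    funext c
    have hc := h c
    unfold blkT
    split_ifs at hc ⊢ with h1
    · rw [Finset.mem_Ico] at hc; omega
    · rw [Finset.mem_singleton] at hc; exact hc
  · rintro rfl c
    unfold blkT
    split_ifs with h1
    · rw [Finset.mem_Ico]; omega
    · rw [Finset.mem_singleton]

theorem card_blockT (T : Finset I) (u : I → ℤ) : (blockT T u).card = 2 ^ T.card := by
  unfold blockT
  rw [Fintype.card_piFinset]
  have h : ∀ i : I, (if i ∈ T then Finset.Ico (2 * u i) (2 * u i + 2) else {u i}).card =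
      if i ∈ T then 2 else 1 := by
    intro i
    split_ifs
    · rw [Int.card_Ico]; omega
    · simp
  rw [Finset.prod_congr rfl fun i _ => h i, Finset.prod_ite]
  simp

/-- a boundary edge near a coarse boundary face -/
theorem exists_edge (A : Finset (I → ℤ)) (T : Finset I) (u : I → ℤ) (v : I) (hv : v ∉ T)
    (h : (u, v) ∈ bd (cgT T A)) :
    ∃ e ∈ bd A, blkT T e.1 = u ∨ blkT T e.1 = u + uv v := by
  by_contra hno
  push Not at hno
  have huv : ∀ c, (u + uv v) c = if c = v then u c + 1 else u c := by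
    intro c
    by_cases hc : c = v
    · subst hc; simp [uv]
    · simp [uv, hc]
  set a : I → ℤ := fun c => if c ∈ T then 2 * u c else u c with ha
  set s : I → ℕ := fun c => if c ∈ T then 2 else if c = v then 2 else 1 with hs
  set R := Fintype.piFinset fun c => Finset.Ico (a c) (a c + s c) with hR
  have hmR : ∀ x, x ∈ R ↔ blkT T x = u ∨ blkT T x = u + uv v := by
    intro x
    rw [hR, Fintype.mem_piFinset]
    constructor
    · intro hx
      by_cases hxv : x v = u v
      · left
        funext c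
        have hc := hx c
        simp only [ha, hs, Finset.mem_Ico] at hc
        unfold blkT
        by_cases h1 : c ∈ T
        · simp only [h1, if_true] at hc ⊢
          push_cast at hc
          omega
        · by_cases h2 : c = v
          · simp only [h1, if_false]
            rw [h2]; exact hxv
          · simp only [h1, h2, if_false] at hc ⊢
            push_cast at hc
            omega
      · right
        funext c
        rw [huv]
        have hc := hx c
        simp only [ha, hs, Finset.mem_Ico] at hc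
        unfold blkT
        by_cases h1 : c ∈ T
        · have h2 : c ≠ v := fun h3 => hv (h3 ▸ h1)
          simp only [h1, h2, if_true, if_false] at hc ⊢
          push_cast at hc
          omega
        · by_cases h2 : c = v
          · subst h2
            simp only [h1, if_false, if_true] at hc ⊢
            push_cast at hc
            omega
          · simp only [h1, h2, if_false] at hc ⊢
            push_cast at hc
            omega
    · intro hx c
      have hc : (if c ∈ T then x c / 2 else x c) = u c ∨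
          (if c ∈ T then x c / 2 else x c) = (u + uv v) c := by
        rcases hx with hx | hx
        · exact Or.inl (congrFun hx c)
        · exact Or.inr (congrFun hx c)
      rw [huv] at hc
      simp only [ha, hs, Finset.mem_Ico]
      by_cases h1 : c ∈ T
      · have h2 : c ≠ v := fun h3 => hv (h3 ▸ h1)
        simp only [h1, h2, if_true, if_false] at hc ⊢
        push_cast
        omega
      · by_cases h2 : c = v
        · subst h2
          simp only [h1, if_false, if_true] at hc ⊢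
          push_cast
          omega
        · simp only [h1, h2, if_false] at hc ⊢
          push_cast
          omega
  have hP := Pool.Agent.K9h1.EB.poin I a s 2
    (by intro c; simp only [hs]; split_ifs <;> omega) A R rfl
  have hmb : ∀ e : (I → ℤ) × I, e ∈ Pool.Agent.K9h1.EB.bd A ↔ e ∈ bd A := by
    intro e
    rw [Pool.Agent.K9h1.EB.mem_bd, mem_bd]
    rfl
  have h0 : ((Pool.Agent.K9h1.EB.bd A).filter (fun e => e.1 ∈ R ∧
      e.1 + Pool.Agent.K9h1.EB.un e.2 ∈ R)) = ∅ := by
    rw [Finset.filter_eq_empty_iff]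
    intro e he h1
    rw [hmb] at he
    obtain ⟨h2, h3⟩ := hno e he
    rcases (hmR e.1).mp h1.1 with h4 | h4
    · exact h2 h4
    · exact h3 h4
  rw [h0, Finset.card_empty, Nat.mul_zero] at hP
  have hP' := Nat.mul_eq_zero.mp (Nat.le_zero.mp hP)
  rw [mem_bd] at h
  apply h
  rcases hP' with h1' | h1
  · have h1 : (A ∩ R).card = 0 := by omega
    have h2 : ∀ w, (w = u ∨ w = u + uv v) → w ∉ cgT T A := by
      intro w hw h3
      rw [mem_cgT] at h3
      have h4 : (A.filter fun x => blkT T x = w) = ∅ := by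
        rw [Finset.filter_eq_empty_iff]
        intro x hx h5
        have h6 : x ∈ A ∩ R := by
          rw [Finset.mem_inter, hmR, h5]
          exact ⟨hx, hw⟩
        rw [Finset.card_eq_zero] at h1
        rw [h1] at h6
        exact absurd h6 (Finset.notMem_empty _)
      rw [h4, Finset.card_empty, Nat.mul_zero] at h3
      exact absurd h3 (Nat.not_lt_zero _)
    exact ⟨fun h3 => absurd h3 (h2 u (Or.inl rfl)), fun h3 => absurd h3 (h2 _ (Or.inr rfl))⟩
  · have h2 : ∀ w, (w = u ∨ w = u + uv v) → w ∈ cgT T A := by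
      intro w hw
      rw [mem_cgT]
      have h4 : blockT T w ⊆ A.filter fun x => blkT T x = w := by
        intro x hx
        rw [mem_blockT] at hx
        rw [Finset.mem_filter]
        refine ⟨?_, hx⟩
        by_contra h5
        have h6 : x ∈ R \ A := by
          rw [Finset.mem_sdiff, hmR, hx]
          exact ⟨hw, h5⟩
        rw [Finset.card_eq_zero] at h1
        rw [h1] at h6
        exact absurd h6 (Finset.notMem_empty _)
      have h5 := Finset.card_le_card h4
      rw [card_blockT] at h5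
      have h6 : 0 < 2 ^ T.card := by positivity
      omega
    exact ⟨fun _ => h2 _ (Or.inr rfl), fun _ => h2 u (Or.inl rfl)⟩

/-- times in order -/
theorem times (N : ℕ) : ∀ (M : ℕ) (K : Finset ℕ), K.card ≤ N → (∀ k ∈ K, k ≤ M) →
    ∃ κ : ℕ → ℕ, κ 0 = 0 ∧ Monotone κ ∧ (∀ i, κ i ≤ M) ∧
      ∀ k ∈ K, ∃ i, i < N ∧ κ (i + 1) = k := by
  induction N with
  | zero =>
    intro M K hK _
    refine ⟨fun _ => 0, rfl, fun _ _ _ => le_rfl, fun _ => Nat.zero_le _, ?_⟩
    intro k hk
    have : K = ∅ := Finset.card_eq_zero.mp (Nat.le_zero.mp hK)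
    rw [this] at hk
    exact absurd hk (Finset.notMem_empty _)
  | succ N ih =>
    intro M K hK hM
    rcases K.eq_empty_or_nonempty with hE | hne
    · refine ⟨fun _ => 0, rfl, fun _ _ _ => le_rfl, fun _ => Nat.zero_le _, ?_⟩
      intro k hk
      rw [hE] at hk
      exact absurd hk (Finset.notMem_empty _)
    · set m := K.max' hne with hm
      have hmK : m ∈ K := Finset.max'_mem _ _
      obtain ⟨κ, h0, hmono, hle, hcov⟩ := ih m (K.erase m)
        (by rw [Finset.card_erase_of_mem hmK]; omega)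
        (fun k hk => Finset.le_max' _ _ (Finset.mem_of_mem_erase hk))
      refine ⟨fun i => if i ≤ N then κ i else m, by simp [h0], ?_, ?_, ?_⟩
      · intro i j hij
        by_cases hj : j ≤ N
        · simp only [hj, if_true, (hij.trans hj : i ≤ N)]
          exact hmono hij
        · simp only [hj, if_false]
          split_ifs
          · exact hle i
          · exact le_rfl
      · intro i
        show (if i ≤ N then κ i else m) ≤ M
        split_ifs
        · exact (hle i).trans (hM m hmK)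
        · exact hM m hmK
      · intro k hk
        by_cases hkm : k = m
        · refine ⟨N, by omega, ?_⟩
          show (if N + 1 ≤ N then κ (N + 1) else m) = k
          rw [if_neg (by omega)]
          exact hkm.symm
        · obtain ⟨i, hi, hik⟩ := hcov k (Finset.mem_erase.mpr ⟨hkm, hk⟩)
          refine ⟨i, by omega, ?_⟩
          show (if i + 1 ≤ N then κ (i + 1) else m) = k
          rw [if_pos (by omega)]
          exact hik

theorem l1_move (g : ℕ → (I → ℤ)) (hg : ∀ k, l1 (g (k + 1)) (g k) ≤ 2) (a s : ℕ) :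
    l1 (g (a + s)) (g a) ≤ 2 * s := by
  induction s with
  | zero => simp [l1_self]
  | succ s ih =>
    have h1 := hg (a + s)
    have h2 := l1_tri (g (a + (s + 1))) (g (a + s)) (g a)
    rw [← add_assoc] at h2 ⊢
    omega

theorem sum_move (g : ℕ → (I → ℤ)) (hg : ∀ k, l1 (g (k + 1)) (g k) ≤ 2) (κ : ℕ → ℕ)
    (hκ : Monotone κ) (h0 : κ 0 = 0) (n : ℕ) :
    ∑ i ∈ Finset.range n, l1 (g (κ (i + 1))) (g (κ i)) ≤ 2 * κ n := by
  induction n with
  | zero => simp
  | succ n ih =>
    rw [Finset.sum_range_succ]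
    have h1 := hκ (Nat.le_succ n)
    have h2 := l1_move g hg (κ n) (κ (n + 1) - κ n)
    have h3 : κ n + (κ (n + 1) - κ n) = κ (n + 1) := by
      have : κ n ≤ κ (n + 1) := h1
      omega
    rw [h3] at h2
    have h4 : κ n ≤ κ (n + 1) := h1
    omega

/-- the code of a coarse-grained region -/
structure Cd (B : Finset (I → ℤ)) (T : Finset I) (v : I) (b N t : ℕ) (w : ℕ → (I → ℤ)) :
    Prop where
  le : t ≤ b
  start : w 0 = blkT T (up v 0 t)
  sum : ∑ i ∈ Finset.range N, l1 (w (i + 1)) (w i) ≤ 4 * b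
  cover : ∀ x, VV B v x → ∃ i, i < N ∧ (w (i + 1) = x ∨ w (i + 1) = x + uv v)

theorem exists_code (A : Finset (I → ℤ)) (hA : Region A) (hI : 2 ≤ Fintype.card I)
    (T : Finset I) (v : I) (hv : v ∉ T) (N : ℕ) (hN : bi (cgT T A) v ≤ N) :
    ∃ t w, Cd (cgT T A) T v (bd A).card N t w := by
  classical
  obtain ⟨f, t, ht, hf0, hf1, hf2⟩ := tour A hA hI v
  have hex : ∀ u : I → ℤ, ∃ k : ℕ, k ≤ 2 * (bd A).card ∧
      (u ∈ Vset (cgT T A) v → (blkT T (f k) = u ∨ blkT T (f k) = u + uv v)) := by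
    intro u
    by_cases hu : u ∈ Vset (cgT T A) v
    · obtain ⟨e, he, hb⟩ := exists_edge A T u v hv (VV_iff.mp (mem_Vset.mp hu))
      obtain ⟨k, hk, hke⟩ := hf2 e he
      exact ⟨k, hk, fun _ => by rw [hke]; exact hb⟩
    · exact ⟨0, Nat.zero_le _, fun h => absurd h hu⟩
  choose k hk hk' using hex
  have hcard : (Vset (cgT T A) v).card ≤ N := by
    refine le_trans ?_ hN
    unfold Vset bi
    exact Finset.card_image_le
  obtain ⟨κ, h0, hmono, hle, hcov⟩ := times N (2 * (bd A).card) ((Vset (cgT T A) v).image k)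
    (Finset.card_image_le.trans hcard) (by
      intro m hm
      obtain ⟨u, -, rfl⟩ := Finset.mem_image.mp hm
      exact hk u)
  refine ⟨t, fun i => blkT T (f (κ i)), ht, ?_, ?_, ?_⟩
  · show blkT T (f (κ 0)) = _
    rw [h0, hf0]
  · calc ∑ i ∈ Finset.range N, l1 (blkT T (f (κ (i + 1)))) (blkT T (f (κ i)))
        ≤ ∑ i ∈ Finset.range N, l1 (f (κ (i + 1))) (f (κ i)) :=
          Finset.sum_le_sum fun i _ => l1_blkT T _ _
      _ ≤ 2 * κ N := sum_move f hf1 κ hmono h0 N
      _ ≤ 4 * (bd A).card := by have := hle N; omega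
  · intro x hx
    have hx' := mem_Vset.mpr hx
    obtain ⟨i, hi, hik⟩ := hcov (k x) (Finset.mem_image_of_mem _ hx')
    refine ⟨i, hi, ?_⟩
    show blkT T (f (κ (i + 1))) = x ∨ blkT T (f (κ (i + 1))) = x + uv v
    rw [hik]
    exact hk' x hx'

/-- the codes determine the set -/
theorem code_inj {B B' : Finset (I → ℤ)} {T : Finset I} {v : I} {b N t : ℕ}
    {w w' : ℕ → (I → ℤ)} (h : Cd B T v b N t w) (h' : Cd B' T v b N t w')
    (h1 : ∀ i, i < N → w (i + 1) - w i = w' (i + 1) - w' i)
    (h2 : ∀ i, i < N → (VV B v (w (i + 1)) ↔ VV B' v (w' (i + 1))) ∧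
      (VV B v (w (i + 1) - uv v) ↔ VV B' v (w' (i + 1) - uv v))) : B = B' := by
  have hw : ∀ i, i ≤ N → w i = w' i := by
    intro i
    induction i with
    | zero => intro _; rw [h.start, h'.start]
    | succ i ih =>
      intro hi
      have e1 := h1 i (by omega)
      rw [ih (by omega), sub_left_inj] at e1
      exact e1
  apply eq_of_VV (v := v)
  intro x
  constructor
  · intro hx
    obtain ⟨i, hi, hxi⟩ := h.cover x hx
    have e2 := h2 i hi
    have e3 := hw (i + 1) (by omega)
    rcases hxi with hxi | hxi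
    · rw [← e3, hxi] at e2
      exact e2.1.mp hx
    · rw [← e3, hxi, add_sub_cancel_right] at e2
      exact e2.2.mp hx
  · intro hx
    obtain ⟨i, hi, hxi⟩ := h'.cover x hx
    have e2 := h2 i hi
    have e3 := hw (i + 1) (by omega)
    rcases hxi with hxi | hxi
    · rw [e3, hxi] at e2
      exact e2.1.mpr hx
    · rw [e3, hxi, add_sub_cancel_right] at e2
      exact e2.2.mpr hx

/-- bounded sequences of displacements -/
noncomputable def dls (κ : Type) [Fintype κ] [DecidableEq κ] (M : ℕ) : Finset (κ → ℤ) :=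
  (Fintype.piFinset fun _ : κ => Finset.Icc (-(M : ℤ)) M).filter fun δ => ∑ k, (δ k).natAbs ≤ M

theorem card_dls (κ : Type) [Fintype κ] [DecidableEq κ] (D M : ℕ) (hD : 1 ≤ D) :
    ((dls κ M).card : ℝ) ≤ (1 + 1 / (D : ℝ)) ^ M * (2 * (D + 1)) ^ Fintype.card κ := by
  set x : ℝ := (D : ℝ) / (D + 1) with hx
  have hDp : (0 : ℝ) < D := by exact_mod_cast hD
  have hD0 : (0 : ℝ) < (D : ℝ) + 1 := by positivity
  have hx0 : 0 < x := by positivity
  have hx1 : x ≤ 1 := by rw [hx, div_le_one hD0]; linarith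
  have h1 : ((dls κ M).card : ℝ) * x ^ M ≤ (2 * (D + 1)) ^ Fintype.card κ := by
    calc ((dls κ M).card : ℝ) * x ^ M = ∑ δ ∈ dls κ M, x ^ M := by
          rw [Finset.sum_const, nsmul_eq_mul]
      _ ≤ ∑ δ ∈ dls κ M, ∏ k, x ^ (δ k).natAbs := by
          refine Finset.sum_le_sum fun δ hδ => ?_
          rw [Finset.prod_pow_eq_pow_sum]
          exact pow_le_pow_of_le_one hx0.le hx1 (Finset.mem_filter.mp hδ).2
      _ ≤ ∑ δ ∈ Fintype.piFinset fun _ : κ => Finset.Icc (-(M : ℤ)) M,
            ∏ k, x ^ (δ k).natAbs :=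
          Finset.sum_le_sum_of_subset_of_nonneg (Finset.filter_subset _ _)
            fun δ _ _ => Finset.prod_nonneg fun k _ => pow_nonneg hx0.le _
      _ = ∏ k : κ, ∑ j ∈ Finset.Icc (-(M : ℤ)) M, x ^ j.natAbs :=
          (Finset.prod_univ_sum (fun _ : κ => Finset.Icc (-(M : ℤ)) M)
            (fun _ j => x ^ j.natAbs)).symm
      _ ≤ ∏ k : κ, (2 * ((D : ℝ) + 1)) :=
          Finset.prod_le_prod (fun k _ => Finset.sum_nonneg fun j _ => pow_nonneg hx0.le _)
            fun k _ => sum_geom D M hD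
      _ = (2 * (D + 1)) ^ Fintype.card κ := by rw [Finset.prod_const, Finset.card_univ]
  have h2 : (1 + 1 / (D : ℝ)) ^ M * x ^ M = 1 := by
    rw [← mul_pow, hx]
    have : (1 + 1 / (D : ℝ)) * (D / (D + 1)) = 1 := by field_simp
    rw [this, one_pow]
  have h3 : 0 < (1 + 1 / (D : ℝ)) ^ M := by positivity
  calc ((dls κ M).card : ℝ) = (1 + 1 / (D : ℝ)) ^ M * (((dls κ M).card : ℝ) * x ^ M) := by
        rw [mul_comm ((dls κ M).card : ℝ), ← mul_assoc, h2, one_mul]
    _ ≤ (1 + 1 / (D : ℝ)) ^ M * (2 * (D + 1)) ^ Fintype.card κ :=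
        mul_le_mul_of_nonneg_left h1 h3.le

/-- the set of the codes -/
noncomputable def cds (I : Type) [Fintype I] [DecidableEq I] (b N : ℕ) :
    Finset (ℕ × (Fin N × I → ℤ) × (Fin N → Bool × Bool)) :=
  Finset.range (b + 1) ×ˢ dls (Fin N × I) (4 * b) ×ˢ Finset.univ

open Classical in
theorem card_le_cds (b : ℕ) (hI : 2 ≤ Fintype.card I) (T : Finset I) (v : I) (hv : v ∉ T)
    (N : ℕ) (𝓕 : Finset (Finset (I → ℤ)))
    (h𝓕 : ∀ A ∈ 𝓕, Region A ∧ (bd A).card = b ∧ bi (cgT T A) v ≤ N) :
    (𝓕.image (cgT T)).card ≤ (cds I b N).card := by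
  have hex : ∀ B : Finset (I → ℤ), ∃ c : ℕ × (ℕ → (I → ℤ)),
      B ∈ 𝓕.image (cgT T) → Cd B T v b N c.1 c.2 := by
    intro B
    by_cases hB : B ∈ 𝓕.image (cgT T)
    · obtain ⟨A, hA, rfl⟩ := Finset.mem_image.mp hB
      obtain ⟨hR, hb, hN⟩ := h𝓕 A hA
      obtain ⟨t, w, hc⟩ := exists_code A hR hI T v hv N hN
      rw [hb] at hc
      exact ⟨(t, w), fun _ => hc⟩
    · exact ⟨(0, fun _ => 0), fun h => absurd h hB⟩
  choose c hc using hex
  let F : Finset (I → ℤ) → ℕ × (Fin N × I → ℤ) × (Fin N → Bool × Bool) := fun B =>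
    ((c B).1, (fun q => (c B).2 (q.1 + 1) q.2 - (c B).2 q.1 q.2),
      fun i => (decide (VV B v ((c B).2 (i + 1))), decide (VV B v ((c B).2 (i + 1) - uv v))))
  apply Finset.card_le_card_of_injOn F
  · intro B hB
    have h := hc B hB
    have hsum : ∑ q : Fin N × I, ((c B).2 (q.1 + 1) q.2 - (c B).2 q.1 q.2).natAbs ≤ 4 * b := by
      have h3 := h.sum
      rw [Finset.sum_range] at h3
      rw [Fintype.sum_prod_type]
      exact h3
    show F B ∈ cds I b N
    unfold cds
    rw [Finset.mem_product, Finset.mem_product]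
    refine ⟨Finset.mem_range.mpr (Nat.lt_succ_of_le h.le), ?_, Finset.mem_univ _⟩
    unfold dls
    rw [Finset.mem_filter, Fintype.mem_piFinset]
    refine ⟨fun q => ?_, hsum⟩
    have h4 := Finset.single_le_sum (f := fun q : Fin N × I =>
      ((c B).2 (q.1 + 1) q.2 - (c B).2 q.1 q.2).natAbs) (fun k _ => Nat.zero_le _)
      (Finset.mem_univ q)
    have h5 : ((c B).2 (q.1 + 1) q.2 - (c B).2 q.1 q.2).natAbs ≤ 4 * b := h4.trans hsum
    show (c B).2 (q.1 + 1) q.2 - (c B).2 q.1 q.2 ∈ _
    rw [Finset.mem_Icc]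
    constructor <;> omega
  · intro B hB B' hB' hBB
    have hFF : F B = F B' := hBB
    have e1 : (F B).1 = (F B').1 := congrArg Prod.fst hFF
    have e2 : (F B).2.1 = (F B').2.1 := congrArg (fun z => z.2.1) hFF
    have e3 : (F B).2.2 = (F B').2.2 := congrArg (fun z => z.2.2) hFF
    simp only [F] at e1 e2 e3
    have h := hc B hB
    have h' := hc B' hB'
    rw [← e1] at h'
    refine code_inj h h' ?_ ?_
    · intro i hi
      funext j
      exact congrFun e2 (⟨i, hi⟩, j)
    · intro i hi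
      have e4 := congrFun e3 ⟨i, hi⟩
      rw [Prod.mk.injEq] at e4
      exact ⟨by simpa using e4.1, by simpa using e4.2⟩

theorem card_cds (b N D : ℕ) (hD : 1 ≤ D) :
    ((cds I b N).card : ℝ) ≤ (b + 1) * (((1 + 1 / (D : ℝ)) ^ (4 * b) *
      (2 * (D + 1)) ^ (N * Fintype.card I)) * 4 ^ N) := by
  unfold cds
  rw [Finset.card_product, Finset.card_product, Finset.card_range, Finset.card_univ]
  have h1 := card_dls (Fin N × I) D (4 * b) hD
  rw [Fintype.card_prod, Fintype.card_fin] at h1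
  have h2 : Fintype.card (Fin N → Bool × Bool) = 4 ^ N := by
    rw [Fintype.card_fun, Fintype.card_fin, Fintype.card_prod, Fintype.card_bool]
  rw [h2]
  push_cast
  gcongr

end Gt

theorem t_G3 (g1 : S_G1) : S_G3 := by
  classical
  refine ⟨200, by norm_num, ?_⟩
  intro I _ _ b T v hI hv 𝓕 h𝓕
  set D := Fintype.card I with hD
  set P := 2 ^ T.card with hP
  have hP1 : 1 ≤ P := Nat.one_le_two_pow
  have hDP : 0 < D * P := Nat.mul_pos (by omega) (by omega)
  set N := 64 * (T.card + 1) * b / (D * P) with hN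
  have hbi : ∀ A ∈ 𝓕, Region A ∧ (bd A).card = b ∧ bi (cgT T A) v ≤ N := by
    intro A hA
    obtain ⟨h1, h2, h3⟩ := h𝓕 A hA
    refine ⟨h1, h2, ?_⟩
    rw [hN, Nat.le_div_iff_mul_le hDP]
    have h4 := g1 I A T v hv
    calc bi (cgT T A) v * (D * P) = D * (P * bi (cgT T A) v) := by ring
      _ ≤ D * (32 * (bi A v + ∑ j ∈ T, bi A j)) := Nat.mul_le_mul_left _ h4
      _ = 32 * (D * (bi A v + ∑ j ∈ T, bi A j)) := by ring
      _ ≤ 32 * (2 * (T.card + 1) * b) := Nat.mul_le_mul_left _ h3
      _ = 64 * (T.card + 1) * b := by ring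
  have h1 : (((𝓕.image (cgT T)).card : ℕ) : ℝ) ≤ ((Gt.cds I b N).card : ℝ) := by
    exact_mod_cast Gt.card_le_cds b hI T v hv N 𝓕 hbi
  refine (h1.trans (Gt.card_cds (I := I) b N P hP1)).trans ?_
  rw [← hD]
  have hDr : (2 : ℝ) ≤ D := by exact_mod_cast hI
  have hPr : (1 : ℝ) ≤ P := by exact_mod_cast hP1
  set τ : ℝ := (T.card : ℝ) with hτ
  have hτ0 : 0 ≤ τ := by positivity
  set s : ℝ := (b : ℝ) / 2 ^ T.card with hs
  have hs0 : 0 ≤ s := by positivity
  have hPe : (P : ℝ) = 2 ^ T.card := by rw [hP]; push_cast; rfl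
  have hNr : (N : ℝ) * D ≤ 64 * (τ + 1) * s := by
    have h2 : (N : ℝ) ≤ ((64 * (T.card + 1) * b : ℕ) : ℝ) / ((D * P : ℕ) : ℝ) := Nat.cast_div_le
    push_cast at h2
    rw [hPe] at h2
    calc (N : ℝ) * D ≤ (64 * ((T.card : ℝ) + 1) * b / (D * 2 ^ T.card)) * D := by gcongr
      _ = 64 * (τ + 1) * s := by
        rw [hs, hτ]
        field_simp
  have hN0 : (0 : ℝ) ≤ N := by positivity
  have hN2 : 2 * (N : ℝ) ≤ 64 * (τ + 1) * s := by nlinarith
  have f1 : (1 + 1 / (P : ℝ)) ^ (4 * b) ≤ Real.exp (4 * s) := by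
    have e1 : 1 + 1 / (P : ℝ) ≤ Real.exp (1 / P) := by
      have := Real.add_one_le_exp (1 / (P : ℝ)); linarith
    calc (1 + 1 / (P : ℝ)) ^ (4 * b) ≤ (Real.exp (1 / P)) ^ (4 * b) :=
          pow_le_pow_left₀ (by positivity) e1 _
      _ = Real.exp (4 * s) := by
          rw [← Real.exp_nat_mul]
          congr 1
          push_cast
          rw [hs, hPe]; ring
  have f2 : (2 * ((P : ℝ) + 1)) ^ (N * D) ≤ Real.exp ((τ + 2) * (N * D)) := by
    have e2 : (2 : ℝ) ≤ Real.exp 1 := by
      have := Real.add_one_le_exp (1 : ℝ); linarith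
    have e3 : 2 * ((P : ℝ) + 1) ≤ Real.exp (τ + 2) := by
      calc 2 * ((P : ℝ) + 1) ≤ 2 ^ (T.card + 2) := by
            rw [pow_add, ← hPe]; linarith
        _ ≤ (Real.exp 1) ^ (T.card + 2) := pow_le_pow_left₀ (by norm_num) e2 _
        _ = Real.exp (τ + 2) := by
            rw [← Real.exp_nat_mul]
            congr 1
            push_cast
            rw [hτ]; ring
    calc (2 * ((P : ℝ) + 1)) ^ (N * D) ≤ (Real.exp (τ + 2)) ^ (N * D) :=
          pow_le_pow_left₀ (by positivity) e3 _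
      _ = Real.exp ((τ + 2) * (N * D)) := by
          rw [← Real.exp_nat_mul]
          congr 1
          push_cast
          ring
  have f3 : (4 : ℝ) ^ N ≤ Real.exp (2 * N) := by
    have e2 : (4 : ℝ) ≤ Real.exp 2 := by
      have h3 := Real.add_one_le_exp (1 : ℝ)
      have h4 : Real.exp 2 = Real.exp 1 * Real.exp 1 := by rw [← Real.exp_add]; norm_num
      nlinarith
    calc (4 : ℝ) ^ N ≤ (Real.exp 2) ^ N := pow_le_pow_left₀ (by norm_num) e2 _
      _ = Real.exp (2 * N) := by rw [← Real.exp_nat_mul]; ring_nf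
  calc ((b : ℝ) + 1) * (((1 + 1 / (P : ℝ)) ^ (4 * b) * (2 * (P + 1)) ^ (N * D)) * 4 ^ N)
      ≤ ((b : ℝ) + 1) * ((Real.exp (4 * s) * Real.exp ((τ + 2) * (N * D))) *
          Real.exp (2 * N)) := by gcongr
    _ = ((b : ℝ) + 1) * Real.exp (4 * s + (τ + 2) * (N * D) + 2 * N) := by
        rw [← Real.exp_add, ← Real.exp_add]
    _ ≤ ((b : ℝ) + 1) * Real.exp (200 * (τ + 1) ^ 2 * s) := by
        gcongr
        have e1 : (τ + 2) * (N * D) ≤ (τ + 2) * (64 * (τ + 1) * s) := by gcongr
        have e2 : (τ + 2) * (64 * (τ + 1) * s) ≤ 128 * ((τ + 1) ^ 2 * s) := by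
          have : (τ + 2) * ((τ + 1) * s) ≤ 2 * ((τ + 1) ^ 2 * s) := by
            nlinarith [mul_nonneg hτ0 hs0, mul_nonneg (mul_nonneg hτ0 hτ0) hs0]
          linarith
        have e3 : s ≤ (τ + 1) ^ 2 * s := by
          nlinarith [mul_nonneg hτ0 hs0, mul_nonneg (mul_nonneg hτ0 hτ0) hs0]
        have e4 : (τ + 1) * s ≤ (τ + 1) ^ 2 * s := by
          nlinarith [mul_nonneg hτ0 hs0, mul_nonneg (mul_nonneg hτ0 hτ0) hs0]
        nlinarith

end Pool.Agent.K9h96.EA
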