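import Pool.Agent.K9h96.EA.Base

/-! Leaf NEG (helper29): the couplings in the layer are mostly positive along all contours. -/

set_option autoImplicit false

open MeasureTheory
open scoped ENNReal symmDiff

namespace Pool.Agent.K9h96.EA

open Pool.H47EA

namespace NEG

variable {d : ℕ} (R : Finset (Fin d))

theorem emb_add_uv (x : Dir R → ℤ) (i : Dir R) :
    emb R (x + uv i) = emb R x + Pi.single i.1 1 := by
  funext j
  unfold emb
  by_cases h : j ∈ R
  · have hij : j ≠ i.1 := fun h' => i.2 (h' ▸ h)
    simp [h, hij]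
  · by_cases hij : j = i.1
    · subst hij
      simp [h, uv]
    · have h2 : (⟨j, h⟩ : Dir R) ≠ i := fun h' => hij (congrArg Subtype.val h')
      simp [h, uv, hij, h2]

theorem adj_single (y : Site d) (i : Fin d) : (lat d).Adj y (y + Pi.single i 1) := by
  show dist1 y (y + Pi.single i 1) = 1
  unfold dist1
  rw [Finset.sum_eq_single i]
  · simp
  · intro j _ hj
    simp [hj]
  · intro h
    exact absurd (Finset.mem_univ i) h

/-- the edge of the lattice belonging to a pair -/
noncomputable def edg (p : (Dir R → ℤ) × Dir R) : (lat d).edgeSet :=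
  ⟨s(emb R p.1, emb R p.1 + Pi.single p.2.1 1), adj_single _ _⟩

theorem Jc_edg (J : Coupling d) (p : (Dir R → ℤ) × Dir R) :
    Jc J (emb R p.1) (emb R (p.1 + uv p.2)) = sg (J (edg R p)) := by
  have h := adj_single (emb R p.1) p.2.1
  unfold Jc
  rw [emb_add_uv, dif_pos h]
  rfl

theorem emb_inj : Function.Injective (emb R) := by
  intro x y h
  funext i
  have := congrFun h i.1
  unfold emb at this
  simpa [i.2] using this

theorem single_eq {x y : Site d} {i j : Fin d}
    (h : s(x, x + Pi.single i 1) = s(y, y + Pi.single j 1)) : x = y ∧ i = j := by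
  rw [Sym2.eq_iff] at h
  rcases h with ⟨h1, h2⟩ | ⟨h1, h2⟩
  · refine ⟨h1, ?_⟩
    rw [h1] at h2
    have h3 : (Pi.single i 1 : Site d) = Pi.single j 1 := add_left_cancel h2
    by_contra hij
    have := congrFun h3 i
    simp [hij] at this
  · exfalso
    rw [h1] at h2
    have h3 := congrFun h2 i
    simp only [Pi.add_apply, Pi.single_eq_same] at h3
    by_cases hij : i = j
    · subst hij; simp at h3; omega
    · simp [hij] at h3

theorem edg_inj : Function.Injective (edg R) := by
  intro p q h
  have h1 := congrArg Subtype.val h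
  obtain ⟨h2, h3⟩ := single_eq h1
  exact Prod.ext (emb_inj R h2) (Subtype.ext h3)

theorem not_isR_edg (p : (Dir R → ℤ) × Dir R) : ¬ IsR R (edg R p) := by
  rintro ⟨x, i, hi, h⟩
  obtain ⟨-, h3⟩ := single_eq h
  exact p.2.2 (h3 ▸ hi)

theorem nrg_eq (A : Finset (Dir R → ℤ)) (J : Coupling d) :
    nrg R A J = (bd A).card - 2 * ((bd A).filter fun p => J (edg R p) = false).card := by
  unfold nrg
  have h1 : ∀ p ∈ bd A, Jc J (emb R p.1) (emb R (p.1 + uv p.2)) =
      1 - 2 * (if J (edg R p) = false then (1 : ℝ) else 0) := by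
    intro p _
    rw [Jc_edg]
    unfold sg
    cases J (edg R p) <;> norm_num
  rw [Finset.sum_congr rfl h1, Finset.sum_sub_distrib, ← Finset.mul_sum, Finset.sum_boole]
  simp

variable (ν : (lat d).edgeSet → Measure Bool) [∀ e, IsProbabilityMeasure (ν e)]

theorem cyl (hν : ∀ e, ¬ IsR R e → ν e {false} ≤ ENNReal.ofReal (1 / 32))
    (S : Finset ((Dir R → ℤ) × Dir R)) :
    Measure.infinitePi ν {J | ∀ p ∈ S, J (edg R p) = false} ≤ ENNReal.ofReal ((1 / 32) ^ S.card) := by
  classical
  have h1 : {J : Coupling d | ∀ p ∈ S, J (edg R p) = false} =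
      Set.pi (S.image (edg R) : Finset _) (fun _ => {false}) := by
    ext J
    rw [Set.mem_pi]
    constructor
    · intro hJ e he
      obtain ⟨p, hp, rfl⟩ := Finset.mem_image.mp (Finset.mem_coe.mp he)
      exact hJ p hp
    · intro hJ p hp
      exact hJ _ (Finset.mem_coe.mpr (Finset.mem_image_of_mem _ hp))
  rw [h1, Measure.infinitePi_pi _ (fun _ _ => MeasurableSet.of_discrete),
    Finset.prod_image (fun x _ y _ h => edg_inj R h)]
  calc ∏ x ∈ S, ν (edg R x) {false} ≤ ∏ _x ∈ S, ENNReal.ofReal (1 / 32) :=
        Finset.prod_le_prod' fun x _ => hν _ (not_isR_edg R x)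
    _ = ENNReal.ofReal ((1 / 32) ^ S.card) := by
        rw [Finset.prod_const, ENNReal.ofReal_pow (by norm_num)]

theorem one (hν : ∀ e, ¬ IsR R e → ν e {false} ≤ ENNReal.ofReal (1 / 32))
    (A : Finset (Dir R → ℤ)) :
    Measure.infinitePi ν {J | nrg R A J < (bd A).card / 2} ≤
      ENNReal.ofReal (Real.exp (-(Real.log 2 / 4) * (bd A).card)) := by
  classical
  set b := (bd A).card with hb
  have hsub : {J : Coupling d | nrg R A J < (bd A).card / 2} ⊆
      ⋃ S ∈ (bd A).powerset.filter (fun S => b < 4 * S.card),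
        {J : Coupling d | ∀ p ∈ S, J (edg R p) = false} := by
    intro J hJ
    rw [Set.mem_ofPred_eq] at hJ
    rw [nrg_eq] at hJ
    simp only [Set.mem_iUnion, exists_prop]
    refine ⟨(bd A).filter fun p => J (edg R p) = false, ?_, ?_⟩
    · rw [Finset.mem_filter, Finset.mem_powerset]
      refine ⟨Finset.filter_subset _ _, ?_⟩
      have h1 : (b : ℝ) < 4 * (((bd A).filter fun p => J (edg R p) = false).card : ℝ) := by
        rw [← hb] at hJ
        linarith
      exact_mod_cast h1
    · intro p hp
      exact (Finset.mem_filter.mp hp).2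
  calc Measure.infinitePi ν {J | nrg R A J < (bd A).card / 2}
      ≤ ∑ S ∈ (bd A).powerset.filter (fun S => b < 4 * S.card),
          Measure.infinitePi ν {J : Coupling d | ∀ p ∈ S, J (edg R p) = false} :=
        (measure_mono hsub).trans (measure_biUnion_finset_le _ _)
    _ ≤ ∑ S ∈ (bd A).powerset.filter (fun S => b < 4 * S.card),
          ENNReal.ofReal (Real.exp (-(5 * Real.log 2 / 4) * b)) := by
        refine Finset.sum_le_sum fun S hS => (cyl R ν hν S).trans (ENNReal.ofReal_le_ofReal ?_)
        have h1 : b < 4 * S.card := (Finset.mem_filter.mp hS).2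
        have h2 : (b : ℝ) ≤ 4 * S.card := by exact_mod_cast h1.le
        have h3 : ((1 : ℝ) / 32) ^ S.card = Real.exp (-(5 * Real.log 2) * S.card) := by
          have h4 : Real.exp (-(5 * Real.log 2) * S.card) =
              (Real.exp (-(5 * Real.log 2))) ^ S.card := by
            rw [← Real.exp_nat_mul]; ring_nf
          rw [h4]
          congr 1
          rw [Real.exp_neg, show (5 : ℝ) * Real.log 2 = ((5 : ℕ) : ℝ) * Real.log 2 by norm_num,
            Real.exp_nat_mul, Real.exp_log (by norm_num)]
          norm_num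
        rw [h3]
        apply Real.exp_le_exp.mpr
        have h5 : 0 < Real.log 2 := Real.log_pos (by norm_num)
        nlinarith
    _ ≤ ∑ S ∈ (bd A).powerset, ENNReal.ofReal (Real.exp (-(5 * Real.log 2 / 4) * b)) :=
        Finset.sum_le_sum_of_subset (Finset.filter_subset _ _)
    _ = ENNReal.ofReal (Real.exp (-(Real.log 2 / 4) * b)) := by
        rw [Finset.sum_const, Finset.card_powerset, ← hb, nsmul_eq_mul]
        have h1 : ((2 ^ b : ℕ) : ℝ≥0∞) = ENNReal.ofReal (2 ^ b) := by
          rw [ENNReal.ofReal_pow (by norm_num)]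
          push_cast
          norm_num
        rw [h1, ← ENNReal.ofReal_mul (by positivity)]
        congr 1
        have h2 : (2 : ℝ) ^ b = Real.exp (Real.log 2 * b) := by
          rw [mul_comm, Real.exp_nat_mul, Real.exp_log (by norm_num)]
        rw [h2, ← Real.exp_add]
        congr 1
        ring

end NEG

open NEG in
theorem t_NEG (h : S_LM) : S_NEG := by
  classical
  obtain ⟨C, hC, hLM⟩ := h
  set r : ℝ := Real.exp (-(Real.log 2 / 8)) with hr
  have hl2 : 0 < Real.log 2 := Real.log_pos (by norm_num)
  have hr0 : 0 < r := Real.exp_pos _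
  have hr1 : r < 1 := by
    rw [hr, Real.exp_lt_one_iff]
    linarith
  -- choice of `D₀`
  have h1 : Filter.Tendsto (fun D : ℕ => C * Real.log D / D) Filter.atTop (nhds 0) := by
    have h2 : Filter.Tendsto (fun x : ℝ => Real.log x / x) Filter.atTop (nhds 0) := by
      have := Real.isLittleO_log_id_atTop.tendsto_div_nhds_zero
      simpa using this
    have h3 := (h2.comp tendsto_natCast_atTop_atTop).const_mul C
    rw [mul_zero] at h3
    refine h3.congr fun D => ?_
    simp [mul_div_assoc]
  have h2 : Filter.Tendsto (fun D : ℕ => r ^ (2 * D) / (1 - r)) Filter.atTop (nhds 0) := by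
    have h3 : Filter.Tendsto (fun D : ℕ => (r ^ 2) ^ D) Filter.atTop (nhds 0) :=
      tendsto_pow_atTop_nhds_zero_of_lt_one (by positivity) (by nlinarith)
    have h4 := h3.div_const (1 - r)
    rw [zero_div] at h4
    refine h4.congr fun D => ?_
    rw [← pow_mul]
  have h3 := (h1.eventually (gt_mem_nhds (show (0 : ℝ) < Real.log 2 / 8 by linarith))).and
    (h2.eventually (gt_mem_nhds (show (0 : ℝ) < 1 / 16 by norm_num)))
  obtain ⟨D₀, hD₀⟩ := Filter.eventually_atTop.mp h3
  refine ⟨max D₀ 2, fun d R hD ν _ hν n => ?_⟩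
  have hDD : D₀ ≤ Fintype.card (Dir R) := le_trans (le_max_left _ _) hD
  have hD2 : 2 ≤ Fintype.card (Dir R) := le_trans (le_max_right _ _) hD
  obtain ⟨hA1, hA2⟩ := hD₀ _ hDD
  set D := Fintype.card (Dir R) with hDdef
  have hsub : {J : Coupling d | ∃ A ∈ regs (Dir R) n, nrg R A J < (bd A).card / 2} ⊆
      ⋃ A ∈ regs (Dir R) n, {J : Coupling d | nrg R A J < (bd A).card / 2} := by
    rintro J ⟨A, hA, hJ⟩
    simp only [Set.mem_iUnion, exists_prop]
    exact ⟨A, hA, hJ⟩
  have hreg : ∀ A ∈ regs (Dir R) n, Region A := by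
    intro A hA
    unfold regs at hA
    exact (Finset.mem_filter.mp hA).2
  have hne : ∀ A ∈ regs (Dir R) n, 2 * D ≤ (bd A).card := by
    intro A hA
    exact two_mul_card_le_bd ⟨0, (hreg A hA).1⟩
  calc Measure.infinitePi ν {J | ∃ A ∈ regs (Dir R) n, nrg R A J < (bd A).card / 2}
      ≤ ∑ A ∈ regs (Dir R) n, Measure.infinitePi ν
          {J : Coupling d | nrg R A J < (bd A).card / 2} :=
        (measure_mono hsub).trans (measure_biUnion_finset_le _ _)
    _ ≤ ∑ A ∈ regs (Dir R) n,
          ENNReal.ofReal (Real.exp (-(Real.log 2 / 4) * (bd A).card)) :=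
        Finset.sum_le_sum fun A _ => one R ν hν A
    _ = ENNReal.ofReal (∑ A ∈ regs (Dir R) n,
          Real.exp (-(Real.log 2 / 4) * (bd A).card)) :=
        (ENNReal.ofReal_sum_of_nonneg fun _ _ => (Real.exp_pos _).le).symm
    _ ≤ ENNReal.ofReal (1 / 16) := by
        apply ENNReal.ofReal_le_ofReal
        set M := (regs (Dir R) n).sup fun A => (bd A).card with hM
        have hmaps : ∀ A ∈ regs (Dir R) n, (bd A).card ∈ Finset.Ico (2 * D) (M + 1) := by
          intro A hA
          rw [Finset.mem_Ico]
          exact ⟨hne A hA, Nat.lt_succ_of_le (Finset.le_sup (f := fun A => (bd A).card) hA)⟩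
        rw [← Finset.sum_fiberwise_of_maps_to hmaps]
        calc ∑ b ∈ Finset.Ico (2 * D) (M + 1), ∑ A ∈ (regs (Dir R) n).filter
              (fun A => (bd A).card = b), Real.exp (-(Real.log 2 / 4) * (bd A).card)
            ≤ ∑ b ∈ Finset.Ico (2 * D) (M + 1), r ^ b := by
              refine Finset.sum_le_sum fun b _ => ?_
              have h4 := hLM (Dir R) b hD2 ((regs (Dir R) n).filter (fun A => (bd A).card = b))
                (fun A hA => ⟨hreg A (Finset.mem_filter.mp hA).1, (Finset.mem_filter.mp hA).2⟩)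
              calc ∑ A ∈ (regs (Dir R) n).filter (fun A => (bd A).card = b),
                    Real.exp (-(Real.log 2 / 4) * (bd A).card)
                  = ∑ A ∈ (regs (Dir R) n).filter (fun A => (bd A).card = b),
                    Real.exp (-(Real.log 2 / 4) * b) :=
                    Finset.sum_congr rfl fun A hA => by rw [(Finset.mem_filter.mp hA).2]
                _ = (((regs (Dir R) n).filter (fun A => (bd A).card = b)).card : ℝ) *
                    Real.exp (-(Real.log 2 / 4) * b) := by
                    rw [Finset.sum_const, nsmul_eq_mul]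
                _ ≤ Real.exp (C * Real.log D / D * b) * Real.exp (-(Real.log 2 / 4) * b) :=
                    mul_le_mul_of_nonneg_right h4 (Real.exp_pos _).le
                _ ≤ r ^ b := by
                    rw [← Real.exp_add, hr, ← Real.exp_nat_mul]
                    apply Real.exp_le_exp.mpr
                    have h5 : (0 : ℝ) ≤ b := Nat.cast_nonneg _
                    nlinarith
          _ ≤ r ^ (2 * D) / (1 - r) := geom_sum_Ico_le_of_lt_one hr0.le hr1
          _ ≤ 1 / 16 := hA2.le

end Pool.Agent.K9h96.EA
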