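import Pool.Agent.K9h96.EA.Stm3
import Pool.Agent.K9h96.EA.NEG

/-! Leaf NEG3 (helper96): the energy of one contour with a small ferromagnetic bias. -/

set_option autoImplicit false
set_option linter.unusedSectionVars false

open MeasureTheory ProbabilityTheory
open scoped ENNReal symmDiff

namespace Pool.Agent.K9h96.EA

open Pool.H47EA

namespace NEG3

theorem exp_bound {ε l : ℝ} (hε : 0 ≤ ε) (hl0 : 0 ≤ l) (hl1 : l ≤ 1) :
    Real.cosh l - ε * Real.sinh l ≤ Real.exp (l ^ 2 - ε * l) := by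
  have h1 : Real.cosh l ≤ Real.exp (l ^ 2 / 2) := Real.cosh_le_exp_half_sq l
  have h2 : l ≤ Real.sinh l := Real.self_le_sinh_iff.mpr hl0
  have h3 : Real.exp (l ^ 2 / 2) ≤ 1 + l ^ 2 := by
    have hx : l ^ 2 / 2 ≤ 1 / 2 := by nlinarith
    have h4 : 1 - l ^ 2 / 2 ≤ Real.exp (-(l ^ 2 / 2)) := by
      have := Real.add_one_le_exp (-(l ^ 2 / 2)); linarith
    have h5 : 0 < 1 - l ^ 2 / 2 := by linarith
    rw [Real.exp_neg] at h4
    have h6 : Real.exp (l ^ 2 / 2) ≤ (1 - l ^ 2 / 2)⁻¹ := by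
      rw [le_inv_comm₀ (Real.exp_pos _) h5]
      exact h4
    refine h6.trans ?_
    rw [inv_le_comm₀ h5 (by positivity), inv_le_iff_one_le_mul₀ (by positivity)]
    nlinarith [sq_nonneg l, sq_nonneg (l ^ 2)]
  have h7 : l ^ 2 - ε * l + 1 ≤ Real.exp (l ^ 2 - ε * l) := Real.add_one_le_exp _
  nlinarith [mul_le_mul_of_nonneg_left h2 hε]

theorem mgf_one (ν : Measure Bool) [IsProbabilityMeasure ν] {ε l : ℝ} (hε : 0 ≤ ε) (hε1 : ε ≤ 1)
    (hν : ν {false} ≤ ENNReal.ofReal ((1 - ε) / 2)) (hl0 : 0 ≤ l) (hl1 : l ≤ 1) :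
    ∫ b, Real.exp (l * (-(sg b))) ∂ν ≤ Real.exp (l ^ 2 - ε * l) := by
  have h1 : ν.real {false} ≤ (1 - ε) / 2 := by
    unfold Measure.real
    exact ENNReal.toReal_le_of_le_ofReal (by linarith) hν
  have h2 : ν.real {true} + ν.real {false} = 1 := by
    have h := probReal_add_probReal_compl (μ := ν) (s := ({true} : Set Bool))
      (MeasurableSet.singleton _)
    have h3 : ({true} : Set Bool)ᶜ = {false} := by ext b; cases b <;> simp
    rwa [h3] at h
  rw [integral_fintype Integrable.of_finite, Fintype.sum_bool]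
  have e1 : sg true = 1 := rfl
  have e2 : sg false = -1 := rfl
  rw [e1, e2, smul_eq_mul, smul_eq_mul]
  have h3 : Real.exp (l * -1) = Real.exp (-l) := by ring_nf
  have h4 : Real.exp (l * - -1) = Real.exp l := by ring_nf
  rw [h3, h4]
  refine le_trans ?_ (exp_bound hε hl0 hl1)
  have h5 : Real.exp (-l) ≤ Real.exp l := Real.exp_le_exp.mpr (by linarith)
  rw [Real.cosh_eq, Real.sinh_eq]
  have h6 : ν.real {true} = 1 - ν.real {false} := by linarith
  rw [h6]
  nlinarith [mul_le_mul_of_nonneg_right h1 (sub_nonneg.mpr h5)]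

end NEG3

open NEG NEG3 in
theorem t_NEG3 : S_NEG3 := by
  classical
  intro d R ε hε hε1 ν _ hν A
  set μ := Measure.infinitePi ν with hμ
  set b := (bd A).card with hb
  let Y : (Dir R → ℤ) × Dir R → Coupling d → ℝ := fun p J => -(sg (J (edg R p)))
  have hYm : ∀ p, Measurable (Y p) := by
    intro p
    have h1 : Measurable fun x : Bool => -(sg x) := measurable_of_countable _
    exact h1.comp (measurable_pi_apply (edg R p))
  have hind : iIndepFun Y μ := by
    have h1 := iIndepFun_infinitePi (P := ν) (X := fun _ (x : Bool) => -(sg x))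
      (fun _ => measurable_of_countable _)
    exact h1.precomp (edg_inj R)
  set l := ε / 4 with hl
  have hl0 : 0 ≤ l := by positivity
  have hl1 : l ≤ 1 := by rw [hl]; linarith
  have hm : ∀ p, mgf (Y p) μ l ≤ Real.exp (l ^ 2 - ε * l) := by
    intro p
    unfold mgf
    have h1 := (measurePreserving_eval_infinitePi ν (edg R p)).map_eq
    have h2 : ∫ J, Real.exp (l * Y p J) ∂μ = ∫ x, Real.exp (l * (-(sg x))) ∂(ν (edg R p)) := by
      rw [← h1, integral_map (measurable_pi_apply _).aemeasurable]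
      exact (measurable_of_countable fun x : Bool => Real.exp (l * (-(sg x)))).aestronglyMeasurable
    rw [h2]
    exact mgf_one (ν (edg R p)) hε.le hε1 (hν _ (not_isR_edg R p)) hl0 hl1
  have hYb : ∀ p J, |Y p J| ≤ 1 := by
    intro p J
    simp only [Y]
    unfold sg
    cases J (edg R p) <;> norm_num
  have hint : Integrable (fun J => Real.exp (l * (∑ p ∈ bd A, Y p) J)) μ := by
    apply Integrable.of_bound (C := Real.exp (l * b))
    · apply Measurable.aestronglyMeasurable
      apply Real.measurable_exp.comp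
      apply Measurable.const_mul
      have h3 : (∑ p ∈ bd A, Y p) = fun J => ∑ p ∈ bd A, Y p J := by
        funext J
        rw [Finset.sum_apply]
      rw [h3]
      exact Finset.measurable_sum _ fun p _ => hYm p
    · refine Filter.Eventually.of_forall fun J => ?_
      rw [Real.norm_eq_abs, abs_of_pos (Real.exp_pos _)]
      apply Real.exp_le_exp.mpr
      apply mul_le_mul_of_nonneg_left _ hl0
      rw [Finset.sum_apply]
      calc ∑ p ∈ bd A, Y p J ≤ ∑ p ∈ bd A, (1 : ℝ) :=
            Finset.sum_le_sum fun p _ => (le_abs_self _).trans (hYb p J)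
        _ = b := by rw [Finset.sum_const, nsmul_eq_mul, mul_one]
  have hch := measure_ge_le_exp_mul_mgf (μ := μ) (X := ∑ p ∈ bd A, Y p) (t := l)
    (-(ε * b / 2)) hl0 hint
  rw [hind.mgf_sum hYm] at hch
  have hprod : ∏ p ∈ bd A, mgf (Y p) μ l ≤ Real.exp ((l ^ 2 - ε * l) * b) := by
    calc ∏ p ∈ bd A, mgf (Y p) μ l ≤ ∏ _p ∈ bd A, Real.exp (l ^ 2 - ε * l) :=
          Finset.prod_le_prod (fun p _ => mgf_nonneg) fun p _ => hm p
      _ = Real.exp ((l ^ 2 - ε * l) * b) := by
          rw [Finset.prod_const, ← Real.exp_nat_mul, mul_comm]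
  have hsub : {J : Coupling d | nrg R A J < ε * b / 2} ⊆
      {J | -(ε * b / 2) ≤ (∑ p ∈ bd A, Y p) J} := by
    intro J hJ
    rw [Set.mem_ofPred_eq] at hJ ⊢
    rw [Finset.sum_apply]
    have h1 : ∑ p ∈ bd A, Y p J = -nrg R A J := by
      unfold nrg
      rw [← Finset.sum_neg_distrib]
      exact Finset.sum_congr rfl fun p _ => by rw [Jc_edg]
    rw [h1]
    linarith
  have hfin : μ.real {J | nrg R A J < ε * b / 2} ≤ Real.exp (-(ε ^ 2 / 16 * b)) := by
    calc μ.real {J | nrg R A J < ε * b / 2} ≤ μ.real {J | -(ε * b / 2) ≤ (∑ p ∈ bd A, Y p) J} :=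
          measureReal_mono hsub
      _ ≤ Real.exp (-l * -(ε * b / 2)) * ∏ p ∈ bd A, mgf (Y p) μ l := hch
      _ ≤ Real.exp (-l * -(ε * b / 2)) * Real.exp ((l ^ 2 - ε * l) * b) := by gcongr
      _ = Real.exp (-(ε ^ 2 / 16 * b)) := by
          rw [← Real.exp_add]
          congr 1
          rw [hl]
          ring
  rw [← ofReal_measureReal]
  exact ENNReal.ofReal_le_ofReal hfin

end Pool.Agent.K9h96.EA
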