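import Pool.Agent.K9h96.EA.Stm
import Pool.Agent.K9h1.EA.Limit

/-!
# Zero-one law and two Gibbs states (leaf ZO, by helper90 for helper96)
-/

set_option autoImplicit false
set_option linter.all false

open MeasureTheory Filter Topology ProbabilityTheory
open scoped ENNReal

namespace Pool.Agent.K9h96.EA

open Pool.H47EA

namespace Zo

variable {d : ℕ}

lemma gE_sum {ι : Type} (s : Finset ι) (β : ℝ) (J : Coupling d) (Λ : Finset (Site d))
    (ω : Site d → Bool) (c : ι → ℝ) (f : ι → (Site d → Bool) → ℝ) :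
    gE β J Λ ω (fun σ => ∑ i ∈ s, c i * f i σ) = ∑ i ∈ s, c i * gE β J Λ ω (f i) := by
  unfold gE
  simp_rw [← mul_div_assoc]
  rw [← Finset.sum_div]
  congr 1
  simp_rw [Finset.mul_sum]
  rw [Finset.sum_comm]
  apply Finset.sum_congr rfl
  intro i _
  apply Finset.sum_congr rfl
  intro η _
  ring

lemma gE_bounds (β : ℝ) (J : Coupling d) (Λ : Finset (Site d)) (ω : Site d → Bool)
    (f : (Site d → Bool) → ℝ) {c C : ℝ} (h1 : ∀ σ, c ≤ f σ) (h2 : ∀ σ, f σ ≤ C) :
    c ≤ gE β J Λ ω f ∧ gE β J Λ ω f ≤ C := by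
  have e1 := Basic.gE_mono β J Λ ω (fun _ => c) f (fun η => h1 _)
  have e2 := Basic.gE_mono β J Λ ω f (fun _ => C) (fun η => h2 _)
  rw [Basic.gE_const] at e1 e2
  exact ⟨e1, e2⟩

/-- the local correction of the energy -/
noncomputable def dH (E : Finset (Sym2 (Site d))) (J J' : Coupling d) (σ : Site d → Bool) : ℝ :=
  ∑ e ∈ E, (bond J' σ e - bond J σ e)

lemma abs_sg (b : Bool) : |sg b| = 1 := by
  cases b <;> simp [sg]

lemma Jc_abs (J : Coupling d) (x y : Site d) : |Jc J x y| ≤ 1 := by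
  unfold Jc
  split_ifs
  · rw [abs_sg]
  · simp

lemma bond_abs (J : Coupling d) (σ : Site d → Bool) (e : Sym2 (Site d)) : |bond J σ e| ≤ 1 := by
  induction e using Sym2.ind with
  | _ x y =>
    rw [Basic.bond_mk, abs_mul, abs_mul, abs_sg, abs_sg, mul_one, mul_one]
    exact Jc_abs J x y

lemma dH_abs (E : Finset (Sym2 (Site d))) (J J' : Coupling d) (σ : Site d → Bool) :
    |dH E J J' σ| ≤ 2 * E.card := by
  unfold dH
  refine (Finset.abs_sum_le_sum_abs _ _).trans ?_
  calc ∑ e ∈ E, |bond J' σ e - bond J σ e| ≤ ∑ e ∈ E, (2 : ℝ) := by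
        apply Finset.sum_le_sum
        intro e _
        refine (abs_sub _ _).trans ?_
        have := bond_abs J' σ e
        have := bond_abs J σ e
        linarith
    _ = 2 * E.card := by rw [Finset.sum_const, nsmul_eq_mul]; ring

lemma ham_change {J J' : Coupling d} {E : Finset (Sym2 (Site d))}
    (h : ∀ e : (lat d).edgeSet, e.1 ∉ E → J' e = J e)
    {Λ : Finset (Site d)} (hE : E ⊆ edgesOf Λ) (σ : Site d → Bool) :
    ham J' Λ σ = ham J Λ σ + dH E J J' σ := by
  unfold ham dH
  have h1 : ∑ e ∈ E, (bond J' σ e - bond J σ e) = ∑ e ∈ edgesOf Λ, (bond J' σ e - bond J σ e) := by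
    apply Finset.sum_subset hE
    intro e _ he
    induction e using Sym2.ind with
    | _ x y =>
      rw [Basic.bond_mk, Basic.bond_mk]
      have : Jc J' x y = Jc J x y := by
        unfold Jc
        split_ifs with hxy
        · rw [h ⟨s(x, y), hxy⟩ he]
        · rfl
      rw [this]
      ring
  rw [h1, ← Finset.sum_add_distrib]
  apply Finset.sum_congr rfl
  intro e _
  ring

lemma gE_change (β : ℝ) {J J' : Coupling d} {E : Finset (Sym2 (Site d))}
    (h : ∀ e : (lat d).edgeSet, e.1 ∉ E → J' e = J e) {Λ : Finset (Site d)}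
    (hE : E ⊆ edgesOf Λ) (ω : Site d → Bool) (f : (Site d → Bool) → ℝ) :
    gE β J' Λ ω f =
      gE β J Λ ω (fun σ => f σ * Real.exp (β * dH E J J' σ)) /
        gE β J Λ ω (fun σ => Real.exp (β * dH E J J' σ)) := by
  have hZ := (Basic.Zp_pos β J Λ ω).ne'
  have h2 : gE β J Λ ω (fun σ => Real.exp (β * dH E J J' σ)) =
      Zp β J' Λ ω / Zp β J Λ ω := by
    unfold gE
    congr 1
    conv_rhs => unfold Zp
    apply Finset.sum_congr rfl
    intro η _
    rw [ham_change h hE, mul_add, Real.exp_add]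
  have h3 : gE β J Λ ω (fun σ => f σ * Real.exp (β * dH E J J' σ)) =
      (∑ η : Λ → Bool, Real.exp (β * ham J' Λ (glue Λ η ω)) * f (glue Λ η ω)) / Zp β J Λ ω := by
    unfold gE
    congr 1
    apply Finset.sum_congr rfl
    intro η _
    rw [ham_change h hE, mul_add, Real.exp_add]
    ring
  rw [h2, h3, div_div_div_cancel_right₀ hZ]
  rfl

/-- `f` depends only on the values on `Δ` -/
def Loc (Δ : Finset (Site d)) (f : (Site d → Bool) → ℝ) : Prop :=
  ∀ σ σ' : Site d → Bool, (∀ x ∈ Δ, σ x = σ' x) → f σ = f σ'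

open Classical in
/-- the indicator of the cylinder `{σ = η on Δ}` -/
noncomputable def cyl (Δ : Finset (Site d)) (η : Δ → Bool) (σ : Site d → Bool) : ℝ :=
  if ∀ x : Δ, σ x = η x then 1 else 0

lemma cyl_cont (Δ : Finset (Site d)) (η : Δ → Bool) : Continuous (cyl Δ η) := by
  have h1 : cyl Δ η = fun σ => ∏ x : Δ, (fun b : Bool => if b = η x then (1 : ℝ) else 0) (σ x) := by
    funext σ
    unfold cyl
    split_ifs with h
    · rw [Finset.prod_eq_one]
      intro x _
      simp [h x]
    · push Not at h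
      obtain ⟨x, hx⟩ := h
      rw [Finset.prod_eq_zero (Finset.mem_univ x)]
      simp [hx]
  rw [h1]
  exact continuous_finsetProd _ fun x _ =>
    Continuous.comp (g := fun b : Bool => if b = η x then (1 : ℝ) else 0)
      continuous_of_discreteTopology (continuous_apply (x : Site d))

lemma cyl_bd (Δ : Finset (Site d)) (η : Δ → Bool) (σ : Site d → Bool) :
    0 ≤ cyl Δ η σ ∧ cyl Δ η σ ≤ 1 := by
  unfold cyl
  split_ifs <;> norm_num

lemma loc_eq {Δ : Finset (Site d)} {f : (Site d → Bool) → ℝ} (hf : Loc Δ f) :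
    f = fun σ => ∑ η : Δ → Bool, f (glue Δ η (fun _ => true)) * cyl Δ η σ := by
  classical
  funext σ
  rw [Finset.sum_eq_single (fun x : Δ => σ x)]
  · rw [cyl, if_pos (fun x => rfl), mul_one]
    apply hf
    intro x hx
    rw [glue, dif_pos hx]
  · intro η _ hη
    rw [cyl, if_neg, mul_zero]
    intro h
    exact hη (funext fun x => (h x).symm)
  · intro h
    exact absurd (Finset.mem_univ _) h

/-- no dependence on the boundary condition in the limit -/
def Sq (β : ℝ) (J : Coupling d) (f : (Site d → Bool) → ℝ) : Prop :=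
  ∀ τ τ' : ℕ → Site d → Bool, Tendsto
    (fun n : ℕ => gE β J (box d n) (τ n) f - gE β J (box d n) (τ' n) f) atTop (nhds 0)

lemma sq_iff (β : ℝ) (J : Coupling d) (f : (Site d → Bool) → ℝ) :
    Sq β J f ↔ ∀ k : ℕ, ∃ n₀, ∀ n ≥ n₀, ∀ τ τ' : Site d → Bool,
      |gE β J (box d n) τ f - gE β J (box d n) τ' f| ≤ 1 / ((k : ℝ) + 1) := by
  classical
  constructor
  · intro h k
    by_contra hc
    push Not at hc
    let τ : ℕ → Site d → Bool := fun n =>
      if hn : ∃ τ τ' : Site d → Bool,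
        1 / ((k : ℝ) + 1) < |gE β J (box d n) τ f - gE β J (box d n) τ' f| then hn.choose
      else fun _ => true
    let τ' : ℕ → Site d → Bool := fun n =>
      if hn : ∃ τ τ' : Site d → Bool,
        1 / ((k : ℝ) + 1) < |gE β J (box d n) τ f - gE β J (box d n) τ' f| then
        hn.choose_spec.choose
      else fun _ => true
    have h1 := h τ τ'
    rw [Metric.tendsto_atTop] at h1
    obtain ⟨N, hN⟩ := h1 (1 / ((k : ℝ) + 1)) (by positivity)
    obtain ⟨n, hn, hn'⟩ := hc N
    have h2 := hN n hn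
    rw [Real.dist_eq, sub_zero] at h2
    have h3 : 1 / ((k : ℝ) + 1) <
        |gE β J (box d n) (τ n) f - gE β J (box d n) (τ' n) f| := by
      simp only [τ, τ', dif_pos hn']
      exact hn'.choose_spec.choose_spec
    linarith
  · intro h τ τ'
    rw [Metric.tendsto_atTop]
    intro ε hε
    obtain ⟨k, hk⟩ := exists_nat_one_div_lt hε
    obtain ⟨n₀, hn₀⟩ := h k
    refine ⟨n₀, fun n hn => ?_⟩
    rw [Real.dist_eq, sub_zero]
    exact (hn₀ n hn _ _).trans_lt hk

/-- uniqueness -/
def Uni (β : ℝ) (J : Coupling d) : Prop :=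
  ∀ (Δ : Finset (Site d)) (η : Δ → Bool), Sq β J (cyl Δ η)

lemma loc_sq {β : ℝ} {J : Coupling d} (h : Uni β J) {Δ : Finset (Site d)}
    {f : (Site d → Bool) → ℝ} (hf : Loc Δ f) : Sq β J f := by
  intro τ τ'
  have h1 : ∀ n : ℕ, gE β J (box d n) (τ n) f - gE β J (box d n) (τ' n) f =
      ∑ η : Δ → Bool, f (glue Δ η (fun _ => true)) *
        (gE β J (box d n) (τ n) (cyl Δ η) - gE β J (box d n) (τ' n) (cyl Δ η)) := by
    intro n
    conv_lhs => rw [loc_eq hf]
    rw [gE_sum, gE_sum, ← Finset.sum_sub_distrib]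
    apply Finset.sum_congr rfl
    intro η _
    ring
  simp_rw [h1]
  have h2 : (0 : ℝ) = ∑ η : Δ → Bool, f (glue Δ η (fun _ => true)) * 0 := by simp
  rw [h2]
  exact tendsto_finsetSum _ fun η _ => (h Δ η τ τ').const_mul _

lemma mem_box_ev (x : Site d) : ∀ᶠ n : ℕ in atTop, x ∈ box d n := by
  have h1 : ∀ᶠ n : ℕ in atTop, ∀ c, (x c).natAbs ≤ n := by
    rw [Filter.eventually_all]
    intro c
    exact eventually_ge_atTop _
  filter_upwards [h1] with n hn
  unfold box
  rw [Finset.mem_Icc]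
  constructor
  · intro c
    have := hn c
    show -(n : ℤ) ≤ x c
    omega
  · intro c
    have := hn c
    show x c ≤ (n : ℤ)
    omega

lemma ev_box (E : Finset (Sym2 (Site d))) (hE : ∀ e ∈ E, e ∈ (lat d).edgeSet) :
    ∀ᶠ n : ℕ in atTop, E ⊆ edgesOf (box d n) := by
  have h1 : ∀ᶠ n : ℕ in atTop, ∀ e ∈ E, e ∈ edgesOf (box d n) := by
    rw [Filter.eventually_all_finset]
    intro e he
    have h2 := hE e he
    induction e using Sym2.ind with
    | _ x y =>
      filter_upwards [mem_box_ev x] with n hn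
      rw [Basic.mem_edgesOf]
      exact ⟨x, hn, y, h2, rfl⟩
  filter_upwards [h1] with n hn e he
  exact hn e he

lemma ev_sub (Λ : Finset (Site d)) : ∀ᶠ n : ℕ in atTop, Λ ⊆ box d n := by
  have h1 : ∀ᶠ n : ℕ in atTop, ∀ x ∈ Λ, x ∈ box d n := by
    rw [Filter.eventually_all_finset]
    intro x _
    exact mem_box_ev x
  filter_upwards [h1] with n hn x hx
  exact hn x hx

lemma uni_change (β : ℝ) {J J' : Coupling d} {E : Finset (Sym2 (Site d))}
    (hE : ∀ e ∈ E, e ∈ (lat d).edgeSet)
    (h : ∀ e : (lat d).edgeSet, e.1 ∉ E → J' e = J e) (hU : Uni β J) : Uni β J' := by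
  classical
  intro Δ η τ τ'
  set g : (Site d → Bool) → ℝ := fun σ => Real.exp (β * dH E J J' σ) with hg
  set M : ℝ := |β| * (2 * E.card) with hM
  have hgb : ∀ σ, Real.exp (-M) ≤ g σ ∧ g σ ≤ Real.exp M := by
    intro σ
    have h1 : |β * dH E J J' σ| ≤ M := by
      rw [abs_mul]
      exact mul_le_mul_of_nonneg_left (dH_abs _ _ _ _) (abs_nonneg _)
    rw [abs_le] at h1
    exact ⟨Real.exp_le_exp.2 h1.1, Real.exp_le_exp.2 h1.2⟩
  have hcyl := cyl_bd Δ η
  set V : Finset (Site d) := E.biUnion (fun e => e.toFinset) with hV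
  have hbond : ∀ (J : Coupling d) (e : Sym2 (Site d)) (σ σ' : Site d → Bool),
      (∀ x ∈ e, σ x = σ' x) → bond J σ e = bond J σ' e := by
    intro J e σ σ' hs
    induction e using Sym2.ind with
    | _ x y =>
      rw [Basic.bond_mk, Basic.bond_mk, hs x (by simp), hs y (by simp)]
  have hgl : Loc (Δ ∪ V) g := by
    intro σ σ' hs
    have : dH E J J' σ = dH E J J' σ' := by
      unfold dH
      apply Finset.sum_congr rfl
      intro e he
      have h3 : ∀ x ∈ e, σ x = σ' x := by
        intro x hx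
        apply hs
        apply Finset.mem_union_right
        rw [hV, Finset.mem_biUnion]
        exact ⟨e, he, Sym2.mem_toFinset.2 hx⟩
      rw [hbond J e σ σ' h3, hbond J' e σ σ' h3]
    simp only [hg, this]
  have hfl : Loc (Δ ∪ V) (fun σ => cyl Δ η σ * g σ) := by
    intro σ σ' hs
    have h1 : cyl Δ η σ = cyl Δ η σ' := by
      unfold cyl
      have : (∀ x : Δ, σ x = η x) ↔ (∀ x : Δ, σ' x = η x) :=
        forall_congr' fun x => by rw [hs x (Finset.mem_union_left _ x.2)]
      simp only [this]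
    simp only [h1, hgl σ σ' hs]
  have hP := loc_sq hU hfl τ τ'
  have hQ := loc_sq hU hgl τ τ'
  set P : ℕ → ℝ := fun n => gE β J (box d n) (τ n) (fun σ => cyl Δ η σ * g σ)
  set P' : ℕ → ℝ := fun n => gE β J (box d n) (τ' n) (fun σ => cyl Δ η σ * g σ)
  set Q : ℕ → ℝ := fun n => gE β J (box d n) (τ n) g
  set Q' : ℕ → ℝ := fun n => gE β J (box d n) (τ' n) g
  have hQb : ∀ n, Real.exp (-M) ≤ Q n ∧ Q n ≤ Real.exp M := fun n =>
    gE_bounds _ _ _ _ _ (fun σ => (hgb σ).1) (fun σ => (hgb σ).2)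
  have hQb' : ∀ n, Real.exp (-M) ≤ Q' n ∧ Q' n ≤ Real.exp M := fun n =>
    gE_bounds _ _ _ _ _ (fun σ => (hgb σ).1) (fun σ => (hgb σ).2)
  have hPb' : ∀ n, 0 ≤ P' n ∧ P' n ≤ Real.exp M := fun n =>
    gE_bounds _ _ _ _ _ (fun σ => mul_nonneg (hcyl σ).1 (Real.exp_pos _).le)
      (fun σ => by
        calc cyl Δ η σ * g σ ≤ 1 * g σ :=
              mul_le_mul_of_nonneg_right (hcyl σ).2 (Real.exp_pos _).le
          _ ≤ _ := by rw [one_mul]; exact (hgb σ).2)
  have h0 : Tendsto (fun n => P n / Q n - P' n / Q' n) atTop (nhds 0) := by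
    have hb : ∀ n, |P n / Q n - P' n / Q' n| ≤
        (Real.exp M * |P n - P' n| + Real.exp M * |Q n - Q' n|) /
          (Real.exp (-M) * Real.exp (-M)) := by
      intro n
      have q1 := (Real.exp_pos (-M)).trans_le (hQb n).1
      have q2 := (Real.exp_pos (-M)).trans_le (hQb' n).1
      have e1 : P n / Q n - P' n / Q' n =
          ((P n - P' n) * Q' n - P' n * (Q n - Q' n)) / (Q n * Q' n) := by
        field_simp
        ring
      rw [e1, abs_div, abs_of_pos (mul_pos q1 q2)]
      apply div_le_div₀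
      · positivity
      · refine (abs_sub _ _).trans (add_le_add ?_ ?_)
        · rw [abs_mul, mul_comm, abs_of_pos q2]
          exact mul_le_mul_of_nonneg_right (hQb' n).2 (abs_nonneg _)
        · rw [abs_mul, abs_of_nonneg (hPb' n).1]
          exact mul_le_mul_of_nonneg_right (hPb' n).2 (abs_nonneg _)
      · positivity
      · exact mul_le_mul (hQb n).1 (hQb' n).1 (Real.exp_pos _).le q1.le
    have hlim : Tendsto (fun n =>
        (Real.exp M * |P n - P' n| + Real.exp M * |Q n - Q' n|) /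
          (Real.exp (-M) * Real.exp (-M))) atTop (nhds (
        (Real.exp M * |0| + Real.exp M * |0|) / (Real.exp (-M) * Real.exp (-M)))) :=
      ((hP.abs.const_mul _).add (hQ.abs.const_mul _)).div_const _
    have e0 : (Real.exp M * |(0 : ℝ)| + Real.exp M * |(0 : ℝ)|) /
        (Real.exp (-M) * Real.exp (-M)) = 0 := by
      simp
    rw [e0] at hlim
    exact squeeze_zero_norm hb hlim
  refine h0.congr' ?_
  filter_upwards [ev_box E hE] with n hn
  rw [gE_change β h hn, gE_change β h hn]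

/-! ### measurability -/

lemma meas_bond (e : Sym2 (Site d)) (σ : Site d → Bool) :
    Measurable (fun J : Coupling d => bond J σ e) := by
  induction e using Sym2.ind with
  | _ x y =>
    have h1 : (fun J : Coupling d => bond J σ s(x, y)) =
        fun J => Jc J x y * sg (σ x) * sg (σ y) := by
      funext J
      rw [Basic.bond_mk]
    rw [h1]
    apply Measurable.mul_const
    apply Measurable.mul_const
    unfold Jc
    split_ifs with h
    · exact (measurable_of_countable sg).comp (measurable_pi_apply _)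
    · exact measurable_const

lemma meas_ham (Λ : Finset (Site d)) (σ : Site d → Bool) :
    Measurable (fun J : Coupling d => ham J Λ σ) := by
  unfold ham
  exact Finset.measurable_fun_sum _ fun e _ => meas_bond e σ

lemma meas_gE (β : ℝ) (Λ : Finset (Site d)) (ω : Site d → Bool) (f : (Site d → Bool) → ℝ) :
    Measurable (fun J : Coupling d => gE β J Λ ω f) := by
  unfold gE Zp
  apply Measurable.div
  · exact Finset.measurable_fun_sum _ fun η _ =>
      (((meas_ham Λ _).const_mul β).exp).mul_const _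
  · exact Finset.measurable_fun_sum _ fun η _ => ((meas_ham Λ _).const_mul β).exp

lemma meas_set (β : ℝ) : MeasurableSet {J : Coupling d | Uni β J} := by
  let D : ℕ → Site d → Bool := TopologicalSpace.denseSeq (Site d → Bool)
  have hD : DenseRange D := TopologicalSpace.denseRange_denseSeq _
  have h1 : {J : Coupling d | Uni β J} =
      ⋂ (Δ : Finset (Site d)) (η : Δ → Bool) (k : ℕ), ⋃ n₀ : ℕ, ⋂ (n : ℕ) (_ : n ≥ n₀) (i : ℕ)
        (j : ℕ), {J : Coupling d | |gE β J (box d n) (D i) (cyl Δ η) -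
          gE β J (box d n) (D j) (cyl Δ η)| ≤ 1 / ((k : ℝ) + 1)} := by
    ext J
    simp only [Set.mem_setOf_eq, Set.mem_iInter, Set.mem_iUnion]
    unfold Uni
    simp_rw [sq_iff]
    refine forall_congr' fun Δ => forall_congr' fun η => forall_congr' fun k =>
      exists_congr fun n₀ => forall_congr' fun n => forall_congr' fun hn => ?_
    constructor
    · intro h i j
      exact h _ _
    · intro h τ τ'
      have hc : Continuous (fun p : (Site d → Bool) × (Site d → Bool) =>
          |gE β J (box d n) p.1 (cyl Δ η) - gE β J (box d n) p.2 (cyl Δ η)|) := by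
        have h2 := GIBBSE.continuous_gE β J (box d n) (cyl Δ η) (cyl_cont Δ η)
        exact ((h2.comp continuous_fst).sub (h2.comp continuous_snd)).abs
      have hcl : IsClosed {p : (Site d → Bool) × (Site d → Bool) |
          |gE β J (box d n) p.1 (cyl Δ η) - gE β J (box d n) p.2 (cyl Δ η)| ≤
            1 / ((k : ℝ) + 1)} := isClosed_le hc continuous_const
      have hd : DenseRange (fun p : ℕ × ℕ => (D p.1, D p.2)) := hD.prodMap hD
      have h3 : ∀ p : (Site d → Bool) × (Site d → Bool), p ∈ {p : (Site d → Bool) × (Site d → Bool) |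
          |gE β J (box d n) p.1 (cyl Δ η) - gE β J (box d n) p.2 (cyl Δ η)| ≤
            1 / ((k : ℝ) + 1)} := by
        intro p
        have h4 : closure (Set.range (fun p : ℕ × ℕ => (D p.1, D p.2))) ⊆
            {p : (Site d → Bool) × (Site d → Bool) |
              |gE β J (box d n) p.1 (cyl Δ η) - gE β J (box d n) p.2 (cyl Δ η)| ≤
                1 / ((k : ℝ) + 1)} := by
          apply closure_minimal _ hcl
          rintro _ ⟨q, rfl⟩
          exact h q.1 q.2
        exact h4 (hd p)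
      exact h3 (τ, τ')
  rw [h1]
  refine MeasurableSet.iInter fun Δ => MeasurableSet.iInter fun η => MeasurableSet.iInter fun k =>
    MeasurableSet.iUnion fun n₀ => MeasurableSet.iInter fun n => MeasurableSet.iInter fun hn =>
    MeasurableSet.iInter fun i => MeasurableSet.iInter fun j => ?_
  exact measurableSet_le (((meas_gE β _ _ _).sub (meas_gE β _ _ _)).abs) measurable_const

/-- zero-one law for uniqueness -/
theorem zero_one (β : ℝ) (ν : (lat d).edgeSet → Measure Bool) [∀ e, IsProbabilityMeasure (ν e)] :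
    Measure.infinitePi ν {J : Coupling d | Uni β J} = 0 ∨
      Measure.infinitePi ν {J : Coupling d | Uni β J} = 1 := by
  classical
  set B : Set (Coupling d) := {J : Coupling d | Uni β J} with hB
  have hBm : MeasurableSet B := meas_set β
  have hinv : ∀ (F : Finset (lat d).edgeSet) (s s' : Coupling d), (∀ e, e ∉ F → s e = s' e) →
      s ∈ B → s' ∈ B := by
    intro F s s' h hs
    refine uni_change β (E := F.image Subtype.val) ?_ ?_ hs
    · intro e he
      rw [Finset.mem_image] at he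
      obtain ⟨a, -, rfl⟩ := he
      exact a.2
    · intro e he
      refine (h e fun h1 => he ?_).symm
      exact Finset.mem_image_of_mem _ h1
  let m : (lat d).edgeSet → MeasurableSpace (Coupling d) := fun e =>
    MeasurableSpace.comap (fun s => s e) inferInstance
  have hind : iIndep m (Measure.infinitePi ν) := by
    have h1 : iIndepFun (fun (e : (lat d).edgeSet) (s : Coupling d) => s e)
        (Measure.infinitePi ν) :=
      iIndepFun_infinitePi (X := fun (e : (lat d).edgeSet) (b : Bool) => b)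
        (fun e => measurable_id)
    exact h1
  have hle : ∀ e, m e ≤ (inferInstance : MeasurableSpace (Coupling d)) := fun e =>
    (measurable_pi_apply e).comap_le
  refine measure_zero_or_one_of_measurableSet_limsup (s := m) (f := cofinite)
    (p := Set.Finite) (ns := fun F : Finset (lat d).edgeSet => (F : Set (lat d).edgeSet)) hle hind
    (fun t ht => ht.compl_mem_cofinite) ?_ (fun F => F.finite_toSet)
    (fun e => ⟨{e}, by simp⟩) ?_
  · intro F G
    exact ⟨F ∪ G, by simp, by simp⟩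
  · rw [(hasBasis_cofinite).limsup_eq_iInf_iSup]
    rw [MeasurableSpace.measurableSet_iInf]
    intro T
    rw [MeasurableSpace.measurableSet_iInf]
    intro hT
    set ρ : Coupling d → Coupling d := fun s e => if e ∈ T then true else s e with hρ
    have hρm : @Measurable _ _ (⨆ e ∈ Tᶜ, m e) _ ρ := by
      apply @measurable_pi_lambda _ _ _ (⨆ e ∈ Tᶜ, m e)
      intro e
      by_cases he : e ∈ T
      · simp only [hρ, if_pos he]
        exact @measurable_const _ _ _ (⨆ e ∈ Tᶜ, m e) _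
      · simp only [hρ, if_neg he]
        have h1 : @Measurable _ _ (m e) _ (fun s : Coupling d => s e) := comap_measurable _
        refine h1.mono ?_ le_rfl
        exact le_iSup₂_of_le e he le_rfl
    have hpre : B = ρ ⁻¹' B := by
      ext s
      constructor
      · intro hs
        refine hinv hT.toFinset s (ρ s) ?_ hs
        intro e he
        rw [Set.Finite.mem_toFinset] at he
        simp only [hρ, if_neg he]
      · intro hs
        refine hinv hT.toFinset (ρ s) s ?_ hs
        intro e he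
        rw [Set.Finite.mem_toFinset] at he
        simp only [hρ, if_neg he]
    rw [hpre]
    exact hρm hBm

/-! ### two Gibbs states -/

open Pool.Agent.K9h1.EA in
lemma flip_gE (β : ℝ) (J : Coupling d) (Λ : Finset (Site d)) (τ : Site d → Bool) :
    gE β J Λ (tw (fun _ => false) τ) (fun σ => sg (σ 0)) = -gE β J Λ τ (fun σ => sg (σ 0)) := by
  rw [gE_gauge, gauge_false]
  have h1 : (fun σ : Site d → Bool => sg (tw (fun _ => false) σ 0)) =
      fun σ => (-1) * sg (σ 0) + 0 * sg (σ 0) := by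
    funext σ
    unfold tw
    rw [sg_beq, show sg false = -1 by simp [sg]]
    ring
  rw [h1, Basic.gE_lin β J Λ τ (fun σ => sg (σ 0)) (fun σ => sg (σ 0)) (-1) 0]
  ring

theorem two (β : ℝ) (J : Coupling d) (h : ¬ Uni β J) :
    ∃ π π' : Measure (Site d → Bool), π ≠ π' ∧ IsGibbs β J π ∧ IsGibbs β J π' := by
  unfold Uni at h
  push Not at h
  obtain ⟨Δ, η, h⟩ := h
  rw [sq_iff] at h
  push Not at h
  obtain ⟨k, hk⟩ := h
  set ε : ℝ := 1 / ((k : ℝ) + 1) with hε
  have hε0 : 0 < ε := by positivity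
  set f := cyl Δ η with hf
  have hb : ∀ Λ τ, 0 ≤ gE β J Λ τ f ∧ gE β J Λ τ f ≤ 1 := fun Λ τ =>
    gE_bounds _ _ _ _ _ (fun σ => (cyl_bd Δ η σ).1) (fun σ => (cyl_bd Δ η σ).2)
  have hba : ∀ Λ, BddAbove (Set.range fun τ => gE β J Λ τ f) := fun Λ =>
    ⟨1, by rintro _ ⟨τ, rfl⟩; exact (hb Λ τ).2⟩
  have hbb : ∀ Λ, BddBelow (Set.range fun τ => gE β J Λ τ f) := fun Λ =>
    ⟨0, by rintro _ ⟨τ, rfl⟩; exact (hb Λ τ).1⟩
  set a : Finset (Site d) → ℝ := fun Λ => ⨆ τ, gE β J Λ τ f with ha
  set b : Finset (Site d) → ℝ := fun Λ => ⨅ τ, gE β J Λ τ f with hbdef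
  have ha1 : ∀ Λ τ, gE β J Λ τ f ≤ a Λ := fun Λ τ => le_ciSup (hba Λ) τ
  have hb1 : ∀ Λ τ, b Λ ≤ gE β J Λ τ f := fun Λ τ => ciInf_le (hbb Λ) τ
  have hamono : ∀ {Λ Λ' : Finset (Site d)}, Λ ⊆ Λ' → a Λ' ≤ a Λ := by
    intro Λ Λ' hs
    apply ciSup_le
    intro τ
    rw [Basic.gE_cons hs β J τ f]
    exact (gE_bounds β J Λ' τ _ (fun σ => (hb Λ σ).1) (fun σ => ha1 Λ σ)).2
  have hbmono : ∀ {Λ Λ' : Finset (Site d)}, Λ ⊆ Λ' → b Λ ≤ b Λ' := by
    intro Λ Λ' hs
    apply le_ciInf
    intro τ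
    rw [Basic.gE_cons hs β J τ f]
    exact (gE_bounds β J Λ' τ _ (fun σ => hb1 Λ σ) (fun σ => (hb Λ σ).2)).1
  have hab : ∀ Λ Λ', b Λ' + ε ≤ a Λ := by
    intro Λ Λ'
    obtain ⟨N, hN⟩ := (ev_sub (Λ ∪ Λ')).exists_forall_of_atTop
    obtain ⟨n, hn, τ, τ', h1⟩ := hk N
    have h2 := hN n hn
    have h3 := hamono ((Finset.subset_union_left).trans h2)
    have h4 := hbmono ((Finset.subset_union_right).trans h2)
    have h5 := ha1 (box d n) τ
    have h6 := ha1 (box d n) τ'
    have h7 := hb1 (box d n) τ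
    have h8 := hb1 (box d n) τ'
    rcases lt_abs.1 h1 with h9 | h9 <;> linarith
  have hbda : BddBelow (Set.range a) := ⟨b ∅ + ε, by rintro _ ⟨Λ, rfl⟩; exact hab Λ ∅⟩
  have hbdb : BddAbove (Set.range b) := ⟨a ∅ - ε, by
    rintro _ ⟨Λ, rfl⟩
    have := hab ∅ Λ
    show b Λ ≤ a ∅ - ε
    linarith⟩
  set sp : ℝ := ⨅ Λ, a Λ with hsp
  set sm : ℝ := ⨆ Λ, b Λ with hsm
  have hss : sm + ε ≤ sp := by
    apply le_ciInf
    intro Λ
    have : sm ≤ a Λ - ε := by
      apply ciSup_le
      intro Λ'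
      have := hab Λ Λ'
      linarith
    linarith
  have hT : ∀ Λ, ∃ τ, sp - ε / 3 ≤ gE β J Λ τ f := by
    intro Λ
    have h1 : sp ≤ a Λ := ciInf_le hbda Λ
    obtain ⟨τ, hτ⟩ := exists_lt_of_lt_ciSup (show sp - ε / 3 < ⨆ τ, gE β J Λ τ f by
      show _ < a Λ
      linarith)
    exact ⟨τ, hτ.le⟩
  have hT' : ∀ Λ, ∃ τ, gE β J Λ τ f ≤ sm + ε / 3 := by
    intro Λ
    have h1 : b Λ ≤ sm := le_ciSup hbdb Λ
    obtain ⟨τ, hτ⟩ := exists_lt_of_ciInf_lt (show ⨅ τ, gE β J Λ τ f < sm + ε / 3 by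
      show b Λ < _
      linarith)
    exact ⟨τ, hτ.le⟩
  choose T hT using hT
  choose T' hT' using hT'
  obtain ⟨π, hπ, hπ'⟩ := Pool.Agent.K9h1.EA.exists_gibbs β J T
  obtain ⟨π₂, hπ₂, hπ₂'⟩ := Pool.Agent.K9h1.EA.exists_gibbs β J T'
  have e1 : sp - ε / 3 ≤ ∫ ω, f ω ∂π := hπ' f (cyl_cont Δ η) _ ∅ fun Λ _ => hT Λ
  have e2 : -(sm + ε / 3) ≤ ∫ ω, -f ω ∂π₂ := by
    apply hπ₂' (fun ω => -f ω) (cyl_cont Δ η).neg _ ∅
    intro Λ _
    have h1 : (fun ω : Site d → Bool => -f ω) = fun σ => (-1) * f σ + 0 * f σ := by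
      funext σ; ring
    rw [h1, Basic.gE_lin β J Λ _ f f (-1) 0]
    have := hT' Λ
    linarith
  refine ⟨π, π₂, ?_, hπ, hπ₂⟩
  rintro rfl
  rw [integral_neg] at e2
  linarith

end Zo

open Zo in
theorem t_ZO : S_ZO := by
  intro d β ν hν c δ hc hδ h
  have h01 := zero_one β ν
  set G : ℕ → Set (Coupling d) := fun n => {J | ∀ τ : Site d → Bool,
      |gE β J (box d n) τ (fun σ => sg (σ 0))| < c} with hG
  have hsub : {J : Coupling d | Uni β J} ⊆ ⋃ n₀ : ℕ, ⋂ (n : ℕ) (_ : n ≥ n₀), G n := by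
    intro J hJ
    have hloc : Loc {0} (fun σ : Site d → Bool => sg (σ 0)) := by
      intro σ σ' hs
      show sg (σ 0) = sg (σ' 0)
      rw [hs 0 (Finset.mem_singleton_self 0)]
    have h1 := loc_sq hJ hloc
    rw [sq_iff] at h1
    obtain ⟨k, hk⟩ := exists_nat_one_div_lt hc
    obtain ⟨n₀, hn₀⟩ := h1 k
    rw [Set.mem_iUnion]
    refine ⟨n₀, ?_⟩
    simp only [Set.mem_iInter]
    intro n hn τ
    have h2 := hn₀ n hn τ (Pool.Agent.K9h1.EA.tw (fun _ => false) τ)
    rw [flip_gE, sub_neg_eq_add, ← two_mul, abs_mul, abs_of_pos (show (0 : ℝ) < 2 by norm_num)] at h2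
    have h3 := abs_nonneg (gE β J (box d n) τ (fun σ => sg (σ 0)))
    linarith
  have hmono : Monotone (fun n₀ : ℕ => ⋂ (n : ℕ) (_ : n ≥ n₀), G n) := by
    intro n₁ n₂ hn
    refine Set.iInter_mono fun n => ?_
    exact Set.iInter_mono' fun h2 => ⟨hn.trans h2, le_rfl⟩
  have hle : Measure.infinitePi ν {J : Coupling d | Uni β J} ≤ δ := by
    refine (measure_mono hsub).trans ?_
    rw [hmono.measure_iUnion]
    apply iSup_le
    intro n₀
    refine (measure_mono ?_).trans (h n₀)
    exact Set.iInter₂_subset n₀ le_rfl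
  have h0 : Measure.infinitePi ν {J : Coupling d | Uni β J} = 0 := by
    rcases h01 with h1 | h1
    · exact h1
    · rw [h1] at hle
      exact absurd hle (not_le.2 hδ)
  have hae : ∀ᵐ J ∂(Measure.infinitePi ν), ¬ Uni β J := by
    rw [ae_iff]
    simpa using h0
  filter_upwards [hae] with J hJ
  exact two β J hJ

end Pool.Agent.K9h96.EA
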