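import Pool.Agent.K9h96.EA.FINAL4
import Pool.Agent.K9h96.EA.NEG3
import Pool.Agent.K9h96.EA.G012
import Pool.Agent.K9h96.EA.G3
import Pool.Agent.K9h96.EA.CHAIN3
import Pool.Agent.K9h96.EA.F12
import Pool.Agent.K9h96.EA.F3
import Pool.Agent.K9h96.EA.EN
import Pool.Agent.K9h96.EA.FILL
import Pool.Agent.K9h96.EA.Conc
import Pool.Agent.K9h96.EA.ZO

/-! Assembly of project EA (helper96). -/

set_option autoImplicit false

namespace Pool.Agent.K9h96.EA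

theorem main4 : Main4 := by
  have f3 : S_F3 := t_F3 t_CZ t_TOUR t_F2
  have g3 : S_G3 := t_G3 t_G1
  have hc : S_CHAIN3 := t_CHAIN3 t_LM t_F1 t_F2 f3 t_G0 t_G1 g3
  exact t_Main4 (t_EN t_FILL) t_CONC hc t_NEG3 t_LM t_ZO

end Pool.Agent.K9h96.EA
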