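import Pool.Agent.K9h96.EA.Stm

/-! Basic facts (helper96). -/

set_option autoImplicit false

open scoped symmDiff

namespace Pool.Agent.K9h96.EA

variable {I : Type} [Fintype I] [DecidableEq I]

theorem mem_bd {A : Finset (I → ℤ)} {p : (I → ℤ) × I} :
    p ∈ bd A ↔ ¬ (p.1 ∈ A ↔ p.1 + uv p.2 ∈ A) := by
  unfold bd
  rw [Finset.mem_filter, Finset.mem_union, Finset.mem_product, Finset.mem_image]
  constructor
  · exact fun h => h.2
  · intro h
    refine ⟨?_, h⟩
    by_cases h1 : p.1 ∈ A
    · exact Or.inl ⟨h1, Finset.mem_univ _⟩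
    · have h2 : p.1 + uv p.2 ∈ A := by
        by_contra h2
        exact h ⟨fun h3 => absurd h3 h1, fun h3 => absurd h3 h2⟩
      refine Or.inr ⟨(p.1 + uv p.2, p.2), Finset.mem_product.mpr ⟨h2, Finset.mem_univ _⟩, ?_⟩
      simp

theorem mem_bd' {A : Finset (I → ℤ)} {x : I → ℤ} {i : I} :
    (x, i) ∈ bd A ↔ ¬ (x ∈ A ↔ x + uv i ∈ A) := mem_bd

/-- in every direction there are at least two boundary edges -/
theorem two_mul_card_le_bd {A : Finset (I → ℤ)} (hA : A.Nonempty) :
    2 * Fintype.card I ≤ (bd A).card := by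
  classical
  -- the top and the bottom point in direction `i`
  have htop : ∀ i : I, ∃ x ∈ A, x + uv i ∉ A ∧ ∀ y ∈ A, y i ≤ x i := by
    intro i
    obtain ⟨x, hx, hmax⟩ := Finset.exists_max_image A (fun x => x i) hA
    refine ⟨x, hx, fun h => ?_, hmax⟩
    have := hmax _ h
    simp [uv] at this
  have hbot : ∀ i : I, ∃ x ∈ A, x - uv i ∉ A ∧ ∀ y ∈ A, x i ≤ y i := by
    intro i
    obtain ⟨x, hx, hmin⟩ := Finset.exists_min_image A (fun x => x i) hA
    refine ⟨x, hx, fun h => ?_, hmin⟩
    have := hmin _ h
    simp [uv] at this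
  choose t ht1 ht2 ht3 using htop
  choose s hs1 hs2 hs3 using hbot
  let f : I ⊕ I → (I → ℤ) × I := Sum.elim (fun i => (t i, i)) (fun i => (s i - uv i, i))
  have hf : Function.Injective f := by
    rintro (i | i) (j | j) h
    · have := congrArg Prod.snd h
      simpa [f] using this
    · have h1 : i = j := by simpa [f] using congrArg Prod.snd h
      subst h1
      have h2 : t i = s i - uv i := by simpa [f] using congrArg Prod.fst h
      have h3 := hs3 i (t i) (ht1 i)
      rw [h2] at h3
      simp [uv] at h3
    · have h1 : i = j := by simpa [f] using congrArg Prod.snd h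
      subst h1
      have h2 : s i - uv i = t i := by simpa [f] using congrArg Prod.fst h
      have h3 := hs3 i (t i) (ht1 i)
      rw [← h2] at h3
      simp [uv] at h3
    · have := congrArg Prod.snd h
      simpa [f] using this
  have h1 : (Finset.univ.image f) ⊆ bd A := by
    intro p hp
    rw [Finset.mem_image] at hp
    obtain ⟨i, -, rfl⟩ := hp
    rcases i with i | i
    · rw [mem_bd]
      intro h
      exact ht2 i (h.mp (ht1 i))
    · rw [mem_bd]
      intro h
      apply hs2 i
      apply h.mpr
      simpa [f] using hs1 i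
  calc 2 * Fintype.card I = (Finset.univ.image f).card := by
        rw [Finset.card_image_of_injective _ hf, Finset.card_univ, Fintype.card_sum]; ring
    _ ≤ (bd A).card := Finset.card_le_card h1

/-- a finite set without boundary is empty -/
theorem eq_empty_of_bd_empty [Nonempty I] {A : Finset (I → ℤ)} (h : (bd A).card = 0) : A = ∅ := by
  by_contra hne
  have h1 := two_mul_card_le_bd (Finset.nonempty_iff_ne_empty.mpr hne)
  have h2 : 0 < Fintype.card I := Fintype.card_pos
  omega

/-- two finite sets with the same boundary are equal -/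
theorem eq_of_bd_eq [Nonempty I] {A B : Finset (I → ℤ)} (h : bd A = bd B) : A = B := by
  classical
  have h1 : (bd (A ∆ B)).card = 0 := by
    rw [Finset.card_eq_zero, Finset.eq_empty_iff_forall_notMem]
    intro p hp
    rw [mem_bd] at hp
    have h2 : p ∈ bd A ↔ p ∈ bd B := by rw [h]
    rw [mem_bd, mem_bd] at h2
    apply hp
    rw [Finset.mem_symmDiff, Finset.mem_symmDiff]
    tauto
  have h2 := eq_empty_of_bd_empty h1
  rwa [← Finset.bot_eq_empty, symmDiff_eq_bot] at h2

end Pool.Agent.K9h96.EA
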