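import Pool.Agent.K9h96.EA.Base

/-! Leaf CHAIN (helper81): chaining. -/

set_option autoImplicit false

open MeasureTheory
open scoped ENNReal symmDiff

namespace Pool.Agent.K9h96.EA

namespace CHAIN

theorem sum_inv_sq_aux (N : ℕ) :
    ∑ b ∈ Finset.range (N + 1), (1 : ℝ) / ((b : ℝ) + 1) ^ 2 ≤ 2 - 1 / ((N : ℝ) + 1) := by
  induction N with
  | zero => simp; norm_num
  | succ N ih =>
    rw [Finset.sum_range_succ]
    push_cast
    have h0 : (0 : ℝ) ≤ N := Nat.cast_nonneg N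
    have h1 : (1 : ℝ) / ((N : ℝ) + 1 + 1) ^ 2 ≤ 1 / ((N : ℝ) + 1) - 1 / ((N : ℝ) + 1 + 1) := by
      have h2 : (1 : ℝ) / ((N : ℝ) + 1) - 1 / ((N : ℝ) + 1 + 1) =
          1 / (((N : ℝ) + 1) * ((N : ℝ) + 1 + 1)) := by
        field_simp; ring
      rw [h2]
      apply one_div_le_one_div_of_le (by positivity)
      nlinarith
    linarith

theorem sum_inv_sq (s : Finset ℕ) (hs : ∀ b ∈ s, 1 ≤ b) :
    ∑ b ∈ s, (1 : ℝ) / (b : ℝ) ^ 2 ≤ 2 := by
  classical
  obtain ⟨N, hN⟩ : ∃ N : ℕ, ∀ b ∈ s, b ≤ N := ⟨s.sup id, fun b hb => Finset.le_sup (f := id) hb⟩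
  have h1 : s ⊆ (Finset.range (N + 1)).image (fun b : ℕ => b + 1) := by
    intro b hb
    rw [Finset.mem_image]
    exact ⟨b - 1, Finset.mem_range.mpr (by have := hN b hb; omega), by have := hs b hb; omega⟩
  calc ∑ b ∈ s, (1 : ℝ) / (b : ℝ) ^ 2
      ≤ ∑ b ∈ (Finset.range (N + 1)).image (fun b : ℕ => b + 1), (1 : ℝ) / (b : ℝ) ^ 2 :=
        Finset.sum_le_sum_of_subset_of_nonneg h1 (fun _ _ _ => by positivity)
    _ = ∑ b ∈ Finset.range (N + 1), (1 : ℝ) / ((b : ℝ) + 1) ^ 2 := by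
        rw [Finset.sum_image (by intro a _ b _ h; simpa using h)]
        push_cast; rfl
    _ ≤ 2 - 1 / ((N : ℝ) + 1) := sum_inv_sq_aux N
    _ ≤ 2 := by
        have : (0 : ℝ) ≤ 1 / ((N : ℝ) + 1) := by positivity
        linarith

theorem exp_neg_le {y : ℝ} (hy : 0 < y) : Real.exp (-y) ≤ 6 / y ^ 3 := by
  have h1 := Real.pow_div_factorial_le_exp y hy.le 3
  have h2 : ((Nat.factorial 3 : ℕ) : ℝ) = 6 := by norm_num [Nat.factorial]
  rw [h2] at h1
  rw [Real.exp_neg, inv_eq_one_div, div_le_div_iff₀ (Real.exp_pos y) (by positivity)]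
  rw [div_le_iff₀ (by norm_num)] at h1
  linarith

theorem sq_le_exp {y : ℝ} (hy : 0 ≤ y) : y ^ 2 ≤ 2 * Real.exp y := by
  have h1 := Real.pow_div_factorial_le_exp y hy 2
  have h2 : ((Nat.factorial 2 : ℕ) : ℝ) = 2 := by norm_num [Nat.factorial]
  rw [h2, div_le_iff₀ (by norm_num)] at h1
  linarith

/-- numerics for the first step -/
theorem num1 {C : ℝ} (hC : 0 < C) {D m b : ℕ} (hm : 1 ≤ m) (hD : 16 ≤ D) (hb : 2 * D ≤ b)
    (hc : (m : ℝ) * Real.log D ≤ 1 / (4096 * (C + 3)) * D) (hlog : 1 ≤ Real.log D) :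
    Real.exp (C * Real.log D / D * b) * Real.exp (-((b : ℝ) / (4096 * m))) ≤
      2 / (D : ℝ) ^ 2 / (b : ℝ) ^ 2 := by
  have hD0 : (0 : ℝ) < D := by
    have : 0 < D := by omega
    exact_mod_cast this
  have hm0 : (0 : ℝ) < m := by exact_mod_cast hm
  have hb0 : (0 : ℝ) < b := by
    have : 0 < b := by omega
    exact_mod_cast this
  have hbD : 2 * (D : ℝ) ≤ b := by exact_mod_cast hb
  set w : ℝ := Real.log D / D * b with hw
  have hw0 : 0 < w := by positivity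
  have h1 : (C + 3) * w ≤ (b : ℝ) / (4096 * m) := by
    rw [hw, le_div_iff₀ (by positivity)]
    have h2 : (m : ℝ) * Real.log D * (4096 * (C + 3)) ≤ D := by
      calc (m : ℝ) * Real.log D * (4096 * (C + 3))
          ≤ 1 / (4096 * (C + 3)) * D * (4096 * (C + 3)) := by gcongr
        _ = D := by field_simp
    calc (C + 3) * (Real.log D / D * b) * (4096 * m)
        = ((m : ℝ) * Real.log D * (4096 * (C + 3))) * b / D := by field_simp
      _ ≤ D * b / D := by gcongr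
      _ = b := by field_simp
  have h2 : 2 * Real.log D ≤ w := by
    rw [hw]
    calc 2 * Real.log D = Real.log D / D * (2 * D) := by field_simp
      _ ≤ Real.log D / D * b := by gcongr
  have h3 : (b : ℝ) ≤ w * D := by
    have : w * D = Real.log D * b := by rw [hw]; field_simp
    rw [this]; nlinarith
  rw [← Real.exp_add]
  have h4 : Real.exp (C * Real.log D / D * b + -((b : ℝ) / (4096 * m))) ≤ Real.exp (-(3 * w)) := by
    apply Real.exp_le_exp.mpr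
    have : C * Real.log D / D * b = C * w := by rw [hw]; ring
    rw [this]; nlinarith
  refine h4.trans ?_
  rw [le_div_iff₀ (by positivity), le_div_iff₀ (by positivity)]
  have h5 : (b : ℝ) ^ 2 ≤ 2 * Real.exp w * (D : ℝ) ^ 2 := by
    calc (b : ℝ) ^ 2 ≤ (w * D) ^ 2 := by gcongr
      _ = w ^ 2 * (D : ℝ) ^ 2 := by ring
      _ ≤ 2 * Real.exp w * (D : ℝ) ^ 2 := by
          gcongr
          exact sq_le_exp hw0.le
  have h6 : Real.exp (-(2 * w)) * (D : ℝ) ^ 4 ≤ 1 := by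
    have h7 : (D : ℝ) ^ 4 = Real.exp (4 * Real.log D) := by
      rw [mul_comm, Real.exp_mul, Real.exp_log hD0]; norm_num
    rw [h7, ← Real.exp_add, Real.exp_le_one_iff]
    linarith
  calc Real.exp (-(3 * w)) * (b : ℝ) ^ 2 * (D : ℝ) ^ 2
      ≤ Real.exp (-(3 * w)) * (2 * Real.exp w * (D : ℝ) ^ 2) * (D : ℝ) ^ 2 := by gcongr
    _ = 2 * ((Real.exp (-(3 * w)) * Real.exp w) * (D : ℝ) ^ 4) := by ring
    _ = 2 * (Real.exp (-(2 * w)) * (D : ℝ) ^ 4) := by
        rw [← Real.exp_add]; congr 4; ring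
    _ ≤ 2 * 1 := by gcongr
    _ = 2 := by norm_num

/-- numerics for the other steps -/
theorem num2 {C : ℝ} (hC : 0 < C) {D m b l : ℕ} (hm : 1 ≤ m) (hmD : m ≤ D) (hb : 1 ≤ b)
    (hl : 3 ≤ l) (hD : 16 ≤ D) (hP : 2 ^ (l * (D - 1)) ≤ 32 * D * b)
    (hK1 : 576 * 2 ^ 15 * C * D ≤ 2 ^ D) (hK2 : (6 * 192 ^ 3 * 32 * 16 * 8 ^ 11 * D ^ 4 : ℝ) ≤ 8 ^ D) :
    Real.exp (3 * C * 4 ^ D * l * ((b : ℝ) / 2 ^ (l * (D - 1)))) *
      Real.exp (-((b : ℝ) / (96 * m * 8 ^ l))) ≤ 1 / 16 / 2 ^ l / (b : ℝ) ^ 2 := by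
  have hD0 : (0 : ℝ) < D := by
    have : 0 < D := by omega
    exact_mod_cast this
  have hm0 : (0 : ℝ) < m := by exact_mod_cast hm
  have hb0 : (0 : ℝ) < b := by
    have : 0 < b := by omega
    exact_mod_cast this
  have hmD' : (m : ℝ) ≤ D := by exact_mod_cast hmD
  have hP' : (2 : ℝ) ^ (l * (D - 1)) ≤ 32 * D * b := by exact_mod_cast hP
  obtain ⟨e, rfl⟩ : ∃ e, D = e + 11 := ⟨D - 11, by omega⟩
  obtain ⟨j, rfl⟩ : ∃ j, l = j + 3 := ⟨l - 3, by omega⟩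
  set l := j + 3 with hl'
  set D := e + 11 with hD'
  have hll : (l : ℝ) ≤ 2 ^ l := by exact_mod_cast (Nat.lt_two_pow_self (n := l)).le
  -- first: the entropy is at most half of the energy
  have hpow1 : (16 : ℝ) ^ l * 2 ^ (3 * (e + 6)) ≤ 2 ^ (l * (D - 1)) := by
    have h1 : (16 : ℝ) ^ l = 2 ^ (4 * l) := by rw [pow_mul]; norm_num
    rw [h1, ← pow_add]
    apply pow_le_pow_right₀ (by norm_num)
    have h2 : D - 1 = e + 10 := by omega
    rw [h2]
    nlinarith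
  have hent : 3 * C * 4 ^ D * l * ((b : ℝ) / 2 ^ (l * (D - 1))) ≤ (b : ℝ) / (192 * m * 8 ^ l) := by
    rw [← mul_div_assoc, div_le_div_iff₀ (by positivity) (by positivity)]
    have h1 : 3 * C * 4 ^ D * l * (192 * m * 8 ^ l) ≤ (2 : ℝ) ^ (l * (D - 1)) := by
      refine le_trans ?_ hpow1
      have h2 : (2 : ℝ) ^ D * 4 ^ D = 8 ^ D := by rw [← mul_pow]; norm_num
      have h3 : (8 : ℝ) ^ D = 2 ^ (3 * (e + 6)) * 2 ^ 15 := by
        have : (8 : ℝ) = 2 ^ 3 := by norm_num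
        rw [this, ← pow_mul, ← pow_add]
        congr 1
      have h4 : 576 * C * D * 4 ^ D ≤ (2 : ℝ) ^ (3 * (e + 6)) := by
        have h5 : 576 * 2 ^ 15 * C * D * 4 ^ D ≤ (2 : ℝ) ^ D * 4 ^ D := by gcongr
        rw [h2, h3] at h5
        nlinarith
      have h6 : (16 : ℝ) ^ l = 2 ^ l * 8 ^ l := by rw [← mul_pow]; norm_num
      calc 3 * C * 4 ^ D * l * (192 * m * 8 ^ l)
          = (576 * C * m * 4 ^ D) * (l * 8 ^ l) := by ring
        _ ≤ (576 * C * D * 4 ^ D) * (2 ^ l * 8 ^ l) := by gcongr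
        _ ≤ (2 : ℝ) ^ (3 * (e + 6)) * (2 ^ l * 8 ^ l) := by gcongr
        _ = (16 : ℝ) ^ l * 2 ^ (3 * (e + 6)) := by rw [h6]; ring
    calc 3 * C * 4 ^ D * l * b * (192 * m * 8 ^ l)
        = (3 * C * 4 ^ D * l * (192 * m * 8 ^ l)) * b := by ring
      _ ≤ (2 : ℝ) ^ (l * (D - 1)) * b := by gcongr
      _ = b * (2 : ℝ) ^ (l * (D - 1)) := by ring
  rw [← Real.exp_add]
  set y : ℝ := (b : ℝ) / (192 * m * 8 ^ l) with hy
  have hy0 : 0 < y := by positivity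
  have h96 : (b : ℝ) / (96 * m * 8 ^ l) = 2 * y := by rw [hy]; field_simp; norm_num
  have h1 : Real.exp (3 * C * 4 ^ D * l * ((b : ℝ) / 2 ^ (l * (D - 1))) +
      -((b : ℝ) / (96 * m * 8 ^ l))) ≤ Real.exp (-y) := by
    apply Real.exp_le_exp.mpr
    rw [h96]; linarith
  refine h1.trans ((exp_neg_le hy0).trans ?_)
  -- `b` is large
  have hbig : (6 * 192 ^ 3 * 16 * (m : ℝ) ^ 3 * 1024 ^ l) ≤ b := by
    have h2 : (1024 : ℝ) ^ l * 8 ^ e ≤ 2 ^ (l * (D - 1)) := by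
      have h3 : (1024 : ℝ) ^ l = 2 ^ (10 * l) := by rw [pow_mul]; norm_num
      have h4 : (8 : ℝ) ^ e = 2 ^ (3 * e) := by rw [pow_mul]; norm_num
      rw [h3, h4, ← pow_add]
      apply pow_le_pow_right₀ (by norm_num)
      have h5 : D - 1 = e + 10 := by omega
      rw [h5]
      nlinarith
    have h3 : (8 : ℝ) ^ D = 8 ^ e * 8 ^ 11 := by rw [← pow_add]
    have h4 : (6 * 192 ^ 3 * 32 * 16 * (D : ℝ) ^ 4) ≤ 8 ^ e := by
      rw [h3] at hK2
      nlinarith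
    have h5 : (6 * 192 ^ 3 * 32 * 16 * (D : ℝ) ^ 4) * 1024 ^ l ≤ 32 * D * b := by
      calc (6 * 192 ^ 3 * 32 * 16 * (D : ℝ) ^ 4) * 1024 ^ l ≤ 8 ^ e * 1024 ^ l := by gcongr
        _ = (1024 : ℝ) ^ l * 8 ^ e := by ring
        _ ≤ 2 ^ (l * (D - 1)) := h2
        _ ≤ 32 * D * b := hP'
    have h6 : 32 * (D : ℝ) * (6 * 192 ^ 3 * 16 * (m : ℝ) ^ 3 * 1024 ^ l) ≤ 32 * (D : ℝ) * b := by
      calc 32 * (D : ℝ) * (6 * 192 ^ 3 * 16 * (m : ℝ) ^ 3 * 1024 ^ l)
          ≤ 32 * (D : ℝ) * (6 * 192 ^ 3 * 16 * (D : ℝ) ^ 3 * 1024 ^ l) := by gcongr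
        _ = (6 * 192 ^ 3 * 32 * 16 * (D : ℝ) ^ 4) * 1024 ^ l := by ring
        _ ≤ 32 * D * b := h5
    exact le_of_mul_le_mul_left h6 (by positivity)
  have h8 : (1024 : ℝ) ^ l = (8 ^ l) ^ 3 * 2 ^ l := by
    rw [← pow_mul, mul_comm l 3, pow_mul, ← mul_pow]; norm_num
  rw [hy, div_pow, div_div_eq_mul_div, div_div, div_div, div_le_div_iff₀ (by positivity) (by positivity)]
  rw [h8] at hbig
  calc 6 * (192 * (m : ℝ) * 8 ^ l) ^ 3 * (16 * (2 ^ l * (b : ℝ) ^ 2))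
      = (6 * 192 ^ 3 * 16 * (m : ℝ) ^ 3 * ((8 ^ l) ^ 3 * 2 ^ l)) * (b : ℝ) ^ 2 := by ring
    _ ≤ b * (b : ℝ) ^ 2 := by gcongr
    _ = 1 * (b : ℝ) ^ 3 := by ring

variable {I : Type} [Fintype I] [DecidableEq I]

/-- tail bound with an upper bound for the distance -/
theorem tail {Ω : Type} [MeasurableSpace Ω] {μ : Measure Ω}
    {X : Finset (I → ℤ) → Ω → ℝ} {β : ℝ} (hβ : 0 < β) {m : ℕ} (hm : 1 ≤ m)
    (hX : ∀ (A A' : Finset (I → ℤ)) (t : ℝ), 0 < t → μ {ω | t ≤ X A ω - X A' ω} ≤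
        ENNReal.ofReal (Real.exp (-(t ^ 2) / (16 * β ^ 2 * m * (A ∆ A').card))))
    (A A' : Finset (I → ℤ)) {t K : ℝ} (ht : 0 < t) (hK : ((A ∆ A').card : ℝ) ≤ K) :
    μ {ω | t ≤ X A ω - X A' ω} ≤
      ENNReal.ofReal (Real.exp (-(t ^ 2 / (16 * β ^ 2 * m * K)))) := by
  rcases Nat.eq_zero_or_pos (A ∆ A').card with h0 | h0
  · have h1 : A = A' := by
      rw [Finset.card_eq_zero, ← Finset.bot_eq_empty, symmDiff_eq_bot] at h0; exact h0
    subst h1
    have h2 : {ω | t ≤ X A ω - X A ω} = ∅ := by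
      ext ω
      simpa using ht
    rw [h2]; simp
  · refine (hX A A' t ht).trans (ENNReal.ofReal_le_ofReal (Real.exp_le_exp.mpr ?_))
    have h1 : (0 : ℝ) < (A ∆ A').card := by exact_mod_cast h0
    have h2 : (0 : ℝ) < m := by exact_mod_cast hm
    rw [neg_div, neg_le_neg_iff]
    gcongr

/-- union bound over a finite set of pairs -/
theorem union {Ω : Type} [MeasurableSpace Ω] {μ : Measure Ω}
    {X : Finset (I → ℤ) → Ω → ℝ} {β : ℝ} (hβ : 0 < β) {m : ℕ} (hm : 1 ≤ m)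
    (hX : ∀ (A A' : Finset (I → ℤ)) (t : ℝ), 0 < t → μ {ω | t ≤ X A ω - X A' ω} ≤
        ENNReal.ofReal (Real.exp (-(t ^ 2) / (16 * β ^ 2 * m * (A ∆ A').card))))
    (S : Finset (Finset (I → ℤ) × Finset (I → ℤ))) {t K N : ℝ} (ht : 0 < t)
    (hK : ∀ p ∈ S, ((p.1 ∆ p.2).card : ℝ) ≤ K) (hN : (S.card : ℝ) ≤ N) :
    μ {ω | ∃ p ∈ S, t ≤ X p.1 ω - X p.2 ω} ≤
      ENNReal.ofReal (N * Real.exp (-(t ^ 2 / (16 * β ^ 2 * m * K)))) := by
  have h1 : {ω | ∃ p ∈ S, t ≤ X p.1 ω - X p.2 ω} = ⋃ p ∈ S, {ω | t ≤ X p.1 ω - X p.2 ω} := by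
    ext ω; simp
  rw [h1]
  calc μ (⋃ p ∈ S, {ω | t ≤ X p.1 ω - X p.2 ω})
      ≤ ∑ p ∈ S, μ {ω | t ≤ X p.1 ω - X p.2 ω} := measure_biUnion_finset_le _ _
    _ ≤ ∑ p ∈ S, ENNReal.ofReal (Real.exp (-(t ^ 2 / (16 * β ^ 2 * m * K)))) :=
        Finset.sum_le_sum fun p hp => tail hβ hm hX p.1 p.2 ht (hK p hp)
    _ = ENNReal.ofReal (S.card * Real.exp (-(t ^ 2 / (16 * β ^ 2 * m * K)))) := by
        rw [Finset.sum_const, nsmul_eq_mul, ENNReal.ofReal_mul (Nat.cast_nonneg _),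
          ENNReal.ofReal_natCast]
    _ ≤ ENNReal.ofReal (N * Real.exp (-(t ^ 2 / (16 * β ^ 2 * m * K)))) := by
        apply ENNReal.ofReal_le_ofReal
        gcongr

/-- the chain -/
theorem chain' {x : Finset (I → ℤ) → ℝ} {A : Finset (I → ℤ)} {B : ℝ}
    (h0 : x A - x (ex 3 A) < B / 4) (k : ℕ)
    (h1 : ∀ j < k, x (ex (3 + j) A) - x (ex (3 + j + 1) A) < B / 2 ^ (3 + j)) :
    x A - x (ex (3 + k) A) < B * (1 / 2 - 1 / (4 * 2 ^ k)) := by
  induction k with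
  | zero =>
    simp only [Nat.add_zero, pow_zero]
    have : B * (1 / 2 - 1 / (4 * 1)) = B / 4 := by ring
    rw [this]; exact h0
  | succ k ih =>
    have ih := ih (fun j hj => h1 j (by omega))
    have h2 := h1 k (by omega)
    have h3 : B * (1 / 2 - 1 / (4 * 2 ^ (k + 1))) = B * (1 / 2 - 1 / (4 * 2 ^ k)) + B / 2 ^ (3 + k) := by
      rw [pow_add, pow_succ]; field_simp; ring
    rw [h3]
    have h4 : 3 + (k + 1) = 3 + k + 1 := by ring
    rw [h4]
    linarith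

theorem ex_empty (h2 : S_F2) [Nonempty I] {A : Finset (I → ℤ)} {l b : ℕ} (hb : (bd A).card = b)
    (h : 32 * Fintype.card I * b < 2 ^ (l * (Fintype.card I - 1))) : cg l A = ∅ := by
  apply eq_empty_of_bd_empty
  by_contra h3
  have h4 := h2 I A l Fintype.card_pos
  rw [hb] at h4
  have h5 : 1 ≤ (bd (cg l A)).card := Nat.one_le_iff_ne_zero.mpr h3
  have h6 : 2 ^ (l * (Fintype.card I - 1)) * 1 ≤
      2 ^ (l * (Fintype.card I - 1)) * (bd (cg l A)).card := Nat.mul_le_mul_left _ h5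
  omega

/-- the step `l → l + 1` -/
theorem step (h1 : S_F1) (h2 : S_F2) {C : ℝ} (hC : 0 < C)
    (h3 : ∀ (I : Type) [Fintype I] [DecidableEq I] (b l : ℕ), 2 ≤ Fintype.card I →
      1 ≤ l → 2 ^ (l * (Fintype.card I - 1)) ≤ 32 * Fintype.card I * b →
      ∀ 𝓕 : Finset (Finset (I → ℤ)), (∀ A ∈ 𝓕, Region A ∧ (bd A).card = b) →
        ((𝓕.image (cg l)).card : ℝ) ≤ Real.exp (C * 4 ^ Fintype.card I * l *
          ((b : ℝ) / 2 ^ (l * (Fintype.card I - 1)))))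
    {Ω : Type} [MeasurableSpace Ω] {μ : Measure Ω}
    {X : Finset (I → ℤ) → Ω → ℝ} {β : ℝ} (hβ : 0 < β) {m : ℕ} (hm : 1 ≤ m)
    (hX : ∀ (A A' : Finset (I → ℤ)) (t : ℝ), 0 < t → μ {ω | t ≤ X A ω - X A' ω} ≤
        ENNReal.ofReal (Real.exp (-(t ^ 2) / (16 * β ^ 2 * m * (A ∆ A').card))))
    (hmD : m ≤ Fintype.card I) (hD : 16 ≤ Fintype.card I)
    (hK1 : 576 * 2 ^ 15 * C * Fintype.card I ≤ 2 ^ Fintype.card I)
    (hK2 : (6 * 192 ^ 3 * 32 * 16 * 8 ^ 11 * (Fintype.card I) ^ 4 : ℝ) ≤ 8 ^ Fintype.card I)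
    {b : ℕ} (hb : 1 ≤ b) (𝓕 : Finset (Finset (I → ℤ)))
    (hF : ∀ A ∈ 𝓕, Region A ∧ (bd A).card = b) {l : ℕ} (hl : 3 ≤ l) :
    μ {ω | ∃ A ∈ 𝓕, β * b / 2 ^ l ≤ X (ex l A) ω - X (ex (l + 1) A) ω} ≤
      ENNReal.ofReal (1 / 16 / 2 ^ l / (b : ℝ) ^ 2) := by
  classical
  haveI : Nonempty I := Fintype.card_pos_iff.mp (by omega)
  set D := Fintype.card I with hDdef
  have hb0 : (0 : ℝ) < b := by exact_mod_cast hb
  have hm0 : (0 : ℝ) < m := by exact_mod_cast hm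
  by_cases hP : 2 ^ (l * (D - 1)) ≤ 32 * D * b
  · -- number of pairs
    set S := 𝓕.image (fun A => (ex l A, ex (l + 1) A)) with hS
    have hlow : (l : ℝ) ≤ 2 * l := by
      have : (0 : ℝ) ≤ l := Nat.cast_nonneg l
      linarith
    have hcard1 : ((𝓕.image (cg l)).card : ℝ) ≤
        Real.exp (C * 4 ^ D * l * ((b : ℝ) / 2 ^ (l * (D - 1)))) :=
      h3 I b l (by omega) (by omega) hP 𝓕 hF
    have hcard2 : ((𝓕.image (cg (l + 1))).card : ℝ) ≤
        Real.exp (2 * C * 4 ^ D * l * ((b : ℝ) / 2 ^ (l * (D - 1)))) := by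
      by_cases hP2 : 2 ^ ((l + 1) * (D - 1)) ≤ 32 * D * b
      · refine (h3 I b (l + 1) (by omega) (by omega) hP2 𝓕 hF).trans (Real.exp_le_exp.mpr ?_)
        have e1 : ((l + 1 : ℕ) : ℝ) ≤ 2 * l := by
          have : (1 : ℝ) ≤ l := by
            have : 1 ≤ l := by omega
            exact_mod_cast this
          push_cast; linarith
        have e2 : (b : ℝ) / 2 ^ ((l + 1) * (D - 1)) ≤ (b : ℝ) / 2 ^ (l * (D - 1)) := by
          apply div_le_div_of_nonneg_left hb0.le (by positivity)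
          apply pow_le_pow_right₀ (by norm_num)
          exact Nat.mul_le_mul_right _ (by omega)
        calc C * 4 ^ D * ((l + 1 : ℕ) : ℝ) * ((b : ℝ) / 2 ^ ((l + 1) * (D - 1)))
            ≤ C * 4 ^ D * (2 * l) * ((b : ℝ) / 2 ^ (l * (D - 1))) := by gcongr
          _ = 2 * C * 4 ^ D * l * ((b : ℝ) / 2 ^ (l * (D - 1))) := by ring
      · have e1 : 𝓕.image (cg (l + 1)) ⊆ {∅} := by
          intro u hu
          rw [Finset.mem_image] at hu
          obtain ⟨A, hA, rfl⟩ := hu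
          rw [Finset.mem_singleton]
          exact ex_empty h2 (hF A hA).2 (by rw [← hDdef]; omega)
        have e2 : (𝓕.image (cg (l + 1))).card ≤ 1 := by
          simpa using Finset.card_le_card e1
        have e3 : ((𝓕.image (cg (l + 1))).card : ℝ) ≤ 1 := by exact_mod_cast e2
        refine e3.trans (Real.one_le_exp (by positivity))
    have hcard : (S.card : ℝ) ≤
        Real.exp (3 * C * 4 ^ D * l * ((b : ℝ) / 2 ^ (l * (D - 1)))) := by
      have e1 : S ⊆ ((𝓕.image (cg l)) ×ˢ (𝓕.image (cg (l + 1)))).image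
          (fun p => (p.1.biUnion (block l), p.2.biUnion (block (l + 1)))) := by
        intro q hq
        rw [hS, Finset.mem_image] at hq
        obtain ⟨A, hA, rfl⟩ := hq
        rw [Finset.mem_image]
        exact ⟨(cg l A, cg (l + 1) A), Finset.mem_product.mpr
          ⟨Finset.mem_image_of_mem _ hA, Finset.mem_image_of_mem _ hA⟩, rfl⟩
      have e2 : S.card ≤ (𝓕.image (cg l)).card * (𝓕.image (cg (l + 1))).card := by
        refine (Finset.card_le_card e1).trans (Finset.card_image_le.trans ?_)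
        rw [Finset.card_product]
      calc (S.card : ℝ) ≤ ((𝓕.image (cg l)).card : ℝ) * ((𝓕.image (cg (l + 1))).card : ℝ) := by
            exact_mod_cast e2
        _ ≤ Real.exp (C * 4 ^ D * l * ((b : ℝ) / 2 ^ (l * (D - 1)))) *
            Real.exp (2 * C * 4 ^ D * l * ((b : ℝ) / 2 ^ (l * (D - 1)))) := by gcongr
        _ = Real.exp (3 * C * 4 ^ D * l * ((b : ℝ) / 2 ^ (l * (D - 1)))) := by
            rw [← Real.exp_add]; congr 1; ring
    have hdist : ∀ p ∈ S, ((p.1 ∆ p.2).card : ℝ) ≤ 6 * 2 ^ l * b := by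
      intro p hp
      rw [hS, Finset.mem_image] at hp
      obtain ⟨A, hA, rfl⟩ := hp
      have e1 := h1 I A l
      have e2 := h1 I A (l + 1)
      rw [(hF A hA).2] at e1 e2
      have e3 : (ex l A ∆ ex (l + 1) A).card ≤ (A ∆ ex l A).card + (A ∆ ex (l + 1) A).card := by
        have e4 : ex l A ∆ ex (l + 1) A ⊆ (A ∆ ex l A) ∪ (A ∆ ex (l + 1) A) := by
          have := symmDiff_triangle (ex l A) A (ex (l + 1) A)
          rw [symmDiff_comm (ex l A) A] at this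
          exact this
        exact (Finset.card_le_card e4).trans (Finset.card_union_le _ _)
      have e5 : (ex l A ∆ ex (l + 1) A).card ≤ 6 * 2 ^ l * b := by
        refine e3.trans ((Nat.add_le_add e1 e2).trans ?_)
        rw [pow_succ, pow_succ, pow_succ]
        nlinarith
      exact_mod_cast e5
    have hmain := union hβ hm hX S (t := β * b / 2 ^ l) (K := 6 * 2 ^ l * b)
      (N := Real.exp (3 * C * 4 ^ D * l * ((b : ℝ) / 2 ^ (l * (D - 1))))) (by positivity) hdist hcard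
    refine (measure_mono ?_).trans (hmain.trans (ENNReal.ofReal_le_ofReal ?_))
    · intro ω hω
      obtain ⟨A, hA, h⟩ := hω
      exact ⟨(ex l A, ex (l + 1) A), Finset.mem_image_of_mem _ hA, h⟩
    · have e1 : (β * b / 2 ^ l) ^ 2 / (16 * β ^ 2 * m * (6 * 2 ^ l * b)) =
          (b : ℝ) / (96 * m * 8 ^ l) := by
        have e2 : (8 : ℝ) ^ l = 2 ^ l * 2 ^ l * 2 ^ l := by
          rw [← mul_pow, ← mul_pow]; norm_num
        rw [e2]
        field_simp
        norm_num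
      rw [e1]
      exact num2 hC hm hmD hb hl hD hP hK1 hK2
  · have h0 : {ω | ∃ A ∈ 𝓕, β * b / 2 ^ l ≤ X (ex l A) ω - X (ex (l + 1) A) ω} = ∅ := by
      ext ω
      simp only [Set.mem_empty_iff_false, iff_false]
      rintro ⟨A, hA, h⟩
      have hlt : 32 * D * b < 2 ^ (l * (D - 1)) := by omega
      have e1 : cg l A = ∅ := ex_empty h2 (hF A hA).2 hlt
      have e2 : cg (l + 1) A = ∅ := by
        refine ex_empty h2 (hF A hA).2 (hlt.trans_le ?_)
        exact Nat.pow_le_pow_right (by norm_num) (Nat.mul_le_mul_right _ (by omega))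
      have e3 : ex l A = ex (l + 1) A := by
        unfold ex; rw [e1, e2]; simp
      rw [e3, sub_self] at h
      have : 0 < β * b / 2 ^ l := by positivity
      linarith
    rw [h0]; simp

/-- the bound for regions with a given size of the boundary -/
theorem per_b (h1 : S_F1) (h2 : S_F2) {C : ℝ} (hC : 0 < C)
    (h3 : ∀ (I : Type) [Fintype I] [DecidableEq I] (b l : ℕ), 2 ≤ Fintype.card I →
      1 ≤ l → 2 ^ (l * (Fintype.card I - 1)) ≤ 32 * Fintype.card I * b →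
      ∀ 𝓕 : Finset (Finset (I → ℤ)), (∀ A ∈ 𝓕, Region A ∧ (bd A).card = b) →
        ((𝓕.image (cg l)).card : ℝ) ≤ Real.exp (C * 4 ^ Fintype.card I * l *
          ((b : ℝ) / 2 ^ (l * (Fintype.card I - 1)))))
    {C₁ : ℝ} (hC₁ : 0 < C₁)
    (hL : ∀ (I : Type) [Fintype I] [DecidableEq I] (b : ℕ), 2 ≤ Fintype.card I →
      ∀ 𝓕 : Finset (Finset (I → ℤ)), (∀ A ∈ 𝓕, Region A ∧ (bd A).card = b) →
        (𝓕.card : ℝ) ≤ Real.exp (C₁ * Real.log (Fintype.card I) / Fintype.card I * b))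
    {Ω : Type} [MeasurableSpace Ω] {μ : Measure Ω}
    {X : Finset (I → ℤ) → Ω → ℝ} {β : ℝ} (hβ : 0 < β) {m : ℕ} (hm : 1 ≤ m)
    (hX0 : ∀ ω, X ∅ ω = 0)
    (hX : ∀ (A A' : Finset (I → ℤ)) (t : ℝ), 0 < t → μ {ω | t ≤ X A ω - X A' ω} ≤
        ENNReal.ofReal (Real.exp (-(t ^ 2) / (16 * β ^ 2 * m * (A ∆ A').card))))
    (hmD : m ≤ Fintype.card I) (hD : 16 ≤ Fintype.card I)
    (hlog : 1 ≤ Real.log (Fintype.card I))
    (hc : (m : ℝ) * Real.log (Fintype.card I) ≤ 1 / (4096 * (C₁ + 3)) * Fintype.card I)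
    (hK1 : 576 * 2 ^ 15 * C * Fintype.card I ≤ 2 ^ Fintype.card I)
    (hK2 : (6 * 192 ^ 3 * 32 * 16 * 8 ^ 11 * (Fintype.card I) ^ 4 : ℝ) ≤ 8 ^ Fintype.card I)
    {b : ℕ} (hb : 2 * Fintype.card I ≤ b) (𝓕 : Finset (Finset (I → ℤ)))
    (hF : ∀ A ∈ 𝓕, Region A ∧ (bd A).card = b) :
    μ {ω | ∃ A ∈ 𝓕, β * b / 2 ≤ X A ω} ≤ ENNReal.ofReal (1 / 32 * (1 / (b : ℝ) ^ 2)) := by
  classical
  haveI : Nonempty I := Fintype.card_pos_iff.mp (by omega)
  set D := Fintype.card I with hDdef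
  have hb1 : 1 ≤ b := by omega
  have hb0 : (0 : ℝ) < b := by exact_mod_cast hb1
  have hm0 : (0 : ℝ) < m := by exact_mod_cast hm
  -- the number of levels
  set k : ℕ := 32 * D * b with hk
  have hkempty : ∀ A ∈ 𝓕, ex (3 + k) A = ∅ := by
    intro A hA
    have e1 : cg (3 + k) A = ∅ := by
      refine ex_empty h2 (hF A hA).2 ?_
      rw [← hDdef, ← hk]
      have e2 : k < 2 ^ k := Nat.lt_two_pow_self
      refine e2.trans_le (Nat.pow_le_pow_right (by norm_num) ?_)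
      calc k ≤ (3 + k) * 1 := by omega
        _ ≤ (3 + k) * (D - 1) := Nat.mul_le_mul_left _ (by omega)
    unfold ex; rw [e1]; simp
  -- the first step
  have hfirst : μ {ω | ∃ A ∈ 𝓕, β * b / 4 ≤ X A ω - X (ex 3 A) ω} ≤
      ENNReal.ofReal (2 / (D : ℝ) ^ 2 / (b : ℝ) ^ 2) := by
    set S := 𝓕.image (fun A => (A, ex 3 A)) with hS
    have hcard : (S.card : ℝ) ≤ Real.exp (C₁ * Real.log D / D * b) := by
      have e1 : (S.card : ℝ) ≤ 𝓕.card := by exact_mod_cast Finset.card_image_le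
      exact e1.trans (hL I b (by omega) 𝓕 hF)
    have hdist : ∀ p ∈ S, ((p.1 ∆ p.2).card : ℝ) ≤ 16 * b := by
      intro p hp
      rw [hS, Finset.mem_image] at hp
      obtain ⟨A, hA, rfl⟩ := hp
      have e1 := h1 I A 3
      rw [(hF A hA).2] at e1
      have e2 : (A ∆ ex 3 A).card ≤ 16 * b := by simpa using e1
      exact_mod_cast e2
    have hmain := union hβ hm hX S (t := β * b / 4) (K := 16 * b)
      (N := Real.exp (C₁ * Real.log D / D * b)) (by positivity) hdist hcard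
    refine (measure_mono ?_).trans (hmain.trans (ENNReal.ofReal_le_ofReal ?_))
    · intro ω hω
      obtain ⟨A, hA, h⟩ := hω
      exact ⟨(A, ex 3 A), Finset.mem_image_of_mem _ hA, h⟩
    · have e1 : (β * b / 4) ^ 2 / (16 * β ^ 2 * m * (16 * b)) = (b : ℝ) / (4096 * m) := by
        field_simp
        norm_num
      rw [e1]
      exact num1 hC₁ hm hD hb hc hlog
  have hstep : ∀ l, 3 ≤ l → μ {ω | ∃ A ∈ 𝓕, β * b / 2 ^ l ≤ X (ex l A) ω - X (ex (l + 1) A) ω} ≤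
      ENNReal.ofReal (1 / 16 / 2 ^ l / (b : ℝ) ^ 2) := fun l hl =>
    step h1 h2 hC h3 hβ hm hX hmD hD hK1 hK2 hb1 𝓕 hF hl
  -- inclusion
  have hincl : {ω | ∃ A ∈ 𝓕, β * b / 2 ≤ X A ω} ⊆
      {ω | ∃ A ∈ 𝓕, β * b / 4 ≤ X A ω - X (ex 3 A) ω} ∪
      ⋃ j ∈ Finset.range k, {ω | ∃ A ∈ 𝓕, β * b / 2 ^ (3 + j) ≤
        X (ex (3 + j) A) ω - X (ex (3 + j + 1) A) ω} := by
    rintro ω ⟨A, hA, h⟩
    by_contra hcon
    rw [Set.mem_union, not_or] at hcon
    obtain ⟨hc1, hc2⟩ := hcon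
    have e1 : X A ω - X (ex 3 A) ω < β * b / 4 := by
      by_contra h'
      exact hc1 ⟨A, hA, not_lt.mp h'⟩
    have e2 : ∀ j < k, X (ex (3 + j) A) ω - X (ex (3 + j + 1) A) ω < β * b / 2 ^ (3 + j) := by
      intro j hj
      by_contra h'
      apply hc2
      rw [Set.mem_iUnion₂]
      exact ⟨j, Finset.mem_range.mpr hj, A, hA, not_lt.mp h'⟩
    have e3 : X A ω - X (ex (3 + k) A) ω < β * b * (1 / 2 - 1 / (4 * 2 ^ k)) :=
      chain' (x := fun A => X A ω) e1 k e2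
    rw [hkempty A hA, hX0, sub_zero] at e3
    have e4 : β * b * (1 / 2 - 1 / (4 * 2 ^ k)) ≤ β * b / 2 := by
      have : 0 ≤ β * b * (1 / (4 * 2 ^ k)) := by positivity
      linarith
    linarith
  refine (measure_mono hincl).trans ((measure_union_le _ _).trans ?_)
  have hsum : μ (⋃ j ∈ Finset.range k, {ω | ∃ A ∈ 𝓕, β * b / 2 ^ (3 + j) ≤
        X (ex (3 + j) A) ω - X (ex (3 + j + 1) A) ω}) ≤
      ENNReal.ofReal (1 / 64 / (b : ℝ) ^ 2) := by
    refine (measure_biUnion_finset_le _ _).trans ?_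
    calc ∑ j ∈ Finset.range k, μ {ω | ∃ A ∈ 𝓕, β * b / 2 ^ (3 + j) ≤
            X (ex (3 + j) A) ω - X (ex (3 + j + 1) A) ω}
        ≤ ∑ j ∈ Finset.range k, ENNReal.ofReal (1 / 16 / 2 ^ (3 + j) / (b : ℝ) ^ 2) :=
          Finset.sum_le_sum fun j _ => hstep (3 + j) (by omega)
      _ = ENNReal.ofReal (∑ j ∈ Finset.range k, 1 / 16 / 2 ^ (3 + j) / (b : ℝ) ^ 2) := by
          rw [ENNReal.ofReal_sum_of_nonneg]
          intro j _
          positivity
      _ ≤ ENNReal.ofReal (1 / 64 / (b : ℝ) ^ 2) := by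
          apply ENNReal.ofReal_le_ofReal
          rw [← Finset.sum_div]
          gcongr
          have e1 : ∀ k : ℕ, ∑ j ∈ Finset.range k, (1 : ℝ) / 16 / 2 ^ (3 + j) =
              1 / 64 - 1 / (64 * 2 ^ k) := by
            intro k
            induction k with
            | zero => norm_num
            | succ k ih =>
              rw [Finset.sum_range_succ, ih, pow_add, pow_succ]
              field_simp
              ring
          rw [e1]
          have : (0 : ℝ) ≤ 1 / (64 * 2 ^ k) := by positivity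
          linarith
  calc μ {ω | ∃ A ∈ 𝓕, β * b / 4 ≤ X A ω - X (ex 3 A) ω} + μ (⋃ j ∈ Finset.range k,
        {ω | ∃ A ∈ 𝓕, β * b / 2 ^ (3 + j) ≤ X (ex (3 + j) A) ω - X (ex (3 + j + 1) A) ω})
      ≤ ENNReal.ofReal (2 / (D : ℝ) ^ 2 / (b : ℝ) ^ 2) + ENNReal.ofReal (1 / 64 / (b : ℝ) ^ 2) :=
        add_le_add hfirst hsum
    _ = ENNReal.ofReal (2 / (D : ℝ) ^ 2 / (b : ℝ) ^ 2 + 1 / 64 / (b : ℝ) ^ 2) := by
        rw [ENNReal.ofReal_add (by positivity) (by positivity)]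
    _ ≤ ENNReal.ofReal (1 / 32 * (1 / (b : ℝ) ^ 2)) := by
        apply ENNReal.ofReal_le_ofReal
        have e1 : (16 : ℝ) ≤ D := by exact_mod_cast hD
        have e2 : 2 / (D : ℝ) ^ 2 ≤ 1 / 64 := by
          rw [div_le_div_iff₀ (by positivity) (by norm_num)]
          nlinarith
        rw [← add_div, mul_one_div]
        gcongr
        linarith

end CHAIN

open CHAIN in
theorem t_CHAIN (hl : S_LM) (h1 : S_F1) (h2 : S_F2) (h3 : S_F3) : S_CHAIN := by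
  classical
  obtain ⟨C₁, hC₁, hL⟩ := hl
  obtain ⟨C, hC, h3⟩ := h3
  -- large dimension
  have hev1 : ∀ᶠ D : ℕ in Filter.atTop, 576 * 2 ^ 15 * C * (D : ℝ) ≤ 2 ^ D := by
    have h := tendsto_pow_const_div_const_pow_of_one_lt 1 (r := (2 : ℝ)) (by norm_num)
    have h' := h.eventually (gt_mem_nhds (show (0 : ℝ) < 1 / (576 * 2 ^ 15 * C) by positivity))
    filter_upwards [h'] with D hD
    rw [div_lt_div_iff₀ (by positivity) (by positivity)] at hD
    rw [pow_one] at hD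
    linarith
  have hev2 : ∀ᶠ D : ℕ in Filter.atTop,
      (6 * 192 ^ 3 * 32 * 16 * 8 ^ 11 * (D : ℝ) ^ 4 : ℝ) ≤ 8 ^ D := by
    have h := tendsto_pow_const_div_const_pow_of_one_lt 4 (r := (8 : ℝ)) (by norm_num)
    have h' := h.eventually (gt_mem_nhds (show (0 : ℝ) < 1 / (6 * 192 ^ 3 * 32 * 16 * 8 ^ 11)
      by positivity))
    filter_upwards [h'] with D hD
    rw [div_lt_div_iff₀ (by positivity) (by positivity)] at hD
    linarith
  obtain ⟨K, hK⟩ := Filter.eventually_atTop.mp (hev1.and hev2)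
  refine ⟨1 / (4096 * (C₁ + 3)), max 16 K, by positivity, ?_⟩
  intro I _ _ hDI m hm hc Ω _ μ _ X β hβ hX0 hX 𝓕 hF
  have hD : 16 ≤ Fintype.card I := le_trans (le_max_left _ _) hDI
  obtain ⟨hK1, hK2⟩ := hK _ (le_trans (le_max_right _ _) hDI)
  have hD' : (16 : ℝ) ≤ Fintype.card I := by exact_mod_cast hD
  have hlog : 1 ≤ Real.log (Fintype.card I) := by
    rw [Real.le_log_iff_exp_le (by linarith)]
    have := Real.exp_one_lt_d9
    linarith
  have hmD : m ≤ Fintype.card I := by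
    have e1 : (m : ℝ) ≤ Fintype.card I := by
      have e2 : 1 / (4096 * (C₁ + 3)) ≤ (1 : ℝ) := by
        rw [div_le_one (by positivity)]
        nlinarith
      have hm0 : (0 : ℝ) < m := by exact_mod_cast hm
      calc (m : ℝ) = m * 1 := by ring
        _ ≤ m * Real.log (Fintype.card I) := by gcongr
        _ ≤ 1 / (4096 * (C₁ + 3)) * Fintype.card I := hc
        _ ≤ 1 * Fintype.card I := by gcongr
        _ = Fintype.card I := by ring
    exact_mod_cast e1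
  haveI : Nonempty I := Fintype.card_pos_iff.mp (by omega)
  have hbig : ∀ A ∈ 𝓕, 2 * Fintype.card I ≤ (bd A).card := fun A hA =>
    two_mul_card_le_bd ⟨0, (hF A hA).1⟩
  set B := 𝓕.image (fun A => (bd A).card) with hB
  have hsub : {ω | ∃ A ∈ 𝓕, β * (bd A).card / 2 ≤ X A ω} ⊆
      ⋃ b ∈ B, {ω | ∃ A ∈ 𝓕.filter (fun A => (bd A).card = b), β * b / 2 ≤ X A ω} := by
    rintro ω ⟨A, hA, h⟩
    rw [Set.mem_iUnion₂]
    exact ⟨(bd A).card, Finset.mem_image_of_mem _ hA, A, Finset.mem_filter.mpr ⟨hA, rfl⟩, h⟩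
  refine (measure_mono hsub).trans ((measure_biUnion_finset_le _ _).trans ?_)
  have hBb : ∀ b ∈ B, 2 * Fintype.card I ≤ b := by
    intro b hb
    rw [hB, Finset.mem_image] at hb
    obtain ⟨A, hA, rfl⟩ := hb
    exact hbig A hA
  calc ∑ b ∈ B, μ {ω | ∃ A ∈ 𝓕.filter (fun A => (bd A).card = b), β * b / 2 ≤ X A ω}
      ≤ ∑ b ∈ B, ENNReal.ofReal (1 / 32 * (1 / (b : ℝ) ^ 2)) := by
        apply Finset.sum_le_sum
        intro b hb
        apply per_b h1 h2 hC h3 hC₁ hL hβ hm hX0 hX hmD hD hlog hc hK1 hK2 (hBb b hb)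
        intro A hA
        rw [Finset.mem_filter] at hA
        exact ⟨hF A hA.1, hA.2⟩
    _ = ENNReal.ofReal (∑ b ∈ B, 1 / 32 * (1 / (b : ℝ) ^ 2)) := by
        rw [ENNReal.ofReal_sum_of_nonneg]
        intro b _
        positivity
    _ ≤ ENNReal.ofReal (1 / 16) := by
        apply ENNReal.ofReal_le_ofReal
        rw [← Finset.mul_sum]
        have e1 := sum_inv_sq B (fun b hb => by have := hBb b hb; omega)
        linarith

end Pool.Agent.K9h96.EA
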