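import Pool.Agent.K9h96.EA.Base

/-!
# Project EA, second part (helper96, MP_81d17b_pr): almost all directions completely disordered

Statements of the additional building blocks for the stronger theorem `Main2`: it is enough that
`√d (log d)^3` directions are (weakly disordered) ferromagnetic; all the others may be completely
disordered. Paper proofs at the end.
-/

set_option autoImplicit false

open MeasureTheory
open scoped ENNReal symmDiff

namespace Pool.Agent.K9h96.EA

open Pool.H47EA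

section lattice

variable {I : Type} [Fintype I] [DecidableEq I]

/-- the index of the block with side `2` in the directions of `T` and side `1` in the others -/
def blkT (T : Finset I) (x : I → ℤ) : I → ℤ := fun i => if i ∈ T then x i / 2 else x i

/-- this block -/
noncomputable def blockT (T : Finset I) (u : I → ℤ) : Finset (I → ℤ) :=
  Fintype.piFinset fun i => if i ∈ T then Finset.Ico (2 * u i) (2 * u i + 2) else {u i}

/-- the indices of the blocks more than half of which is in `A` -/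
noncomputable def cgT (T : Finset I) (A : Finset (I → ℤ)) : Finset (I → ℤ) :=
  (A.image (blkT T)).filter fun u => 2 ^ T.card < 2 * (A.filter fun x => blkT T x = u).card

/-- the union of these blocks -/
noncomputable def exT (T : Finset I) (A : Finset (I → ℤ)) : Finset (I → ℤ) :=
  (cgT T A).biUnion (blockT T)

/-- number of the boundary edges of direction `i` -/
noncomputable def bi (A : Finset (I → ℤ)) (i : I) : ℕ := ((bd A).filter fun e => e.2 = i).card

end lattice

/-- G0: distance of the set and its approximation. -/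
def S_G0 : Prop :=
  ∀ (I : Type) [Fintype I] [DecidableEq I] (A : Finset (I → ℤ)) (T : Finset I),
    (A ∆ exT T A).card ≤ 4 * ∑ j ∈ T, bi A j

/-- G1: the boundary of the coarse-grained set in a direction outside of `T`. -/
def S_G1 : Prop :=
  ∀ (I : Type) [Fintype I] [DecidableEq I] (A : Finset (I → ℤ)) (T : Finset I) (i : I), i ∉ T →
    2 ^ T.card * bi (cgT T A) i ≤ 32 * (bi A i + ∑ j ∈ T, bi A j)

/-- G2: distance of consecutive approximations. -/
def S_G2 : Prop :=
  ∀ (I : Type) [Fintype I] [DecidableEq I] (A : Finset (I → ℤ)) (T : Finset I) (i : I), i ∉ T →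
    (exT T A ∆ exT (insert i T) A).card ≤ 32 * (bi A i + ∑ j ∈ T, bi A j)

/-- G3: number of the coarse-grained regions. -/
def S_G3 : Prop :=
  ∃ C : ℝ, 0 < C ∧ ∀ (I : Type) [Fintype I] [DecidableEq I] (b : ℕ) (T : Finset I) (v : I),
    2 ≤ Fintype.card I → v ∉ T → ∀ 𝓕 : Finset (Finset (I → ℤ)),
      (∀ A ∈ 𝓕, Region A ∧ (bd A).card = b ∧
        Fintype.card I * (bi A v + ∑ j ∈ T, bi A j) ≤ 2 * (T.card + 1) * b) →
      ((𝓕.image (cgT T)).card : ℝ) ≤
        (b + 1) * Real.exp (C * ((T.card : ℝ) + 1) ^ 2 * ((b : ℝ) / 2 ^ T.card))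

/-- CHAIN2: supremum over the regions of a process with the metric `√|A ∆ A'|`, for `m` up to
`D² / (log D)^6`. -/
def S_CHAIN2 : Prop :=
  ∃ D₀ : ℕ, ∀ (I : Type) [Fintype I] [DecidableEq I], D₀ ≤ Fintype.card I →
    ∀ m : ℕ, 1 ≤ m → (m : ℝ) * Real.log (Fintype.card I) ^ 6 ≤ (Fintype.card I : ℝ) ^ 2 →
    ∀ (Ω : Type) [MeasurableSpace Ω] (μ : Measure Ω) [IsProbabilityMeasure μ]
      (X : Finset (I → ℤ) → Ω → ℝ) (β : ℝ), 0 < β → (∀ ω, X ∅ ω = 0) →
      (∀ (A A' : Finset (I → ℤ)) (t : ℝ), 0 < t → μ {ω | t ≤ X A ω - X A' ω} ≤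
        ENNReal.ofReal (Real.exp (-(t ^ 2) / (16 * β ^ 2 * m * (A ∆ A').card)))) →
      ∀ 𝓕 : Finset (Finset (I → ℤ)), (∀ A ∈ 𝓕, Region A) →
        μ {ω | ∃ A ∈ 𝓕, β * (bd A).card / 2 ≤ X A ω} ≤ ENNReal.ofReal (1 / 16)

/-- The stronger theorem. -/
def Main2 : Prop :=
  ∃ d₀ : ℕ, ∀ (d : ℕ), d₀ ≤ d → ∀ R : Finset (Fin d),
    √(d : ℝ) * Real.log d ^ 3 ≤ (d : ℝ) - R.card →
    ∀ (ν : (lat d).edgeSet → Measure Bool) [∀ e, IsProbabilityMeasure (ν e)],
    (∀ e, IsR R e → ν e = (PMF.uniformOfFintype Bool).toMeasure) →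
    (∀ e, ¬ IsR R e → ν e {false} ≤ ENNReal.ofReal (1 / 32)) →
    ∀ β : ℝ, 1 ≤ β → ∀ᵐ J ∂(Measure.infinitePi ν), ∃ π π' : Measure (Site d → Bool), π ≠ π' ∧
      IsGibbs β J π ∧ IsGibbs β J π'

end Pool.Agent.K9h96.EA

/-!
# PAPER PROOFS   (`D = card I`, `b = |bd A|`, `b_i = bi A i`, `t = |T|`, `T`-blocks have `2^t` points)

G0. In a block `Q` (a box with sides `≤ 2`): `|A∩Q| |Q\A| ≤ |Q|·2·|∂_Q A|` (POIN,
`K9h1/EB/Poin.lean`), so `min(|A∩Q|, |Q\A|) ≤ 4 |∂_Q A|`, and `∂_Q A` has only edges of directions in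
`T` (as the sides in the other directions are `1`). Sum over the blocks. (`exT ∅ A = A`.)

G1. For `(u,i) ∈ bd (cgT T A)` the box `B = blockT u ∪ blockT (u + e_i)` (sides `≤ 2`, directions
`T ∪ {i}`) has `|B| = 2^(t+1)`, `|A∩B|, |B\A| ≥ |B|/4`: `|∂_B A| ≥ |B|/32 = 2^t/16`. An edge of a
direction `j ∈ T` inside a block is in at most two such boxes (fixed `i`), an edge of direction `i`
in at most one: `2^t/16 · bi (cgT T A) i ≤ b_i + 2 ∑_{j ∈ T} b_j`.

G2. A block of `T' = insert i T` is the union of two adjacent `T`-blocks `Q_u, Q_{u+e_i}` (`u_i` even).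
If both or none of `u, u+e_i` are in `cgT T A`, the `T'`-block is in `exT T' A` or not accordingly;
otherwise `(u,i) ∈ bd (cgT T A)` and the two approximations differ in `2^t` points of the
`T'`-block. So the distance is `≤ 2^t bi (cgT T A) i`, and G1 gives the bound.

G3. If `cgT T A ≠ ∅`: by G1 `bi (cgT T A) v ≤ N := ⌊64 (t+1) b/(D 2^t)⌋`. Tour `f` of all boundary
edges of `A` (CZ, TOUR; consecutive ones in a common unit square, so the base points differ by at
most `2` in the `ℓ¹` norm), `≤ 2b` steps, starting from the first boundary edge above `0` in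
direction `v` (height `≤ b`). For each `(u,v) ∈ bd (cgT T A)` some boundary edge of `A` has its base
point in `blockT u ∪ blockT (u+e_v)`: choose a time; in the order of time these give points
`w_1, …, w_n` (`w = blkT T` of the base point, `u = w` or `u = w - e_v`), `n ≤ N`, the sum of the
`ℓ¹` norms of the differences is `≤ 4b`. These data determine `cgT T A` (`eq_of_VV`). Number:
`(b+1) 3^N y^(-4b) ((1+y)/(1-y))^(D N)` with `y = 2^t/(2^t+1)`.

CHAIN2. `K` with `D^4 ≤ 2^K ≤ 16 D^4` or so (`K ≤ 7 log D`, `K + 1 ≤ D/2`). Every `A` has at least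
`D/2` directions `i` with `D b_i ≤ 2 b`: choose an injection `e : Fin (K+1) → I` into these; there
are at most `D^(K+1)` choices of `e`. `T_t = {e 0, …, e (t-1)}`. Chain
`A = exT T_0 A, exT T_1 A, …, exT T_K A, ex 3 A, ex 4 A, …` with the thresholds `β s b`,
`s = 1/(8K)` for the `K` steps `exT T_t A → exT T_{t+1} A` (distance `≤ 64 K b/D` by G2),
`s = 1/8` for `exT T_K A → ex 3 A` (distance `≤ 20 b` by G0 and F1), `s = 2^(-l)` for
`ex l A → ex (l+1) A` as in CHAIN. Total `< 1/2`.
 First `K` steps: probability per pair `≤ exp(-b D/(65536 K³ m))`; number of pairs for a given `e`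
at most the number of `A`, `exp(C log D/D b)` (LM); `D^(K+1) ≤ exp((K+1) log D b/(2D))` as
`b ≥ 2D`: fine if `m (log D)^5 ≤ c D²`.
 Step to `ex 3 A`: per pair `exp(-b/(20480 m))`, `m ≤ D²`; nothing to do if both are empty; otherwise
`b ≥ D^4` (`exT T_K A ≠ ∅` gives `2 ≤ bi (cgT T_K A) v`, so `2^K ≤ 32 (K+1) b/D`;
`ex 3 A ≠ ∅` gives `8^(D-1) ≤ 32 D b`), and the number of pairs is, by G3 (`T = T_K`, `v = e K`)
and F3, `≤ D^(K+1) (b+1) exp(C (K+1)² b/D^4) exp(3 C 4^D b/8^(D-1))`.
 The steps `l ≥ 3`: as in CHAIN, with `m ≤ D²` instead of `m ≤ D`.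

MAIN2. As FINAL, with `D = d - |R|`, `m = max 1 |R| ≤ d`, `m (log D)^6 ≤ d (log d)^6 ≤ D²`.
-/
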