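import Pool.Agent.K9h96.EA.CHAIN
import Pool.Agent.K9h96.EA.Stm2

/-! Leaf CHAIN2 (helper81): chaining with additional scales at the beginning. -/

set_option autoImplicit false

open MeasureTheory
open scoped ENNReal symmDiff

namespace Pool.Agent.K9h96.EA

namespace CHAIN2

open CHAIN (sum_inv_sq exp_neg_le sq_le_exp tail union ex_empty)

/-- numerics for the other steps -/
theorem num2 {C : ℝ} (hC : 0 < C) {D m b l M : ℕ} (hm : 1 ≤ m) (hmD : m ≤ M) (hb : 1 ≤ b)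
    (hl : 3 ≤ l) (hD : 16 ≤ D) (hP : 2 ^ (l * (D - 1)) ≤ 32 * D * b)
    (hK1 : 576 * 2 ^ 15 * C * M ≤ 2 ^ D)
    (hK2 : (6 * 192 ^ 3 * 32 * 16 * 8 ^ 11 * (D * (M : ℝ) ^ 3) : ℝ) ≤ 8 ^ D) :
    Real.exp (3 * C * 4 ^ D * l * ((b : ℝ) / 2 ^ (l * (D - 1)))) *
      Real.exp (-((b : ℝ) / (96 * m * 8 ^ l))) ≤ 1 / 16 / 2 ^ l / (b : ℝ) ^ 2 := by
  have hD0 : (0 : ℝ) < D := by
    have : 0 < D := by omega
    exact_mod_cast this
  have hm0 : (0 : ℝ) < m := by exact_mod_cast hm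
  have hb0 : (0 : ℝ) < b := by
    have : 0 < b := by omega
    exact_mod_cast this
  have hmD' : (m : ℝ) ≤ M := by exact_mod_cast hmD
  have hP' : (2 : ℝ) ^ (l * (D - 1)) ≤ 32 * D * b := by exact_mod_cast hP
  obtain ⟨e, rfl⟩ : ∃ e, D = e + 11 := ⟨D - 11, by omega⟩
  obtain ⟨j, rfl⟩ : ∃ j, l = j + 3 := ⟨l - 3, by omega⟩
  set l := j + 3 with hl'
  set D := e + 11 with hD'
  have hll : (l : ℝ) ≤ 2 ^ l := by exact_mod_cast (Nat.lt_two_pow_self (n := l)).le
  -- first: the entropy is at most half of the energy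
  have hpow1 : (16 : ℝ) ^ l * 2 ^ (3 * (e + 6)) ≤ 2 ^ (l * (D - 1)) := by
    have h1 : (16 : ℝ) ^ l = 2 ^ (4 * l) := by rw [pow_mul]; norm_num
    rw [h1, ← pow_add]
    apply pow_le_pow_right₀ (by norm_num)
    have h2 : D - 1 = e + 10 := by omega
    rw [h2]
    nlinarith
  have hent : 3 * C * 4 ^ D * l * ((b : ℝ) / 2 ^ (l * (D - 1))) ≤ (b : ℝ) / (192 * m * 8 ^ l) := by
    rw [← mul_div_assoc, div_le_div_iff₀ (by positivity) (by positivity)]
    have h1 : 3 * C * 4 ^ D * l * (192 * m * 8 ^ l) ≤ (2 : ℝ) ^ (l * (D - 1)) := by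
      refine le_trans ?_ hpow1
      have h2 : (2 : ℝ) ^ D * 4 ^ D = 8 ^ D := by rw [← mul_pow]; norm_num
      have h3 : (8 : ℝ) ^ D = 2 ^ (3 * (e + 6)) * 2 ^ 15 := by
        have : (8 : ℝ) = 2 ^ 3 := by norm_num
        rw [this, ← pow_mul, ← pow_add]
        congr 1
      have h4 : 576 * C * M * 4 ^ D ≤ (2 : ℝ) ^ (3 * (e + 6)) := by
        have h5 : 576 * 2 ^ 15 * C * M * 4 ^ D ≤ (2 : ℝ) ^ D * 4 ^ D := by gcongr
        rw [h2, h3] at h5
        nlinarith
      have h6 : (16 : ℝ) ^ l = 2 ^ l * 8 ^ l := by rw [← mul_pow]; norm_num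
      calc 3 * C * 4 ^ D * l * (192 * m * 8 ^ l)
          = (576 * C * m * 4 ^ D) * (l * 8 ^ l) := by ring
        _ ≤ (576 * C * M * 4 ^ D) * (2 ^ l * 8 ^ l) := by gcongr
        _ ≤ (2 : ℝ) ^ (3 * (e + 6)) * (2 ^ l * 8 ^ l) := by gcongr
        _ = (16 : ℝ) ^ l * 2 ^ (3 * (e + 6)) := by rw [h6]; ring
    calc 3 * C * 4 ^ D * l * b * (192 * m * 8 ^ l)
        = (3 * C * 4 ^ D * l * (192 * m * 8 ^ l)) * b := by ring
      _ ≤ (2 : ℝ) ^ (l * (D - 1)) * b := by gcongr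
      _ = b * (2 : ℝ) ^ (l * (D - 1)) := by ring
  rw [← Real.exp_add]
  set y : ℝ := (b : ℝ) / (192 * m * 8 ^ l) with hy
  have hy0 : 0 < y := by positivity
  have h96 : (b : ℝ) / (96 * m * 8 ^ l) = 2 * y := by rw [hy]; field_simp; norm_num
  have h1 : Real.exp (3 * C * 4 ^ D * l * ((b : ℝ) / 2 ^ (l * (D - 1))) +
      -((b : ℝ) / (96 * m * 8 ^ l))) ≤ Real.exp (-y) := by
    apply Real.exp_le_exp.mpr
    rw [h96]; linarith
  refine h1.trans ((exp_neg_le hy0).trans ?_)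
  -- `b` is large
  have hbig : (6 * 192 ^ 3 * 16 * (m : ℝ) ^ 3 * 1024 ^ l) ≤ b := by
    have h2 : (1024 : ℝ) ^ l * 8 ^ e ≤ 2 ^ (l * (D - 1)) := by
      have h3 : (1024 : ℝ) ^ l = 2 ^ (10 * l) := by rw [pow_mul]; norm_num
      have h4 : (8 : ℝ) ^ e = 2 ^ (3 * e) := by rw [pow_mul]; norm_num
      rw [h3, h4, ← pow_add]
      apply pow_le_pow_right₀ (by norm_num)
      have h5 : D - 1 = e + 10 := by omega
      rw [h5]
      nlinarith
    have h3 : (8 : ℝ) ^ D = 8 ^ e * 8 ^ 11 := by rw [← pow_add]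
    have h4 : (6 * 192 ^ 3 * 32 * 16 * (D * (M : ℝ) ^ 3)) ≤ 8 ^ e := by
      rw [h3] at hK2
      nlinarith
    have h5 : (6 * 192 ^ 3 * 32 * 16 * (D * (M : ℝ) ^ 3)) * 1024 ^ l ≤ 32 * D * b := by
      calc (6 * 192 ^ 3 * 32 * 16 * (D * (M : ℝ) ^ 3)) * 1024 ^ l ≤ 8 ^ e * 1024 ^ l := by gcongr
        _ = (1024 : ℝ) ^ l * 8 ^ e := by ring
        _ ≤ 2 ^ (l * (D - 1)) := h2
        _ ≤ 32 * D * b := hP'
    have h6 : 32 * (D : ℝ) * (6 * 192 ^ 3 * 16 * (m : ℝ) ^ 3 * 1024 ^ l) ≤ 32 * (D : ℝ) * b := by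
      calc 32 * (D : ℝ) * (6 * 192 ^ 3 * 16 * (m : ℝ) ^ 3 * 1024 ^ l)
          ≤ 32 * (D : ℝ) * (6 * 192 ^ 3 * 16 * (M : ℝ) ^ 3 * 1024 ^ l) := by gcongr
        _ = (6 * 192 ^ 3 * 32 * 16 * (D * (M : ℝ) ^ 3)) * 1024 ^ l := by ring
        _ ≤ 32 * D * b := h5
    exact le_of_mul_le_mul_left h6 (by positivity)
  have h8 : (1024 : ℝ) ^ l = (8 ^ l) ^ 3 * 2 ^ l := by
    rw [← pow_mul, mul_comm l 3, pow_mul, ← mul_pow]; norm_num
  rw [hy, div_pow, div_div_eq_mul_div, div_div, div_div, div_le_div_iff₀ (by positivity) (by positivity)]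
  rw [h8] at hbig
  calc 6 * (192 * (m : ℝ) * 8 ^ l) ^ 3 * (16 * (2 ^ l * (b : ℝ) ^ 2))
      = (6 * 192 ^ 3 * 16 * (m : ℝ) ^ 3 * ((8 ^ l) ^ 3 * 2 ^ l)) * (b : ℝ) ^ 2 := by ring
    _ ≤ b * (b : ℝ) ^ 2 := by gcongr
    _ = 1 * (b : ℝ) ^ 3 := by ring

variable {I : Type} [Fintype I] [DecidableEq I]

/-- the step `l → l + 1` -/
theorem step (h1 : S_F1) (h2 : S_F2) {C : ℝ} (hC : 0 < C)
    (h3 : ∀ (I : Type) [Fintype I] [DecidableEq I] (b l : ℕ), 2 ≤ Fintype.card I →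
      1 ≤ l → 2 ^ (l * (Fintype.card I - 1)) ≤ 32 * Fintype.card I * b →
      ∀ 𝓕 : Finset (Finset (I → ℤ)), (∀ A ∈ 𝓕, Region A ∧ (bd A).card = b) →
        ((𝓕.image (cg l)).card : ℝ) ≤ Real.exp (C * 4 ^ Fintype.card I * l *
          ((b : ℝ) / 2 ^ (l * (Fintype.card I - 1)))))
    {Ω : Type} [MeasurableSpace Ω] {μ : Measure Ω}
    {X : Finset (I → ℤ) → Ω → ℝ} {β : ℝ} (hβ : 0 < β) {m M : ℕ} (hm : 1 ≤ m)
    (hX : ∀ (A A' : Finset (I → ℤ)) (t : ℝ), 0 < t → μ {ω | t ≤ X A ω - X A' ω} ≤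
        ENNReal.ofReal (Real.exp (-(t ^ 2) / (16 * β ^ 2 * m * (A ∆ A').card))))
    (hmD : m ≤ M) (hD : 16 ≤ Fintype.card I)
    (hK1 : 576 * 2 ^ 15 * C * M ≤ 2 ^ Fintype.card I)
    (hK2 : (6 * 192 ^ 3 * 32 * 16 * 8 ^ 11 * ((Fintype.card I) * (M : ℝ) ^ 3) : ℝ) ≤
      8 ^ Fintype.card I)
    {b : ℕ} (hb : 1 ≤ b) (𝓕 : Finset (Finset (I → ℤ)))
    (hF : ∀ A ∈ 𝓕, Region A ∧ (bd A).card = b) {l : ℕ} (hl : 3 ≤ l) :
    μ {ω | ∃ A ∈ 𝓕, β * b / 2 ^ l ≤ X (ex l A) ω - X (ex (l + 1) A) ω} ≤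
      ENNReal.ofReal (1 / 16 / 2 ^ l / (b : ℝ) ^ 2) := by
  classical
  have hne : Nonempty I := Fintype.card_pos_iff.mp (by omega)
  set D := Fintype.card I with hDdef
  have hb0 : (0 : ℝ) < b := by exact_mod_cast hb
  have hm0 : (0 : ℝ) < m := by exact_mod_cast hm
  by_cases hP : 2 ^ (l * (D - 1)) ≤ 32 * D * b
  · -- number of pairs
    set S := 𝓕.image (fun A => (ex l A, ex (l + 1) A)) with hS
    have hlow : (l : ℝ) ≤ 2 * l := by
      have : (0 : ℝ) ≤ l := Nat.cast_nonneg l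
      linarith
    have hcard1 : ((𝓕.image (cg l)).card : ℝ) ≤
        Real.exp (C * 4 ^ D * l * ((b : ℝ) / 2 ^ (l * (D - 1)))) :=
      h3 I b l (by omega) (by omega) hP 𝓕 hF
    have hcard2 : ((𝓕.image (cg (l + 1))).card : ℝ) ≤
        Real.exp (2 * C * 4 ^ D * l * ((b : ℝ) / 2 ^ (l * (D - 1)))) := by
      by_cases hP2 : 2 ^ ((l + 1) * (D - 1)) ≤ 32 * D * b
      · refine (h3 I b (l + 1) (by omega) (by omega) hP2 𝓕 hF).trans (Real.exp_le_exp.mpr ?_)
        have e1 : ((l + 1 : ℕ) : ℝ) ≤ 2 * l := by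
          have : (1 : ℝ) ≤ l := by
            have : 1 ≤ l := by omega
            exact_mod_cast this
          push_cast; linarith
        have e2 : (b : ℝ) / 2 ^ ((l + 1) * (D - 1)) ≤ (b : ℝ) / 2 ^ (l * (D - 1)) := by
          apply div_le_div_of_nonneg_left hb0.le (by positivity)
          apply pow_le_pow_right₀ (by norm_num)
          exact Nat.mul_le_mul_right _ (by omega)
        calc C * 4 ^ D * ((l + 1 : ℕ) : ℝ) * ((b : ℝ) / 2 ^ ((l + 1) * (D - 1)))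
            ≤ C * 4 ^ D * (2 * l) * ((b : ℝ) / 2 ^ (l * (D - 1))) := by gcongr
          _ = 2 * C * 4 ^ D * l * ((b : ℝ) / 2 ^ (l * (D - 1))) := by ring
      · have e1 : 𝓕.image (cg (l + 1)) ⊆ {∅} := by
          intro u hu
          rw [Finset.mem_image] at hu
          obtain ⟨A, hA, rfl⟩ := hu
          rw [Finset.mem_singleton]
          exact ex_empty h2 (hF A hA).2 (by rw [← hDdef]; omega)
        have e2 : (𝓕.image (cg (l + 1))).card ≤ 1 := by
          simpa using Finset.card_le_card e1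
        have e3 : ((𝓕.image (cg (l + 1))).card : ℝ) ≤ 1 := by exact_mod_cast e2
        refine e3.trans (Real.one_le_exp (by positivity))
    have hcard : (S.card : ℝ) ≤
        Real.exp (3 * C * 4 ^ D * l * ((b : ℝ) / 2 ^ (l * (D - 1)))) := by
      have e1 : S ⊆ ((𝓕.image (cg l)) ×ˢ (𝓕.image (cg (l + 1)))).image
          (fun p => (p.1.biUnion (block l), p.2.biUnion (block (l + 1)))) := by
        intro q hq
        rw [hS, Finset.mem_image] at hq
        obtain ⟨A, hA, rfl⟩ := hq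
        rw [Finset.mem_image]
        exact ⟨(cg l A, cg (l + 1) A), Finset.mem_product.mpr
          ⟨Finset.mem_image_of_mem _ hA, Finset.mem_image_of_mem _ hA⟩, rfl⟩
      have e2 : S.card ≤ (𝓕.image (cg l)).card * (𝓕.image (cg (l + 1))).card := by
        refine (Finset.card_le_card e1).trans (Finset.card_image_le.trans ?_)
        rw [Finset.card_product]
      calc (S.card : ℝ) ≤ ((𝓕.image (cg l)).card : ℝ) * ((𝓕.image (cg (l + 1))).card : ℝ) := by
            exact_mod_cast e2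
        _ ≤ Real.exp (C * 4 ^ D * l * ((b : ℝ) / 2 ^ (l * (D - 1)))) *
            Real.exp (2 * C * 4 ^ D * l * ((b : ℝ) / 2 ^ (l * (D - 1)))) := by gcongr
        _ = Real.exp (3 * C * 4 ^ D * l * ((b : ℝ) / 2 ^ (l * (D - 1)))) := by
            rw [← Real.exp_add]; congr 1; ring
    have hdist : ∀ p ∈ S, ((p.1 ∆ p.2).card : ℝ) ≤ 6 * 2 ^ l * b := by
      intro p hp
      rw [hS, Finset.mem_image] at hp
      obtain ⟨A, hA, rfl⟩ := hp
      have e1 := h1 I A l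
      have e2 := h1 I A (l + 1)
      rw [(hF A hA).2] at e1 e2
      have e3 : (ex l A ∆ ex (l + 1) A).card ≤ (A ∆ ex l A).card + (A ∆ ex (l + 1) A).card := by
        have e4 : ex l A ∆ ex (l + 1) A ⊆ (A ∆ ex l A) ∪ (A ∆ ex (l + 1) A) := by
          have := symmDiff_triangle (ex l A) A (ex (l + 1) A)
          rw [symmDiff_comm (ex l A) A] at this
          exact this
        exact (Finset.card_le_card e4).trans (Finset.card_union_le _ _)
      have e5 : (ex l A ∆ ex (l + 1) A).card ≤ 6 * 2 ^ l * b := by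
        refine e3.trans ((Nat.add_le_add e1 e2).trans ?_)
        rw [pow_succ, pow_succ, pow_succ]
        nlinarith
      exact_mod_cast e5
    have hmain := union hβ hm hX S (t := β * b / 2 ^ l) (K := 6 * 2 ^ l * b)
      (N := Real.exp (3 * C * 4 ^ D * l * ((b : ℝ) / 2 ^ (l * (D - 1))))) (by positivity) hdist hcard
    refine (measure_mono ?_).trans (hmain.trans (ENNReal.ofReal_le_ofReal ?_))
    · intro ω hω
      obtain ⟨A, hA, h⟩ := hω
      exact ⟨(ex l A, ex (l + 1) A), Finset.mem_image_of_mem _ hA, h⟩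
    · have e1 : (β * b / 2 ^ l) ^ 2 / (16 * β ^ 2 * m * (6 * 2 ^ l * b)) =
          (b : ℝ) / (96 * m * 8 ^ l) := by
        have e2 : (8 : ℝ) ^ l = 2 ^ l * 2 ^ l * 2 ^ l := by
          rw [← mul_pow, ← mul_pow]; norm_num
        rw [e2]
        field_simp
        norm_num
      rw [e1]
      exact num2 hC hm hmD hb hl hD hP hK1 hK2
  · have h0 : {ω | ∃ A ∈ 𝓕, β * b / 2 ^ l ≤ X (ex l A) ω - X (ex (l + 1) A) ω} = ∅ := by
      ext ω
      simp only [Set.mem_empty_iff_false, iff_false]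
      rintro ⟨A, hA, h⟩
      have hlt : 32 * D * b < 2 ^ (l * (D - 1)) := by omega
      have e1 : cg l A = ∅ := ex_empty h2 (hF A hA).2 hlt
      have e2 : cg (l + 1) A = ∅ := by
        refine ex_empty h2 (hF A hA).2 (hlt.trans_le ?_)
        exact Nat.pow_le_pow_right (by norm_num) (Nat.mul_le_mul_right _ (by omega))
      have e3 : ex l A = ex (l + 1) A := by
        unfold ex; rw [e1, e2]; simp
      rw [e3, sub_self] at h
      have : 0 < β * b / 2 ^ l := by positivity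
      linarith
    rw [h0]; simp


/-- numerics for the additional steps -/
theorem num4 {C : ℝ} (hC : 0 < C) {D m b K : ℕ} (hm : 1 ≤ m) (hD : 16 ≤ D) (hb : 2 * D ≤ b)
    (hK0 : 1 ≤ K) (hK : (K : ℝ) ≤ 8 * Real.log D)
    (hc : (m : ℝ) * Real.log D ^ 6 ≤ (D : ℝ) ^ 2)
    (hlog : (C + 4) * 33554432 ≤ Real.log D ^ 2) (hlog1 : 1 ≤ Real.log D) :
    K * (Real.exp (C * Real.log D / D * b) *
      Real.exp (-((b : ℝ) * D / (65536 * (K : ℝ) ^ 3 * m)))) ≤
      8 / (D : ℝ) ^ 2 / (b : ℝ) ^ 2 := by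
  have hD0 : (0 : ℝ) < D := by
    have : 0 < D := by omega
    exact_mod_cast this
  have hm0 : (0 : ℝ) < m := by exact_mod_cast hm
  have hb0 : (0 : ℝ) < b := by
    have : 0 < b := by omega
    exact_mod_cast this
  have hK00 : (0 : ℝ) < K := by exact_mod_cast hK0
  have hbD : 2 * (D : ℝ) ≤ b := by exact_mod_cast hb
  set L : ℝ := Real.log D with hL
  set w : ℝ := L / D * b with hw
  have hw0 : 0 < w := by positivity
  have h1 : (C + 4) * w ≤ (b : ℝ) * D / (65536 * (K : ℝ) ^ 3 * m) := by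
    rw [hw, le_div_iff₀ (by positivity)]
    have h2 : (C + 4) * L * (65536 * (K : ℝ) ^ 3 * m) ≤ (D : ℝ) ^ 2 := by
      calc (C + 4) * L * (65536 * (K : ℝ) ^ 3 * m)
          ≤ (C + 4) * L * (65536 * (8 * L) ^ 3 * m) := by gcongr
        _ = ((C + 4) * 33554432) * (L ^ 4 * m) := by ring
        _ ≤ L ^ 2 * (L ^ 4 * m) := by gcongr
        _ = m * L ^ 6 := by ring
        _ ≤ (D : ℝ) ^ 2 := hc
    calc (C + 4) * (L / D * b) * (65536 * (K : ℝ) ^ 3 * m)
        = ((C + 4) * L * (65536 * (K : ℝ) ^ 3 * m)) * b / D := by field_simp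
      _ ≤ (D : ℝ) ^ 2 * b / D := by gcongr
      _ = b * D := by field_simp
  have h2 : 2 * L ≤ w := by
    rw [hw]
    calc 2 * L = L / D * (2 * D) := by field_simp
      _ ≤ L / D * b := by gcongr
  have h3 : (b : ℝ) ≤ w * D := by
    have : w * D = L * b := by rw [hw]; field_simp
    rw [this]; nlinarith
  rw [← Real.exp_add]
  have h4 : Real.exp (C * L / D * b + -((b : ℝ) * D / (65536 * (K : ℝ) ^ 3 * m))) ≤
      Real.exp (-(4 * w)) := by
    apply Real.exp_le_exp.mpr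
    have : C * L / D * b = C * w := by rw [hw]; ring
    rw [this]; nlinarith
  have h5 : (b : ℝ) ^ 2 ≤ 2 * Real.exp w * (D : ℝ) ^ 2 := by
    calc (b : ℝ) ^ 2 ≤ (w * D) ^ 2 := by gcongr
      _ = w ^ 2 * (D : ℝ) ^ 2 := by ring
      _ ≤ 2 * Real.exp w * (D : ℝ) ^ 2 := by
          gcongr
          exact sq_le_exp hw0.le
  have h6 : Real.exp (-(2 * w)) * (D : ℝ) ^ 4 ≤ 1 := by
    have h7 : (D : ℝ) ^ 4 = Real.exp (4 * L) := by
      rw [mul_comm, Real.exp_mul, hL, Real.exp_log hD0]; norm_num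
    rw [h7, ← Real.exp_add, Real.exp_le_one_iff]
    linarith
  have h7 : (K : ℝ) ≤ 4 * Real.exp w := by
    have := Real.add_one_le_exp w
    linarith
  rw [le_div_iff₀ (by positivity), le_div_iff₀ (by positivity)]
  calc K * Real.exp (C * L / D * b + -((b : ℝ) * D / (65536 * (K : ℝ) ^ 3 * m))) * (b : ℝ) ^ 2 *
        (D : ℝ) ^ 2
      ≤ (4 * Real.exp w) * Real.exp (-(4 * w)) * (2 * Real.exp w * (D : ℝ) ^ 2) * (D : ℝ) ^ 2 := by
        gcongr
    _ = 8 * ((Real.exp w * Real.exp (-(4 * w)) * Real.exp w) * (D : ℝ) ^ 4) := by ring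
    _ = 8 * (Real.exp (-(2 * w)) * (D : ℝ) ^ 4) := by
        rw [← Real.exp_add, ← Real.exp_add]; congr 4; ring
    _ ≤ 8 * 1 := by gcongr
    _ = 8 := by norm_num

/-- numerics for the step from the additional scales to the scale `8` -/
theorem num3 {C C₃ : ℝ} (hC : 0 < C) (hC₃ : 0 < C₃) {D m b K : ℕ} (hm : 1 ≤ m) (hD : 16 ≤ D)
    (hb : D ^ 4 ≤ b) (hK : (K : ℝ) + 1 ≤ 8 * Real.log D) (hK2 : D ^ 4 ≤ 2 ^ K) (hmD : m ≤ D ^ 2)
    (hlog1 : 1 ≤ Real.log D)
    (H1 : 8 * Real.log D ^ 2 * 61440 ≤ (D : ℝ) ^ 2)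
    (H2 : C * (64 * Real.log D ^ 2) * 122880 ≤ (D : ℝ) ^ 2)
    (H3 : 24 * C₃ * 122880 * (D : ℝ) ^ 2 ≤ 2 ^ D)
    (H4 : ∀ x : ℝ, (D : ℝ) ≤ x → (x ^ 2 + 1) * x ^ 4 * Real.exp (-(x / 61440)) ≤ 1 / 128) :
    ((D : ℝ) ^ (K + 1) * ((b + 1) * Real.exp (C * ((K : ℝ) + 1) ^ 2 * ((b : ℝ) / 2 ^ K))) *
      Real.exp (C₃ * 4 ^ D * 3 * ((b : ℝ) / 2 ^ (3 * (D - 1))))) *
      Real.exp (-((b : ℝ) / (20480 * m))) ≤ 1 / 128 / (b : ℝ) ^ 2 := by
  have hD0 : (0 : ℝ) < D := by
    have : 0 < D := by omega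
    exact_mod_cast this
  have hD1 : (1 : ℝ) ≤ D := by
    have : 1 ≤ D := by omega
    exact_mod_cast this
  have hm0 : (0 : ℝ) < m := by exact_mod_cast hm
  have hbD : (D : ℝ) ^ 4 ≤ b := by exact_mod_cast hb
  have hb0 : (0 : ℝ) < b := lt_of_lt_of_le (by positivity) hbD
  have hmD' : (m : ℝ) ≤ (D : ℝ) ^ 2 := by exact_mod_cast hmD
  have hK2' : (D : ℝ) ^ 4 ≤ 2 ^ K := by exact_mod_cast hK2
  set L : ℝ := Real.log D with hL
  set z : ℝ := (b : ℝ) / (122880 * (D : ℝ) ^ 2) with hz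
  have hz0 : 0 < z := by positivity
  -- the energy
  have e1 : 6 * z ≤ (b : ℝ) / (20480 * m) := by
    rw [hz, mul_div_assoc', div_le_div_iff₀ (by positivity) (by positivity)]
    calc 6 * (b : ℝ) * (20480 * m) ≤ 6 * (b : ℝ) * (20480 * (D : ℝ) ^ 2) := by gcongr
      _ = b * (122880 * (D : ℝ) ^ 2) := by ring
  -- the choice of the directions
  have e2 : (D : ℝ) ^ (K + 1) ≤ Real.exp (2 * z) := by
    have h1 : (D : ℝ) ^ (K + 1) = Real.exp (((K : ℝ) + 1) * L) := by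
      rw [mul_comm, Real.exp_mul, hL, Real.exp_log hD0]
      have : ((K : ℝ) + 1) = ((K + 1 : ℕ) : ℝ) := by push_cast; ring
      rw [this, Real.rpow_natCast]
    rw [h1]
    apply Real.exp_le_exp.mpr
    have h2 : 2 * z = (b : ℝ) / (61440 * (D : ℝ) ^ 2) := by rw [hz]; field_simp; norm_num
    rw [h2, le_div_iff₀ (by positivity)]
    calc ((K : ℝ) + 1) * L * (61440 * (D : ℝ) ^ 2) ≤ (8 * L) * L * (61440 * (D : ℝ) ^ 2) := by
          gcongr
      _ = (8 * L ^ 2 * 61440) * (D : ℝ) ^ 2 := by ring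
      _ ≤ (D : ℝ) ^ 2 * (D : ℝ) ^ 2 := by gcongr
      _ = (D : ℝ) ^ 4 := by ring
      _ ≤ b := hbD
  -- the number of the coarse-grained sets
  have e3 : C * ((K : ℝ) + 1) ^ 2 * ((b : ℝ) / 2 ^ K) ≤ z := by
    have h1 : (b : ℝ) / 2 ^ K ≤ b / (D : ℝ) ^ 4 := by gcongr
    calc C * ((K : ℝ) + 1) ^ 2 * ((b : ℝ) / 2 ^ K) ≤ C * (8 * L) ^ 2 * (b / (D : ℝ) ^ 4) := by
          gcongr
      _ = (C * (64 * L ^ 2) * 122880) * (b / (122880 * (D : ℝ) ^ 4)) := by field_simp; norm_num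
      _ ≤ (D : ℝ) ^ 2 * (b / (122880 * (D : ℝ) ^ 4)) := by gcongr
      _ = z := by rw [hz]; field_simp
  have e4 : C₃ * 4 ^ D * 3 * ((b : ℝ) / 2 ^ (3 * (D - 1))) ≤ z := by
    obtain ⟨D', hD'⟩ : ∃ D', D = D' + 1 := ⟨D - 1, by omega⟩
    have h1 : (2 : ℝ) ^ (3 * (D - 1)) = 8 ^ D / 8 := by
      have h2 : (8 : ℝ) = 2 ^ 3 := by norm_num
      have h3 : D - 1 = D' := by omega
      rw [h3, hD', pow_succ, pow_mul]
      norm_num
    have h2 : (8 : ℝ) ^ D = 2 ^ D * 4 ^ D := by rw [← mul_pow]; norm_num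
    rw [h1, h2, hz]
    calc C₃ * 4 ^ D * 3 * ((b : ℝ) / (2 ^ D * 4 ^ D / 8))
        = (24 * C₃ * 122880 * (D : ℝ) ^ 2) * (b / (122880 * (D : ℝ) ^ 2 * 2 ^ D)) := by
          field_simp; norm_num
      _ ≤ 2 ^ D * (b / (122880 * (D : ℝ) ^ 2 * 2 ^ D)) := by gcongr
      _ = b / (122880 * (D : ℝ) ^ 2) := by field_simp
  -- the square root
  set s : ℝ := √(b : ℝ) with hs
  have hs2 : s ^ 2 = b := Real.sq_sqrt hb0.le
  have hsD2 : (D : ℝ) ^ 2 ≤ s := by
    rw [hs]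
    apply Real.le_sqrt_of_sq_le
    calc ((D : ℝ) ^ 2) ^ 2 = (D : ℝ) ^ 4 := by ring
      _ ≤ (b : ℝ) := hbD
  have hsD : (D : ℝ) ≤ s := le_trans (by nlinarith) hsD2
  have e5 : s / 61440 ≤ 2 * z := by
    rw [hz, ← hs2, mul_div_assoc', div_le_div_iff₀ (by norm_num) (by positivity)]
    have hs0 : 0 < s := lt_of_lt_of_le hD0 hsD
    nlinarith
  calc ((D : ℝ) ^ (K + 1) * ((b + 1) * Real.exp (C * ((K : ℝ) + 1) ^ 2 * ((b : ℝ) / 2 ^ K))) *
      Real.exp (C₃ * 4 ^ D * 3 * ((b : ℝ) / 2 ^ (3 * (D - 1))))) *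
      Real.exp (-((b : ℝ) / (20480 * m)))
      ≤ (Real.exp (2 * z) * ((b + 1) * Real.exp z) * Real.exp z) * Real.exp (-(6 * z)) := by
        gcongr
    _ = (b + 1) * (Real.exp (2 * z) * Real.exp z * Real.exp z * Real.exp (-(6 * z))) := by ring
    _ = (b + 1) * Real.exp (-(2 * z)) := by
        rw [← Real.exp_add, ← Real.exp_add, ← Real.exp_add]; congr 2; ring
    _ ≤ (b + 1) * Real.exp (-(s / 61440)) := by gcongr
    _ ≤ 1 / 128 / (b : ℝ) ^ 2 := by
        rw [le_div_iff₀ (by positivity)]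
        have h1 := H4 s hsD
        have h2 : (b : ℝ) ^ 2 = s ^ 4 := by rw [← hs2]; ring
        rw [h2, ← hs2]
        linarith

/-- the union of the first `t` directions -/
def Ts (e : ℕ → I) (t : ℕ) : Finset I := (Finset.range t).image e

omit [Fintype I] in
theorem Ts_zero (e : ℕ → I) : Ts e 0 = ∅ := by simp [Ts]

omit [Fintype I] in
theorem Ts_succ (e : ℕ → I) (t : ℕ) : Ts e (t + 1) = insert (e t) (Ts e t) := by
  unfold Ts
  rw [Finset.range_add_one, Finset.image_insert]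

/-- good directions -/
def GoodE (A : Finset (I → ℤ)) (b K : ℕ) (e : ℕ → I) : Prop :=
  (∀ s ≤ K, ∀ t ≤ K, e s = e t → s = t) ∧ ∀ s ≤ K, Fintype.card I * bi A (e s) ≤ 2 * b

theorem GoodE.notMem {A : Finset (I → ℤ)} {b K : ℕ} {e : ℕ → I} (h : GoodE A b K e) {t : ℕ}
    (ht : t ≤ K) : e t ∉ Ts e t := by
  unfold Ts
  rw [Finset.mem_image]
  rintro ⟨s, hs, hst⟩
  rw [Finset.mem_range] at hs
  have := h.1 s (by omega) t ht hst
  omega

theorem GoodE.card {A : Finset (I → ℤ)} {b K : ℕ} {e : ℕ → I} (h : GoodE A b K e) {t : ℕ}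
    (ht : t ≤ K) : (Ts e t).card = t := by
  unfold Ts
  rw [Finset.card_image_of_injOn, Finset.card_range]
  intro s hs s' hs' hss
  simp only [Finset.coe_range, Set.mem_Iio] at hs hs'
  exact h.1 s (by omega) s' (by omega) hss

theorem GoodE.sum_le {A : Finset (I → ℤ)} {b K : ℕ} {e : ℕ → I} (h : GoodE A b K e) {t : ℕ}
    (ht : t ≤ K) : Fintype.card I * (bi A (e t) + ∑ j ∈ Ts e t, bi A j) ≤ 2 * (t + 1) * b := by
  have h1 : ∑ j ∈ Ts e t, Fintype.card I * bi A j ≤ (Ts e t).card • (2 * b) := by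
    apply Finset.sum_le_card_nsmul
    intro j hj
    unfold Ts at hj
    rw [Finset.mem_image] at hj
    obtain ⟨s, hs, rfl⟩ := hj
    rw [Finset.mem_range] at hs
    exact h.2 s (by omega)
  rw [h.card ht, smul_eq_mul] at h1
  have h2 := h.2 t ht
  rw [mul_add, Finset.mul_sum]
  nlinarith

theorem sum_bi (A : Finset (I → ℤ)) : ∑ i, bi A i = (bd A).card := by
  unfold bi
  rw [Finset.card_eq_sum_card_fiberwise (f := Prod.snd) (t := Finset.univ)
    (fun _ _ => Finset.mem_coe.mpr (Finset.mem_univ _))]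

theorem exists_good {A : Finset (I → ℤ)} {b K : ℕ} (hb : (bd A).card = b) (hb0 : 0 < b)
    (hK : 2 * (K + 1) ≤ Fintype.card I) : ∃ e : ℕ → I, GoodE A b K e := by
  classical
  set G : Finset I := Finset.univ.filter fun i => Fintype.card I * bi A i ≤ 2 * b with hG
  have h1 : 2 * Gᶜ.card ≤ Fintype.card I := by
    have h2 : Gᶜ.card • (2 * b) ≤ ∑ i ∈ Gᶜ, Fintype.card I * bi A i := by
      apply Finset.card_nsmul_le_sum
      intro i hi
      rw [hG, Finset.mem_compl, Finset.mem_filter] at hi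
      push Not at hi
      exact (hi (Finset.mem_univ i)).le
    have h3 : ∑ i ∈ Gᶜ, Fintype.card I * bi A i ≤ Fintype.card I * b := by
      rw [← hb, ← sum_bi, Finset.mul_sum]
      exact Finset.sum_le_sum_of_subset (Finset.subset_univ _)
    rw [smul_eq_mul] at h2
    have h4 : (2 * Gᶜ.card) * b ≤ Fintype.card I * b := by
      calc (2 * Gᶜ.card) * b = Gᶜ.card * (2 * b) := by ring
        _ ≤ _ := h2.trans h3
    exact Nat.le_of_mul_le_mul_right h4 hb0
  have h2 : K + 1 ≤ G.card := by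
    have := Finset.card_add_card_compl G
    omega
  obtain ⟨f⟩ : Nonempty (Fin (K + 1) ↪ G) := by
    apply Function.Embedding.nonempty_of_card_le
    rw [Fintype.card_fin, Fintype.card_coe]
    exact h2
  refine ⟨fun n => if h : n < K + 1 then (f ⟨n, h⟩ : I) else (f ⟨0, by omega⟩ : I), ?_, ?_⟩
  · intro s hs t ht hst
    have hs' : s < K + 1 := by omega
    have ht' : t < K + 1 := by omega
    simp only [hs', ht', dif_pos] at hst
    have := f.injective (Subtype.ext hst)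
    simpa using this
  · intro s hs
    have hs' : s < K + 1 := by omega
    simp only [hs', dif_pos]
    have h3 : ∀ i ∈ G, Fintype.card I * bi A i ≤ 2 * b := by
      intro i hi
      rw [hG, Finset.mem_filter] at hi
      exact hi.2
    exact h3 _ (f ⟨s, hs'⟩).2

theorem bi_pos {A : Finset (I → ℤ)} (hA : A.Nonempty) (v : I) : 1 ≤ bi A v := by
  classical
  obtain ⟨x, hx, hmax⟩ := Finset.exists_max_image A (fun x => x v) hA
  unfold bi
  rw [Nat.one_le_iff_ne_zero, Finset.card_ne_zero]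
  refine ⟨(x, v), ?_⟩
  rw [Finset.mem_filter]
  refine ⟨?_, rfl⟩
  rw [mem_bd']
  intro h
  have h1 := hmax _ (h.mp hx)
  simp [uv] at h1

/-- the approximation is empty if the boundary is small -/
theorem exT_empty (g1 : S_G1) {A : Finset (I → ℤ)} {b K : ℕ} {e : ℕ → I}
    (h : GoodE A b K e) (hK2 : Fintype.card I ^ 4 ≤ 2 ^ K) (hK3 : 64 * (K + 1) ≤ Fintype.card I)
    (hb : b < Fintype.card I ^ 4) : exT (Ts e K) A = ∅ := by
  have h0 : cgT (Ts e K) A = ∅ := by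
    by_contra hne
    have h1 := bi_pos (Finset.nonempty_iff_ne_empty.mpr hne) (e K)
    have h2 := g1 I A (Ts e K) (e K) (h.notMem le_rfl)
    rw [h.card le_rfl] at h2
    have h3 := h.sum_le (t := K) le_rfl
    have h4 : 2 ^ K ≤ 32 * (bi A (e K) + ∑ j ∈ Ts e K, bi A j) :=
      le_trans (Nat.le_mul_of_pos_right _ h1) h2
    have h5 : Fintype.card I * 2 ^ K ≤ Fintype.card I * b := by
      calc Fintype.card I * 2 ^ K
          ≤ Fintype.card I * (32 * (bi A (e K) + ∑ j ∈ Ts e K, bi A j)) :=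
            Nat.mul_le_mul_left _ h4
        _ = 32 * (Fintype.card I * (bi A (e K) + ∑ j ∈ Ts e K, bi A j)) := by ring
        _ ≤ 32 * (2 * (K + 1) * b) := Nat.mul_le_mul_left _ h3
        _ = (64 * (K + 1)) * b := by ring
        _ ≤ Fintype.card I * b := Nat.mul_le_mul_right _ hK3
    have h6 : 2 ^ K ≤ b := Nat.le_of_mul_le_mul_left h5 (by omega)
    omega
  unfold exT; rw [h0]; simp

/-- the chain -/
theorem chain2 {x : Finset (I → ℤ) → ℝ} {A : Finset (I → ℤ)} {B : ℝ} {K : ℕ} (hK : 1 ≤ K)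
    {e : ℕ → I} (hA : exT (Ts e 0) A = A)
    (h0 : ∀ t < K, x (exT (Ts e t) A) - x (exT (Ts e (t + 1)) A) < B / (8 * K))
    (h1 : x (exT (Ts e K) A) - x (ex 3 A) < B / 8) (k : ℕ)
    (h2 : ∀ j < k, x (ex (3 + j) A) - x (ex (3 + j + 1) A) < B / 2 ^ (3 + j)) :
    x A - x (ex (3 + k) A) < B * (1 / 2 - 1 / (4 * 2 ^ k)) := by
  have hK0 : (0 : ℝ) < K := by exact_mod_cast hK
  have h3 : ∀ t ≤ K, x A - x (exT (Ts e t) A) ≤ t * (B / (8 * K)) := by
    intro t
    induction t with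
    | zero => intro _; rw [hA]; simp
    | succ t ih =>
      intro ht
      have h4 := ih (by omega)
      have h5 := h0 t (by omega)
      push_cast
      linarith
  refine CHAIN.chain' ?_ k h2
  have h4 := h3 K le_rfl
  have h5 : (K : ℝ) * (B / (8 * K)) = B / 8 := by field_simp
  rw [h5] at h4
  linarith

/-- the bound for regions with a given size of the boundary -/
theorem per_b (h1 : S_F1) (h2 : S_F2) (g0 : S_G0) (g1 : S_G1) (g2 : S_G2)
    {C : ℝ} (hC : 0 < C)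
    (h3 : ∀ (I : Type) [Fintype I] [DecidableEq I] (b l : ℕ), 2 ≤ Fintype.card I →
      1 ≤ l → 2 ^ (l * (Fintype.card I - 1)) ≤ 32 * Fintype.card I * b →
      ∀ 𝓕 : Finset (Finset (I → ℤ)), (∀ A ∈ 𝓕, Region A ∧ (bd A).card = b) →
        ((𝓕.image (cg l)).card : ℝ) ≤ Real.exp (C * 4 ^ Fintype.card I * l *
          ((b : ℝ) / 2 ^ (l * (Fintype.card I - 1)))))
    {C₁ : ℝ} (hC₁ : 0 < C₁)
    (hL : ∀ (I : Type) [Fintype I] [DecidableEq I] (b : ℕ), 2 ≤ Fintype.card I →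
      ∀ 𝓕 : Finset (Finset (I → ℤ)), (∀ A ∈ 𝓕, Region A ∧ (bd A).card = b) →
        (𝓕.card : ℝ) ≤ Real.exp (C₁ * Real.log (Fintype.card I) / Fintype.card I * b))
    {C₂ : ℝ} (hC₂ : 0 < C₂)
    (g3 : ∀ (I : Type) [Fintype I] [DecidableEq I] (b : ℕ) (T : Finset I) (v : I),
      2 ≤ Fintype.card I → v ∉ T → ∀ 𝓕 : Finset (Finset (I → ℤ)),
      (∀ A ∈ 𝓕, Region A ∧ (bd A).card = b ∧
        Fintype.card I * (bi A v + ∑ j ∈ T, bi A j) ≤ 2 * (T.card + 1) * b) →
      ((𝓕.image (cgT T)).card : ℝ) ≤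
        (b + 1) * Real.exp (C₂ * ((T.card : ℝ) + 1) ^ 2 * ((b : ℝ) / 2 ^ T.card)))
    {Ω : Type} [MeasurableSpace Ω] {μ : Measure Ω}
    {X : Finset (I → ℤ) → Ω → ℝ} {β : ℝ} (hβ : 0 < β) {m : ℕ} (hm : 1 ≤ m)
    (hX0 : ∀ ω, X ∅ ω = 0)
    (hX : ∀ (A A' : Finset (I → ℤ)) (t : ℝ), 0 < t → μ {ω | t ≤ X A ω - X A' ω} ≤
        ENNReal.ofReal (Real.exp (-(t ^ 2) / (16 * β ^ 2 * m * (A ∆ A').card))))
    (hD : 64 ≤ Fintype.card I)
    (hlog1 : 1 ≤ Real.log (Fintype.card I))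
    (hc : (m : ℝ) * Real.log (Fintype.card I) ^ 6 ≤ (Fintype.card I : ℝ) ^ 2)
    (hmD : m ≤ Fintype.card I ^ 2)
    {K : ℕ} (hK0 : 1 ≤ K) (hKL : (K : ℝ) + 1 ≤ 8 * Real.log (Fintype.card I))
    (hKD : Fintype.card I ^ 4 ≤ 2 ^ K) (hKI : 64 * (K + 1) ≤ Fintype.card I)
    (hlog : (C₁ + 4) * 33554432 ≤ Real.log (Fintype.card I) ^ 2)
    (H1 : 8 * Real.log (Fintype.card I) ^ 2 * 61440 ≤ (Fintype.card I : ℝ) ^ 2)
    (H2 : C₂ * (64 * Real.log (Fintype.card I) ^ 2) * 122880 ≤ (Fintype.card I : ℝ) ^ 2)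
    (H3 : 24 * C * 122880 * (Fintype.card I : ℝ) ^ 2 ≤ 2 ^ Fintype.card I)
    (H4 : ∀ x : ℝ, (Fintype.card I : ℝ) ≤ x →
      (x ^ 2 + 1) * x ^ 4 * Real.exp (-(x / 61440)) ≤ 1 / 128)
    (H5 : 32 * Fintype.card I * Fintype.card I ^ 4 < 2 ^ (3 * (Fintype.card I - 1)))
    (hK1 : 576 * 2 ^ 15 * C * (Fintype.card I ^ 2 : ℕ) ≤ 2 ^ Fintype.card I)
    (hK2 : (6 * 192 ^ 3 * 32 * 16 * 8 ^ 11 * ((Fintype.card I) *
      ((Fintype.card I ^ 2 : ℕ) : ℝ) ^ 3) : ℝ) ≤ 8 ^ Fintype.card I)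
    {b : ℕ} (hb : 2 * Fintype.card I ≤ b) (𝓕 : Finset (Finset (I → ℤ)))
    (hF : ∀ A ∈ 𝓕, Region A ∧ (bd A).card = b) :
    μ {ω | ∃ A ∈ 𝓕, β * b / 2 ≤ X A ω} ≤ ENNReal.ofReal (1 / 32 * (1 / (b : ℝ) ^ 2)) := by
  classical
  have hne : Nonempty I := Fintype.card_pos_iff.mp (by omega)
  set D := Fintype.card I with hDdef
  have hb1 : 1 ≤ b := by omega
  have hb0 : (0 : ℝ) < b := by exact_mod_cast hb1
  have hm0 : (0 : ℝ) < m := by exact_mod_cast hm
  have hK00 : (0 : ℝ) < K := by exact_mod_cast hK0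
  have hD0 : (0 : ℝ) < D := by
    have : 0 < D := by omega
    exact_mod_cast this
  -- the directions
  have hexE : ∀ A : Finset (I → ℤ), A ∈ 𝓕 → ∃ e : ℕ → I, GoodE A b K e := fun A hA =>
    exists_good (hF A hA).2 hb1 (by omega)
  choose! E hE using hexE
  -- the number of levels
  set k : ℕ := 32 * D * b with hk
  have hkempty : ∀ A ∈ 𝓕, ex (3 + k) A = ∅ := by
    intro A hA
    have e1 : cg (3 + k) A = ∅ := by
      refine ex_empty h2 (hF A hA).2 ?_
      rw [← hDdef, ← hk]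
      have e2 : k < 2 ^ k := Nat.lt_two_pow_self
      refine e2.trans_le (Nat.pow_le_pow_right (by norm_num) ?_)
      calc k ≤ (3 + k) * 1 := by omega
        _ ≤ (3 + k) * (D - 1) := Nat.mul_le_mul_left _ (by omega)
    unfold ex; rw [e1]; simp
  have hA0 : ∀ (e : ℕ → I) (A : Finset (I → ℤ)), exT (Ts e 0) A = A := by
    intro e A
    have e1 := g0 I A ∅
    rw [Finset.sum_empty, mul_zero, Nat.le_zero, Finset.card_eq_zero] at e1
    rw [Ts_zero]
    exact (symmDiff_eq_bot.mp e1).symm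
  -- the additional steps
  have hfirst : ∀ t < K, μ {ω | ∃ A ∈ 𝓕, β * b / (8 * K) ≤
      X (exT (Ts (E A) t) A) ω - X (exT (Ts (E A) (t + 1)) A) ω} ≤
      ENNReal.ofReal (8 / (D : ℝ) ^ 2 / (b : ℝ) ^ 2 / K) := by
    intro t ht
    set S := 𝓕.image (fun A => (exT (Ts (E A) t) A, exT (Ts (E A) (t + 1)) A)) with hS
    have hcard : (S.card : ℝ) ≤ Real.exp (C₁ * Real.log D / D * b) := by
      have e1 : (S.card : ℝ) ≤ 𝓕.card := by exact_mod_cast Finset.card_image_le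
      exact e1.trans (hL I b (by omega) 𝓕 hF)
    have hdist : ∀ p ∈ S, ((p.1 ∆ p.2).card : ℝ) ≤ 64 * K * b / D := by
      intro p hp
      rw [hS, Finset.mem_image] at hp
      obtain ⟨A, hA, rfl⟩ := hp
      have e1 := g2 I A (Ts (E A) t) (E A t) ((hE A hA).notMem ht.le)
      rw [← Ts_succ] at e1
      have e2 := (hE A hA).sum_le ht.le
      rw [le_div_iff₀ hD0]
      have e3 : (exT (Ts (E A) t) A ∆ exT (Ts (E A) (t + 1)) A).card * D ≤ 64 * K * b := by
        calc (exT (Ts (E A) t) A ∆ exT (Ts (E A) (t + 1)) A).card * D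
            ≤ (32 * (bi A (E A t) + ∑ j ∈ Ts (E A) t, bi A j)) * D := Nat.mul_le_mul_right _ e1
          _ = 32 * (D * (bi A (E A t) + ∑ j ∈ Ts (E A) t, bi A j)) := by ring
          _ ≤ 32 * (2 * (t + 1) * b) := Nat.mul_le_mul_left _ e2
          _ = 64 * (t + 1) * b := by ring
          _ ≤ 64 * K * b := Nat.mul_le_mul_right _ (Nat.mul_le_mul_left _ (by omega))
      exact_mod_cast e3
    have hmain := union hβ hm hX S (t := β * b / (8 * K)) (K := 64 * K * b / D)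
      (N := Real.exp (C₁ * Real.log D / D * b)) (by positivity) hdist hcard
    refine (measure_mono ?_).trans (hmain.trans (ENNReal.ofReal_le_ofReal ?_))
    · intro ω hω
      obtain ⟨A, hA, h⟩ := hω
      exact ⟨(exT (Ts (E A) t) A, exT (Ts (E A) (t + 1)) A), Finset.mem_image_of_mem _ hA, h⟩
    · have e1 : (β * b / (8 * K)) ^ 2 / (16 * β ^ 2 * m * (64 * K * b / D)) =
          (b : ℝ) * D / (65536 * (K : ℝ) ^ 3 * m) := by
        field_simp
        norm_num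
      rw [e1, le_div_iff₀ hK00, mul_comm]
      exact num4 hC₁ hm (by omega) hb hK0 (by linarith) hc hlog hlog1
  -- the step from the additional scales to the scale 8
  have hmid : μ {ω | ∃ A ∈ 𝓕, β * b / 8 ≤ X (exT (Ts (E A) K) A) ω - X (ex 3 A) ω} ≤
      ENNReal.ofReal (1 / 128 / (b : ℝ) ^ 2) := by
    by_cases hbD : b < D ^ 4
    · have h0 : {ω | ∃ A ∈ 𝓕, β * b / 8 ≤ X (exT (Ts (E A) K) A) ω - X (ex 3 A) ω} = ∅ := by
        ext ω
        simp only [Set.mem_empty_iff_false, iff_false]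
        rintro ⟨A, hA, h⟩
        have e1 : exT (Ts (E A) K) A = ∅ := exT_empty g1 (hE A hA) hKD hKI hbD
        have e2 : cg 3 A = ∅ := by
          refine ex_empty h2 (hF A hA).2 (lt_of_le_of_lt ?_ H5)
          exact Nat.mul_le_mul_left _ hbD.le
        have e3 : ex 3 A = ∅ := by
          unfold ex; rw [e2]; simp
        rw [e1, e3, sub_self] at h
        have : 0 < β * b / 8 := by positivity
        linarith
      rw [h0]; simp
    · have hbD' : D ^ 4 ≤ b := by omega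
      set S := 𝓕.image (fun A => (exT (Ts (E A) K) A, ex 3 A)) with hS
      set N₁ : ℝ := (b + 1) * Real.exp (C₂ * ((K : ℝ) + 1) ^ 2 * ((b : ℝ) / 2 ^ K)) with hN₁
      set N₂ : ℝ := Real.exp (C * 4 ^ D * 3 * ((b : ℝ) / 2 ^ (3 * (D - 1)))) with hN₂
      have hN₁0 : 0 ≤ N₁ := by positivity
      -- the number of the sets `exT (Ts (E A) K) A`
      set P : Finset (Finset I × I) :=
        (Finset.univ : Finset I).powersetCard K ×ˢ (Finset.univ : Finset I) with hP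
      have hPcard : (P.card : ℝ) ≤ (D : ℝ) ^ (K + 1) := by
        have e1 : P.card ≤ D ^ (K + 1) := by
          rw [hP, Finset.card_product, Finset.card_powersetCard, Finset.card_univ, pow_succ]
          exact Nat.mul_le_mul_right _ (Nat.choose_le_pow _ _)
        exact_mod_cast e1
      have hsub1 : 𝓕.image (fun A => exT (Ts (E A) K) A) ⊆ P.biUnion (fun p =>
          ((𝓕.filter (fun A => Ts (E A) K = p.1 ∧ E A K = p.2)).image (cgT p.1)).image
            (fun c => c.biUnion (blockT p.1))) := by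
        intro q hq
        rw [Finset.mem_image] at hq
        obtain ⟨A, hA, rfl⟩ := hq
        rw [Finset.mem_biUnion]
        refine ⟨(Ts (E A) K, E A K), ?_, ?_⟩
        · rw [hP, Finset.mem_product, Finset.mem_powersetCard]
          exact ⟨⟨Finset.subset_univ _, (hE A hA).card le_rfl⟩, Finset.mem_univ _⟩
        · rw [Finset.mem_image]
          exact ⟨cgT (Ts (E A) K) A, Finset.mem_image_of_mem _
            (Finset.mem_filter.mpr ⟨hA, rfl, rfl⟩), rfl⟩
      have hcard1 : ((𝓕.image (fun A => exT (Ts (E A) K) A)).card : ℝ) ≤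
          (D : ℝ) ^ (K + 1) * N₁ := by
        have e1 : ((𝓕.image (fun A => exT (Ts (E A) K) A)).card : ℝ) ≤
            ∑ p ∈ P, (((𝓕.filter (fun A => Ts (E A) K = p.1 ∧ E A K = p.2)).image
              (cgT p.1)).card : ℝ) := by
          have e2 := (Finset.card_le_card hsub1).trans Finset.card_biUnion_le
          have e3 : (𝓕.image (fun A => exT (Ts (E A) K) A)).card ≤
              ∑ p ∈ P, ((𝓕.filter (fun A => Ts (E A) K = p.1 ∧ E A K = p.2)).image
                (cgT p.1)).card :=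
            e2.trans (Finset.sum_le_sum fun p _ => Finset.card_image_le)
          exact_mod_cast e3
        refine e1.trans ?_
        have e4 : ∀ p ∈ P, (((𝓕.filter (fun A => Ts (E A) K = p.1 ∧ E A K = p.2)).image
            (cgT p.1)).card : ℝ) ≤ N₁ := by
          rintro ⟨T, v⟩ hp
          rw [hP, Finset.mem_product, Finset.mem_powersetCard] at hp
          have hTc : T.card = K := hp.1.2
          by_cases hvT : v ∈ T
          · have e5 : 𝓕.filter (fun A => Ts (E A) K = T ∧ E A K = v) = ∅ := by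
              rw [Finset.filter_eq_empty_iff]
              rintro A hA ⟨h4, h5⟩
              apply (hE A hA).notMem le_rfl
              rw [h4, h5]
              exact hvT
            rw [e5]
            simpa using hN₁0
          · have e5 := g3 I b T v (by omega) hvT
              (𝓕.filter (fun A => Ts (E A) K = T ∧ E A K = v)) (by
                intro A hA
                rw [Finset.mem_filter] at hA
                obtain ⟨hA, h4, h5⟩ := hA
                refine ⟨(hF A hA).1, (hF A hA).2, ?_⟩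
                have h6 := (hE A hA).sum_le (t := K) le_rfl
                rw [h4, h5] at h6
                rw [hTc]
                exact h6)
            rw [hTc] at e5
            exact e5
        refine (Finset.sum_le_card_nsmul _ _ _ e4).trans ?_
        rw [nsmul_eq_mul]
        gcongr
      have hcard2 : ((𝓕.image (cg 3)).card : ℝ) ≤ N₂ := by
        by_cases hP2 : 2 ^ (3 * (D - 1)) ≤ 32 * D * b
        · have := h3 I b 3 (by omega) (by omega) hP2 𝓕 hF
          simpa [hN₂] using this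
        · have e1 : 𝓕.image (cg 3) ⊆ {∅} := by
            intro u hu
            rw [Finset.mem_image] at hu
            obtain ⟨A, hA, rfl⟩ := hu
            rw [Finset.mem_singleton]
            exact ex_empty h2 (hF A hA).2 (by rw [← hDdef]; omega)
          have e2 : (𝓕.image (cg 3)).card ≤ 1 := by
            simpa using Finset.card_le_card e1
          have e3 : ((𝓕.image (cg 3)).card : ℝ) ≤ 1 := by exact_mod_cast e2
          exact e3.trans (Real.one_le_exp (by positivity))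
      have hcard : (S.card : ℝ) ≤ (D : ℝ) ^ (K + 1) * N₁ * N₂ := by
        have e1 : S ⊆ (𝓕.image (fun A => exT (Ts (E A) K) A)) ×ˢ
            ((𝓕.image (cg 3)).image (fun c => c.biUnion (block 3))) := by
          intro q hq
          rw [hS, Finset.mem_image] at hq
          obtain ⟨A, hA, rfl⟩ := hq
          rw [Finset.mem_product]
          refine ⟨Finset.mem_image_of_mem _ hA, ?_⟩
          rw [Finset.mem_image]
          exact ⟨cg 3 A, Finset.mem_image_of_mem _ hA, rfl⟩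
        have e2 : S.card ≤ (𝓕.image (fun A => exT (Ts (E A) K) A)).card *
            (𝓕.image (cg 3)).card := by
          refine (Finset.card_le_card e1).trans ?_
          rw [Finset.card_product]
          exact Nat.mul_le_mul_left _ Finset.card_image_le
        calc (S.card : ℝ) ≤ ((𝓕.image (fun A => exT (Ts (E A) K) A)).card : ℝ) *
              ((𝓕.image (cg 3)).card : ℝ) := by exact_mod_cast e2
          _ ≤ ((D : ℝ) ^ (K + 1) * N₁) * N₂ := by gcongr
      have hdist : ∀ p ∈ S, ((p.1 ∆ p.2).card : ℝ) ≤ 20 * b := by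
        intro p hp
        rw [hS, Finset.mem_image] at hp
        obtain ⟨A, hA, rfl⟩ := hp
        have e1 := g0 I A (Ts (E A) K)
        have e2 := h1 I A 3
        have e3 : ∑ j ∈ Ts (E A) K, bi A j ≤ b := by
          rw [← (hF A hA).2, ← sum_bi]
          exact Finset.sum_le_sum_of_subset (Finset.subset_univ _)
        rw [(hF A hA).2] at e2
        have e4 : (exT (Ts (E A) K) A ∆ ex 3 A).card ≤
            (A ∆ exT (Ts (E A) K) A).card + (A ∆ ex 3 A).card := by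
          have e5 : exT (Ts (E A) K) A ∆ ex 3 A ⊆ (A ∆ exT (Ts (E A) K) A) ∪ (A ∆ ex 3 A) := by
            have := symmDiff_triangle (exT (Ts (E A) K) A) A (ex 3 A)
            rw [symmDiff_comm (exT (Ts (E A) K) A) A] at this
            exact this
          exact (Finset.card_le_card e5).trans (Finset.card_union_le _ _)
        have e6 : (exT (Ts (E A) K) A ∆ ex 3 A).card ≤ 20 * b := by
          norm_num at e2
          omega
        exact_mod_cast e6
      have hmain := union hβ hm hX S (t := β * b / 8) (K := 20 * b)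
        (N := (D : ℝ) ^ (K + 1) * N₁ * N₂) (by positivity) hdist hcard
      refine (measure_mono ?_).trans (hmain.trans (ENNReal.ofReal_le_ofReal ?_))
      · intro ω hω
        obtain ⟨A, hA, h⟩ := hω
        exact ⟨(exT (Ts (E A) K) A, ex 3 A), Finset.mem_image_of_mem _ hA, h⟩
      · have e1 : (β * b / 8) ^ 2 / (16 * β ^ 2 * m * (20 * b)) = (b : ℝ) / (20480 * m) := by
          field_simp
          norm_num
        rw [e1]
        exact num3 hC₂ hC hm (by omega) hbD' hKL hKD hmD hlog1 H1 H2 H3 H4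
  have hstep : ∀ l, 3 ≤ l → μ {ω | ∃ A ∈ 𝓕, β * b / 2 ^ l ≤ X (ex l A) ω - X (ex (l + 1) A) ω} ≤
      ENNReal.ofReal (1 / 16 / 2 ^ l / (b : ℝ) ^ 2) := fun l hl =>
    step h1 h2 hC h3 hβ hm hX hmD (by omega) hK1 hK2 hb1 𝓕 hF hl
  -- inclusion
  have hincl : {ω | ∃ A ∈ 𝓕, β * b / 2 ≤ X A ω} ⊆
      ((⋃ t ∈ Finset.range K, {ω | ∃ A ∈ 𝓕, β * b / (8 * K) ≤
        X (exT (Ts (E A) t) A) ω - X (exT (Ts (E A) (t + 1)) A) ω}) ∪
      {ω | ∃ A ∈ 𝓕, β * b / 8 ≤ X (exT (Ts (E A) K) A) ω - X (ex 3 A) ω}) ∪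
      ⋃ j ∈ Finset.range k, {ω | ∃ A ∈ 𝓕, β * b / 2 ^ (3 + j) ≤
        X (ex (3 + j) A) ω - X (ex (3 + j + 1) A) ω} := by
    rintro ω ⟨A, hA, h⟩
    by_contra hcon
    rw [Set.mem_union, Set.mem_union, not_or, not_or] at hcon
    obtain ⟨⟨hc0, hc1⟩, hc2⟩ := hcon
    have e0 : ∀ t < K, X (exT (Ts (E A) t) A) ω - X (exT (Ts (E A) (t + 1)) A) ω <
        β * b / (8 * K) := by
      intro t ht
      by_contra h'
      apply hc0
      rw [Set.mem_iUnion₂]
      exact ⟨t, Finset.mem_range.mpr ht, A, hA, not_lt.mp h'⟩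
    have e1 : X (exT (Ts (E A) K) A) ω - X (ex 3 A) ω < β * b / 8 := by
      by_contra h'
      exact hc1 ⟨A, hA, not_lt.mp h'⟩
    have e2 : ∀ j < k, X (ex (3 + j) A) ω - X (ex (3 + j + 1) A) ω < β * b / 2 ^ (3 + j) := by
      intro j hj
      by_contra h'
      apply hc2
      rw [Set.mem_iUnion₂]
      exact ⟨j, Finset.mem_range.mpr hj, A, hA, not_lt.mp h'⟩
    have e3 : X A ω - X (ex (3 + k) A) ω < β * b * (1 / 2 - 1 / (4 * 2 ^ k)) :=
      chain2 (x := fun A => X A ω) hK0 (hA0 (E A) A) e0 e1 k e2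
    rw [hkempty A hA, hX0, sub_zero] at e3
    have e4 : β * b * (1 / 2 - 1 / (4 * 2 ^ k)) ≤ β * b / 2 := by
      have : 0 ≤ β * b * (1 / (4 * 2 ^ k)) := by positivity
      linarith
    linarith
  have hsum0 : μ (⋃ t ∈ Finset.range K, {ω | ∃ A ∈ 𝓕, β * b / (8 * K) ≤
        X (exT (Ts (E A) t) A) ω - X (exT (Ts (E A) (t + 1)) A) ω}) ≤
      ENNReal.ofReal (8 / (D : ℝ) ^ 2 / (b : ℝ) ^ 2) := by
    refine (measure_biUnion_finset_le _ _).trans ?_
    calc ∑ t ∈ Finset.range K, μ {ω | ∃ A ∈ 𝓕, β * b / (8 * K) ≤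
            X (exT (Ts (E A) t) A) ω - X (exT (Ts (E A) (t + 1)) A) ω}
        ≤ ∑ t ∈ Finset.range K, ENNReal.ofReal (8 / (D : ℝ) ^ 2 / (b : ℝ) ^ 2 / K) :=
          Finset.sum_le_sum fun t ht => hfirst t (Finset.mem_range.mp ht)
      _ = ENNReal.ofReal (8 / (D : ℝ) ^ 2 / (b : ℝ) ^ 2) := by
          rw [Finset.sum_const, Finset.card_range, nsmul_eq_mul,
            ← ENNReal.ofReal_natCast, ← ENNReal.ofReal_mul (Nat.cast_nonneg _)]
          congr 1
          field_simp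
  have hsum : μ (⋃ j ∈ Finset.range k, {ω | ∃ A ∈ 𝓕, β * b / 2 ^ (3 + j) ≤
        X (ex (3 + j) A) ω - X (ex (3 + j + 1) A) ω}) ≤
      ENNReal.ofReal (1 / 64 / (b : ℝ) ^ 2) := by
    refine (measure_biUnion_finset_le _ _).trans ?_
    calc ∑ j ∈ Finset.range k, μ {ω | ∃ A ∈ 𝓕, β * b / 2 ^ (3 + j) ≤
            X (ex (3 + j) A) ω - X (ex (3 + j + 1) A) ω}
        ≤ ∑ j ∈ Finset.range k, ENNReal.ofReal (1 / 16 / 2 ^ (3 + j) / (b : ℝ) ^ 2) :=
          Finset.sum_le_sum fun j _ => hstep (3 + j) (by omega)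
      _ = ENNReal.ofReal (∑ j ∈ Finset.range k, 1 / 16 / 2 ^ (3 + j) / (b : ℝ) ^ 2) := by
          rw [ENNReal.ofReal_sum_of_nonneg]
          intro j _
          positivity
      _ ≤ ENNReal.ofReal (1 / 64 / (b : ℝ) ^ 2) := by
          apply ENNReal.ofReal_le_ofReal
          rw [← Finset.sum_div]
          gcongr
          have e1 : ∀ k : ℕ, ∑ j ∈ Finset.range k, (1 : ℝ) / 16 / 2 ^ (3 + j) =
              1 / 64 - 1 / (64 * 2 ^ k) := by
            intro k
            induction k with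
            | zero => norm_num
            | succ k ih =>
              rw [Finset.sum_range_succ, ih, pow_add, pow_succ]
              field_simp
              ring
          rw [e1]
          have : (0 : ℝ) ≤ 1 / (64 * 2 ^ k) := by positivity
          linarith
  refine (measure_mono hincl).trans ((measure_union_le _ _).trans
    ((add_le_add ((measure_union_le _ _).trans (add_le_add hsum0 hmid)) hsum).trans ?_))
  rw [← ENNReal.ofReal_add (by positivity) (by positivity),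
    ← ENNReal.ofReal_add (by positivity) (by positivity)]
  apply ENNReal.ofReal_le_ofReal
  have e1 : (64 : ℝ) ≤ D := by exact_mod_cast hD
  have e2 : 8 / (D : ℝ) ^ 2 ≤ 1 / 512 := by
    rw [div_le_div_iff₀ (by positivity) (by norm_num)]
    nlinarith
  rw [← add_div, ← add_div, mul_one_div]
  gcongr
  linarith

theorem ev_log (c : ℝ) (n : ℕ) : ∀ᶠ D : ℕ in Filter.atTop, c * Real.log D ^ n ≤ (D : ℝ) := by
  have h1 : Filter.Tendsto (fun x : ℝ => c * Real.log x ^ n / x) Filter.atTop (nhds 0) := by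
    have h2 : (fun x : ℝ => Real.log x ^ n) =o[Filter.atTop] fun x : ℝ => x := by
      exact Real.isLittleO_pow_log_id_atTop (n := n)
    have h3 := (h2.const_mul_left c).tendsto_div_nhds_zero
    exact h3
  have h2 := (h1.comp tendsto_natCast_atTop_atTop).eventually (gt_mem_nhds one_pos)
  filter_upwards [h2, Filter.eventually_ge_atTop 1] with D hD hD1
  have hD0 : (0 : ℝ) < D := by exact_mod_cast hD1
  simp only [Function.comp] at hD
  rw [div_lt_one hD0] at hD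
  exact hD.le

theorem ev_pow (c : ℝ) (hc : 0 < c) (n : ℕ) (r : ℝ) (hr : 1 < r) :
    ∀ᶠ D : ℕ in Filter.atTop, c * (D : ℝ) ^ n < r ^ D := by
  have h := tendsto_pow_const_div_const_pow_of_one_lt n hr
  have h' := h.eventually (gt_mem_nhds (show (0 : ℝ) < 1 / c by positivity))
  filter_upwards [h'] with D hD
  rw [div_lt_div_iff₀ (by positivity) (by positivity)] at hD
  linarith

theorem ev_exp : ∀ᶠ D : ℕ in Filter.atTop, ∀ x : ℝ, (D : ℝ) ≤ x →
    (x ^ 2 + 1) * x ^ 4 * Real.exp (-(x / 61440)) ≤ 1 / 128 := by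
  have h1 : Filter.Tendsto (fun x : ℝ => x ^ 6 * Real.exp (-(1 / 61440) * x) +
      x ^ 4 * Real.exp (-(1 / 61440) * x)) Filter.atTop (nhds (0 + 0)) := by
    have h := fun (n : ℕ) => Real.tendsto_pow_mul_exp_neg_atTop_nhds_zero n
    have h2 : ∀ n : ℕ, Filter.Tendsto (fun x : ℝ => x ^ n * Real.exp (-(1 / 61440) * x))
        Filter.atTop (nhds 0) := by
      intro n
      have h3 : Filter.Tendsto (fun x : ℝ => x / 61440) Filter.atTop Filter.atTop :=
        Filter.tendsto_id.atTop_div_const (by norm_num)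
      have h4 := ((h n).comp h3).const_mul ((61440 : ℝ) ^ n)
      rw [mul_zero] at h4
      refine h4.congr fun x => ?_
      simp only [Function.comp]
      rw [div_pow, ← mul_assoc, mul_div_cancel₀ _ (by positivity)]
      congr 2
      ring
    exact (h2 6).add (h2 4)
  rw [add_zero] at h1
  have h2 := h1.eventually (gt_mem_nhds (show (0 : ℝ) < 1 / 128 by norm_num))
  obtain ⟨x₀, hx₀⟩ := Filter.eventually_atTop.mp h2
  filter_upwards [Filter.eventually_ge_atTop ⌈x₀⌉₊] with D hD x hx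
  have h3 : x₀ ≤ x := ((Nat.le_ceil x₀).trans (by exact_mod_cast hD)).trans hx
  have h4 := hx₀ x h3
  have h5 : -(1 / 61440) * x = -(x / 61440) := by ring
  rw [h5] at h4
  nlinarith

end CHAIN2

open CHAIN CHAIN2 in
theorem t_CHAIN2 (hl : S_LM) (h1 : S_F1) (h2 : S_F2) (h3 : S_F3) (g0 : S_G0) (g1 : S_G1)
    (g2 : S_G2) (g3 : S_G3) : S_CHAIN2 := by
  classical
  obtain ⟨C₁, hC₁, hL⟩ := hl
  obtain ⟨C, hC, h3⟩ := h3
  obtain ⟨C₂, hC₂, g3⟩ := g3
  -- large dimension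
  have ev1 := ev_log (8 * 61440) 2
  have ev2 := ev_log (C₂ * 64 * 122880) 2
  have ev3 := ev_pow (24 * C * 122880) (by positivity) 2 2 (by norm_num)
  have ev4 := ev_exp
  have ev5 := ev_pow (32 * 8) (by norm_num) 5 8 (by norm_num)
  have ev6 := ev_pow (576 * 2 ^ 15 * C) (by positivity) 2 2 (by norm_num)
  have ev7 := ev_pow (6 * 192 ^ 3 * 32 * 16 * 8 ^ 11) (by positivity) 7 8 (by norm_num)
  have ev8 := ev_log 512 1
  have ev9 : ∀ᶠ D : ℕ in Filter.atTop, (C₁ + 4) * 33554432 ≤ Real.log D ^ 2 := by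
    have h := (Filter.tendsto_pow_atTop (two_ne_zero)).comp
      (Real.tendsto_log_atTop.comp tendsto_natCast_atTop_atTop)
    exact h.eventually (Filter.eventually_ge_atTop ((C₁ + 4) * 33554432))
  obtain ⟨D₁, hD₁⟩ := Filter.eventually_atTop.mp ((ev1.and ev2).and ((ev3.and ev4).and
    ((ev5.and ev6).and ((ev7.and ev8).and ev9))))
  refine ⟨max 64 D₁, ?_⟩
  intro I _ _ hDI m hm hc Ω _ μ _ X β hβ hX0 hX 𝓕 hF
  have hD : 64 ≤ Fintype.card I := le_trans (le_max_left _ _) hDI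
  obtain ⟨⟨k1, k2⟩, ⟨k3, k4⟩, ⟨k5, k6⟩, ⟨k7, k8⟩, k9⟩ := hD₁ _ (le_trans (le_max_right _ _) hDI)
  set D := Fintype.card I with hDdef
  have hD' : (64 : ℝ) ≤ D := by exact_mod_cast hD
  have hD0 : (0 : ℝ) < D := by linarith
  have hlog4 : 4 ≤ Real.log D := by
    have h64 : Real.log 64 ≤ Real.log D := Real.log_le_log (by norm_num) hD'
    have h2 : Real.log 64 = 6 * Real.log 2 := by
      rw [show (64 : ℝ) = 2 ^ 6 by norm_num, Real.log_pow]; norm_num
    have := Real.log_two_gt_d9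
    linarith
  set L := Real.log D with hL'
  have hlog1 : 1 ≤ L := by linarith
  -- the number of the additional scales
  set q := Nat.clog 2 D with hq
  have hq1 : D ≤ 2 ^ q := Nat.le_pow_clog (by norm_num) D
  have hq2 : (q : ℝ) - 1 ≤ L / Real.log 2 := by
    have h4 : 2 ^ (q - 1) < D := Nat.pow_pred_clog_lt_self (by norm_num) (by omega)
    have h5 : (2 : ℝ) ^ (q - 1) ≤ D := by exact_mod_cast h4.le
    have h6 := Real.log_le_log (by positivity) h5
    rw [Real.log_pow] at h6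
    have h7 : 1 ≤ q := by
      by_contra h8
      have h9 : q = 0 := by omega
      rw [h9] at hq1
      omega
    rw [le_div_iff₀ (Real.log_pos (by norm_num))]
    rw [Nat.cast_sub h7, Nat.cast_one] at h6
    exact h6
  have hl2 := Real.log_two_gt_d9
  have hq3 : (q : ℝ) ≤ 1.4427 * L + 1 := by
    have h4 : L / Real.log 2 ≤ 1.4427 * L := by
      rw [div_le_iff₀ (by linarith)]
      nlinarith
    linarith
  have hq0 : 1 ≤ q := by
    by_contra h8
    have h9 : q = 0 := by omega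
    rw [h9] at hq1
    omega
  set K := 4 * q with hK
  have hKL : (K : ℝ) + 1 ≤ 8 * L := by
    rw [hK]; push_cast; nlinarith
  have hKD : D ^ 4 ≤ 2 ^ K := by
    rw [hK, mul_comm, pow_mul]
    exact Nat.pow_le_pow_left hq1 4
  have hKI : 64 * (K + 1) ≤ D := by
    have h4 : (64 * ((K : ℝ) + 1)) ≤ D := by
      calc 64 * ((K : ℝ) + 1) ≤ 64 * (8 * L) := by gcongr
        _ = 512 * L ^ 1 := by ring
        _ ≤ D := k8
    exact_mod_cast h4
  have hDD : (D : ℝ) ≤ (D : ℝ) ^ 2 := by nlinarith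
  have H1 : 8 * L ^ 2 * 61440 ≤ (D : ℝ) ^ 2 := by
    calc 8 * L ^ 2 * 61440 = 8 * 61440 * L ^ 2 := by ring
      _ ≤ (D : ℝ) := k1
      _ ≤ (D : ℝ) ^ 2 := hDD
  have H2 : C₂ * (64 * L ^ 2) * 122880 ≤ (D : ℝ) ^ 2 := by
    calc C₂ * (64 * L ^ 2) * 122880 = C₂ * 64 * 122880 * L ^ 2 := by ring
      _ ≤ (D : ℝ) := k2
      _ ≤ (D : ℝ) ^ 2 := hDD
  have H5 : 32 * D * D ^ 4 < 2 ^ (3 * (D - 1)) := by
    have h4 : (8 : ℕ) ^ D = 8 * 2 ^ (3 * (D - 1)) := by
      obtain ⟨D', hD''⟩ : ∃ D', D = D' + 1 := ⟨D - 1, by omega⟩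
      have h5 : D - 1 = D' := by omega
      rw [h5, hD'', pow_succ, pow_mul]
      norm_num
      ring
    have h5 : 32 * 8 * D ^ 5 < 8 ^ D := by exact_mod_cast k5
    rw [h4] at h5
    have h6 : 32 * 8 * D ^ 5 = 8 * (32 * D * D ^ 4) := by ring
    omega
  have hmD : m ≤ D ^ 2 := by
    have e1 : (m : ℝ) ≤ (D : ℝ) ^ 2 := by
      have hm0 : (0 : ℝ) < m := by exact_mod_cast hm
      calc (m : ℝ) = m * 1 := by ring
        _ ≤ m * L ^ 6 := by gcongr; exact one_le_pow₀ hlog1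
        _ ≤ (D : ℝ) ^ 2 := hc
    exact_mod_cast e1
  have hK1 : 576 * 2 ^ 15 * C * ((D ^ 2 : ℕ) : ℝ) ≤ 2 ^ D := by
    push_cast; exact k6.le
  have hK2 : (6 * 192 ^ 3 * 32 * 16 * 8 ^ 11 * (D * ((D ^ 2 : ℕ) : ℝ) ^ 3) : ℝ) ≤ 8 ^ D := by
    calc (6 * 192 ^ 3 * 32 * 16 * 8 ^ 11 * (D * ((D ^ 2 : ℕ) : ℝ) ^ 3) : ℝ)
        = 6 * 192 ^ 3 * 32 * 16 * 8 ^ 11 * (D : ℝ) ^ 7 := by push_cast; ring
      _ ≤ 8 ^ D := k7.le
  have hne : Nonempty I := Fintype.card_pos_iff.mp (by omega)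
  have hbig : ∀ A ∈ 𝓕, 2 * Fintype.card I ≤ (bd A).card := fun A hA =>
    two_mul_card_le_bd ⟨0, (hF A hA).1⟩
  set B := 𝓕.image (fun A => (bd A).card) with hB
  have hsub : {ω | ∃ A ∈ 𝓕, β * (bd A).card / 2 ≤ X A ω} ⊆
      ⋃ b ∈ B, {ω | ∃ A ∈ 𝓕.filter (fun A => (bd A).card = b), β * b / 2 ≤ X A ω} := by
    rintro ω ⟨A, hA, h⟩
    rw [Set.mem_iUnion₂]
    exact ⟨(bd A).card, Finset.mem_image_of_mem _ hA, A, Finset.mem_filter.mpr ⟨hA, rfl⟩, h⟩
  refine (measure_mono hsub).trans ((measure_biUnion_finset_le _ _).trans ?_)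
  have hBb : ∀ b ∈ B, 2 * Fintype.card I ≤ b := by
    intro b hb
    rw [hB, Finset.mem_image] at hb
    obtain ⟨A, hA, rfl⟩ := hb
    exact hbig A hA
  calc ∑ b ∈ B, μ {ω | ∃ A ∈ 𝓕.filter (fun A => (bd A).card = b), β * b / 2 ≤ X A ω}
      ≤ ∑ b ∈ B, ENNReal.ofReal (1 / 32 * (1 / (b : ℝ) ^ 2)) := by
        apply Finset.sum_le_sum
        intro b hb
        apply CHAIN2.per_b h1 h2 g0 g1 g2 hC h3 hC₁ hL hC₂ g3 hβ hm hX0 hX hD hlog1 hc hmD
          (K := K) (by omega) hKL hKD hKI k9 H1 H2 k3.le k4 H5 hK1 hK2 (hBb b hb)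
        intro A hA
        rw [Finset.mem_filter] at hA
        exact ⟨hF A hA.1, hA.2⟩
    _ = ENNReal.ofReal (∑ b ∈ B, 1 / 32 * (1 / (b : ℝ) ^ 2)) := by
        rw [ENNReal.ofReal_sum_of_nonneg]
        intro b _
        positivity
    _ ≤ ENNReal.ofReal (1 / 16) := by
        apply ENNReal.ofReal_le_ofReal
        rw [← Finset.mul_sum]
        have e1 := sum_inv_sq B (fun b hb => by have := hBb b hb; omega)
        linarith

end Pool.Agent.K9h96.EA
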