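import Pool.Agent.K9h96.EA.Base

/-! Leaf CZ (helper96): connectedness of the boundary. -/

set_option autoImplicit false

namespace Pool.Agent.K9h96.EA

namespace CZ

variable {I : Type} [Fintype I] [DecidableEq I]

/-- the antiderivative along the direction `i` -/
noncomputable def anti (i : I) (a : (I → ℤ) → ZMod 2) (x : I → ℤ) : ZMod 2 :=
  ∑ k ∈ Finset.Ico 0 (x i), a (Function.update x i k) -
    ∑ k ∈ Finset.Ico (x i) 0, a (Function.update x i k)

omit [Fintype I] in
theorem update_add_self (i : I) (x : I → ℤ) (k : ℤ) :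
    Function.update (x + uv i) i k = Function.update x i k := by
  funext j
  by_cases h : j = i
  · subst h; simp
  · simp [h, uv]

omit [Fintype I] in
theorem update_add_other {i j : I} (h : j ≠ i) (x : I → ℤ) (k : ℤ) :
    Function.update (x + uv j) i k = Function.update x i k + uv j := by
  funext l
  by_cases hl : l = i
  · subst hl; simp [uv, h.symm]
  · simp [hl]

theorem anti_self (i : I) (a : (I → ℤ) → ZMod 2) (x : I → ℤ) :
    anti i a (x + uv i) - anti i a x = a x := by
  unfold anti
  simp only [update_add_self]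
  have h1 : (x + uv i) i = x i + 1 := by simp [uv]
  rw [h1]
  have h2 : a (Function.update x i (x i)) = a x := by rw [Function.update_eq_self]
  rcases le_or_gt 0 (x i) with h | h
  · have e1 : Finset.Ico (x i + 1) 0 = ∅ := Finset.Ico_eq_empty (by omega)
    have e2 : Finset.Ico (x i) 0 = ∅ := Finset.Ico_eq_empty (by omega)
    have e3 : Finset.Ico 0 (x i + 1) = insert (x i) (Finset.Ico 0 (x i)) := by
      ext k; simp only [Finset.mem_Ico, Finset.mem_insert]; omega
    rw [e1, e2, e3, Finset.sum_insert (by simp), h2]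
    simp
  · have e1 : Finset.Ico 0 (x i + 1) = ∅ := Finset.Ico_eq_empty (by omega)
    have e2 : Finset.Ico 0 (x i) = ∅ := Finset.Ico_eq_empty (by omega)
    have e3 : Finset.Ico (x i) 0 = insert (x i) (Finset.Ico (x i + 1) 0) := by
      ext k; simp only [Finset.mem_Ico, Finset.mem_insert]; omega
    rw [e1, e2, e3, Finset.sum_insert (by simp), h2]
    simp

theorem anti_other {i j : I} (h : j ≠ i) (a : (I → ℤ) → ZMod 2)
    (ha : ∀ x, a (x + uv j) = a x) (x : I → ℤ) : anti i a (x + uv j) = anti i a x := by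
  unfold anti
  have h1 : (x + uv j) i = x i := by simp [uv, h.symm]
  simp only [update_add_other h, ha, h1]

/-- closed cochains are exact -/
theorem exact (φ : (I → ℤ) → I → ZMod 2)
    (hφ : ∀ x i j, φ x i + φ (x + uv i) j = φ x j + φ (x + uv j) i) (S : Finset I) :
    ∃ f : (I → ℤ) → ZMod 2, ∀ i ∈ S, ∀ x, f (x + uv i) - f x = φ x i := by
  induction S using Finset.induction_on with
  | empty => exact ⟨0, by simp⟩
  | insert i S hi ih =>
    obtain ⟨f, hf⟩ := ih
    set a : (I → ℤ) → ZMod 2 := fun x => φ x i - (f (x + uv i) - f x) with ha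
    have hinv : ∀ j ∈ S, ∀ x, a (x + uv j) = a x := by
      intro j hj x
      have h1 := hφ x i j
      have h2 := hf j hj x
      have h3 := hf j hj (x + uv i)
      have h4 : x + uv j + uv i = x + uv i + uv j := by abel
      simp only [ha, h4]
      linear_combination h2 - h3 - h1
    refine ⟨fun x => f x + anti i a x, ?_⟩
    intro j hj x
    rw [Finset.mem_insert] at hj
    by_cases hji : j = i
    · subst hji
      have h1 := anti_self j a x
      simp only [ha] at h1 ⊢
      linear_combination h1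
    · have hjS : j ∈ S := hj.resolve_left hji
      have h1 := anti_other hji a (hinv j hjS) x
      have h2 := hf j hjS x
      simp only
      rw [h1]
      linear_combination h2

theorem const_of_conn {A : Finset (I → ℤ)} {S : Set (I → ℤ)}
    (hS : ∀ x i, x ∈ S → x + uv i ∈ S → (x, i) ∉ bd A) (hc : Conn S)
    {φ : (I → ℤ) → I → ZMod 2} (h0 : ∀ x i, φ x i ≠ 0 → (x, i) ∈ bd A)
    {f : (I → ℤ) → ZMod 2} (hf : ∀ i x, f (x + uv i) - f x = φ x i) :
    ∀ x ∈ S, ∀ y ∈ S, f x = f y := by
  intro x hx y hy
  have h := hc x hx y hy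
  induction h with
  | refl => rfl
  | @tail b c _ hab ih =>
    obtain ⟨⟨i, h1 | h1⟩, ha, hb⟩ := hab
    · rw [ih ha, h1]
      have h2 : φ b i = 0 := by
        by_contra h3
        exact hS b i ha (h1 ▸ hb) (h0 b i h3)
      have h5 := hf i b
      rw [h2] at h5
      exact (sub_eq_zero.mp h5).symm
    · rw [ih ha, h1]
      have h2 : φ c i = 0 := by
        by_contra h3
        exact hS c i hb (h1 ▸ ha) (h0 c i h3)
      have h5 := hf i c
      rw [h2] at h5
      exact sub_eq_zero.mp h5

end CZ

open CZ in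
theorem t_CZ : S_CZ := by
  intro I _ _ A hA hAc φ h0 hφ
  obtain ⟨f, hf⟩ := CZ.exact φ hφ Finset.univ
  have hf' : ∀ i x, f (x + uv i) - f x = φ x i := fun i x => hf i (Finset.mem_univ i) x
  have hin := const_of_conn (A := A) (S := (A : Set (I → ℤ))) (fun x i hx hy h => by
    rw [mem_bd'] at h
    exact h ⟨fun _ => hy, fun _ => hx⟩) hA h0 hf'
  have hout := const_of_conn (A := A) (S := (A : Set (I → ℤ))ᶜ) (fun x i hx hy h => by
    rw [mem_bd'] at h
    exact h ⟨fun h1 => absurd h1 hx, fun h1 => absurd h1 hy⟩) hAc h0 hf'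
  by_cases hne : ∃ p : (I → ℤ) × I, p ∈ bd A
  · obtain ⟨⟨x₀, i₀⟩, hp⟩ := hne
    -- all values on the boundary are equal
    have hval : ∀ x i y j, (x, i) ∈ bd A → (y, j) ∈ bd A → φ x i = φ y j := by
      have h2 : ∀ x i, (x, i) ∈ bd A → ∀ p ∈ A, ∀ q, q ∉ A → φ x i = f p + f q := by
        intro x i hx p hp q hq
        rw [mem_bd'] at hx
        rw [← hf' i x]
        have hch : ∀ z : ZMod 2, -z = z := fun z => ZMod.neg_eq_self_mod_two z
        by_cases hxA : x ∈ A
        · have hxi : x + uv i ∉ A := fun h => hx ⟨fun _ => h, fun _ => hxA⟩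
          rw [hin x hxA p hp, hout (x + uv i) hxi q hq, sub_eq_add_neg, hch, add_comm]
        · have hxi : x + uv i ∈ A := by
            by_contra h
            exact hx ⟨fun h1 => absurd h1 hxA, fun h1 => absurd h1 h⟩
          rw [hin (x + uv i) hxi p hp, hout x hxA q hq, sub_eq_add_neg, hch]
      intro x i y j hx hy
      have h3 := hx
      rw [mem_bd'] at h3
      obtain ⟨p, hpA, q, hqA⟩ : ∃ p ∈ A, ∃ q, q ∉ A := by
        by_cases hxA : x ∈ A
        · exact ⟨x, hxA, x + uv i, fun h => h3 ⟨fun _ => h, fun _ => hxA⟩⟩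
        · refine ⟨x + uv i, ?_, x, hxA⟩
          by_contra h
          exact h3 ⟨fun h1 => absurd h1 hxA, fun h1 => absurd h1 h⟩
      rw [h2 x i hx p hpA q hqA, h2 y j hy p hpA q hqA]
    have h01 : φ x₀ i₀ = 0 ∨ φ x₀ i₀ = 1 := by
      generalize φ x₀ i₀ = z
      revert z
      decide
    rcases h01 with h | h
    · left
      intro x i
      by_contra h3
      exact h3 ((hval x i x₀ i₀ (h0 x i h3) hp).trans h)
    · right
      intro x i hx
      exact (hval x i x₀ i₀ hx hp).trans h
  · left
    intro x i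
    by_contra h3
    exact hne ⟨(x, i), h0 x i h3⟩

end Pool.Agent.K9h96.EA
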