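import Pool.Agent.K9h96.EA.Base
import Pool.Agent.H47R2.EA.BASIC

/-! FINAL (helper96): assembly of the theorem. -/

set_option autoImplicit false
set_option linter.unusedSectionVars false

open MeasureTheory
open scoped ENNReal symmDiff

namespace Pool.Agent.K9h96.EA

open Pool.H47EA

namespace Fnl

theorem sum_exp_le (F : Finset ℕ) : ∑ b ∈ F, Real.exp (-(b : ℝ) / 8) ≤ 9 := by
  have h0 : ∀ b : ℕ, Real.exp (-(b : ℝ) / 8) = (Real.exp (-(1 / 8))) ^ b := by
    intro b
    rw [← Real.exp_nat_mul]; congr 1; ring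
  simp only [h0]
  have hq1 : Real.exp (-(1 / 8 : ℝ)) < 1 := by
    rw [Real.exp_lt_one_iff]; norm_num
  have hq2 : Real.exp (-(1 / 8 : ℝ)) ≤ 8 / 9 := by
    have h1 : (1 : ℝ) / 8 + 1 ≤ Real.exp (1 / 8) := Real.add_one_le_exp _
    rw [Real.exp_neg]
    rw [inv_le_comm₀ (Real.exp_pos _) (by norm_num)]
    linarith
  calc ∑ b ∈ F, (Real.exp (-(1 / 8 : ℝ))) ^ b ≤ ∑' b : ℕ, (Real.exp (-(1 / 8 : ℝ))) ^ b :=
        (summable_geometric_of_lt_one (Real.exp_nonneg _) hq1).sum_le_tsum F
          (fun b _ => pow_nonneg (Real.exp_nonneg _) _)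
    _ = (1 - Real.exp (-(1 / 8 : ℝ)))⁻¹ := tsum_geometric_of_lt_one (Real.exp_nonneg _) hq1
    _ ≤ 9 := by
        rw [inv_le_comm₀ (by linarith) (by norm_num)]
        linarith

/-- the Peierls sum -/
theorem peierls {C : ℝ} (hL : ∀ (I : Type) [Fintype I] [DecidableEq I] (b : ℕ),
      2 ≤ Fintype.card I → ∀ 𝓕 : Finset (Finset (I → ℤ)),
      (∀ A ∈ 𝓕, Region A ∧ (bd A).card = b) →
      (𝓕.card : ℝ) ≤ Real.exp (C * Real.log (Fintype.card I) / Fintype.card I * b))
    (I : Type) [Fintype I] [DecidableEq I] (hD : 20 ≤ Fintype.card I)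
    (hκ : C * Real.log (Fintype.card I) / Fintype.card I ≤ 1 / 4)
    (𝓕 : Finset (Finset (I → ℤ))) (h𝓕 : ∀ A ∈ 𝓕, Region A) :
    ∑ A ∈ 𝓕, Real.exp (-((bd A).card : ℝ) / 2) ≤ 1 / 8 := by
  classical
  have h1 : ∑ A ∈ 𝓕, Real.exp (-((bd A).card : ℝ) / 2) =
      ∑ b ∈ 𝓕.image (fun A => (bd A).card), ∑ A ∈ 𝓕 with (bd A).card = b,
        Real.exp (-((bd A).card : ℝ) / 2) :=
    (Finset.sum_fiberwise_of_maps_to (fun A hA => Finset.mem_image_of_mem _ hA) _).symm
  rw [h1]
  have h2 : ∀ b ∈ 𝓕.image (fun A => (bd A).card), ∑ A ∈ 𝓕 with (bd A).card = b,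
      Real.exp (-((bd A).card : ℝ) / 2) ≤ Real.exp (-5) * Real.exp (-(b : ℝ) / 8) := by
    intro b hb
    rw [Finset.mem_image] at hb
    obtain ⟨A₀, hA₀, hb0⟩ := hb
    have hb2 : 2 * Fintype.card I ≤ b := by
      rw [← hb0]; exact two_mul_card_le_bd ⟨0, (h𝓕 A₀ hA₀).1⟩
    have h3 : ∑ A ∈ 𝓕 with (bd A).card = b, Real.exp (-((bd A).card : ℝ) / 2) =
        ((𝓕.filter fun A => (bd A).card = b).card : ℝ) * Real.exp (-(b : ℝ) / 2) := by
      rw [← nsmul_eq_mul, ← Finset.sum_const]
      refine Finset.sum_congr rfl fun A hA => ?_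
      rw [(Finset.mem_filter.mp hA).2]
    rw [h3]
    have h4 := hL I b (by omega) (𝓕.filter fun A => (bd A).card = b) fun A hA => by
      rw [Finset.mem_filter] at hA
      exact ⟨h𝓕 A hA.1, hA.2⟩
    have hb40 : (40 : ℝ) ≤ b := by exact_mod_cast (by omega : 40 ≤ b)
    calc ((𝓕.filter fun A => (bd A).card = b).card : ℝ) * Real.exp (-(b : ℝ) / 2)
        ≤ Real.exp (C * Real.log (Fintype.card I) / Fintype.card I * b) *
            Real.exp (-(b : ℝ) / 2) := by gcongr
      _ = Real.exp (C * Real.log (Fintype.card I) / Fintype.card I * b + -(b : ℝ) / 2) := by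
            rw [← Real.exp_add]
      _ ≤ Real.exp (-5 + -(b : ℝ) / 8) := by
            apply Real.exp_le_exp.mpr
            have h5 : C * Real.log (Fintype.card I) / Fintype.card I * b ≤ 1 / 4 * b :=
              mul_le_mul_of_nonneg_right hκ (by positivity)
            linarith
      _ = _ := Real.exp_add _ _
  refine (Finset.sum_le_sum h2).trans ?_
  rw [← Finset.mul_sum]
  have h5 := sum_exp_le (𝓕.image (fun A => (bd A).card))
  have h6 : Real.exp (-5) ≤ 1 / 72 := by
    have h7 : (2.7182818283 : ℝ) < Real.exp 1 := Real.exp_one_gt_d9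
    have h8 : Real.exp 5 = Real.exp 1 ^ 5 := by rw [← Real.exp_nat_mul]; norm_num
    rw [Real.exp_neg, h8, inv_le_comm₀ (by positivity) (by norm_num)]
    calc ((1 : ℝ) / 72)⁻¹ ≤ (2.7182818283 : ℝ) ^ 5 := by norm_num
      _ ≤ Real.exp 1 ^ 5 := pow_le_pow_left₀ (by norm_num) h7.le 5
  calc Real.exp (-5) * ∑ b ∈ 𝓕.image (fun A => (bd A).card), Real.exp (-(b : ℝ) / 8)
      ≤ 1 / 72 * 9 := mul_le_mul h6 h5 (Finset.sum_nonneg fun b _ => Real.exp_nonneg _)
        (by norm_num)
    _ = 1 / 8 := by norm_num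

theorem TT_empty {d : ℕ} (R : Finset (Fin d)) : TT R (∅ : Finset (Dir R → ℤ)) = ∅ := by
  ext e
  simp [TT]

theorem tog_empty {d : ℕ} (J : Coupling d) : tog (∅ : Set (lat d).edgeSet) J = J := by
  funext e
  simp [tog]

theorem card_Dir {d : ℕ} (R : Finset (Fin d)) : Fintype.card (Dir R) = d - R.card := by
  have h := Fintype.card_subtype_compl (fun i : Fin d => i ∈ R)
  rw [Fintype.card_coe, Fintype.card_fin] at h
  exact h

end Fnl

open Fnl in
theorem t_Main (hE : S_EN) (hCo : S_CONC) (hCh : S_CHAIN) (hN : S_NEG) (hL : S_LM) (hZ : S_ZO) :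
    Main := by
  classical
  obtain ⟨c₁, D₁, hc₁, hCh⟩ := hCh
  obtain ⟨D₂, hN⟩ := hN
  obtain ⟨C, hC, hL⟩ := hL
  -- the constants
  have hlog : Filter.Tendsto (fun x : ℝ => Real.log x / x) Filter.atTop (nhds 0) := by
    have h := Real.isLittleO_log_id_atTop.tendsto_div_nhds_zero
    exact h
  have hlogN : Filter.Tendsto (fun n : ℕ => Real.log (n : ℝ) / n) Filter.atTop (nhds 0) :=
    hlog.comp tendsto_natCast_atTop_atTop
  obtain ⟨D₃, hD₃⟩ := Filter.eventually_atTop.mp
    (hlogN.eventually (gt_mem_nhds (show (0 : ℝ) < min (1 / (4 * C)) (c₁ / 2) by positivity)))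
  let D₀ := max (max D₁ D₂) (max D₃ 20)
  refine ⟨min (1 / 2) (c₁ / 2), 2 * D₀, by positivity, ?_⟩
  intro d hd R hR ν _ hfair hneg β hβ
  have hD1 : D₁ ≤ D₀ := (le_max_left _ _).trans (le_max_left _ _)
  have hD2 : D₂ ≤ D₀ := (le_max_right _ _).trans (le_max_left _ _)
  have hD3 : D₃ ≤ D₀ := (le_max_left _ _).trans (le_max_right _ _)
  have hD4 : 20 ≤ D₀ := (le_max_right _ _).trans (le_max_right _ _)
  have hd40 : 40 ≤ d := by omega
  have hdr : (40 : ℝ) ≤ d := by exact_mod_cast hd40
  have hlogd : 1 ≤ Real.log d := by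
    rw [Real.le_log_iff_exp_le (by linarith)]
    have := Real.exp_one_lt_d9
    linarith
  have hcd : (R.card : ℝ) * 2 ≤ d := by
    have h1 : (R.card : ℝ) ≤ R.card * Real.log d := by
      nlinarith [(Nat.cast_nonneg R.card : (0 : ℝ) ≤ R.card)]
    have h2 : min (1 / 2) (c₁ / 2) * d ≤ 1 / 2 * d :=
      mul_le_mul_of_nonneg_right (min_le_left _ _) (by linarith)
    linarith
  have hcd' : R.card * 2 ≤ d := by exact_mod_cast hcd
  have hcardD := card_Dir R
  have hDhalf : d ≤ 2 * Fintype.card (Dir R) := by omega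
  have hDge : D₀ ≤ Fintype.card (Dir R) := by omega
  set D := Fintype.card (Dir R) with hDdef
  have hDr : (20 : ℝ) ≤ D := by exact_mod_cast hD4.trans hDge
  have hDd : (D : ℝ) ≤ d := by exact_mod_cast (by omega : D ≤ d)
  have hdD : (d : ℝ) ≤ 2 * D := by exact_mod_cast hDhalf
  have hκ3 := hD₃ D (hD3.trans hDge)
  have hκd := hD₃ d (by omega)
  -- bound for the number of contours
  have hκ : C * Real.log D / D ≤ 1 / 4 := by
    have h1 : Real.log (D : ℝ) / D < 1 / (4 * C) := lt_of_lt_of_le hκ3 (min_le_left _ _)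
    rw [mul_div_assoc]
    calc C * (Real.log (D : ℝ) / D) ≤ C * (1 / (4 * C)) := by gcongr
      _ = 1 / 4 := by field_simp
  -- the condition on `m`
  set m := max 1 R.card with hm
  have hmlog : (m : ℝ) * Real.log D ≤ c₁ * D := by
    have hlD : Real.log (D : ℝ) ≤ Real.log d := Real.log_le_log (by linarith) hDd
    have hlD0 : 0 ≤ Real.log (D : ℝ) := Real.log_nonneg (by linarith)
    rcases le_total R.card 1 with h | h
    · have : m = 1 := by rw [hm]; exact max_eq_left h
      rw [this, Nat.cast_one, one_mul]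
      have h1 : Real.log (D : ℝ) / D < c₁ / 2 := lt_of_lt_of_le hκ3 (min_le_right _ _)
      rw [div_lt_iff₀ (by linarith)] at h1
      nlinarith
    · have : m = R.card := by rw [hm]; exact max_eq_right h
      rw [this]
      have h2 : min (1 / 2) (c₁ / 2) * (d : ℝ) ≤ c₁ / 2 * d :=
        mul_le_mul_of_nonneg_right (min_le_right _ _) (by linarith)
      calc (R.card : ℝ) * Real.log D ≤ R.card * Real.log d := by gcongr
        _ ≤ c₁ / 2 * d := hR.trans h2
        _ ≤ c₁ / 2 * (2 * D) := by gcongr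
        _ = c₁ * D := by ring
  have hβ0 : 0 < β := by linarith
  -- the finite volume estimate
  refine hZ d β ν (1 / 2) (ENNReal.ofReal (1 / 8)) (by norm_num) (by
    rw [← ENNReal.ofReal_one]
    exact (ENNReal.ofReal_lt_ofReal_iff (by norm_num)).mpr (by norm_num)) ?_
  intro n
  set μ := Measure.infinitePi ν with hμ
  let X : Finset (Dir R → ℤ) → Coupling d → ℝ := fun A J => FF β n (tog (TT R A) J) - FF β n J
  have hchain := hCh (Dir R) (hD1.trans hDge) m (le_max_left _ _) hmlog (Coupling d) μ X β hβ0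
    (by intro J; simp only [X, TT_empty, tog_empty, sub_self])
    (by
      intro A A' t ht
      have hset : {J | t ≤ X A J - X A' J} =
          {J | t ≤ FF β n (tog (TT R A) J) - FF β n (tog (TT R A') J)} := by
        ext J
        simp only [X, Set.mem_ofPred_eq, sub_sub_sub_cancel_right]
      by_cases hR0 : R.card = 0
      · have hRe : R = ∅ := Finset.card_eq_zero.mp hR0
        have hT : ∀ B : Finset (Dir R → ℤ), TT R B = ∅ := by
          intro B
          ext e
          simp only [TT, Set.mem_ofPred_eq, Set.mem_empty_iff_false, iff_false, not_and]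
          rintro ⟨x, i, hi, -⟩
          rw [hRe] at hi
          simp at hi
        rw [hset]
        have : {J : Coupling d | t ≤ FF β n (tog (TT R A) J) - FF β n (tog (TT R A') J)} = ∅ := by
          ext J
          simp only [hT, sub_self, Set.mem_ofPred_eq, Set.mem_empty_iff_false, iff_false, not_le]
          exact ht
        rw [this, measure_empty]
        exact bot_le
      · rw [hset]
        refine (hCo d R ν hfair β hβ0 n A A' t ht).trans ?_
        apply ENNReal.ofReal_le_ofReal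
        apply Real.exp_le_exp.mpr
        have hm' : m = R.card := by rw [hm]; exact max_eq_right (by omega)
        rw [hm'])
    (regs (Dir R) n) (by
      intro A hA
      unfold regs at hA
      exact (Finset.mem_filter.mp hA).2)
  have hnegev := hN d R (hD2.trans hDge) ν hneg n
  -- inclusion
  have hsub : {J : Coupling d | ∀ τ : Site d → Bool,
      |gE β J (box d n) τ (fun σ => sg (σ 0))| < 1 / 2} ⊆
      {J | ∃ A ∈ regs (Dir R) n, β * (bd A).card / 2 ≤ X A J} ∪
      {J | ∃ A ∈ regs (Dir R) n, nrg R A J < (bd A).card / 2} := by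
    intro J hJ
    by_contra hcon
    rw [Set.mem_union, not_or] at hcon
    obtain ⟨h1, h2⟩ := hcon
    simp only [Set.mem_ofPred_eq, not_exists, not_and, not_le, not_lt] at h1 h2
    have h3 := hE d R (by omega) β hβ0.le n J
    have h4 : ∑ A ∈ regs (Dir R) n, Real.exp (-(2 * β * nrg R A J) +
        (FF β n (tog (TT R A) J) - FF β n J)) ≤
        ∑ A ∈ regs (Dir R) n, Real.exp (-((bd A).card : ℝ) / 2) := by
      refine Finset.sum_le_sum fun A hA => Real.exp_le_exp.mpr ?_
      have e1 := h1 A hA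
      have e2 := h2 A hA
      simp only [X] at e1
      have e3 : (0 : ℝ) ≤ (bd A).card := Nat.cast_nonneg _
      nlinarith
    have h5 := peierls hL (Dir R) (hD4.trans hDge) hκ (regs (Dir R) n) (by
      intro A hA
      unfold regs at hA
      exact (Finset.mem_filter.mp hA).2)
    have h6 : gE β J (box d n) (fun _ => true) (fun σ => if σ 0 then 0 else 1) ≤ 1 / 8 :=
      h3.trans (h4.trans h5)
    have h7 : gE β J (box d n) (fun _ => true) (fun σ => sg (σ 0)) =
        1 - 2 * gE β J (box d n) (fun _ => true) (fun σ => if σ 0 then 0 else 1) := by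
      have e1 : (fun σ : Site d → Bool => sg (σ 0)) =
          fun σ => 1 * (fun _ => (1 : ℝ)) σ + (-2) * (if σ 0 then (0 : ℝ) else 1) := by
        funext σ
        unfold sg
        split_ifs <;> norm_num
      rw [e1, Basic.gE_lin β J (box d n) (fun _ => true) (fun _ => (1 : ℝ))
        (fun σ => if σ 0 then (0 : ℝ) else 1) 1 (-2), Basic.gE_const]
      ring
    have h8 := hJ (fun _ => true)
    rw [h7, abs_lt] at h8
    linarith [h8.2]
  calc μ {J : Coupling d | ∀ τ : Site d → Bool,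
        |gE β J (box d n) τ (fun σ => sg (σ 0))| < 1 / 2}
      ≤ μ ({J | ∃ A ∈ regs (Dir R) n, β * (bd A).card / 2 ≤ X A J} ∪
      {J | ∃ A ∈ regs (Dir R) n, nrg R A J < (bd A).card / 2}) := measure_mono hsub
    _ ≤ _ := measure_union_le _ _
    _ ≤ ENNReal.ofReal (1 / 16) + ENNReal.ofReal (1 / 16) := add_le_add hchain hnegev
    _ = ENNReal.ofReal (1 / 8) := by
        rw [← ENNReal.ofReal_add (by norm_num) (by norm_num)]
        norm_num

end Pool.Agent.K9h96.EA
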