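import Pool.Agent.K9h96.EA.Stm2
import Pool.Agent.K9h96.EA.FINAL

/-! FINAL2 (helper96): assembly of the stronger theorem. -/

set_option autoImplicit false
set_option linter.unusedSectionVars false

open MeasureTheory
open scoped ENNReal symmDiff

namespace Pool.Agent.K9h96.EA

open Pool.H47EA

open Fnl in
theorem t_Main2 (hE : S_EN) (hCo : S_CONC) (hCh : S_CHAIN2) (hN : S_NEG) (hL : S_LM)
    (hZ : S_ZO) : Main2 := by
  classical
  obtain ⟨D₁, hCh⟩ := hCh
  obtain ⟨D₂, hN⟩ := hN
  obtain ⟨C, hC, hL⟩ := hL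
  -- the constants
  have hlog : Filter.Tendsto (fun x : ℝ => Real.log x / x) Filter.atTop (nhds 0) := by
    have h := Real.isLittleO_log_id_atTop.tendsto_div_nhds_zero
    exact h
  have hlogN : Filter.Tendsto (fun n : ℕ => Real.log (n : ℝ) / n) Filter.atTop (nhds 0) :=
    hlog.comp tendsto_natCast_atTop_atTop
  obtain ⟨D₃, hD₃⟩ := Filter.eventually_atTop.mp
    (hlogN.eventually (gt_mem_nhds (show (0 : ℝ) < 1 / (4 * C) by positivity)))
  let D₀ := max (max D₁ D₂) (max D₃ 20)
  refine ⟨D₀ ^ 2, ?_⟩
  intro d hd R hR ν _ hfair hneg β hβ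
  have hD1 : D₁ ≤ D₀ := (le_max_left _ _).trans (le_max_left _ _)
  have hD2 : D₂ ≤ D₀ := (le_max_right _ _).trans (le_max_left _ _)
  have hD3 : D₃ ≤ D₀ := (le_max_left _ _).trans (le_max_right _ _)
  have hD4 : 20 ≤ D₀ := (le_max_right _ _).trans (le_max_right _ _)
  have hd400 : 400 ≤ d := by nlinarith
  have hdr : (400 : ℝ) ≤ d := by exact_mod_cast hd400
  have hlogd : 1 ≤ Real.log d := by
    rw [Real.le_log_iff_exp_le (by linarith)]
    have := Real.exp_one_lt_d9
    linarith
  have hRd : R.card ≤ d := by simpa using Finset.card_le_univ R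
  have hcardD := card_Dir R
  set D := Fintype.card (Dir R) with hDdef
  have hDreal : (D : ℝ) = (d : ℝ) - R.card := by
    rw [hcardD, Nat.cast_sub hRd]
  rw [← hDreal] at hR
  have hsq : (D₀ : ℝ) ≤ √(d : ℝ) := by
    apply Real.le_sqrt_of_sq_le
    exact_mod_cast hd
  have hlog3 : 1 ≤ Real.log d ^ 3 := one_le_pow₀ hlogd
  have hDgeR : (D₀ : ℝ) ≤ D := by
    have h1 : √(d : ℝ) * 1 ≤ √(d : ℝ) * Real.log d ^ 3 := by gcongr
    linarith
  have hDge : D₀ ≤ D := by exact_mod_cast hDgeR
  have hDr : (20 : ℝ) ≤ D := by exact_mod_cast hD4.trans hDge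
  have hDd : (D : ℝ) ≤ d := by
    rw [hDreal]
    have : (0 : ℝ) ≤ R.card := Nat.cast_nonneg _
    linarith
  have hκ3 := hD₃ D (hD3.trans hDge)
  -- bound for the number of contours
  have hκ : C * Real.log D / D ≤ 1 / 4 := by
    rw [mul_div_assoc]
    calc C * (Real.log (D : ℝ) / D) ≤ C * (1 / (4 * C)) := by gcongr
      _ = 1 / 4 := by field_simp
  -- the condition on `m`
  set m := max 1 R.card with hm
  have hmd : (m : ℝ) ≤ d := by
    have : m ≤ d := by rw [hm]; exact max_le (by omega) hRd
    exact_mod_cast this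
  have hmlog : (m : ℝ) * Real.log D ^ 6 ≤ (D : ℝ) ^ 2 := by
    have hlD : Real.log (D : ℝ) ≤ Real.log d := Real.log_le_log (by linarith) hDd
    have hlD0 : 0 ≤ Real.log (D : ℝ) := Real.log_nonneg (by linarith)
    calc (m : ℝ) * Real.log D ^ 6 ≤ d * Real.log d ^ 6 := by gcongr
      _ = (√(d : ℝ) * Real.log d ^ 3) ^ 2 := by
          rw [mul_pow, Real.sq_sqrt (by linarith)]
          ring
      _ ≤ (D : ℝ) ^ 2 := by
          apply pow_le_pow_left₀ (by positivity) hR
  have hβ0 : 0 < β := by linarith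
  -- the finite volume estimate
  refine hZ d β ν (1 / 2) (ENNReal.ofReal (1 / 8)) (by norm_num) (by
    rw [← ENNReal.ofReal_one]
    exact (ENNReal.ofReal_lt_ofReal_iff (by norm_num)).mpr (by norm_num)) ?_
  intro n
  set μ := Measure.infinitePi ν with hμ
  let X : Finset (Dir R → ℤ) → Coupling d → ℝ := fun A J => FF β n (tog (TT R A) J) - FF β n J
  have hchain := hCh (Dir R) (hD1.trans hDge) m (le_max_left _ _) hmlog (Coupling d) μ X β hβ0
    (by intro J; simp only [X, TT_empty, tog_empty, sub_self])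
    (by
      intro A A' t ht
      have hset : {J | t ≤ X A J - X A' J} =
          {J | t ≤ FF β n (tog (TT R A) J) - FF β n (tog (TT R A') J)} := by
        ext J
        simp only [X, Set.mem_ofPred_eq, sub_sub_sub_cancel_right]
      by_cases hR0 : R.card = 0
      · have hRe : R = ∅ := Finset.card_eq_zero.mp hR0
        have hT : ∀ B : Finset (Dir R → ℤ), TT R B = ∅ := by
          intro B
          ext e
          simp only [TT, Set.mem_ofPred_eq, Set.mem_empty_iff_false, iff_false, not_and]
          rintro ⟨x, i, hi, -⟩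
          rw [hRe] at hi
          simp at hi
        rw [hset]
        have : {J : Coupling d | t ≤ FF β n (tog (TT R A) J) - FF β n (tog (TT R A') J)} = ∅ := by
          ext J
          simp only [hT, sub_self, Set.mem_ofPred_eq, Set.mem_empty_iff_false, iff_false, not_le]
          exact ht
        rw [this, measure_empty]
        exact bot_le
      · rw [hset]
        refine (hCo d R ν hfair β hβ0 n A A' t ht).trans ?_
        apply ENNReal.ofReal_le_ofReal
        apply Real.exp_le_exp.mpr
        have hm' : m = R.card := by rw [hm]; exact max_eq_right (by omega)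
        rw [hm'])
    (regs (Dir R) n) (by
      intro A hA
      unfold regs at hA
      exact (Finset.mem_filter.mp hA).2)
  have hnegev := hN d R (hD2.trans hDge) ν hneg n
  -- inclusion
  have hsub : {J : Coupling d | ∀ τ : Site d → Bool,
      |gE β J (box d n) τ (fun σ => sg (σ 0))| < 1 / 2} ⊆
      {J | ∃ A ∈ regs (Dir R) n, β * (bd A).card / 2 ≤ X A J} ∪
      {J | ∃ A ∈ regs (Dir R) n, nrg R A J < (bd A).card / 2} := by
    intro J hJ
    by_contra hcon
    rw [Set.mem_union, not_or] at hcon
    obtain ⟨h1, h2⟩ := hcon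
    simp only [Set.mem_ofPred_eq, not_exists, not_and, not_le, not_lt] at h1 h2
    have h3 := hE d R (by omega) β hβ0.le n J
    have h4 : ∑ A ∈ regs (Dir R) n, Real.exp (-(2 * β * nrg R A J) +
        (FF β n (tog (TT R A) J) - FF β n J)) ≤
        ∑ A ∈ regs (Dir R) n, Real.exp (-((bd A).card : ℝ) / 2) := by
      refine Finset.sum_le_sum fun A hA => Real.exp_le_exp.mpr ?_
      have e1 := h1 A hA
      have e2 := h2 A hA
      simp only [X] at e1
      have e3 : (0 : ℝ) ≤ (bd A).card := Nat.cast_nonneg _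
      nlinarith
    have h5 := peierls hL (Dir R) (hD4.trans hDge) hκ (regs (Dir R) n) (by
      intro A hA
      unfold regs at hA
      exact (Finset.mem_filter.mp hA).2)
    have h6 : gE β J (box d n) (fun _ => true) (fun σ => if σ 0 then 0 else 1) ≤ 1 / 8 :=
      h3.trans (h4.trans h5)
    have h7 : gE β J (box d n) (fun _ => true) (fun σ => sg (σ 0)) =
        1 - 2 * gE β J (box d n) (fun _ => true) (fun σ => if σ 0 then 0 else 1) := by
      have e1 : (fun σ : Site d → Bool => sg (σ 0)) =
          fun σ => 1 * (fun _ => (1 : ℝ)) σ + (-2) * (if σ 0 then (0 : ℝ) else 1) := by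
        funext σ
        unfold sg
        split_ifs <;> norm_num
      rw [e1, Basic.gE_lin β J (box d n) (fun _ => true) (fun _ => (1 : ℝ))
        (fun σ => if σ 0 then (0 : ℝ) else 1) 1 (-2), Basic.gE_const]
      ring
    have h8 := hJ (fun _ => true)
    rw [h7, abs_lt] at h8
    linarith [h8.2]
  calc μ {J : Coupling d | ∀ τ : Site d → Bool,
        |gE β J (box d n) τ (fun σ => sg (σ 0))| < 1 / 2}
      ≤ μ ({J | ∃ A ∈ regs (Dir R) n, β * (bd A).card / 2 ≤ X A J} ∪
      {J | ∃ A ∈ regs (Dir R) n, nrg R A J < (bd A).card / 2}) := measure_mono hsub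
    _ ≤ _ := measure_union_le _ _
    _ ≤ ENNReal.ofReal (1 / 16) + ENNReal.ofReal (1 / 16) := add_le_add hchain hnegev
    _ = ENNReal.ofReal (1 / 8) := by
        rw [← ENNReal.ofReal_add (by norm_num) (by norm_num)]
        norm_num

end Pool.Agent.K9h96.EA
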