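import Pool.Agent.K9h96.EA.Stm4
import Pool.Agent.K9h96.EA.FINAL3

/-! FINAL4 (helper96): assembly of the final theorem with the threshold `√d log d`. -/

set_option autoImplicit false
set_option linter.unusedSectionVars false

open MeasureTheory
open scoped ENNReal symmDiff

namespace Pool.Agent.K9h96.EA

open Pool.H47EA

open Fnl in
theorem t_Main4 (hE : S_EN) (hCo : S_CONC) (hCh : S_CHAIN3) (hN : S_NEG3) (hL : S_LM)
    (hZ : S_ZO) : Main4 := by
  classical
  obtain ⟨c₃, D₁, hc₃, hCh⟩ := hCh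
  obtain ⟨C₀, hC₀, hL⟩ := hL
  set CL := max C₀ 1 with hCL
  have hCL1 : 1 ≤ CL := le_max_right _ _
  have hL' : ∀ (I : Type) [Fintype I] [DecidableEq I] (b : ℕ), 2 ≤ Fintype.card I →
      ∀ 𝓕 : Finset (Finset (I → ℤ)), (∀ A ∈ 𝓕, Region A ∧ (bd A).card = b) →
      (𝓕.card : ℝ) ≤ Real.exp (CL * Real.log (Fintype.card I) / Fintype.card I * b) := by
    intro I _ _ b h2 𝓕 h𝓕
    refine (hL I b h2 𝓕 h𝓕).trans (Real.exp_le_exp.mpr ?_)
    have h3 : (2 : ℝ) ≤ Fintype.card I := by exact_mod_cast h2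
    have h4 : 0 ≤ Real.log (Fintype.card I) := Real.log_nonneg (by linarith)
    have h5 : C₀ ≤ CL := le_max_left _ _
    gcongr
  let D₀ : ℕ := max D₁ 32
  set C : ℝ := 3 * (D₀ : ℝ) + 32 * CL + 2 / c₃ with hC
  have hc₃' : 0 < 2 / c₃ := by positivity
  have hD₀ : (32 : ℝ) ≤ D₀ := by exact_mod_cast le_max_right D₁ 32
  have hC1 : 32 * CL ≤ C := by linarith
  have hC2 : 3 * (D₀ : ℝ) ≤ C := by linarith
  have hC3 : 32 ≤ C := by linarith
  have hC4 : 2 / c₃ ≤ C := by linarith
  refine ⟨C, by linarith, ?_⟩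
  intro d hd2 R ε hε hε1 hB ν _ hfair hneg β hβ
  have hRd : R.card ≤ d := by simpa using Finset.card_le_univ R
  have hcardD := card_Dir R
  set D := Fintype.card (Dir R) with hDdef
  have hDreal : (D : ℝ) = (d : ℝ) - R.card := by rw [hcardD, Nat.cast_sub hRd]
  rw [← hDreal] at hB hβ
  have hdr2 : (2 : ℝ) ≤ d := by exact_mod_cast hd2
  have hlog2 : (0.69 : ℝ) ≤ Real.log d := by
    have h1 : Real.log 2 ≤ Real.log d := Real.log_le_log (by norm_num) hdr2
    have h2 := Real.log_two_gt_d9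
    linarith
  have hsq : (1.4 : ℝ) ≤ √(d : ℝ) := by
    apply Real.le_sqrt_of_sq_le
    norm_num
    linarith
  have hs : (1 : ℝ) / 3 ≤ √(d : ℝ) * Real.log d := by
    calc (1 : ℝ) / 3 ≤ 1.4 * 0.69 := by norm_num
      _ ≤ √(d : ℝ) * Real.log d := by gcongr
  have hD0 : (0 : ℝ) ≤ D := Nat.cast_nonneg _
  have hDge' : (D₀ : ℝ) ≤ D := by
    have h1 : C * (1 / 3) ≤ C * (√(d : ℝ) * Real.log d) := by gcongr
    have h2 : ε * (D : ℝ) ≤ D := mul_le_of_le_one_left hD0 hε1
    linarith
  have hDge : D₀ ≤ D := by exact_mod_cast hDge'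
  have hD1 : D₁ ≤ D := (le_max_left _ _).trans hDge
  have hD32 : 32 ≤ D := (le_max_right _ _).trans hDge
  have hDr : (32 : ℝ) ≤ D := by exact_mod_cast hD32
  have hDd : (D : ℝ) ≤ d := by
    rw [hDreal]
    have : (0 : ℝ) ≤ R.card := Nat.cast_nonneg _
    linarith
  have hdr : (32 : ℝ) ≤ d := hDr.trans hDd
  have hlogd : 1 ≤ Real.log d := by
    rw [Real.le_log_iff_exp_le (by linarith)]
    have := Real.exp_one_lt_d9
    linarith
  have hlD : Real.log (D : ℝ) ≤ Real.log d := Real.log_le_log (by linarith) hDd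
  have hlD0 : 0 ≤ Real.log (D : ℝ) := Real.log_nonneg (by linarith)
  -- the square of the total bias
  have hsqB : C ^ 2 * ((d : ℝ) * Real.log d ^ 2) ≤ ε ^ 2 * (D : ℝ) ^ 2 := by
    calc C ^ 2 * ((d : ℝ) * Real.log d ^ 2) = (C * (√(d : ℝ) * Real.log d)) ^ 2 := by
          rw [mul_pow, mul_pow, Real.sq_sqrt (by linarith)]
      _ ≤ (ε * (D : ℝ)) ^ 2 := by
          apply pow_le_pow_left₀ (by positivity) hB
      _ = _ := by ring
  have hlog6 : Real.log d ≤ Real.log d ^ 2 := le_self_pow₀ hlogd (by norm_num)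
  have hεD : 32 * CL * Real.log D ≤ ε ^ 2 * D := by
    have h1 : C ^ 2 * ((D : ℝ) * Real.log D) ≤ ε ^ 2 * (D : ℝ) ^ 2 := by
      refine le_trans ?_ hsqB
      gcongr
      exact hlD.trans hlog6
    have h2 : C ^ 2 * Real.log D ≤ ε ^ 2 * D := by
      have h3 : (C ^ 2 * Real.log D) * D ≤ (ε ^ 2 * D) * D := by nlinarith
      exact le_of_mul_le_mul_right h3 (by linarith)
    have h3 : 32 * CL * Real.log D ≤ C ^ 2 * Real.log D := by
      apply mul_le_mul_of_nonneg_right _ hlD0
      nlinarith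
    exact h3.trans h2
  have hεD0 : 0 < ε * (D : ℝ) := by positivity
  have hβ0 : 0 < β := by
    by_contra hcon
    push Not at hcon
    have : β * (ε * D) ≤ 0 := mul_nonpos_of_nonpos_of_nonneg hcon hεD0.le
    nlinarith
  -- the two sums over contours
  have hsum1 := contours hCL1 (Dir R) (hL' (Dir R)) hD32 (ε ^ 2 / 16) (by
    rw [← hDdef]; linarith)
  have hsum2 := contours hCL1 (Dir R) (hL' (Dir R)) hD32 (β * ε / 2) (by
    rw [← hDdef]
    have h1 : 32 * CL * Real.log D ≤ C * Real.log d := by gcongr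
    have h2 : 0 ≤ CL * Real.log D := by positivity
    nlinarith)
  -- the size of the disorder
  set m := ⌈((max 1 R.card : ℕ) : ℝ) / ε ^ 2⌉₊ with hm
  have hε2 : 0 < ε ^ 2 := by positivity
  have hε21 : ε ^ 2 ≤ 1 := pow_le_one₀ hε.le hε1
  have hm0 : ((max 1 R.card : ℕ) : ℝ) / ε ^ 2 ≤ m := Nat.le_ceil _
  have hm1 : 1 ≤ m := by
    apply Nat.one_le_ceil_iff.mpr
    have h1 : (1 : ℝ) ≤ ((max 1 R.card : ℕ) : ℝ) := by exact_mod_cast le_max_left _ _
    positivity
  have hmlog : (m : ℝ) * Real.log D ^ 2 ≤ c₃ * (D : ℝ) ^ 2 := by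
    have h1 : ((max 1 R.card : ℕ) : ℝ) ≤ d := by
      have : max 1 R.card ≤ d := max_le (by omega) hRd
      exact_mod_cast this
    have h2 : (m : ℝ) ≤ 2 * d / ε ^ 2 := by
      have h3 : (m : ℝ) < ((max 1 R.card : ℕ) : ℝ) / ε ^ 2 + 1 :=
        Nat.ceil_lt_add_one (by positivity)
      have h4 : ((max 1 R.card : ℕ) : ℝ) / ε ^ 2 ≤ d / ε ^ 2 := by gcongr
      have h5 : 1 ≤ (d : ℝ) / ε ^ 2 := by
        rw [le_div_iff₀ hε2]; linarith
      have h6 : 2 * (d : ℝ) / ε ^ 2 = d / ε ^ 2 + d / ε ^ 2 := by ring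
      linarith
    calc (m : ℝ) * Real.log D ^ 2 ≤ (2 * d / ε ^ 2) * Real.log d ^ 2 := by gcongr
      _ = (2 * (d * Real.log d ^ 2)) / ε ^ 2 := by ring
      _ ≤ c₃ * (D : ℝ) ^ 2 := by
          rw [div_le_iff₀ hε2]
          have h3 : 0 ≤ (d : ℝ) * Real.log d ^ 2 := by positivity
          have h5 : 2 ≤ c₃ * C ^ 2 := by
            have h6 : 2 / c₃ ≤ C ^ 2 := by nlinarith
            have h7 := (div_le_iff₀ hc₃).mp h6
            linarith
          calc 2 * ((d : ℝ) * Real.log d ^ 2) ≤ (c₃ * C ^ 2) * (d * Real.log d ^ 2) :=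
                mul_le_mul_of_nonneg_right h5 h3
            _ = c₃ * (C ^ 2 * (d * Real.log d ^ 2)) := by ring
            _ ≤ c₃ * (ε ^ 2 * (D : ℝ) ^ 2) := by gcongr
            _ = c₃ * (D : ℝ) ^ 2 * ε ^ 2 := by ring
  -- the finite volume estimate
  refine hZ d β ν (1 / 2) (ENNReal.ofReal (1 / 8)) (by norm_num) (by
    rw [← ENNReal.ofReal_one]
    exact (ENNReal.ofReal_lt_ofReal_iff (by norm_num)).mpr (by norm_num)) ?_
  intro n
  set μ := Measure.infinitePi ν with hμ
  have hregs : ∀ A ∈ regs (Dir R) n, Region A := by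
    intro A hA
    unfold regs at hA
    exact (Finset.mem_filter.mp hA).2
  let X : Finset (Dir R → ℤ) → Coupling d → ℝ := fun A J =>
    (FF β n (tog (TT R A) J) - FF β n J) / ε
  have hchain := hCh (Dir R) hD1 m hm1 hmlog (Coupling d) μ X β hβ0
    (by intro J; simp only [X, TT_empty, tog_empty, sub_self, zero_div])
    (by
      intro A A' t ht
      have hset : {J | t ≤ X A J - X A' J} =
          {J | ε * t ≤ FF β n (tog (TT R A) J) - FF β n (tog (TT R A') J)} := by
        ext J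
        simp only [X, Set.mem_ofPred_eq]
        rw [← sub_div, sub_sub_sub_cancel_right, le_div_iff₀ hε, mul_comm]
      have hεt : 0 < ε * t := by positivity
      by_cases hR0 : R.card = 0
      · have hRe : R = ∅ := Finset.card_eq_zero.mp hR0
        have hT : ∀ B : Finset (Dir R → ℤ), TT R B = ∅ := by
          intro B
          ext e
          simp only [TT, Set.mem_ofPred_eq, Set.mem_empty_iff_false, iff_false, not_and]
          rintro ⟨x, i, hi, -⟩
          rw [hRe] at hi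
          simp at hi
        rw [hset]
        have : {J : Coupling d | ε * t ≤ FF β n (tog (TT R A) J) -
            FF β n (tog (TT R A') J)} = ∅ := by
          ext J
          simp only [hT, sub_self, Set.mem_ofPred_eq, Set.mem_empty_iff_false, iff_false, not_le]
          exact hεt
        rw [this, measure_empty]
        exact bot_le
      · rw [hset]
        refine (hCo d R ν hfair β hβ0 n A A' (ε * t) hεt).trans ?_
        apply ENNReal.ofReal_le_ofReal
        apply Real.exp_le_exp.mpr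
        have hR1 : (1 : ℝ) ≤ R.card := by exact_mod_cast (by omega : 1 ≤ R.card)
        have hRm : (R.card : ℝ) ≤ ε ^ 2 * m := by
          have h1 : (R.card : ℝ) ≤ ((max 1 R.card : ℕ) : ℝ) := by
            exact_mod_cast le_max_right _ _
          have h2 := (div_le_iff₀ hε2).mp hm0
          linarith
        have hmr : (1 : ℝ) ≤ m := by exact_mod_cast hm1
        rcases Nat.eq_zero_or_pos (A ∆ A').card with h0 | h0
        · rw [h0]; simp
        · have hn : (0 : ℝ) < (A ∆ A').card := by exact_mod_cast h0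
          rw [neg_div, neg_div, neg_le_neg_iff, div_le_div_iff₀ (by positivity) (by positivity)]
          have h3 : 0 ≤ 16 * β ^ 2 * ((A ∆ A').card : ℝ) * t ^ 2 := by positivity
          calc t ^ 2 * (16 * β ^ 2 * (R.card : ℝ) * ((A ∆ A').card : ℝ))
              = (16 * β ^ 2 * ((A ∆ A').card : ℝ) * t ^ 2) * R.card := by ring
            _ ≤ (16 * β ^ 2 * ((A ∆ A').card : ℝ) * t ^ 2) * (ε ^ 2 * m) :=
                mul_le_mul_of_nonneg_left hRm h3
            _ = (ε * t) ^ 2 * (16 * β ^ 2 * (m : ℝ) * ((A ∆ A').card : ℝ)) := by ring)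
    (regs (Dir R) n) hregs
  have hnegev : μ {J | ∃ A ∈ regs (Dir R) n, nrg R A J < ε * (bd A).card / 2} ≤
      ENNReal.ofReal (1 / 16) := by
    have hsub : {J : Coupling d | ∃ A ∈ regs (Dir R) n, nrg R A J < ε * (bd A).card / 2} ⊆
        ⋃ A ∈ regs (Dir R) n, {J : Coupling d | nrg R A J < ε * (bd A).card / 2} := by
      rintro J ⟨A, hA, hJ⟩
      simp only [Set.mem_iUnion, exists_prop]
      exact ⟨A, hA, hJ⟩
    calc μ {J | ∃ A ∈ regs (Dir R) n, nrg R A J < ε * (bd A).card / 2}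
        ≤ ∑ A ∈ regs (Dir R) n, μ {J : Coupling d | nrg R A J < ε * (bd A).card / 2} :=
          (measure_mono hsub).trans (measure_biUnion_finset_le _ _)
      _ ≤ ∑ A ∈ regs (Dir R) n,
            ENNReal.ofReal (Real.exp (-(ε ^ 2 / 16 * (bd A).card))) :=
          Finset.sum_le_sum fun A _ => hN d R ε hε hε1 ν hneg A
      _ = ENNReal.ofReal (∑ A ∈ regs (Dir R) n, Real.exp (-(ε ^ 2 / 16 * (bd A).card))) :=
          (ENNReal.ofReal_sum_of_nonneg fun _ _ => (Real.exp_pos _).le).symm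
      _ ≤ ENNReal.ofReal (1 / 16) := ENNReal.ofReal_le_ofReal (hsum1 _ hregs)
  -- inclusion
  have hsub : {J : Coupling d | ∀ τ : Site d → Bool,
      |gE β J (box d n) τ (fun σ => sg (σ 0))| < 1 / 2} ⊆
      {J | ∃ A ∈ regs (Dir R) n, β * (bd A).card / 2 ≤ X A J} ∪
      {J | ∃ A ∈ regs (Dir R) n, nrg R A J < ε * (bd A).card / 2} := by
    intro J hJ
    by_contra hcon
    rw [Set.mem_union, not_or] at hcon
    obtain ⟨h1, h2⟩ := hcon
    simp only [Set.mem_ofPred_eq, not_exists, not_and, not_le, not_lt] at h1 h2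
    have h3 := hE d R (by omega) β hβ0.le n J
    have h4 : ∑ A ∈ regs (Dir R) n, Real.exp (-(2 * β * nrg R A J) +
        (FF β n (tog (TT R A) J) - FF β n J)) ≤
        ∑ A ∈ regs (Dir R) n, Real.exp (-(β * ε / 2 * (bd A).card)) := by
      refine Finset.sum_le_sum fun A hA => Real.exp_le_exp.mpr ?_
      have e1 := h1 A hA
      have e2 := h2 A hA
      simp only [X] at e1
      rw [div_lt_iff₀ hε] at e1
      have e3 : β * (ε * (bd A).card / 2) ≤ β * nrg R A J := by gcongr
      nlinarith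
    have h5 := hsum2 (regs (Dir R) n) hregs
    have h6 : gE β J (box d n) (fun _ => true) (fun σ => if σ 0 then 0 else 1) ≤ 1 / 8 := by
      have := h3.trans (h4.trans h5)
      linarith
    have h7 : gE β J (box d n) (fun _ => true) (fun σ => sg (σ 0)) =
        1 - 2 * gE β J (box d n) (fun _ => true) (fun σ => if σ 0 then 0 else 1) := by
      have e1 : (fun σ : Site d → Bool => sg (σ 0)) =
          fun σ => 1 * (fun _ => (1 : ℝ)) σ + (-2) * (if σ 0 then (0 : ℝ) else 1) := by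
        funext σ
        unfold sg
        split_ifs <;> norm_num
      rw [e1, Basic.gE_lin β J (box d n) (fun _ => true) (fun _ => (1 : ℝ))
        (fun σ => if σ 0 then (0 : ℝ) else 1) 1 (-2), Basic.gE_const]
      ring
    have h8 := hJ (fun _ => true)
    rw [h7, abs_lt] at h8
    linarith [h8.2]
  calc μ {J : Coupling d | ∀ τ : Site d → Bool,
        |gE β J (box d n) τ (fun σ => sg (σ 0))| < 1 / 2}
      ≤ μ ({J | ∃ A ∈ regs (Dir R) n, β * (bd A).card / 2 ≤ X A J} ∪
      {J | ∃ A ∈ regs (Dir R) n, nrg R A J < ε * (bd A).card / 2}) := measure_mono hsub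
    _ ≤ _ := measure_union_le _ _
    _ ≤ ENNReal.ofReal (1 / 16) + ENNReal.ofReal (1 / 16) := add_le_add hchain hnegev
    _ = ENNReal.ofReal (1 / 8) := by
        rw [← ENNReal.ofReal_add (by norm_num) (by norm_num)]
        norm_num

end Pool.Agent.K9h96.EA
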