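import Pool.Agent.K9h96.EA.Stm

/-! Leaf TOUR (helper96): short tours. -/

set_option autoImplicit false

namespace Pool.Agent.K9h96.EA

namespace TOUR

variable {α : Type}

/-- sum of the weights of the steps -/
def wsum (w : α → α → ℕ) : List α → ℕ
  | [] => 0
  | [_] => 0
  | (a :: b :: l) => w a b + wsum w (b :: l)

/-- consecutive elements are related -/
def Ch (L : α → α → Prop) : List α → Prop
  | [] => True
  | [_] => True
  | (a :: b :: l) => L a b ∧ Ch L (b :: l)

/-- the list as a function, with constant continuation -/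
def tr : List α → α → ℕ → α
  | [], p, _ => p
  | [a], _, _ => a
  | (a :: _ :: _), _, 0 => a
  | (_ :: b :: l), p, (k + 1) => tr (b :: l) p k

theorem tr_zero (a : α) (l : List α) (p : α) : tr (a :: l) p 0 = a := by
  cases l <;> rfl

theorem tr_mem (l : List α) (p : α) (k : ℕ) (h : l ≠ []) : tr l p k ∈ l := by
  induction l generalizing k with
  | nil => exact absurd rfl h
  | cons a l ih =>
    cases l with
    | nil => simp [tr]
    | cons b l =>
      cases k with
      | zero => simp [tr]
      | succ k => exact List.mem_cons_of_mem _ (ih k (by simp))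

theorem tr_chain (L : α → α → Prop) (l : List α) (p : α) (k : ℕ) (h : l ≠ []) (hl : Ch L l) :
    L (tr l p k) (tr l p (k + 1)) ∨ tr l p k = tr l p (k + 1) := by
  induction l generalizing k with
  | nil => exact absurd rfl h
  | cons a l ih =>
    cases l with
    | nil => right; simp [tr]
    | cons b l =>
      cases k with
      | zero => left; simp only [tr, tr_zero]; exact hl.1
      | succ k => exact ih k (by simp) hl.2

theorem tr_surj (l : List α) (p x : α) (hx : x ∈ l) : ∃ k, k ≤ l.length - 1 ∧ tr l p k = x := by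
  induction l with
  | nil => simp at hx
  | cons a l ih =>
    cases l with
    | nil =>
      rw [List.mem_singleton] at hx
      exact ⟨0, by simp, by simp [tr, hx]⟩
    | cons b l =>
      rw [List.mem_cons] at hx
      rcases hx with hx | hx
      · exact ⟨0, by simp, by simp [tr, hx]⟩
      · obtain ⟨k, hk, h⟩ := ih hx
        refine ⟨k + 1, ?_, h⟩
        simp only [List.length_cons] at hk ⊢
        omega

theorem tr_sum (w : α → α → ℕ) (hw : ∀ p, w p p = 0) (l : List α) (p : α) (h : l ≠ []) (N : ℕ) :
    ∑ k ∈ Finset.range N, w (tr l p k) (tr l p (k + 1)) ≤ wsum w l := by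
  induction l generalizing N with
  | nil => exact absurd rfl h
  | cons a l ih =>
    cases l with
    | nil => simp [tr, hw]
    | cons b l =>
      cases N with
      | zero => simp
      | succ N =>
        rw [Finset.sum_range_succ', wsum]
        have h1 := ih (by simp) N
        have h2 : w (tr (a :: b :: l) p 0) (tr (a :: b :: l) p (0 + 1)) = w a b := by
          simp only [tr, tr_zero]
        rw [h2]
        have h3 : ∀ k, tr (a :: b :: l) p (k + 1) = tr (b :: l) p k := fun k => rfl
        simp only [h3]
        omega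

theorem wsum_append (w : α → α → ℕ) (l₁ : List α) (p : α) (l₂ : List α) :
    wsum w (l₁ ++ p :: l₂) = wsum w (l₁ ++ [p]) + wsum w (p :: l₂) := by
  induction l₁ with
  | nil => simp [wsum]
  | cons a l₁ ih =>
    cases l₁ with
    | nil => simp [wsum]
    | cons b l₁ =>
      simp only [List.cons_append, wsum] at ih ⊢
      rw [ih]; ring

theorem ch_append (L : α → α → Prop) (l₁ : List α) (p : α) (l₂ : List α) :
    Ch L (l₁ ++ p :: l₂) ↔ Ch L (l₁ ++ [p]) ∧ Ch L (p :: l₂) := by
  induction l₁ with
  | nil => simp [Ch]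
  | cons a l₁ ih =>
    cases l₁ with
    | nil => simp [Ch]
    | cons b l₁ =>
      simp only [List.cons_append, Ch] at ih ⊢
      rw [ih]; tauto

end TOUR

open TOUR in
theorem t_TOUR : S_TOUR := by
  intro α _ V L w h p₀ hp₀ hsymm hws hw0 hwh hconn
  classical
  let P : Finset α → Prop := fun W => p₀ ∈ W ∧ ∃ l : List α, l ≠ [] ∧ (∀ p, tr l p 0 = p₀) ∧
    (∀ x, x ∈ l ↔ x ∈ W) ∧ Ch L l ∧ l.length + 1 ≤ 2 * W.card ∧ wsum w l ≤ 2 * ∑ p ∈ W, h p
  have hP0 : P {p₀} := by
    refine ⟨Finset.mem_singleton_self _, [p₀], by simp, fun p => rfl, by simp, trivial, by simp, ?_⟩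
    simp [wsum]
  obtain ⟨W, hW, hmax⟩ := Finset.exists_max_image (V.powerset.filter P) Finset.card
    ⟨{p₀}, by
      rw [Finset.mem_filter, Finset.mem_powerset, Finset.singleton_subset_iff]
      exact ⟨hp₀, hP0⟩⟩
  rw [Finset.mem_filter, Finset.mem_powerset] at hW
  obtain ⟨hWV, hpW, l, hl0, hlp, hlW, hlc, hlen, hlw⟩ := hW
  have hWeq : W = V := by
    by_contra hne
    have hnot : ¬ (∀ p ∈ W, ∀ q ∈ V, L p q → q ∈ W) := fun hc => hne (hconn W hWV hpW hc)
    push Not at hnot
    obtain ⟨p, hp, q, hq, hLpq, hqW⟩ := hnot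
    obtain ⟨l₁, l₂, hl⟩ := List.append_of_mem ((hlW p).mpr hp)
    have hPq : P (insert q W) := by
      refine ⟨Finset.mem_insert_of_mem hpW, l₁ ++ p :: q :: p :: l₂, by simp, ?_, ?_, ?_, ?_, ?_⟩
      · intro p'
        have := hlp p'
        rw [hl] at this
        cases l₁ with
        | nil => simpa [tr, tr_zero] using this
        | cons a l₁ => simpa [tr_zero] using this
      · intro x
        rw [Finset.mem_insert, ← hlW x, hl]
        simp only [List.mem_append, List.mem_cons]
        tauto
      · rw [hl, ch_append] at hlc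
        rw [ch_append]
        exact ⟨hlc.1, hLpq, hsymm _ _ hLpq, hlc.2⟩
      · rw [Finset.card_insert_of_notMem hqW]
        rw [hl] at hlen
        simp only [List.length_append, List.length_cons] at hlen ⊢
        omega
      · rw [Finset.sum_insert hqW]
        rw [hl, wsum_append] at hlw
        rw [wsum_append]
        have h1 : wsum w (p :: q :: p :: l₂) = w p q + (w q p + wsum w (p :: l₂)) := rfl
        have h2 := hwh p (hWV hp) q hq hLpq
        rw [h1, hws q p]
        omega
    have h3 := hmax (insert q W) (by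
      rw [Finset.mem_filter, Finset.mem_powerset]
      exact ⟨Finset.insert_subset hq hWV, hPq⟩)
    rw [Finset.card_insert_of_notMem hqW] at h3
    omega
  subst hWeq
  refine ⟨tr l p₀, hlp p₀, fun k => (hlW _).mp (tr_mem l p₀ k hl0),
    fun k => tr_chain L l p₀ k hl0 hlc, fun p hp => ?_, fun N => (tr_sum w hw0 l p₀ hl0 N).trans hlw⟩
  obtain ⟨k, hk, hkp⟩ := tr_surj l p₀ p ((hlW p).mpr hp)
  exact ⟨k, by omega, hkp⟩

end Pool.Agent.K9h96.EA
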