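import Pool.Agent.K9h96.EA.CZ
import Pool.Agent.K9h96.EA.TOUR

/-! Leaf LM, part 1 (helper96): the vertical boundary edges are connected by the links. -/

set_option autoImplicit false
set_option linter.unusedSectionVars false

namespace Pool.Agent.K9h96.EA

namespace LM

variable {I : Type} [Fintype I] [DecidableEq I]

/-- `x` moved by `t` steps in direction `v` -/
def up (v : I) (x : I → ℤ) (t : ℤ) : I → ℤ := x + t • uv v

omit [Fintype I] in
@[simp] theorem up_zero (v : I) (x : I → ℤ) : up v x 0 = x := by simp [up]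

omit [Fintype I] in
theorem up_up (v : I) (x : I → ℤ) (s t : ℤ) : up v (up v x s) t = up v x (s + t) := by
  unfold up; rw [add_smul]; abel

omit [Fintype I] in
theorem up_one (v : I) (x : I → ℤ) : up v x 1 = x + uv v := by simp [up]

omit [Fintype I] in
theorem up_add (v : I) (x y : I → ℤ) (t : ℤ) : up v (x + y) t = up v x t + y := by
  unfold up; abel

omit [Fintype I] in
theorem up_apply_self (v : I) (x : I → ℤ) (t : ℤ) : up v x t v = x v + t := by
  simp [up, uv]

omit [Fintype I] in
theorem up_apply_of_ne (v : I) (x : I → ℤ) (t : ℤ) {j : I} (h : j ≠ v) : up v x t j = x j := by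
  simp [up, uv, h]

/-- vertical boundary edges -/
def VV (A : Finset (I → ℤ)) (v : I) (x : I → ℤ) : Prop := ¬ (x ∈ A ↔ x + uv v ∈ A)

/-- membership does not change in an interval without vertical boundary edges -/
theorem mem_up_iff (A : Finset (I → ℤ)) (v : I) (x : I → ℤ) (n : ℕ)
    (h : ∀ t : ℕ, t < n → ¬ VV A v (up v x t)) : (x ∈ A ↔ up v x n ∈ A) := by
  induction n with
  | zero => simp
  | succ n ih =>
    have h1 := ih fun t ht => h t (by omega)
    have h2 := h n (by omega)
    unfold VV at h2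
    rw [not_not, ← up_one, up_up] at h2
    rw [h1, h2]
    push_cast
    rfl

/-- far up there is nothing -/
theorem exists_not_mem_up (A : Finset (I → ℤ)) (v : I) (x : I → ℤ) :
    ∃ N : ℕ, ∀ t : ℤ, (N : ℤ) ≤ t → up v x t ∉ A := by
  classical
  obtain ⟨M, hM⟩ : ∃ M : ℤ, ∀ y ∈ A, y v < M := by
    rcases A.eq_empty_or_nonempty with h | h
    · exact ⟨0, by simp [h]⟩
    · obtain ⟨y, -, hy⟩ := Finset.exists_max_image A (fun y => y v) h
      exact ⟨y v + 1, fun z hz => by have := hy z hz; omega⟩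
  refine ⟨(M - x v).toNat, fun t ht h => ?_⟩
  have h1 := hM _ h
  rw [up_apply_self] at h1
  have h2 := Int.self_le_toNat (M - x v)
  omega

/-- there is a vertical boundary edge at the height `t` in one of the columns of `x`, `x + e_j` -/
def Hit (A : Finset (I → ℤ)) (v : I) (x : I → ℤ) (j : I) (t : ℤ) : Prop :=
  VV A v (up v x t) ∨ VV A v (up v (x + uv j) t)

theorem exists_hit {A : Finset (I → ℤ)} {v : I} {x : I → ℤ} {j : I} (h : (x, j) ∈ bd A) :
    ∃ t : ℕ, Hit A v x j t := by
  by_contra hcon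
  push Not at hcon
  rw [mem_bd'] at h
  obtain ⟨N₁, hN₁⟩ := exists_not_mem_up A v x
  obtain ⟨N₂, hN₂⟩ := exists_not_mem_up A v (x + uv j)
  have h1 := mem_up_iff A v x (N₁ + N₂) fun t _ h2 => hcon t (Or.inl h2)
  have h2 := mem_up_iff A v (x + uv j) (N₁ + N₂) fun t _ h2 => hcon t (Or.inr h2)
  have h3 := hN₁ (N₁ + N₂ : ℕ) (by push_cast; omega)
  have h4 := hN₂ (N₁ + N₂ : ℕ) (by push_cast; omega)
  apply h
  rw [h1, h2]
  tauto

/-- height of the first hit above -/
noncomputable def top (A : Finset (I → ℤ)) (v : I) (x : I → ℤ) (j : I) : ℕ :=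
  sInf {t : ℕ | Hit A v x j t}

theorem top_spec {A : Finset (I → ℤ)} {v : I} {x : I → ℤ} {j : I} (h : (x, j) ∈ bd A) :
    Hit A v x j (top A v x j) := Nat.sInf_mem (s := {t : ℕ | Hit A v x j t}) (exists_hit h)

theorem not_hit_of_lt {A : Finset (I → ℤ)} {v : I} {x : I → ℤ} {j : I} {t : ℕ}
    (h : t < top A v x j) : ¬ Hit A v x j t := Nat.notMem_of_lt_sInf h

theorem top_eq {A : Finset (I → ℤ)} {v : I} {x : I → ℤ} {j : I} {t : ℕ} (h : Hit A v x j t)
    (h' : ∀ s : ℕ, s < t → ¬ Hit A v x j s) : top A v x j = t := by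
  apply le_antisymm (Nat.sInf_le h)
  by_contra hlt
  push Not at hlt
  exact h' _ hlt (Nat.sInf_mem (s := {t : ℕ | Hit A v x j t}) ⟨t, h⟩)

theorem hit_up {A : Finset (I → ℤ)} {v : I} {x : I → ℤ} {j : I} {s t : ℤ} :
    Hit A v (up v x s) j t ↔ Hit A v x j (s + t) := by
  unfold Hit
  rw [up_up, ← up_add, up_up]

open Classical in
/-- the end vertex (vertical boundary edge) above the face `(x,j)` -/
noncomputable def tau (A : Finset (I → ℤ)) (v : I) (x : I → ℤ) (j : I) : I → ℤ :=
  if VV A v (up v x (top A v x j)) then up v x (top A v x j)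
  else up v (x + uv j) (top A v x j)

theorem tau_mem {A : Finset (I → ℤ)} {v : I} {x : I → ℤ} {j : I} (h : (x, j) ∈ bd A) :
    VV A v (tau A v x j) := by
  unfold tau
  split_ifs with h1
  · exact h1
  · exact (top_spec h).resolve_left h1

/-- shift of the face by the height `s` below the first hit -/
theorem top_up {A : Finset (I → ℤ)} {v : I} {x : I → ℤ} {j : I} (h : (x, j) ∈ bd A) {s : ℕ}
    (hs : s ≤ top A v x j) : top A v (up v x s) j = top A v x j - s := by
  apply top_eq
  · rw [hit_up]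
    have h1 := top_spec (v := v) h
    have h2 : ((s : ℤ) + ((top A v x j - s : ℕ) : ℤ)) = (top A v x j : ℤ) := by omega
    rw [h2]; exact h1
  · intro r hr
    rw [hit_up]
    have h2 : ((s : ℤ) + (r : ℤ)) = ((s + r : ℕ) : ℤ) := by push_cast; rfl
    rw [h2]
    exact not_hit_of_lt (by omega)

theorem bd_up {A : Finset (I → ℤ)} {v : I} {x : I → ℤ} {j : I} (h : (x, j) ∈ bd A) {s : ℕ}
    (hs : s ≤ top A v x j) : (up v x s, j) ∈ bd A := by
  rw [mem_bd'] at h ⊢
  have h1 := mem_up_iff A v x s fun t ht h2 => not_hit_of_lt (lt_of_lt_of_le ht hs) (Or.inl h2)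
  have h2 := mem_up_iff A v (x + uv j) s
    fun t ht h2 => not_hit_of_lt (lt_of_lt_of_le ht hs) (Or.inr h2)
  rw [up_add] at h2
  rw [← h1, ← h2]
  exact h

theorem tau_up {A : Finset (I → ℤ)} {v : I} {x : I → ℤ} {j : I} (h : (x, j) ∈ bd A) {s : ℕ}
    (hs : s ≤ top A v x j) : tau A v (up v x s) j = tau A v x j := by
  unfold tau
  rw [top_up h hs, up_up, ← up_add, up_up]
  have h2 : ((s : ℤ) + ((top A v x j - s : ℕ) : ℤ)) = (top A v x j : ℤ) := by omega
  rw [h2]

/-- small displacements -/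
def sgnv : Option (I × Bool) → (I → ℤ)
  | none => 0
  | some (j, true) => uv j
  | some (j, false) => -uv j

/-- the set of the small displacements -/
def Hs (I : Type) [Fintype I] [DecidableEq I] : Finset (I → ℤ) :=
  (Finset.univ : Finset (Option (I × Bool) × Option (I × Bool))).image
    fun c => sgnv c.1 + sgnv c.2

theorem mem_Hs {h : I → ℤ} : h ∈ Hs I ↔ ∃ c c' : Option (I × Bool), sgnv c + sgnv c' = h := by
  unfold Hs
  rw [Finset.mem_image]
  constructor
  · rintro ⟨⟨c, c'⟩, -, h⟩; exact ⟨c, c', h⟩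
  · rintro ⟨c, c', h⟩; exact ⟨(c, c'), Finset.mem_univ _, h⟩

theorem zero_mem_Hs : (0 : I → ℤ) ∈ Hs I := mem_Hs.mpr ⟨none, none, by simp [sgnv]⟩

theorem uv_mem_Hs (j : I) : uv j ∈ Hs I := mem_Hs.mpr ⟨some (j, true), none, by simp [sgnv]⟩

theorem neg_mem_Hs {h : I → ℤ} (hh : h ∈ Hs I) : -h ∈ Hs I := by
  have key : ∀ c : Option (I × Bool), ∃ c' : Option (I × Bool), sgnv c' = -sgnv c := by
    rintro (_ | ⟨j, _ | _⟩)
    · exact ⟨none, by simp [sgnv]⟩
    · exact ⟨some (j, true), by simp [sgnv]⟩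
    · exact ⟨some (j, false), by simp [sgnv]⟩
  rw [mem_Hs] at hh ⊢
  obtain ⟨c, c', rfl⟩ := hh
  obtain ⟨a, ha⟩ := key c
  obtain ⟨a', ha'⟩ := key c'
  exact ⟨a, a', by rw [ha, ha']; abel⟩

theorem uv_add_uv_mem_Hs (i j : I) : uv i + uv j ∈ Hs I :=
  mem_Hs.mpr ⟨some (i, true), some (j, true), by simp [sgnv]⟩

theorem uv_sub_uv_mem_Hs (i j : I) : uv i - uv j ∈ Hs I :=
  mem_Hs.mpr ⟨some (i, true), some (j, false), by simp [sgnv, sub_eq_add_neg]⟩

theorem card_Hs : (Hs I).card ≤ (2 * Fintype.card I + 1) ^ 2 := by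
  refine Finset.card_image_le.trans ?_
  rw [Finset.card_univ, Fintype.card_prod, Fintype.card_option, Fintype.card_prod,
    Fintype.card_bool]
  apply le_of_eq; ring

/-- horizontal links -/
def L0 (v : I) (p q : I → ℤ) : Prop := ∃ h ∈ Hs I, h v = 0 ∧ q = p + h

/-- upward links along a segment -/
def L1 (A : Finset (I → ℤ)) (v : I) (p q : I → ℤ) : Prop :=
  ∃ (x : I → ℤ) (j : I), j ≠ v ∧ (x, j) ∈ bd A ∧ VV A v p ∧
    (p = x - uv v ∨ p = x + uv j - uv v) ∧ VV A v q ∧
    (q = up v x (top A v x j) ∨ q = up v (x + uv j) (top A v x j))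

/-- the links -/
def Lk (A : Finset (I → ℤ)) (v : I) (p q : I → ℤ) : Prop := L0 v p q ∨ L1 A v p q ∨ L1 A v q p

theorem L0_symm {v : I} {p q : I → ℤ} (h : L0 v p q) : L0 v q p := by
  obtain ⟨h, hh, h0, rfl⟩ := h
  exact ⟨-h, neg_mem_Hs hh, by simp [h0], by simp⟩

theorem Lk_symm {A : Finset (I → ℤ)} {v : I} {p q : I → ℤ} (h : Lk A v p q) : Lk A v q p := by
  rcases h with h | h | h
  · exact Or.inl (L0_symm h)
  · exact Or.inr (Or.inr h)
  · exact Or.inr (Or.inl h)

section closed

variable (A : Finset (I → ℤ)) (v : I) (W : Finset (I → ℤ))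

/-- indicator of `W` -/
noncomputable def iW (x : I → ℤ) : ZMod 2 := if x ∈ W then 1 else 0

/-- indicator of `A` -/
noncomputable def iA (x : I → ℤ) : ZMod 2 := if x ∈ A then 1 else 0

/-- indicator of the boundary -/
noncomputable def ib (x : I → ℤ) (i : I) : ZMod 2 := iA A x + iA A (x + uv i)

theorem ib_of_mem {x : I → ℤ} {i : I} (h : (x, i) ∈ bd A) : ib A x i = 1 := by
  rw [mem_bd'] at h
  unfold ib iA
  by_cases h1 : x ∈ A
  · have h2 : x + uv i ∉ A := fun h2 => h ⟨fun _ => h2, fun _ => h1⟩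
    simp [h1, h2]
  · have h2 : x + uv i ∈ A := by
      by_contra h2
      exact h ⟨fun h3 => absurd h3 h1, fun h3 => absurd h3 h2⟩
    simp [h1, h2]

theorem ib_of_not_mem {x : I → ℤ} {i : I} (h : (x, i) ∉ bd A) : ib A x i = 0 := by
  rw [mem_bd', not_not] at h
  unfold ib iA
  by_cases h1 : x ∈ A
  · have h2 := h.mp h1
    simp only [h1, h2, if_true]; decide
  · have h2 : x + uv i ∉ A := fun h2 => h1 (h.mpr h2)
    simp [h1, h2]

theorem two_eq_zero' (z : ZMod 2) : z + z = 0 := CharTwo.add_self_eq_zero z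

theorem ib_closed (x : I → ℤ) (i j : I) :
    ib A x i + ib A (x + uv i) j = ib A x j + ib A (x + uv j) i := by
  unfold ib
  have h : x + uv i + uv j = x + uv j + uv i := by abel
  rw [h]
  linear_combination two_eq_zero' (iA A (x + uv i)) - two_eq_zero' (iA A (x + uv j))

open Classical in
/-- the cochain of a set of vertical boundary edges -/
noncomputable def phi (x : I → ℤ) (i : I) : ZMod 2 :=
  if i = v then iW W x else if (x, i) ∈ bd A then iW W (tau A v x i) else 0

theorem phi_v (x : I → ℤ) : phi A v W x v = iW W x := by simp [phi]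

theorem phi_of_mem {x : I → ℤ} {j : I} (hj : j ≠ v) (h : (x, j) ∈ bd A) :
    phi A v W x j = iW W (tau A v x j) := by simp [phi, hj, h]

theorem phi_of_not_mem {x : I → ℤ} {j : I} (hj : j ≠ v) (h : (x, j) ∉ bd A) :
    phi A v W x j = 0 := by simp [phi, hj, h]

variable {A v W}

theorem iW_eq {p q : I → ℤ} (h : p ∈ W ↔ q ∈ W) : iW W p = iW W q := by
  unfold iW; simp only [h]

/-- the local step: the change of `phi` is the change of the boundary times the indicator -/
theorem phi_step (hcl : ∀ p ∈ W, ∀ q, VV A v q → Lk A v p q → q ∈ W) {y : I → ℤ} {k : I} (hk : k ≠ v)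
    {t : ZMod 2} (ht : ∀ p, VV A v p → (p = y ∨ p = y + uv k) → iW W p = t) :
    phi A v W y k - phi A v W (y + uv v) k = t * (ib A y k - ib A (y + uv v) k) := by
  have hclosed : ∀ p q, VV A v p → VV A v q → Lk A v p q → iW W p = iW W q := by
    intro p q hp hq h
    exact iW_eq ⟨fun h1 => hcl p h1 q hq h, fun h1 => hcl q h1 p hp (Lk_symm h)⟩
  by_cases hhit : Hit A v y k 0
  · -- touched
    obtain ⟨p, hpV, hp⟩ : ∃ p, VV A v p ∧ (p = y ∨ p = y + uv k) := by
      rcases hhit with h | h
      · exact ⟨y, by simpa using h, Or.inl rfl⟩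
      · exact ⟨y + uv k, by simpa using h, Or.inr rfl⟩
    have htop : top A v y k = 0 := top_eq (by simpa using hhit) fun s hs => absurd hs (by omega)
    have e1 : phi A v W y k = t * ib A y k := by
      by_cases h : (y, k) ∈ bd A
      · rw [phi_of_mem A v W hk h, ib_of_mem A h, mul_one]
        apply ht _ (tau_mem h)
        unfold tau
        rw [htop]
        split_ifs
        · left; simp
        · right; simp
      · rw [phi_of_not_mem A v W hk h, ib_of_not_mem A h, mul_zero]
    have e2 : phi A v W (y + uv v) k = t * ib A (y + uv v) k := by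
      by_cases h : (y + uv v, k) ∈ bd A
      · rw [phi_of_mem A v W hk h, ib_of_mem A h, mul_one, ← ht p hpV hp]
        symm
        apply hclosed p _ hpV (tau_mem h)
        right; left
        refine ⟨y + uv v, k, hk, h, hpV, ?_, tau_mem h, ?_⟩
        · rcases hp with hp | hp
          · left; rw [hp]; abel
          · right; rw [hp]; abel
        · unfold tau
          split_ifs
          · exact Or.inl rfl
          · exact Or.inr rfl
      · rw [phi_of_not_mem A v W hk h, ib_of_not_mem A h, mul_zero]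
    rw [e1, e2, mul_sub]
  · -- not touched
    have h1 : ¬ VV A v y := fun h => hhit (Or.inl (by simpa using h))
    have h2 : ¬ VV A v (y + uv k) := fun h => hhit (Or.inr (by simpa using h))
    have m1 : y ∈ A ↔ y + uv v ∈ A := not_not.mp h1
    have m2 : y + uv k ∈ A ↔ y + uv k + uv v ∈ A := not_not.mp h2
    have hcomm : y + uv k + uv v = y + uv v + uv k := by abel
    rw [hcomm] at m2
    have hb : (y, k) ∈ bd A ↔ (y + uv v, k) ∈ bd A := by
      rw [mem_bd', mem_bd', m1, m2]
    by_cases h : (y, k) ∈ bd A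
    · have h' := hb.mp h
      rw [phi_of_mem A v W hk h, phi_of_mem A v W hk h', ib_of_mem A h, ib_of_mem A h']
      have htop : 1 ≤ top A v y k := by
        by_contra hlt
        have h0 : top A v y k = 0 := by omega
        have h3 := top_spec (v := v) h
        rw [h0] at h3
        exact hhit (by simpa using h3)
      have h4 := tau_up h htop
      rw [Nat.cast_one, up_one] at h4
      rw [h4]; ring
    · have h' : (y + uv v, k) ∉ bd A := fun h3 => h (hb.mpr h3)
      rw [phi_of_not_mem A v W hk h, phi_of_not_mem A v W hk h', ib_of_not_mem A h,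
        ib_of_not_mem A h']
      ring

end closed

end LM

end Pool.Agent.K9h96.EA
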