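import Pool.Agent.K9h96.EA.LM1

/-! Leaf LM, part 2 (helper96): the cochain is closed, the links connect. -/

set_option autoImplicit false
set_option linter.unusedSectionVars false

namespace Pool.Agent.K9h96.EA

namespace LM

variable {I : Type} [Fintype I] [DecidableEq I] {A : Finset (I → ℤ)} {v : I}
  {W : Finset (I → ℤ)}

theorem VV_iff {x : I → ℤ} : VV A v x ↔ (x, v) ∈ bd A := by rw [mem_bd']; rfl

/-- common value of the indicator on linked vertical boundary edges -/
theorem exists_t (hcl : ∀ p ∈ W, ∀ q, VV A v q → Lk A v p q → q ∈ W) (Q : Set (I → ℤ))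
    (hQ : ∀ p ∈ Q, ∀ q ∈ Q, L0 v p q) :
    ∃ t : ZMod 2, ∀ p, VV A v p → p ∈ Q → iW W p = t := by
  by_cases h : ∃ p, VV A v p ∧ p ∈ Q
  · obtain ⟨p, hp, hpQ⟩ := h
    refine ⟨iW W p, fun q hq hqQ => ?_⟩
    have h0 : Lk A v q p := Or.inl (hQ q hqQ p hpQ)
    exact iW_eq ⟨fun h1 => hcl q h1 p hp h0, fun h1 => hcl p h1 q hq (Lk_symm h0)⟩
  · push Not at h
    exact ⟨0, fun p hp hpQ => absurd hpQ (h p hp)⟩

theorem L0_of {p q : I → ℤ} (h : q - p ∈ Hs I) (h0 : (q - p) v = 0) : L0 v p q :=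
  ⟨q - p, h, h0, by abel⟩

theorem iW_eq_mul (hWV : ∀ x ∈ W, VV A v x) {x : I → ℤ} {t : ZMod 2}
    (ht : VV A v x → iW W x = t) : iW W x = t * ib A x v := by
  by_cases h : VV A v x
  · rw [ht h, ib_of_mem A (VV_iff.mp h), mul_one]
  · have h1 : x ∉ W := fun h1 => h (hWV x h1)
    rw [ib_of_not_mem A (fun h2 => h (VV_iff.mpr h2)), mul_zero]
    simp [iW, h1]

theorem phi_closed_v (hWV : ∀ x ∈ W, VV A v x)
    (hcl : ∀ p ∈ W, ∀ q, VV A v q → Lk A v p q → q ∈ W) {j : I} (hj : j ≠ v) (x : I → ℤ) :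
    phi A v W x v + phi A v W (x + uv v) j = phi A v W x j + phi A v W (x + uv j) v := by
  have hv0 : (uv j : I → ℤ) v = 0 := by simp [uv, hj.symm]
  obtain ⟨t, ht⟩ := exists_t (W := W) hcl {p | p = x ∨ p = x + uv j} (by
    rintro p (rfl | rfl) q (rfl | rfl)
    · exact L0_of (by rw [sub_self]; exact zero_mem_Hs) (by simp)
    · exact L0_of (by rw [add_sub_cancel_left]; exact uv_mem_Hs j)
        (by rw [add_sub_cancel_left]; exact hv0)
    · exact L0_of (by rw [sub_add_cancel_left]; exact neg_mem_Hs (uv_mem_Hs j))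
        (by rw [sub_add_cancel_left]; simp [hv0])
    · exact L0_of (by rw [sub_self]; exact zero_mem_Hs) (by simp))
  have h1 := phi_step (W := W) hcl hj (y := x) (t := t) ht
  have h2 := iW_eq_mul hWV (x := x) (t := t) fun h => ht x h (Or.inl rfl)
  have h3 := iW_eq_mul hWV (x := x + uv j) (t := t) fun h => ht _ h (Or.inr rfl)
  rw [phi_v, phi_v, h2, h3]
  have h4 := ib_closed A x v j
  linear_combination t * h4 - h1

/-- the sum over a horizontal square -/
noncomputable def SS (A : Finset (I → ℤ)) (v : I) (W : Finset (I → ℤ)) (i j : I)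
    (x : I → ℤ) : ZMod 2 :=
  phi A v W x i + phi A v W (x + uv i) j - phi A v W x j - phi A v W (x + uv j) i

theorem SS_step (hcl : ∀ p ∈ W, ∀ q, VV A v q → Lk A v p q → q ∈ W) {i j : I} (hi : i ≠ v)
    (hj : j ≠ v) (x : I → ℤ) : SS A v W i j x = SS A v W i j (x + uv v) := by
  have hvi : (uv i : I → ℤ) v = 0 := by simp [uv, hi.symm]
  have hvj : (uv j : I → ℤ) v = 0 := by simp [uv, hj.symm]
  obtain ⟨t, ht⟩ := exists_t (W := W) hcl
    {p | p = x ∨ p = x + uv i ∨ p = x + uv j ∨ p = x + uv i + uv j} (by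
    have key : ∀ a b : I → ℤ, b - a ∈ Hs I → (b - a) v = 0 → L0 v a b := fun a b h1 h2 =>
      L0_of h1 h2
    rintro p (rfl | rfl | rfl | rfl) q (rfl | rfl | rfl | rfl)
    · exact key _ _ (by convert zero_mem_Hs using 1; abel) (by simp)
    · exact key _ _ (by convert uv_mem_Hs i using 1; abel) (by simp [hvi])
    · exact key _ _ (by convert uv_mem_Hs j using 1; abel) (by simp [hvj])
    · exact key _ _ (by convert uv_add_uv_mem_Hs i j using 1; abel) (by simp [hvi, hvj])
    · exact key _ _ (by convert neg_mem_Hs (uv_mem_Hs i) using 1; abel) (by simp [hvi])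
    · exact key _ _ (by convert zero_mem_Hs using 1; abel) (by simp)
    · exact key _ _ (by convert uv_sub_uv_mem_Hs j i using 1; abel) (by simp [hvi, hvj])
    · exact key _ _ (by convert uv_mem_Hs j using 1; abel) (by simp [hvj])
    · exact key _ _ (by convert neg_mem_Hs (uv_mem_Hs j) using 1; abel) (by simp [hvj])
    · exact key _ _ (by convert uv_sub_uv_mem_Hs i j using 1; abel) (by simp [hvi, hvj])
    · exact key _ _ (by convert zero_mem_Hs using 1; abel) (by simp)
    · exact key _ _ (by convert uv_mem_Hs i using 1; abel) (by simp [hvi])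
    · exact key _ _ (by convert neg_mem_Hs (uv_add_uv_mem_Hs i j) using 1; abel)
        (by simp [hvi, hvj])
    · exact key _ _ (by convert neg_mem_Hs (uv_mem_Hs j) using 1; abel) (by simp [hvj])
    · exact key _ _ (by convert neg_mem_Hs (uv_mem_Hs i) using 1; abel) (by simp [hvi])
    · exact key _ _ (by convert zero_mem_Hs using 1; abel) (by simp))
  have c1 : x + uv i + uv v = x + uv v + uv i := by abel
  have c2 : x + uv j + uv v = x + uv v + uv j := by abel
  have h1 := phi_step (W := W) hcl hi (y := x) (t := t) fun p hp hpq => ht p hp (by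
    rcases hpq with h | h
    · exact Or.inl h
    · exact Or.inr (Or.inl h))
  have h2 := phi_step (W := W) hcl hj (y := x + uv i) (t := t) fun p hp hpq => ht p hp (by
    rcases hpq with h | h
    · exact Or.inr (Or.inl h)
    · exact Or.inr (Or.inr (Or.inr h)))
  have h3 := phi_step (W := W) hcl hj (y := x) (t := t) fun p hp hpq => ht p hp (by
    rcases hpq with h | h
    · exact Or.inl h
    · exact Or.inr (Or.inr (Or.inl h)))
  have h4 := phi_step (W := W) hcl hi (y := x + uv j) (t := t) fun p hp hpq => ht p hp (by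
    rcases hpq with h | h
    · exact Or.inr (Or.inr (Or.inl h))
    · exact Or.inr (Or.inr (Or.inr (by rw [h]; abel))))
  rw [c1] at h2
  rw [c2] at h4
  have h5 := ib_closed A x i j
  have h6 := ib_closed A (x + uv v) i j
  unfold SS
  linear_combination h1 + h2 - h3 - h4 + t * h5 - t * h6

theorem SS_up (hcl : ∀ p ∈ W, ∀ q, VV A v q → Lk A v p q → q ∈ W) {i j : I} (hi : i ≠ v)
    (hj : j ≠ v) (x : I → ℤ) (n : ℕ) : SS A v W i j x = SS A v W i j (up v x n) := by
  induction n with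
  | zero => simp
  | succ n ih =>
    rw [ih, SS_step hcl hi hj, ← up_one, up_up]
    push_cast
    rfl

theorem SS_zero (hcl : ∀ p ∈ W, ∀ q, VV A v q → Lk A v p q → q ∈ W) {i j : I} (hi : i ≠ v)
    (hj : j ≠ v) (x : I → ℤ) : SS A v W i j x = 0 := by
  obtain ⟨N₁, h₁⟩ := exists_not_mem_up A v x
  obtain ⟨N₂, h₂⟩ := exists_not_mem_up A v (x + uv i)
  obtain ⟨N₃, h₃⟩ := exists_not_mem_up A v (x + uv j)
  obtain ⟨N₄, h₄⟩ := exists_not_mem_up A v (x + uv i + uv j)
  rw [SS_up hcl hi hj x (N₁ + N₂ + N₃ + N₄)]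
  have k₁ := h₁ (N₁ + N₂ + N₃ + N₄ : ℕ) (by push_cast; omega)
  have k₂ := h₂ (N₁ + N₂ + N₃ + N₄ : ℕ) (by push_cast; omega)
  have k₃ := h₃ (N₁ + N₂ + N₃ + N₄ : ℕ) (by push_cast; omega)
  have k₄ := h₄ (N₁ + N₂ + N₃ + N₄ : ℕ) (by push_cast; omega)
  rw [up_add] at k₂ k₃
  rw [up_add, up_add] at k₄
  set y := up v x ((N₁ + N₂ + N₃ + N₄ : ℕ) : ℤ) with hy
  have k₄' : y + uv j + uv i ∉ A := by rwa [add_right_comm]
  unfold SS
  rw [phi_of_not_mem A v W hi (by rw [mem_bd']; tauto),
    phi_of_not_mem A v W hj (by rw [mem_bd']; tauto),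
    phi_of_not_mem A v W hj (by rw [mem_bd']; tauto),
    phi_of_not_mem A v W hi (by rw [mem_bd']; tauto)]
  simp

theorem phi_closed (hWV : ∀ x ∈ W, VV A v x)
    (hcl : ∀ p ∈ W, ∀ q, VV A v q → Lk A v p q → q ∈ W) (x : I → ℤ) (i j : I) :
    phi A v W x i + phi A v W (x + uv i) j = phi A v W x j + phi A v W (x + uv j) i := by
  by_cases hi : i = v
  · by_cases hj : j = v
    · rw [hi, hj]
    · rw [hi]; exact phi_closed_v hWV hcl hj x
  · by_cases hj : j = v
    · rw [hj]; exact (phi_closed_v hWV hcl hi x).symm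
    · have h := SS_zero (W := W) hcl hi hj x
      unfold SS at h
      linear_combination h

/-- the links connect the vertical boundary edges -/
theorem links_connect (hA : Conn (A : Set (I → ℤ))) (hAc : Conn (A : Set (I → ℤ))ᶜ)
    (hWV : ∀ x ∈ W, VV A v x)
    (hcl : ∀ p ∈ W, ∀ q, VV A v q → Lk A v p q → q ∈ W) {p₀ : I → ℤ} (hp₀ : p₀ ∈ W)
    {q : I → ℤ} (hq : VV A v q) : q ∈ W := by
  have h0 : ∀ x i, phi A v W x i ≠ 0 → (x, i) ∈ bd A := by
    intro x i h
    by_cases hi : i = v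
    · rw [hi, phi_v] at h
      rw [hi]
      apply VV_iff.mp
      apply hWV
      by_contra h1
      exact h (by simp [iW, h1])
    · by_contra h1
      exact h (phi_of_not_mem A v W hi h1)
  rcases t_CZ I A hA hAc (phi A v W) h0 (phi_closed hWV hcl) with h | h
  · have h1 := h p₀ v
    rw [phi_v] at h1
    simp [iW, hp₀] at h1
  · have h1 := h q v (VV_iff.mp hq)
    rw [phi_v] at h1
    by_contra h2
    simp [iW, h2] at h1

end LM

end Pool.Agent.K9h96.EA
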