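import Pool.Agent.K9h96.EA.LM2

/-! Leaf LM, part 3 (helper96): weights of the links, tours, codes. -/

set_option autoImplicit false
set_option linter.unusedSectionVars false

namespace Pool.Agent.K9h96.EA

namespace LM

variable {I : Type} [Fintype I] [DecidableEq I] {A : Finset (I → ℤ)} {v : I}

/-- depth of the first hit below -/
noncomputable def bot (A : Finset (I → ℤ)) (v : I) (x : I → ℤ) (j : I) : ℕ :=
  sInf {s : ℕ | Hit A v x j (-((s : ℤ) + 1))}

theorem bot_eq {x : I → ℤ} {j : I} {t : ℕ} (h : Hit A v x j (-((t : ℤ) + 1)))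
    (h' : ∀ s : ℕ, s < t → ¬ Hit A v x j (-((s : ℤ) + 1))) : bot A v x j = t := by
  apply le_antisymm (Nat.sInf_le h)
  by_contra hlt
  push Not at hlt
  exact h' _ hlt (Nat.sInf_mem (s := {s : ℕ | Hit A v x j (-((s : ℤ) + 1))}) ⟨t, h⟩)

/-- the end vertices of the segment of the face `(x,j)` -/
noncomputable def End (A : Finset (I → ℤ)) (v : I) (f : (I → ℤ) × I) : Finset (I → ℤ) :=
  {up v f.1 (top A v f.1 f.2), up v (f.1 + uv f.2) (top A v f.1 f.2),
    up v f.1 (-((bot A v f.1 f.2 : ℤ) + 1)), up v (f.1 + uv f.2) (-((bot A v f.1 f.2 : ℤ) + 1))}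

theorem card_End (f : (I → ℤ) × I) : (End A v f).card ≤ 4 := Finset.card_le_four

/-- number of the faces whose segment ends at `p` -/
noncomputable def hh (A : Finset (I → ℤ)) (v : I) (p : I → ℤ) : ℕ :=
  ((bd A).filter fun f => p ∈ End A v f).card

/-- vertical displacement -/
def wt (v : I) (p q : I → ℤ) : ℕ := (q v - p v).natAbs

theorem sum_hh (V : Finset (I → ℤ)) : ∑ p ∈ V, hh A v p ≤ 4 * (bd A).card := by
  unfold hh
  calc ∑ p ∈ V, ((bd A).filter fun f => p ∈ End A v f).card
      = ∑ p ∈ V, ∑ f ∈ bd A, (if p ∈ End A v f then 1 else 0) := by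
        refine Finset.sum_congr rfl fun p _ => ?_
        rw [Finset.card_filter]
    _ = ∑ f ∈ bd A, ∑ p ∈ V, (if p ∈ End A v f then 1 else 0) := Finset.sum_comm
    _ ≤ ∑ f ∈ bd A, 4 := by
        refine Finset.sum_le_sum fun f _ => ?_
        rw [← Finset.card_filter]
        refine (Finset.card_le_card ?_).trans (card_End (A := A) (v := v) f)
        intro p hp
        exact (Finset.mem_filter.mp hp).2
    _ = 4 * (bd A).card := by rw [Finset.sum_const, smul_eq_mul, mul_comm]

theorem L1_wt {p q : I → ℤ} (h : L1 A v p q) :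
    wt v p q ≤ hh A v p ∧ wt v p q ≤ hh A v q ∧ q - p - (q v - p v) • uv v ∈ Hs I := by
  obtain ⟨x, j, hj, hb, hp, hpx, hq, hqx⟩ := h
  set T := top A v x j with hT
  have hvj : (uv j : I → ℤ) v = 0 := by simp [uv, hj.symm]
  have hvv : (uv v : I → ℤ) v = 1 := by simp [uv]
  have hpv : p v = x v - 1 := by
    rcases hpx with rfl | rfl
    · simp [hvv]
    · simp [hvv, hvj]
  have hqv : q v = x v + T := by
    rcases hqx with rfl | rfl
    · rw [up_apply_self]
    · rw [up_apply_self]; simp [hvj]
  have hw : wt v p q = T + 1 := by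
    unfold wt; rw [hpv, hqv]; omega
  have hdiff : q v - p v = (T : ℤ) + 1 := by rw [hpv, hqv]; ring
  -- the faces of the segment
  have hinj : Set.InjOn (fun t : ℕ => ((up v x t, j) : (I → ℤ) × I)) (Finset.range (T + 1)) := by
    intro s _ t _ h
    have h1 := congrArg (fun f : (I → ℤ) × I => f.1 v) h
    simp only [up_apply_self] at h1
    omega
  have key : ∀ r : I → ℤ, (∀ t : ℕ, t ≤ T → r ∈ End A v (up v x t, j)) → T + 1 ≤ hh A v r := by
    intro r hr
    unfold hh
    calc T + 1 = ((Finset.range (T + 1)).image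
          (fun t : ℕ => ((up v x t, j) : (I → ℤ) × I))).card := by
          rw [Finset.card_image_of_injOn hinj, Finset.card_range]
      _ ≤ _ := by
        apply Finset.card_le_card
        intro f hf
        rw [Finset.mem_image] at hf
        obtain ⟨t, ht, rfl⟩ := hf
        rw [Finset.mem_range] at ht
        rw [Finset.mem_filter]
        exact ⟨bd_up hb (by omega), hr t (by omega)⟩
  refine ⟨?_, ?_, ?_⟩
  · rw [hw]
    apply key
    intro t ht
    have hbot : bot A v (up v x t) j = t := by
      apply bot_eq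
      · rw [hit_up]
        have : ((t : ℤ) + -((t : ℤ) + 1)) = -1 := by ring
        rw [this]
        unfold Hit
        have e1 : up v x (-1) = x - uv v := by unfold up; rw [neg_one_smul]; abel
        have e2 : up v (x + uv j) (-1) = x + uv j - uv v := by
          unfold up; rw [neg_one_smul]; abel
        rw [e1, e2]
        rcases hpx with rfl | rfl
        · exact Or.inl hp
        · exact Or.inr hp
      · intro s hs
        rw [hit_up]
        have : ((t : ℤ) + -((s : ℤ) + 1)) = ((t - s - 1 : ℕ) : ℤ) := by omega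
        rw [this]
        exact not_hit_of_lt (by omega)
    unfold End
    simp only [hbot, Finset.mem_insert, Finset.mem_singleton]
    rcases hpx with rfl | rfl
    · right; right; left
      rw [up_up]
      have : ((t : ℤ) + -((t : ℤ) + 1)) = -1 := by ring
      rw [this]; unfold up; rw [neg_one_smul]; abel
    · right; right; right
      rw [← up_add, up_up]
      have : ((t : ℤ) + -((t : ℤ) + 1)) = -1 := by ring
      rw [this]; unfold up; rw [neg_one_smul]; abel
  · rw [hw]
    apply key
    intro t ht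
    unfold End
    simp only [top_up hb ht, Finset.mem_insert, Finset.mem_singleton]
    have : ((t : ℤ) + ((top A v x j - t : ℕ) : ℤ)) = (T : ℤ) := by omega
    rcases hqx with rfl | rfl
    · left
      rw [up_up, this]
    · right; left
      rw [← up_add, up_up, this]
  · rw [hdiff]
    rcases hpx with rfl | rfl <;> rcases hqx with rfl | rfl
    · convert zero_mem_Hs using 1
      unfold up; rw [add_smul, one_smul]; abel
    · convert uv_mem_Hs j using 1
      unfold up; rw [add_smul, one_smul]; abel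
    · convert neg_mem_Hs (uv_mem_Hs j) using 1
      unfold up; rw [add_smul, one_smul]; abel
    · convert zero_mem_Hs using 1
      unfold up; rw [add_smul, one_smul]; abel

theorem L0_wt {p q : I → ℤ} (h : L0 v p q) :
    wt v p q = 0 ∧ q - p - (q v - p v) • uv v ∈ Hs I := by
  obtain ⟨h, hh, h0, rfl⟩ := h
  refine ⟨by simp [wt, h0], ?_⟩
  convert hh using 1
  simp [h0]

theorem wt_symm (p q : I → ℤ) : wt v p q = wt v q p := by unfold wt; omega

theorem Lk_wt {p q : I → ℤ} (h : Lk A v p q) :
    wt v p q ≤ hh A v q ∧ q - p - (q v - p v) • uv v ∈ Hs I := by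
  rcases h with h | h | h
  · obtain ⟨h1, h2⟩ := L0_wt h
    exact ⟨by omega, h2⟩
  · obtain ⟨-, h1, h2⟩ := L1_wt h
    exact ⟨h1, h2⟩
  · obtain ⟨h1, -, h2⟩ := L1_wt h
    rw [wt_symm]
    refine ⟨h1, ?_⟩
    convert neg_mem_Hs h2 using 1
    have : (q v - p v) = -(p v - q v) := by ring
    rw [this, neg_smul]; abel

theorem exists_VV {y : I → ℤ} (hy : y ∈ A) (v : I) : ∃ t : ℕ, VV A v (up v y t) := by
  by_contra hcon
  push Not at hcon
  obtain ⟨N, hN⟩ := exists_not_mem_up A v y
  have h1 := mem_up_iff A v y N fun t _ => hcon t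
  exact hN N le_rfl (h1.mp hy)

/-- the first vertical boundary edge above the origin -/
theorem exists_start (h2 : 2 ≤ Fintype.card I) (h0 : (0 : I → ℤ) ∈ A) (v : I) :
    ∃ t : ℕ, t ≤ (bd A).card ∧ VV A v (up v 0 t) := by
  classical
  obtain ⟨j, hj⟩ : ∃ j : I, j ≠ v := by
    by_contra hcon
    push Not at hcon
    have : Fintype.card I ≤ 1 := Fintype.card_le_one_iff.mpr fun a b => by rw [hcon a, hcon b]
    omega
  let t := Nat.find (exists_VV h0 v)
  have ht : VV A v (up v 0 t) := Nat.find_spec (exists_VV h0 v)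
  refine ⟨t, ?_, ht⟩
  have hin : ∀ s : ℕ, s ≤ t → up v 0 s ∈ A := fun s hs =>
    (mem_up_iff A v 0 s fun r hr => Nat.find_min (exists_VV h0 v) (lt_of_lt_of_le hr hs)).mp h0
  have hex : ∀ s : ℕ, ∃ r : ℕ, s ≤ t → VV A j (up j (up v 0 s) r) := by
    intro s
    by_cases hs : s ≤ t
    · obtain ⟨r, hr⟩ := exists_VV (hin s hs) j
      exact ⟨r, fun _ => hr⟩
    · exact ⟨0, fun h => absurd h hs⟩
  choose r hr using hex
  have hinj : Set.InjOn (fun s : ℕ => ((up j (up v 0 s) (r s), j) : (I → ℤ) × I))
      (Finset.range (t + 1)) := by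
    intro s _ s' _ h
    have h1 := congrArg (fun f : (I → ℤ) × I => f.1 v) h
    simp only [up_apply_of_ne j _ _ hj.symm, up_apply_self] at h1
    simpa using h1
  have h1 : t + 1 ≤ (bd A).card := by
    calc t + 1 = ((Finset.range (t + 1)).image
          (fun s : ℕ => ((up j (up v 0 s) (r s), j) : (I → ℤ) × I))).card := by
          rw [Finset.card_image_of_injOn hinj, Finset.card_range]
      _ ≤ _ := by
        apply Finset.card_le_card
        intro f hf
        rw [Finset.mem_image] at hf
        obtain ⟨s, hs, rfl⟩ := hf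
        rw [Finset.mem_range] at hs
        exact VV_iff.mp (hr s (by omega))
  omega

/-- the vertical boundary edges as a finset -/
noncomputable def Vset (A : Finset (I → ℤ)) (v : I) : Finset (I → ℤ) :=
  ((bd A).filter fun f => f.2 = v).image Prod.fst

theorem mem_Vset {x : I → ℤ} : x ∈ Vset A v ↔ VV A v x := by
  unfold Vset
  rw [VV_iff, Finset.mem_image]
  constructor
  · rintro ⟨⟨y, i⟩, hf, rfl⟩
    rw [Finset.mem_filter] at hf
    obtain ⟨h1, h2⟩ := hf
    simp only at h2
    rw [← h2]; exact h1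
  · intro h
    exact ⟨(x, v), Finset.mem_filter.mpr ⟨h, rfl⟩, rfl⟩

theorem exists_dir (h : 1 ≤ Fintype.card I) (A : Finset (I → ℤ)) :
    ∃ v : I, (Vset A v).card ≤ (bd A).card / Fintype.card I := by
  by_contra hcon
  push Not at hcon
  have h1 : ∀ v, (Vset A v).card ≤ ((bd A).filter fun f => f.2 = v).card :=
    fun v => Finset.card_image_le
  have h2 : ∑ v : I, ((bd A).filter fun f => f.2 = v).card = (bd A).card :=
    (Finset.card_eq_sum_card_fiberwise (f := Prod.snd) (s := bd A) (t := Finset.univ)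
      fun f _ => Finset.mem_coe.mpr (Finset.mem_univ f.2)).symm
  have h3 : ∀ v ∈ (Finset.univ : Finset I), (bd A).card / Fintype.card I + 1 ≤
      ((bd A).filter fun f => f.2 = v).card := fun v _ => (hcon v).trans_le (h1 v)
  have h4 := Finset.sum_le_sum h3
  rw [h2, Finset.sum_const, Finset.card_univ, smul_eq_mul] at h4
  have h5 := Nat.lt_mul_div_succ (bd A).card (by omega : 0 < Fintype.card I)
  omega

/-- the code of a region -/
structure Code (A : Finset (I → ℤ)) (b n : ℕ) (v : I) (t : ℕ) (f : ℕ → (I → ℤ)) : Prop where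
  start : f 0 = up v 0 t
  le : t ≤ b
  cover : ∀ x, VV A v x ↔ ∃ k, k ≤ n ∧ f k = x
  step : ∀ k, f (k + 1) - f k - (f (k + 1) v - f k v) • uv v ∈ Hs I
  sum : ∑ k ∈ Finset.range n, (f (k + 1) v - f k v).natAbs ≤ 8 * b

theorem exists_code (h2 : 2 ≤ Fintype.card I) (hA : Region A) :
    ∃ v t f, Code A (bd A).card (2 * ((bd A).card / Fintype.card I)) v t f := by
  obtain ⟨h0, hc, hcc⟩ := hA
  obtain ⟨v, hv⟩ := exists_dir (by omega) A
  obtain ⟨t, ht, htV⟩ := exists_start h2 h0 v
  obtain ⟨f, hf0, hfV, hfL, hfc, hfs⟩ := t_TOUR (I → ℤ) (Vset A v) (Lk A v) (wt v) (hh A v)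
    (up v 0 t) (mem_Vset.mpr htV) (fun p q h => Lk_symm h) (fun p q => wt_symm p q)
    (fun p => by simp [wt]) (fun p _ q _ h => (Lk_wt h).1) (by
      intro W hW hp₀ hcl
      apply Finset.Subset.antisymm hW
      intro q hq
      exact links_connect hc hcc (fun x hx => mem_Vset.mp (hW hx))
        (fun p hp q hq h => hcl p hp q (mem_Vset.mpr hq) h) hp₀ (mem_Vset.mp hq))
  refine ⟨v, t, f, hf0, ht, ?_, ?_, ?_⟩
  · intro x
    constructor
    · intro hx
      obtain ⟨k, hk, hkx⟩ := hfc x (mem_Vset.mpr hx)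
      exact ⟨k, by omega, hkx⟩
    · rintro ⟨k, -, rfl⟩
      exact mem_Vset.mp (hfV k)
  · intro k
    rcases hfL k with h | h
    · exact (Lk_wt h).2
    · rw [← h]; simpa using zero_mem_Hs
  · have h3 := hfs (2 * ((bd A).card / Fintype.card I))
    have h4 := sum_hh (A := A) (v := v) (Vset A v)
    have h5 : ∑ k ∈ Finset.range (2 * ((bd A).card / Fintype.card I)),
        (f (k + 1) v - f k v).natAbs =
        ∑ k ∈ Finset.range (2 * ((bd A).card / Fintype.card I)), wt v (f k) (f (k + 1)) := rfl
    rw [h5]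
    omega

/-- the vertical boundary edges determine the set -/
theorem eq_of_VV {A B : Finset (I → ℤ)} {v : I} (h : ∀ x, VV A v x ↔ VV B v x) : A = B := by
  classical
  by_contra hne
  obtain ⟨x, hx⟩ : ∃ x, ¬ (x ∈ A ↔ x ∈ B) := by
    by_contra hcon
    push Not at hcon
    exact hne (Finset.ext hcon)
  have hstep : ∀ n : ℕ, ¬ (up v x n ∈ A ↔ up v x n ∈ B) := by
    intro n
    induction n with
    | zero => simpa using hx
    | succ n ih =>
      have h1 := h (up v x n)
      unfold VV at h1
      rw [← up_one, up_up] at h1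
      push_cast
      tauto
  obtain ⟨N₁, h₁⟩ := exists_not_mem_up A v x
  obtain ⟨N₂, h₂⟩ := exists_not_mem_up B v x
  have k₁ := h₁ (N₁ + N₂ : ℕ) (by push_cast; omega)
  have k₂ := h₂ (N₁ + N₂ : ℕ) (by push_cast; omega)
  exact hstep (N₁ + N₂) ⟨fun h => absurd h k₁, fun h => absurd h k₂⟩

end LM

end Pool.Agent.K9h96.EA
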