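import Pool.Agent.H47R2.EA.Defs

/-!
# Project EA (helper96, MP_81d17b_pr): Edwards–Anderson model with completely disordered directions

Statements of the building blocks (leaves) and, at the end, their paper proofs. Each leaf goes in
its own file `Pool/Agent/K9h96/EA/<Name>.lean`, as `theorem t_<Name> : S_<Name>` (or
`theorem t_<Name> (h : S_...) ... : S_<Name>` where a leaf uses other leaves).
-/

set_option autoImplicit false

open MeasureTheory
open scoped ENNReal symmDiff

namespace Pool.Agent.K9h96.EA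

open Pool.H47EA

/-! ## Finite sets in the lattice `I → ℤ` -/

section lattice

variable {I : Type} [Fintype I] [DecidableEq I]

/-- the unit vector of direction `i` -/
def uv (i : I) : I → ℤ := Pi.single i 1

/-- nearest neighbours -/
def nn (x y : I → ℤ) : Prop := ∃ i, y = x + uv i ∨ x = y + uv i

/-- `S` is connected in the nearest-neighbour graph -/
def Conn (S : Set (I → ℤ)) : Prop :=
  ∀ x ∈ S, ∀ y ∈ S, Relation.ReflTransGen (fun a b => nn a b ∧ a ∈ S ∧ b ∈ S) x y

/-- the boundary edges `{x, x + e_i}` of the finite set `A`, written as pairs `(x, i)` -/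
noncomputable def bd (A : Finset (I → ℤ)) : Finset ((I → ℤ) × I) :=
  ((A ×ˢ Finset.univ) ∪ (A ×ˢ Finset.univ).image (fun p => (p.1 - uv p.2, p.2))).filter
    (fun p => ¬ (p.1 ∈ A ↔ p.1 + uv p.2 ∈ A))

/-- finite connected sets containing the origin with connected complement -/
def Region (A : Finset (I → ℤ)) : Prop :=
  (0 : I → ℤ) ∈ A ∧ Conn (A : Set (I → ℤ)) ∧ Conn (A : Set (I → ℤ))ᶜ

/-- the index of the block of side `2^l` containing `x` -/
def blk (l : ℕ) (x : I → ℤ) : I → ℤ := fun i => x i / 2 ^ l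

/-- the block of side `2^l` with index `u` -/
noncomputable def block (l : ℕ) (u : I → ℤ) : Finset (I → ℤ) :=
  Fintype.piFinset fun i => Finset.Ico (2 ^ l * u i) (2 ^ l * u i + 2 ^ l)

/-- the indices of the blocks of side `2^l` more than half of which is in `A` -/
noncomputable def cg (l : ℕ) (A : Finset (I → ℤ)) : Finset (I → ℤ) :=
  (A.image (blk l)).filter fun u =>
    2 ^ (l * Fintype.card I) < 2 * (A.filter fun x => blk l x = u).card

/-- the union of these blocks -/
noncomputable def ex (l : ℕ) (A : Finset (I → ℤ)) : Finset (I → ℤ) := (cg l A).biUnion (block l)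

end lattice

/-- CZ: the boundary of a connected set with connected complement is connected, in terms of
closed 1-cochains modulo 2 supported on the boundary. -/
def S_CZ : Prop :=
  ∀ (I : Type) [Fintype I] [DecidableEq I] (A : Finset (I → ℤ)),
    Conn (A : Set (I → ℤ)) → Conn (A : Set (I → ℤ))ᶜ →
    ∀ φ : (I → ℤ) → I → ZMod 2, (∀ x i, φ x i ≠ 0 → (x, i) ∈ bd A) →
      (∀ x i j, φ x i + φ (x + uv i) j = φ x j + φ (x + uv j) i) →
      (∀ x i, φ x i = 0) ∨ (∀ x i, (x, i) ∈ bd A → φ x i = 1)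

/-- TOUR: a connected graph has a short tour. -/
def S_TOUR : Prop :=
  ∀ (α : Type) [DecidableEq α] (V : Finset α) (L : α → α → Prop) (w : α → α → ℕ) (h : α → ℕ)
    (p₀ : α), p₀ ∈ V → (∀ p q, L p q → L q p) → (∀ p q, w p q = w q p) → (∀ p, w p p = 0) →
    (∀ p ∈ V, ∀ q ∈ V, L p q → w p q ≤ h q) →
    (∀ W ⊆ V, p₀ ∈ W → (∀ p ∈ W, ∀ q ∈ V, L p q → q ∈ W) → W = V) →
    ∃ f : ℕ → α, f 0 = p₀ ∧ (∀ k, f k ∈ V) ∧ (∀ k, L (f k) (f (k + 1)) ∨ f k = f (k + 1)) ∧
      (∀ p ∈ V, ∃ k, k ≤ 2 * (V.card - 1) ∧ f k = p) ∧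
      ∀ N, ∑ k ∈ Finset.range N, w (f k) (f (k + 1)) ≤ 2 * ∑ p ∈ V, h p

/-- LM: number of regions with given boundary (Lebowitz–Mazel type bound). -/
def S_LM : Prop :=
  ∃ C : ℝ, 0 < C ∧ ∀ (I : Type) [Fintype I] [DecidableEq I] (b : ℕ), 2 ≤ Fintype.card I →
    ∀ 𝓕 : Finset (Finset (I → ℤ)), (∀ A ∈ 𝓕, Region A ∧ (bd A).card = b) →
      (𝓕.card : ℝ) ≤ Real.exp (C * Real.log (Fintype.card I) / Fintype.card I * b)

/-- F1: the coarse-grained set is close to the set. -/
def S_F1 : Prop :=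
  ∀ (I : Type) [Fintype I] [DecidableEq I] (A : Finset (I → ℤ)) (l : ℕ),
    (A ∆ ex l A).card ≤ 2 ^ (l + 1) * (bd A).card

/-- F2: the boundary of the coarse-grained set is small. -/
def S_F2 : Prop :=
  ∀ (I : Type) [Fintype I] [DecidableEq I] (A : Finset (I → ℤ)) (l : ℕ), 1 ≤ Fintype.card I →
    2 ^ (l * (Fintype.card I - 1)) * (bd (cg l A)).card ≤ 32 * Fintype.card I * (bd A).card

/-- F3: number of coarse-grained regions. -/
def S_F3 : Prop :=
  ∃ C : ℝ, 0 < C ∧ ∀ (I : Type) [Fintype I] [DecidableEq I] (b l : ℕ), 2 ≤ Fintype.card I →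
    1 ≤ l → 2 ^ (l * (Fintype.card I - 1)) ≤ 32 * Fintype.card I * b →
    ∀ 𝓕 : Finset (Finset (I → ℤ)), (∀ A ∈ 𝓕, Region A ∧ (bd A).card = b) →
      ((𝓕.image (cg l)).card : ℝ) ≤ Real.exp (C * 4 ^ Fintype.card I * l *
        ((b : ℝ) / 2 ^ (l * (Fintype.card I - 1))))

/-- CHAIN: supremum of a process with the metric `√|A ∆ A'|` over the regions. -/
def S_CHAIN : Prop :=
  ∃ (c : ℝ) (D₀ : ℕ), 0 < c ∧ ∀ (I : Type) [Fintype I] [DecidableEq I], D₀ ≤ Fintype.card I →
    ∀ m : ℕ, 1 ≤ m → (m : ℝ) * Real.log (Fintype.card I) ≤ c * Fintype.card I →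
    ∀ (Ω : Type) [MeasurableSpace Ω] (μ : Measure Ω) [IsProbabilityMeasure μ]
      (X : Finset (I → ℤ) → Ω → ℝ) (β : ℝ), 0 < β → (∀ ω, X ∅ ω = 0) →
      (∀ (A A' : Finset (I → ℤ)) (t : ℝ), 0 < t → μ {ω | t ≤ X A ω - X A' ω} ≤
        ENNReal.ofReal (Real.exp (-(t ^ 2) / (16 * β ^ 2 * m * (A ∆ A').card)))) →
      ∀ 𝓕 : Finset (Finset (I → ℤ)), (∀ A ∈ 𝓕, Region A) →
        μ {ω | ∃ A ∈ 𝓕, β * (bd A).card / 2 ≤ X A ω} ≤ ENNReal.ofReal (1 / 16)

/-- FILL: the filled cluster of the origin. -/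
def S_FILL : Prop :=
  ∀ (I : Type) [Fintype I] [DecidableEq I], 2 ≤ Fintype.card I →
    ∀ (n : ℕ) (M : Set (I → ℤ)), (∀ x ∈ M, ∀ i, |x i| ≤ n) → (0 : I → ℤ) ∈ M →
      ∃ A : Finset (I → ℤ), Region A ∧ (∀ x ∈ A, ∀ i, |x i| ≤ n) ∧
        ∀ x ∈ A, ∀ y, y ∉ A → nn x y → x ∈ M ∧ y ∉ M

/-! ## The model -/

section model

variable {d : ℕ}

/-- the directions outside of `R` -/
abbrev Dir (R : Finset (Fin d)) : Type := {i : Fin d // i ∉ R}

/-- the layer `x_i = 0 (i ∈ R)` through the origin -/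
def emb (R : Finset (Fin d)) (x : Dir R → ℤ) : Site d := fun i => if h : i ∈ R then 0 else x ⟨i, h⟩

/-- the edges parallel to the directions of `R` -/
def IsR (R : Finset (Fin d)) (e : (lat d).edgeSet) : Prop :=
  ∃ x : Site d, ∃ i ∈ R, e.1 = s(x, x + Pi.single i 1)

/-- the edges parallel to the directions of `R` with an end vertex in the copy of `A` -/
def TT (R : Finset (Fin d)) (A : Finset (Dir R → ℤ)) : Set (lat d).edgeSet :=
  {e | IsR R e ∧ ∃ x ∈ A, emb R x ∈ e.1}

open Classical in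
/-- reversal of the couplings in `T` -/
noncomputable def tog (T : Set (lat d).edgeSet) (J : Coupling d) : Coupling d :=
  fun e => if e ∈ T then !(J e) else J e

/-- the box `[-n,n]^d` -/
noncomputable def box (d n : ℕ) : Finset (Site d) :=
  Finset.Icc (fun _ => -(n : ℤ)) (fun _ => (n : ℤ))

/-- logarithm of the partition function in the box with `+` boundary condition -/
noncomputable def FF (β : ℝ) (n : ℕ) (J : Coupling d) : ℝ :=
  Real.log (Zp β J (box d n) (fun _ => true))

/-- the energy of the boundary of the layer set `A` -/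
noncomputable def nrg (R : Finset (Fin d)) (A : Finset (Dir R → ℤ)) (J : Coupling d) : ℝ :=
  ∑ p ∈ bd A, Jc J (emb R p.1) (emb R (p.1 + uv p.2))

open Classical in
/-- the regions in the box `[-n,n]^I` -/
noncomputable def regs (I : Type) [Fintype I] [DecidableEq I] (n : ℕ) :
    Finset (Finset (I → ℤ)) :=
  (Finset.Icc (fun _ : I => -(n : ℤ)) (fun _ => (n : ℤ))).powerset.filter Region

end model

/-- EN: the energy estimate (Peierls argument for the cluster in the layer, with simultaneous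
reversal of the couplings which leave the layer). -/
def S_EN : Prop :=
  ∀ (d : ℕ) (R : Finset (Fin d)), 2 ≤ Fintype.card (Dir R) → ∀ (β : ℝ), 0 ≤ β →
    ∀ (n : ℕ) (J : Coupling d),
      gE β J (box d n) (fun _ => true) (fun σ => if σ 0 then 0 else 1) ≤
        ∑ A ∈ regs (Dir R) n,
          Real.exp (-(2 * β * nrg R A J) + (FF β n (tog (TT R A) J) - FF β n J))

/-- CONC: concentration for the differences of free energies. -/
def S_CONC : Prop :=
  ∀ (d : ℕ) (R : Finset (Fin d)) (ν : (lat d).edgeSet → Measure Bool)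
    [∀ e, IsProbabilityMeasure (ν e)],
    (∀ e, IsR R e → ν e = (PMF.uniformOfFintype Bool).toMeasure) →
    ∀ (β : ℝ), 0 < β → ∀ (n : ℕ) (A A' : Finset (Dir R → ℤ)) (t : ℝ), 0 < t →
      Measure.infinitePi ν {J | t ≤ FF β n (tog (TT R A) J) - FF β n (tog (TT R A') J)} ≤
        ENNReal.ofReal (Real.exp (-(t ^ 2) / (16 * β ^ 2 * R.card * (A ∆ A').card)))

/-- NEG: the couplings in the layer are mostly positive along all contours. -/
def S_NEG : Prop :=
  ∃ D₀ : ℕ, ∀ (d : ℕ) (R : Finset (Fin d)), D₀ ≤ Fintype.card (Dir R) →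
    ∀ (ν : (lat d).edgeSet → Measure Bool) [∀ e, IsProbabilityMeasure (ν e)],
    (∀ e, ¬ IsR R e → ν e {false} ≤ ENNReal.ofReal (1 / 32)) → ∀ n : ℕ,
      Measure.infinitePi ν {J | ∃ A ∈ regs (Dir R) n, nrg R A J < (bd A).card / 2} ≤
        ENNReal.ofReal (1 / 16)

/-- ZO: from finite volume to two Gibbs states, almost surely (zero–one law). -/
def S_ZO : Prop :=
  ∀ (d : ℕ) (β : ℝ) (ν : (lat d).edgeSet → Measure Bool) [∀ e, IsProbabilityMeasure (ν e)]
    (c : ℝ) (δ : ℝ≥0∞), 0 < c → δ < 1 →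
    (∀ n : ℕ, Measure.infinitePi ν {J | ∀ τ : Site d → Bool,
      |gE β J (box d n) τ (fun σ => sg (σ 0))| < c} ≤ δ) →
    ∀ᵐ J ∂(Measure.infinitePi ν), ∃ π π' : Measure (Site d → Bool), π ≠ π' ∧
      IsGibbs β J π ∧ IsGibbs β J π'

/-- The theorem. -/
def Main : Prop :=
  ∃ (c : ℝ) (d₀ : ℕ), 0 < c ∧ ∀ (d : ℕ), d₀ ≤ d → ∀ R : Finset (Fin d),
    (R.card : ℝ) * Real.log d ≤ c * d →
    ∀ (ν : (lat d).edgeSet → Measure Bool) [∀ e, IsProbabilityMeasure (ν e)],
    (∀ e, IsR R e → ν e = (PMF.uniformOfFintype Bool).toMeasure) →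
    (∀ e, ¬ IsR R e → ν e {false} ≤ ENNReal.ofReal (1 / 32)) →
    ∀ β : ℝ, 1 ≤ β → ∀ᵐ J ∂(Measure.infinitePi ν), ∃ π π' : Measure (Site d → Bool), π ≠ π' ∧
      IsGibbs β J π ∧ IsGibbs β J π'

end Pool.Agent.K9h96.EA

/-!
# PAPER PROOFS   (`D = card I`, `b = |bd A|`, `e_i = uv i`)

`Base.lean` (helper96): `mem_bd`, `2 D ≤ |bd A|` for nonempty `A`, etc.

CZ. Closed cochains are exact: there is `f : (I → ℤ) → ZMod 2` with `f (x + e_i) - f x = φ x i`
(induction over a finset `S` of directions: given `f` for `S` and `i ∉ S`, `a = φ_i - δ_i f` is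
invariant under `e_j`, `j ∈ S`; add the antiderivative of `a` along `e_i` starting from `x_i = 0`).
`f` is constant on `A` and on `Aᶜ` since `φ = 0` off `bd A` and both are connected. So `φ` is `0` or
`1` on all of `bd A`.

TOUR. Maximal `W ∋ p₀` for which there is a list `l` (chain for `L`, head `p₀`, elements exactly `W`,
length `≤ 2|W| - 1`, sum of the weights of consecutive pairs `≤ 2 ∑_{p ∈ W} h p`). If `W ≠ V`
take `p ∈ W`, `q ∈ V \ W`, `L p q`, replace `l = l₁ ++ p :: l₂` by `l₁ ++ p :: q :: p :: l₂`. Then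
`f k = l[k]` for `k < length`, and the last element afterwards.

LM. Choose a direction `v` with at most `b/D` boundary edges `(x,v)`; `V = {x | (x,v) ∈ bd A}`,
`k = |V| ≤ b/D`. `A` is determined by `v` and `V` (`A` is finite). Links between `p, q ∈ V`:
(L0) `q - p ∈ {±e_j} ∪ {±e_j ± e_j'}` (`j, j' ≠ v`, distinct), weight `0`;
(L1) `q = p + δ e_v + (0 or ±e_j)`, `δ ≥ 1`, such that for a pair `c, c + e_j` of neighbouring
columns containing `p` and `q` the edge `{c, c + e_j}` is a boundary edge at all the heights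
`z(p) < h ≤ z(q)`, and no edge of the columns `c, c+e_j` at the heights `z(p) < h < z(q)` is in `V`
(a segment); weight `δ`. CLAIM: `V` is connected by the links. Let `V₁ ⊂ V` be closed under links;
for a boundary edge `(x,j)`, `j ≠ v`, let `T ≥ 0` be minimal with `x + T e_v ∈ V` or
`x + e_j + T e_v ∈ V`, `τ(x,j)` this point; `φ(x,v) = 1` iff `x ∈ V₁`, `φ(x,j) = 1` iff
`(x,j) ∈ bd A` and `τ(x,j) ∈ V₁`. Closed on the squares `(v,j)`: `Ch = {x, x+e_j} ∩ V`; if
`Ch = ∅` then `φ(x,j) = φ(x+e_v,j)`; otherwise the elements of `Ch` are linked (L0), with common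
indicator `t`, and `φ = t` on all boundary edges of the square (`T = 0` for `(x,j)`; (L1) for
`(x+e_v,j)`), and the number of the boundary edges of a square is even. On the squares `(i,j)`:
the sum `S(x)` over the square satisfies `S(x) = S(x+e_v)` (`Ch` = columns of the square in `V`, all
linked by (L0); edges not touching `Ch` do not change, those touching it have `φ = t` at both
heights; the numbers of boundary edges at both heights are even), and `S = 0` far up. By CZ `V₁ = ∅`
or `V`. TOUR with `w = |vertical displacement|`, `h(p)` = number of the boundary edges `(x,j)`,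
`j ≠ v`, for which `p` is one of the `≤ 4` ends (the first vertical boundary edges above, and the
first ones below, in the two columns); `∑ h ≤ 4b`. So the tour has `≤ 2b/D` steps, each with a
horizontal displacement in a set of size `≤ 4D²+1`, and total vertical displacement `≤ 8b`.
Starting point: first vertical boundary edge above `0` in the column of `0`, height `≤ b` (every
slice at the heights `0..z` contains a boundary edge). Number of codes, with `x = exp(-1/D)`:
`D (b+1) (4D²+1)^(2b/D) x^(-8b) (∑_δ x^|δ|)^(2b/D)`, `∑_δ x^|δ| ≤ 2(D+1)`: at most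
`exp(C log D/D · b)` as `b ≥ 2D`.

F1. In a box `B` with sides `≤ L`: `|A∩B| |B\A| ≤ |B| L |∂_B A|` (`∂_B A` = boundary edges with both
ends in `B`): for `x ∈ A∩B`, `y ∈ B\A` go from `x` to `y` inside `B` changing the coordinates one
after the other (fix an order of `I`); some edge of the path is in `∂_B A`, and a given edge of
direction `i` is used by at most `|B| L_i` pairs. For a block `Q`: `(A ∆ ex) ∩ Q` is the smaller of
`A∩Q`, `Q\A` (ties: `A∩Q`), so `≤ 2·2^l |∂_Q A|`; sum over the blocks.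

F2. For `(u,i) ∈ bd (cg l A)` the box `B = block u ∪ block (u+e_i)` has `|A∩B|, |B\A| ≥ 2^(lD)/2`,
`|B| = 2·2^(lD)`, sides `≤ 2^(l+1)`: `|∂_B A| ≥ 2^(l(D-1))/16`. Every boundary edge is in at most
`2D` boxes `B`.

F3. `r = 2^(l(D-1))`, `l' = l(D-1) ≥ l`. By CZ the boundary edges are connected for the relation
'in a common unit square' (points `x` of the pairs `(x,i)` then differ by at most 1 in every
coordinate). TOUR (`w = h = 0`) from the first boundary edge `(t e_v, v)` above `0` in a fixed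
direction `v` (`0 ≤ t ≤ b`): `f`, `2(b-1)` steps. Points `y_k = x(f(kr))`, `k ≤ n := 2b/r + 1`, blocks
`u_k = blk l' y_k`, `u_{k+1} - u_k ∈ {-1,0,1}^D`; all `x` with `(x,i) ∈ bd A` have
`blk l' x ∈ W = ∪_k {w : |w - u_k|_∞ ≤ 1}`. `bd (cg l A)` determines `cg l A`, has at most
`N = 32 D b/r` elements (F2), and by the inequality in F2 (some boundary edge is in the box) each
`(u,i) ∈ bd (cg l A)` has `u` or `u + e_i` among the `≤ |W| 2^((l'-l)D)` blocks of side `2^l` in `W`;
so `bd (cg l A) ⊂ Cand(W)`, `|Cand| ≤ 2 D |W| 2^((l'-l)D)`, `|W| ≤ 3^D (n+1)`. Number of subsets of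
size `≤ N` of a set of size `M`: `≤ x^(-N) (1+x)^M ≤ x^(-N) exp(x M)` with `x = 2^(-(l'-l)D)`.
Total `≤ (b+1) 3^(D n) 2^((l'-l) D N) exp(2 D 3^D (n+1))`; use `1 ≤ 32 D b/r`.

CHAIN. `b ≥ 2D`. Chain `A, ex 3 A, ex 4 A, …`; `ex l A = ∅` as soon as `2^(l(D-1)) > 32 D b` (F2: a
finite set without boundary is empty). Thresholds `β s b` with `s = 1/4` for `A → ex 3 A` and
`s = 2^(-l)` for `ex l A → ex (l+1) A` (`l ≥ 3`), total `< 1/2`. `|A ∆ ex 3 A| ≤ 16 b` (F1),
`|ex l A ∆ ex (l+1) A| ≤ 6·2^l b`. Probabilities, per pair: `exp(-b/(4096 m))` and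
`exp(-b 2^(-3l)/(96 m))` (if `A ∆ A' = ∅` the event is empty). Numbers of pairs, for fixed `b`:
`exp(C log D/D b)` (LM) and `exp(3 C 4^D l b/2^(l(D-1)))` (F3 for `l` and `l+1`). For `c` small and
`D ≥ D₀` (`m ≤ D`): first term `≤ exp(-2 log D/D b)`, sum over `b ≥ 2D` is `≤ 2 D^(-3)`; second
term (only if `2^(l(D-1)) ≤ 32 D b`, `l ≥ 3`) `≤ exp(-b 2^(-3l)/(192 m))`, and
`2^(3l) ≤ (32 D b)^(3/(D-1)) ≤ √(32 D b)`, `b ≥ 8^(D-1)/(32 D)`, so everything is tiny
(`exp(-x) ≤ 8!/x^8`, at most `b` values of `l`).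

FILL. `C` = component of `0` in `M`; `O` = set of the points connected in `Cᶜ` to a point with some
coordinate `> n` or `< -n` (these are connected to each other as `D ≥ 2`); `A = Oᶜ`. `A ⊃ C` is in
the box, `A` connected (every point of `A \ C` is connected to `C` in `A`: otherwise its component in
`Cᶜ` reaches infinity), `Aᶜ = O` connected. For `x ∈ A`, `y ∈ O` neighbours: `x ∈ C` (else `x ∈ O`),
and `y ∉ M` (else `y ∈ C`).

EN. `σ = glue η (+)`, `σ 0 = -`: FILL for `M = {x | σ (emb x) = -}` gives `A ∈ regs` with `σ = -` on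
the inner and `+` on the outer end of all the edges of `bd A` (σ has contour A). Reversing the
spins of `emb A` and the couplings of `TT A`: `ham (tog (TT A) J) σ' = ham J σ + 2 nrg A J` (edges of
the layer inside `A`: both spins change; edges of `bd A`: `-J ↦ +J`; edges of `TT A`: exactly one
end vertex in `emb A`, spin product and coupling both change; others do not change). So
`∑_{σ with contour A} exp(β ham J σ) ≤ exp(-2β nrg) Zp(tog (TT A) J)`.

CONC. `S = TT A ∆ TT A'`, finite, `|S| = 2|R| |A ∆ A'|` (an edge of `TT` has exactly one end in the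
layer). `X(J) = FF(tog (TT A) J) - FF(tog (TT A') J)`. `tog (TT A') J = tog S (tog (TT A) J)`, so
`X(tog S J) = -X(J)`, and reversing one coupling changes `FF` by at most `2β`, `X` by at most `4β`.
Deterministic lemma: `h : Finset S → ℝ` on the subsets of a finite set `S`, mean `0`, changing by at
most `c` when an element is added: mean of `exp(λ h) ≤ exp(λ² c² |S|/8)` (induction on `S`:
`exp(λa) + exp(λb) = 2 exp(λ(a+b)/2) cosh(λ(a-b)/2)`, `cosh x ≤ exp(x²/2)`). `infinitePi ν` is
invariant under `tog U`, `U ⊂ S` finite (`Measure.infinitePi_map_pi`, see `H47R2/EA/SIGN.lean`), so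
`∫ exp(λX) ≤ exp(2 λ² β² |S|)`, `μ(X ≥ t) ≤ exp(-t²/(8β²|S|))`. `FF` depends on finitely many
couplings, so it is measurable.

NEG. For a fixed `A`, `b = |bd A|`: `nrg < b/2` iff more than `b/4` of the couplings of `bd A` are
`-1`; probability `≤ 2^b (1/32)^(b/4) = 2^(-b/4)` (union over the subsets, `infinitePi_pi`). LM: sum
over `b ≥ 2D` of `exp(C log D/D b) 2^(-b/4)` is `≤ 1/16` for `D ≥ D₀`.

ZO. `Osc Λ f = sup_τ gE_Λ^τ f - inf_τ gE_Λ^τ f` (finitely many values, only the spins of `τ` next to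
`Λ` matter) is decreasing in `Λ` (consistency, `Basic.gE_cons`). `U = {J | ∀ local f (finite set of
sites B and function of the spins in B), Osc (box n) f → 0}`; it is measurable and invariant under
changes of finitely many couplings (`gE_{J'}^τ f = gE_J^τ (f g)/gE_J^τ g` with a positive local `g`),
so `P(U) ∈ {0,1}` by Kolmogorov's zero–one law; `P(U) ≤ δ < 1` by hypothesis (`f = sg σ_0`: off `U`
... if `|gE| ≥ c` for some `τ` then `Osc ≥ 2c` by the spin flip symmetry, for every `n`; use that the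
events decrease in `n`). So `P(U) = 0`, and for `J ∉ U` there are two Gibbs states by compactness
(`Pool/Agent/K9h1/EA/Limit.lean`: `exists_gibbs`, `two_gibbs`).

FINAL (helper96). On the good events of CHAIN (with `X_A = FF(tog (TT A) J) - FF J`) and NEG the right
side of EN is `≤ ∑_A exp(-β b/2) ≤ ∑_{b ≥ 2D} exp((C log D/D - 1/2) b) ≤ 1/8`; so `|m| ≥ 3/4`. ZO.
-/
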