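import Pool.Agent.K9h96.EA.Stm2

/-!
# Project EA, third part (helper96, MP_81d17b_pr): small ferromagnetic bias

The final theorem `Main3`: the total ferromagnetic bias `ε (d - |R|)` of the directions is at least
`C √d (log d)^3`.
-/

set_option autoImplicit false

open MeasureTheory
open scoped ENNReal symmDiff

namespace Pool.Agent.K9h96.EA

open Pool.H47EA

/-- NEG3: the energy of one contour. -/
def S_NEG3 : Prop :=
  ∀ (d : ℕ) (R : Finset (Fin d)) (ε : ℝ), 0 < ε → ε ≤ 1 →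
    ∀ (ν : (lat d).edgeSet → Measure Bool) [∀ e, IsProbabilityMeasure (ν e)],
    (∀ e, ¬ IsR R e → ν e {false} ≤ ENNReal.ofReal ((1 - ε) / 2)) →
    ∀ A : Finset (Dir R → ℤ),
      Measure.infinitePi ν {J | nrg R A J < ε * (bd A).card / 2} ≤
        ENNReal.ofReal (Real.exp (-(ε ^ 2 / 16 * (bd A).card)))

/-- The final theorem. -/
def Main3 : Prop :=
  ∃ C : ℝ, 0 < C ∧ ∀ (d : ℕ), 2 ≤ d → ∀ (R : Finset (Fin d)) (ε : ℝ), 0 < ε → ε ≤ 1 →
    C * (√(d : ℝ) * Real.log d ^ 3) ≤ ε * ((d : ℝ) - R.card) →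
    ∀ (ν : (lat d).edgeSet → Measure Bool) [∀ e, IsProbabilityMeasure (ν e)],
    (∀ e, IsR R e → ν e = (PMF.uniformOfFintype Bool).toMeasure) →
    (∀ e, ¬ IsR R e → ν e {false} ≤ ENNReal.ofReal ((1 - ε) / 2)) →
    ∀ β : ℝ, C * Real.log d ≤ β * (ε * ((d : ℝ) - R.card)) →
    ∀ᵐ J ∂(Measure.infinitePi ν), ∃ π π' : Measure (Site d → Bool), π ≠ π' ∧
      IsGibbs β J π ∧ IsGibbs β J π'

end Pool.Agent.K9h96.EA
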